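import Pool.Agent.AxA.Lin

/-!
# Linear algebra for the creation of periodic points
-/

set_option autoImplicit false
open Filter Topology Set Polynomial
namespace Pool.Agent.AxA
variable {E : Type*} [NormedAddCommGroup E] [NormedSpace ℝ E]

/-- An irreducible real quadratic factor of the restriction of `A` to the bounded vectors. -/
theorem exists_quadratic [FiniteDimensional ℝ E] {A : E ≃L[ℝ] E}
    (hA : ¬ HypLin (A : E →L[ℝ] E)) :
    ∃ e : E, e ≠ 0 ∧ (∃ C, ∀ n : ℕ, ‖A^[n] e‖ ≤ C) ∧ (∃ C, ∀ n : ℕ, ‖A.symm^[n] e‖ ≤ C) ∧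
      ((∃ a : ℝ, A e = a • e) ∨ ∃ b d : ℝ, b ^ 2 < 4 * d ∧ A (A e) + b • A e + d • e = 0) := by
  -- a nonzero vector with bounded orbit
  obtain ⟨x, hx, hb, i₀, hi₀⟩ : ∃ x : ℤ → E, (∀ i, x (i + 1) = A (x i)) ∧
      (∃ C, ∀ i, ‖x i‖ ≤ C) ∧ ∃ i, x i ≠ 0 := by
    unfold HypLin at hA
    push Not at hA
    exact hA
  let V : Submodule ℝ E := Es (A : E →L[ℝ] E) ⊓ Es (A.symm : E →L[ℝ] E)
  have hxX : x i₀ ∈ V := by
    obtain ⟨C, hC⟩ := hb
    refine ⟨⟨C, fun n => ?_⟩, ⟨C, fun n => ?_⟩⟩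
    · have : A^[n] (x i₀) = x (i₀ + n) := by
        induction n with
        | zero => simp
        | succ n ih =>
          rw [Function.iterate_succ_apply', ih, ← hx]
          congr 1
          push_cast; ring
      show ‖A^[n] (x i₀)‖ ≤ C
      rw [this]; exact hC _
    · have : A.symm^[n] (x i₀) = x (i₀ - n) := by
        induction n with
        | zero => simp
        | succ n ih =>
          rw [Function.iterate_succ_apply', ih]
          have := hx (i₀ - (n + 1))
          rw [show i₀ - (n + 1) + 1 = i₀ - n by ring] at this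
          rw [this, ContinuousLinearEquiv.symm_apply_apply]
          congr 1
      show ‖A.symm^[n] (x i₀)‖ ≤ C
      rw [this]; exact hC _
  have hmap : ∀ v ∈ V, ((A : E →L[ℝ] E) : E →ₗ[ℝ] E) v ∈ V := by
    rintro v ⟨⟨C, hC⟩, ⟨D, hD⟩⟩
    refine ⟨⟨C, fun n => ?_⟩, ⟨max D ‖A v‖, fun n => ?_⟩⟩
    · have := hC (n + 1)
      rw [Function.iterate_succ_apply] at this
      exact this
    · rcases n with _ | n
      · exact le_max_right _ _
      · have := hD n
        show ‖A.symm^[n + 1] (A v)‖ ≤ _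
        rw [Function.iterate_succ_apply, ContinuousLinearEquiv.symm_apply_apply]
        exact this.trans (le_max_left _ _)
  let f : Module.End ℝ V := ((A : E →L[ℝ] E) : E →ₗ[ℝ] E).restrict hmap
  have hf : ∀ v : V, ((f v : V) : E) = A v := fun v => rfl
  have hnt : Nontrivial V := ⟨⟨x i₀, hxX⟩, 0, by
    intro h
    exact hi₀ (congrArg Subtype.val h)⟩
  have hint : IsIntegral ℝ f := Algebra.IsIntegral.isIntegral f
  obtain ⟨p, hpm, hpi, q, hq⟩ := Polynomial.exists_monic_irreducible_factor (minpoly ℝ f)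
    (minpoly.not_isUnit ℝ f)
  have hq0 : aeval f q ≠ 0 := by
    intro h
    have h1 := minpoly.dvd ℝ f h
    have hne : q ≠ 0 := by
      rintro rfl
      rw [mul_zero] at hq
      exact minpoly.ne_zero hint hq
    have h2 := Polynomial.degree_le_of_dvd h1 hne
    rw [hq, Polynomial.degree_mul] at h2
    have h3 : 0 < p.degree := Polynomial.degree_pos_of_irreducible hpi
    rw [Polynomial.degree_eq_natDegree hne, Polynomial.degree_eq_natDegree hpi.ne_zero] at h2
    rw [Polynomial.degree_eq_natDegree hpi.ne_zero] at h3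
    norm_cast at h2 h3
    omega
  obtain ⟨v, hv⟩ : ∃ v, aeval f q v ≠ 0 := by
    by_contra hcon
    push Not at hcon
    exact hq0 (LinearMap.ext hcon)
  set e : V := aeval f q v with he
  have hpe : aeval f p e = 0 := by
    have h1 : aeval f (minpoly ℝ f) v = 0 := by rw [minpoly.aeval]; rfl
    rw [hq, map_mul] at h1
    exact h1
  have hdeg : p.degree ≤ 2 := hpi.degree_le_two
  have hnd : p.natDegree ≤ 2 := Polynomial.natDegree_le_of_degree_le hdeg
  have hnd1 : 0 < p.natDegree := Polynomial.natDegree_pos_iff_degree_pos.mpr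
    (Polynomial.degree_pos_of_irreducible hpi)
  refine ⟨e, fun h => hv (Subtype.ext h), e.2.1, e.2.2, ?_⟩
  interval_cases hn : p.natDegree
  · left
    have hp := Polynomial.eq_X_add_C_of_natDegree_le_one (p := p) (by omega)
    have h1 : p.coeff 1 = 1 := by
      have := hpm.coeff_natDegree
      rwa [hn] at this
    rw [h1, map_one, one_mul] at hp
    refine ⟨-p.coeff 0, ?_⟩
    rw [hp] at hpe
    simp only [map_add, aeval_X, aeval_C] at hpe
    have h2 := congrArg (fun w : V => (w : E)) hpe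
    simp only [LinearMap.add_apply, Module.algebraMap_end_apply, Submodule.coe_add,
      Submodule.coe_smul, Submodule.coe_zero, hf] at h2
    rw [neg_smul]
    exact eq_neg_of_add_eq_zero_left h2
  · right
    have hp := Polynomial.eq_quadratic_of_degree_le_two hdeg
    have h1 : p.coeff 2 = 1 := by
      have := hpm.coeff_natDegree
      rwa [hn] at this
    rw [h1, map_one, one_mul] at hp
    set b := p.coeff 1 with hb'
    set d := p.coeff 0 with hd'
    refine ⟨b, d, ?_, ?_⟩
    · by_contra hcon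
      push Not at hcon
      have hroot : IsRoot p ((-b + Real.sqrt (b ^ 2 - 4 * d)) / 2) := by
        rw [hp, IsRoot.def]
        simp only [eval_add, eval_pow, eval_X, eval_mul, eval_C]
        have := Real.sq_sqrt (show 0 ≤ b ^ 2 - 4 * d by linarith)
        nlinarith
      have := Polynomial.degree_eq_one_of_irreducible_of_root hpi hroot
      rw [Polynomial.degree_eq_natDegree hpi.ne_zero, hn] at this
      norm_num at this
    · rw [hp] at hpe
      simp only [map_add, map_mul, map_pow, aeval_X, aeval_C] at hpe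
      have h2 := congrArg (fun w : V => (w : E)) hpe
      simp only [LinearMap.add_apply, Module.algebraMap_end_apply, Submodule.coe_add,
        Submodule.coe_smul, Submodule.coe_zero, hf, Module.End.mul_apply, pow_two] at h2
      exact h2

theorem exists_functional {u v : E} [FiniteDimensional ℝ E] (h : ∀ a : ℝ, v ≠ a • u) :
    ∃ l : E →L[ℝ] ℝ, l u = 0 ∧ l v = 1 := by
  have hv : v ∉ Submodule.span ℝ {u} := by
    intro hv
    obtain ⟨a, ha⟩ := Submodule.mem_span_singleton.mp hv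
    exact h a ha.symm
  obtain ⟨f, hfv, hf⟩ := Submodule.exists_le_ker_of_notMem hv
  refine ⟨(f v)⁻¹ • LinearMap.toContinuousLinearMap f, ?_, ?_⟩
  · have : f u = 0 := hf (Submodule.mem_span_singleton_self u)
    simp [this]
  · simp [hfv]

/-- A non-hyperbolic map has a plane (or line) of rotation. -/
theorem exists_rotation [FiniteDimensional ℝ E] {A : E ≃L[ℝ] E}
    (hA : ¬ HypLin (A : E →L[ℝ] E)) :
    ∃ e : E, e ≠ 0 ∧ (A (A e) = e ∨ ∃ c : ℝ, -1 < c ∧ c < 1 ∧ A (A e) = (2 * c) • A e - e ∧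
      ∃ l : E →L[ℝ] ℝ, l e = 0 ∧ l (A e) = 1) := by
  obtain ⟨e, he, ⟨C, hC⟩, ⟨D, hD⟩, h⟩ := exists_quadratic hA
  have hpos : 0 < ‖e‖ := norm_pos_iff.mpr he
  -- a bounded geometric sequence
  have hgeom : ∀ {a K : ℝ}, 0 ≤ a → (∀ n : ℕ, a ^ n ≤ K) → a ≤ 1 := by
    intro a K ha hK
    by_contra hcon
    push Not at hcon
    obtain ⟨n, hn⟩ := pow_unbounded_of_one_lt K hcon
    exact absurd (hK n) (not_le.mpr hn)
  rcases h with ⟨a, ha⟩ | ⟨b, d, hbd, hq⟩
  · refine ⟨e, he, Or.inl ?_⟩
    have h1 : ∀ n : ℕ, A^[n] e = a ^ n • e := by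
      intro n
      induction n with
      | zero => simp
      | succ n ih =>
        rw [Function.iterate_succ_apply', ih, map_smul, ha, smul_smul, pow_succ]
    have ha0 : a ≠ 0 := by
      rintro rfl
      rw [zero_smul] at ha
      exact he (A.map_eq_zero_iff.mp ha)
    have h2 : ∀ n : ℕ, A.symm^[n] e = (a⁻¹) ^ n • e := by
      intro n
      induction n with
      | zero => simp
      | succ n ih =>
        rw [Function.iterate_succ_apply', ih, map_smul]
        have : A.symm e = a⁻¹ • e := by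
          rw [ContinuousLinearEquiv.symm_apply_eq, map_smul, ha, smul_smul, inv_mul_cancel₀ ha0,
            one_smul]
        rw [this, smul_smul, pow_succ]
    have h3 : |a| ≤ 1 := by
      apply hgeom (K := C / ‖e‖) (abs_nonneg _)
      intro n
      have := hC n
      rw [h1, norm_smul, norm_pow, Real.norm_eq_abs] at this
      rwa [le_div_iff₀ hpos]
    have h4 : |a|⁻¹ ≤ 1 := by
      apply hgeom (K := D / ‖e‖) (by positivity)
      intro n
      have := hD n
      rw [h2, norm_smul, norm_pow, norm_inv, Real.norm_eq_abs] at this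
      rwa [le_div_iff₀ hpos]
    have h5 : 1 ≤ |a| := by
      have hap : 0 < |a| := abs_pos.mpr ha0
      rwa [inv_le_one₀ hap] at h4
    have h6 : a * a = 1 := by
      have : |a| = 1 := le_antisymm h3 h5
      rw [← abs_mul_abs_self, this, one_mul]
    rw [ha, map_smul, ha, smul_smul, h6, one_smul]
  · have hne : ∀ a : ℝ, A e ≠ a • e := by
      intro a ha
      rw [ha, map_smul, ha, smul_smul, smul_smul, ← add_smul, ← add_smul] at hq
      have : a * a + b * a + d = 0 := by
        rcases smul_eq_zero.mp hq with h | h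
        · exact h
        · exact absurd h he
      nlinarith [sq_nonneg (2 * a + b)]
    have hne' : ∀ a : ℝ, e ≠ a • A e := by
      intro a ha
      rcases eq_or_ne a 0 with h0 | h0
      · rw [h0, zero_smul] at ha; exact he ha
      · apply hne a⁻¹
        conv_rhs => rw [ha]
        rw [smul_smul, inv_mul_cancel₀ h0, one_smul]
    obtain ⟨l', hl'1, hl'2⟩ := exists_functional hne
    obtain ⟨l, hl1, hl2⟩ := exists_functional hne'
    -- the Wronskian
    let W : E → ℝ := fun v => l v * l' (A v) - l (A v) * l' v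
    have hWA : ∀ v, A (A v) + b • A v + d • v = 0 → W (A v) = d * W v := by
      intro v hv
      have h1 : A (A v) = -(b • A v) - d • v := by
        rw [← sub_eq_zero, ← hv]; abel
      show l (A v) * l' (A (A v)) - l (A (A v)) * l' (A v) = d * (l v * l' (A v) - l (A v) * l' v)
      rw [h1]
      simp only [map_sub, map_neg, map_smul, smul_eq_mul]
      ring
    have hWb : ∀ v, W v ≤ 2 * (‖l‖ * ‖l'‖ * ‖(A : E →L[ℝ] E)‖) * ‖v‖ ^ 2 := by
      intro v
      have h1 : |l v| ≤ ‖l‖ * ‖v‖ := l.le_opNorm v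
      have h2 : |l' v| ≤ ‖l'‖ * ‖v‖ := l'.le_opNorm v
      have h0 : ‖A v‖ ≤ ‖(A : E →L[ℝ] E)‖ * ‖v‖ := (A : E →L[ℝ] E).le_opNorm v
      have h3 : |l (A v)| ≤ ‖l‖ * (‖(A : E →L[ℝ] E)‖ * ‖v‖) :=
        (l.le_opNorm _).trans (mul_le_mul_of_nonneg_left h0 (norm_nonneg _))
      have h4 : |l' (A v)| ≤ ‖l'‖ * (‖(A : E →L[ℝ] E)‖ * ‖v‖) :=
        (l'.le_opNorm _).trans (mul_le_mul_of_nonneg_left h0 (norm_nonneg _))
      calc W v ≤ |l v * l' (A v) - l (A v) * l' v| := le_abs_self _
        _ ≤ |l v * l' (A v)| + |l (A v) * l' v| := abs_sub _ _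
        _ = |l v| * |l' (A v)| + |l (A v)| * |l' v| := by rw [abs_mul, abs_mul]
        _ ≤ (‖l‖ * ‖v‖) * (‖l'‖ * (‖(A : E →L[ℝ] E)‖ * ‖v‖)) +
            (‖l‖ * (‖(A : E →L[ℝ] E)‖ * ‖v‖)) * (‖l'‖ * ‖v‖) := by gcongr
        _ = _ := by ring
    have hWe : W e = 1 := by
      show l e * l' (A e) - l (A e) * l' e = 1
      rw [hl1, hl2, hl'2]; ring
    have hd0 : 0 < d := by nlinarith [sq_nonneg b]
    have hAq : ∀ n : ℕ, A (A (A^[n] e)) + b • A (A^[n] e) + d • A^[n] e = 0 := by
      intro n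
      induction n with
      | zero => exact hq
      | succ n ih =>
        have h1 := congrArg A ih
        rw [map_zero, map_add, map_add, map_smul, map_smul] at h1
        rw [Function.iterate_succ_apply']
        exact h1
    have hAq' : ∀ n : ℕ, A (A (A.symm^[n] e)) + b • A (A.symm^[n] e) + d • A.symm^[n] e = 0 := by
      intro n
      induction n with
      | zero => exact hq
      | succ n ih =>
        apply A.injective
        rw [map_zero, map_add, map_add, map_smul, map_smul, Function.iterate_succ_apply',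
          ContinuousLinearEquiv.apply_symm_apply]
        exact ih
    have hf1 : ∀ n : ℕ, W (A^[n] e) = d ^ n := by
      intro n
      induction n with
      | zero => simpa using hWe
      | succ n ih =>
        rw [Function.iterate_succ_apply', hWA _ (hAq n), ih, pow_succ]; ring
    have hf2 : ∀ n : ℕ, W (A.symm^[n] e) = (d⁻¹) ^ n := by
      intro n
      induction n with
      | zero => simpa using hWe
      | succ n ih =>
        have h1 := hWA _ (hAq' (n + 1))
        rw [Function.iterate_succ_apply', ContinuousLinearEquiv.apply_symm_apply, ih] at h1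
        rw [Function.iterate_succ_apply', pow_succ, h1]
        field_simp
    have hK : ∀ {v : E} {C : ℝ}, ‖v‖ ≤ C →
        W v ≤ 2 * (‖l‖ * ‖l'‖ * ‖(A : E →L[ℝ] E)‖) * C ^ 2 := by
      intro v C hv
      exact (hWb v).trans (by gcongr)
    have hd1 : d ≤ 1 := hgeom hd0.le (fun n => by rw [← hf1 n]; exact hK (hC n))
    have hd2 : d⁻¹ ≤ 1 := hgeom (by positivity) (fun n => by rw [← hf2 n]; exact hK (hD n))
    have hd : d = 1 := le_antisymm hd1 (by rwa [inv_le_one₀ hd0] at hd2)
    subst hd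
    refine ⟨e, he, Or.inr ⟨-b / 2, ?_, ?_, ?_, l', hl'1, hl'2⟩⟩
    · nlinarith
    · nlinarith
    · rw [← sub_eq_zero, ← hq]
      module

/-- After a small perturbation there is a periodic vector. -/
theorem exists_periodic_vector [FiniteDimensional ℝ E] {A : E ≃L[ℝ] E}
    (hA : ¬ HypLin (A : E →L[ℝ] E)) {ε : ℝ} (hε : 0 < ε) :
    ∃ B : E →L[ℝ] E, ‖B‖ < ε ∧ ∃ e : E, e ≠ 0 ∧ ∃ q : ℕ, 0 < q ∧
      (((A : E →L[ℝ] E) ∘L (1 + B)) ^ q) e = e := by
  obtain ⟨e, he, h | ⟨c, hc1, hc2, hAA, l, hl1, hl2⟩⟩ := exists_rotation hA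
  · refine ⟨0, by simpa using hε, e, he, 2, by norm_num, ?_⟩
    rw [add_zero, pow_two]
    exact h
  · -- choose a rational angle
    have hθ : ∃ ρ : ℚ, |Real.cos (ρ * (2 * Real.pi)) - c| < ε / (2 * (‖l‖ * ‖e‖) + 1) ∧
        Real.sin (ρ * (2 * Real.pi)) ≠ 0 := by
      have hcos : Real.cos (Real.arccos c) = c := Real.cos_arccos hc1.le hc2.le
      have hsin : 0 < Real.sin (Real.arccos c) := by
        rw [Real.sin_arccos]
        apply Real.sqrt_pos.mpr
        nlinarith
      have hpi := Real.pi_pos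
      have hopen : IsOpen {x : ℝ | |Real.cos (x * (2 * Real.pi)) - c| <
          ε / (2 * (‖l‖ * ‖e‖) + 1) ∧ Real.sin (x * (2 * Real.pi)) ≠ 0} := by
        have h1 : Continuous fun x : ℝ => |Real.cos (x * (2 * Real.pi)) - c| := by fun_prop
        have h2 : Continuous fun x : ℝ => Real.sin (x * (2 * Real.pi)) := by fun_prop
        exact (isOpen_lt h1 continuous_const).inter (isOpen_ne_fun h2 continuous_const)
      have hne : {x : ℝ | |Real.cos (x * (2 * Real.pi)) - c| <
          ε / (2 * (‖l‖ * ‖e‖) + 1) ∧ Real.sin (x * (2 * Real.pi)) ≠ 0}.Nonempty := by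
        refine ⟨Real.arccos c / (2 * Real.pi), ?_⟩
        show |Real.cos (Real.arccos c / (2 * Real.pi) * (2 * Real.pi)) - c| < _ ∧
          Real.sin (Real.arccos c / (2 * Real.pi) * (2 * Real.pi)) ≠ 0
        rw [div_mul_cancel₀ _ (by positivity), hcos, sub_self, abs_zero]
        exact ⟨by positivity, hsin.ne'⟩
      obtain ⟨ρ, hρ⟩ := Rat.denseRange_cast (𝕜 := ℝ) |>.exists_mem_open hopen hne
      exact ⟨ρ, hρ⟩
    obtain ⟨ρ, hρ1, hρ2⟩ := hθ
    set θ : ℝ := ρ * (2 * Real.pi) with hθdef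
    set B : E →L[ℝ] E := (2 * (Real.cos θ - c)) • ContinuousLinearMap.smulRight l e with hB
    have hBv : ∀ v, B v = (2 * (Real.cos θ - c)) • (l v • e) := fun v => rfl
    set T : E →L[ℝ] E := (A : E →L[ℝ] E) ∘L (1 + B) with hT
    have hTv : ∀ v, T v = A (v + B v) := fun v => rfl
    have hTe : T e = A e := by rw [hTv, hBv, hl1]; simp
    have hTAe : T (A e) = (2 * Real.cos θ) • A e - e := by
      rw [hTv, hBv, hl2, one_smul, map_add, map_smul, hAA]
      module
    have hform : ∀ n : ℕ, Real.sin θ • (T ^ n) e =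
        Real.sin (n * θ) • A e - Real.sin ((n - 1) * θ) • e := by
      intro n
      induction n with
      | zero => simp
      | succ n ih =>
        have h1 : Real.sin θ • (T ^ (n + 1)) e = T (Real.sin θ • (T ^ n) e) := by
          rw [map_smul, pow_succ']
          rfl
        rw [h1, ih, map_sub, map_smul, map_smul, hTe, hTAe]
        have h2 : Real.sin (((n + 1 : ℕ) : ℝ) * θ) =
            2 * Real.cos θ * Real.sin (n * θ) - Real.sin ((n - 1) * θ) := by
          have e1 : ((n + 1 : ℕ) : ℝ) * θ = n * θ + θ := by push_cast; ring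
          have e2 : ((n : ℝ) - 1) * θ = n * θ - θ := by ring
          rw [e1, e2, Real.sin_add, Real.sin_sub]; ring
        have h3 : (((n + 1 : ℕ) : ℝ) - 1) * θ = n * θ := by push_cast; ring
        rw [h2, h3]
        module
    refine ⟨B, ?_, e, he, ρ.den, ρ.den_pos, ?_⟩
    · rw [hB, norm_smul, ContinuousLinearMap.norm_smulRight_apply, Real.norm_eq_abs, abs_mul,
        abs_of_pos (by norm_num : (0:ℝ) < 2)]
      rw [lt_div_iff₀ (by positivity)] at hρ1
      have h1 : 0 ≤ ‖l‖ * ‖e‖ := by positivity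
      have h2 : 0 ≤ |Real.cos θ - c| := abs_nonneg _
      by_cases h3 : |Real.cos θ - c| = 0
      · rw [h3]; simpa using hε
      · have h4 : 0 < |Real.cos θ - c| := lt_of_le_of_ne h2 (Ne.symm h3)
        nlinarith
    · have h1 := hform ρ.den
      have h2 : (ρ.den : ℝ) * θ = ρ.num * (2 * Real.pi) := by
        have h3 : (ρ : ℝ) = ρ.num / ρ.den := by
          exact_mod_cast (Rat.cast_def (K := ℝ) ρ)
        have h4 : (ρ.den : ℝ) ≠ 0 := by exact_mod_cast ρ.den_pos.ne'
        rw [hθdef, h3]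
        field_simp
      have h3 : Real.sin ((ρ.den : ℝ) * θ) = 0 := by
        rw [h2, show (ρ.num : ℝ) * (2 * Real.pi) = ((2 * ρ.num : ℤ) : ℝ) * Real.pi by
          push_cast; ring]
        exact Real.sin_int_mul_pi _
      have h4 : Real.sin (((ρ.den : ℝ) - 1) * θ) = -Real.sin θ := by
        rw [show ((ρ.den : ℝ) - 1) * θ = ρ.num * (2 * Real.pi) - θ by rw [← h2]; ring,
          Real.sin_sub]
        rw [show Real.sin ((ρ.num : ℝ) * (2 * Real.pi)) = 0 by rw [← h2]; exact h3,
          Real.cos_int_mul_two_pi]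
        ring
      rw [h3, h4, zero_smul, zero_sub, neg_smul, neg_neg] at h1
      exact smul_right_injective E hρ2 h1

/-- The perturbation used for creating periodic points. -/
theorem exists_creation [FiniteDimensional ℝ E] {A : E ≃L[ℝ] E}
    (hA : ¬ HypLin (A : E →L[ℝ] E)) {ε : ℝ} (hε : 0 < ε) :
    ∃ B : E →L[ℝ] E, ‖B‖ < ε ∧ ∃ e : E, e ≠ 0 ∧ ∃ q : ℕ, 0 < q ∧
      ∃ T : E →L[ℝ] E, T = (A : E →L[ℝ] E) ∘L (1 + B) ∧ (T ^ q) e = e ∧
      ∀ y : E, ∃ (β : E →L[ℝ] E) (η : E),
        ∑ l ∈ Finset.range q, (T ^ (q - l)) (β ((T ^ l) e)) + ((T ^ q) η - η) = y := by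
  set ε' : ℝ := min 1 (ε / 4) with hε'
  have hε'0 : 0 < ε' := by positivity
  obtain ⟨B₁, hB₁, e, he, q, hq, hper⟩ := exists_periodic_vector hA hε'0
  set A₁ : E →L[ℝ] E := (A : E →L[ℝ] E) ∘L (1 + B₁) with hA₁
  let W : Submodule ℝ E := Submodule.span ℝ (Set.range fun j : ℕ => (A₁ ^ j) e)
  have hWA : ∀ w ∈ W, A₁ w ∈ W := by
    intro w hw
    induction hw using Submodule.span_induction with
    | mem x hx =>
      obtain ⟨j, rfl⟩ := hx
      exact Submodule.subset_span ⟨j + 1, by
        show (A₁ ^ (j + 1)) e = _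
        rw [pow_succ']; rfl⟩
    | zero => rw [map_zero]; exact W.zero_mem
    | add x y _ _ hx hy => rw [map_add]; exact W.add_mem hx hy
    | smul a x _ hx => rw [map_smul]; exact W.smul_mem a hx
  obtain ⟨g, hg⟩ := W.subtype.exists_leftInverse_of_injective (by
    rw [Submodule.ker_subtype])
  set P : E →L[ℝ] E := LinearMap.toContinuousLinearMap (W.subtype ∘ₗ g) with hP
  have hPmem : ∀ v, P v ∈ W := fun v => (g v).2
  have hPid : ∀ w ∈ W, P w = w := by
    intro w hw
    have := LinearMap.congr_fun hg ⟨w, hw⟩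
    exact congrArg Subtype.val this
  have hQ : W ≤ W.comap ((A₁ ^ q : E →L[ℝ] E) : E →ₗ[ℝ] E) := by
    intro w hw
    show (A₁ ^ q) w ∈ W
    have : ∀ n : ℕ, (A₁ ^ n) w ∈ W := by
      intro n
      induction n with
      | zero => exact hw
      | succ n ih =>
        rw [pow_succ']
        exact hWA _ ih
    exact this q
  let Ā : Module.End ℝ (E ⧸ W) := W.mapQ W ((A₁ ^ q : E →L[ℝ] E) : E →ₗ[ℝ] E) hQ
  -- choice of the scaling
  set δ : ℝ := ε' / (‖(1 : E →L[ℝ] E) - P‖ + 1) with hδ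
  have hδ0 : 0 < δ := by positivity
  have hinf : (Set.Ioo (1:ℝ) (1 + δ)).Infinite := Set.Ioo_infinite (by linarith)
  have hfin : (Set.Ioo (1:ℝ) (1 + δ) ∩ (fun t : ℝ => (t ^ q)⁻¹) ⁻¹' (spectrum ℝ Ā)).Finite := by
    apply Set.Finite.of_finite_image (f := fun t : ℝ => (t ^ q)⁻¹)
    · refine (Module.End.finite_spectrum Ā).subset ?_
      rintro _ ⟨t, ⟨-, ht⟩, rfl⟩
      exact ht
    · rintro t ⟨⟨ht0, -⟩, -⟩ t' ⟨⟨ht0', -⟩, -⟩ h
      have h1 : t ^ q = t' ^ q := inv_injective h
      exact (pow_left_inj₀ (by linarith) (by linarith) hq.ne').mp h1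
  obtain ⟨t, ⟨ht0, htδ⟩, ht⟩ := (hinf.sdiff hfin).nonempty
  set B₂ : E →L[ℝ] E := (t - 1) • ((1 : E →L[ℝ] E) - P) with hB₂
  have hB₂n : ‖B₂‖ < ε' := by
    rw [hB₂, norm_smul, Real.norm_eq_abs, abs_of_pos (by linarith)]
    have h1 : t - 1 < δ := by linarith
    rw [hδ, lt_div_iff₀ (by positivity)] at h1
    have := norm_nonneg ((1 : E →L[ℝ] E) - P)
    nlinarith
  set T : E →L[ℝ] E := A₁ ∘L (1 + B₂) with hT
  have hTv : ∀ v, T v = t • A₁ v - (t - 1) • A₁ (P v) := by
    intro v
    have : T v = A₁ (v + (t - 1) • (v - P v)) := rfl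
    rw [this, map_add, map_smul, map_sub]
    module
  have hTW : ∀ w ∈ W, T w = A₁ w := by
    intro w hw
    rw [hTv, hPid w hw]
    module
  have hTWmem : ∀ w ∈ W, T w ∈ W := fun w hw => by rw [hTW w hw]; exact hWA w hw
  have hTpow : ∀ n : ℕ, (T ^ n) e = (A₁ ^ n) e := by
    intro n
    induction n with
    | zero => rfl
    | succ n ih =>
      rw [pow_succ', pow_succ']
      show T ((T ^ n) e) = A₁ ((A₁ ^ n) e)
      rw [ih]
      exact hTW _ (Submodule.subset_span ⟨n, rfl⟩)
  have hTe : (T ^ q) e = e := by rw [hTpow, hper]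
  have hmod : ∀ (n : ℕ) (v : E), (T ^ n) v - t ^ n • (A₁ ^ n) v ∈ W := by
    intro n v
    induction n with
    | zero => simp
    | succ n ih =>
      have e1 : (T ^ (n + 1)) v - t ^ (n + 1) • (A₁ ^ (n + 1)) v =
          T ((T ^ n) v - t ^ n • (A₁ ^ n) v) - t ^ n • ((t - 1) • A₁ (P ((A₁ ^ n) v))) := by
        rw [pow_succ', pow_succ' A₁]
        show T ((T ^ n) v) - t ^ (n + 1) • A₁ ((A₁ ^ n) v) = _
        rw [map_sub, map_smul, hTv ((A₁ ^ n) v)]
        module
      rw [e1]
      exact W.sub_mem (hTWmem _ ih) (W.smul_mem _ (W.smul_mem _ (hWA _ (hPmem _))))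
  refine ⟨B₁ + B₂ + B₁ * B₂, ?_, e, he, q, hq, T, ?_, hTe, ?_⟩
  · have h1 : ‖B₁ * B₂‖ ≤ ‖B₁‖ * ‖B₂‖ := norm_mul_le _ _
    have h2 : ε' ≤ 1 := min_le_left _ _
    have h3 : ε' ≤ ε / 4 := min_le_right _ _
    have h4 := norm_add₃_le (a := B₁) (b := B₂) (c := B₁ * B₂)
    have h5 := norm_nonneg B₁
    have h6 := norm_nonneg B₂
    nlinarith
  · rw [hT, hA₁]
    ext v
    show A ((v + B₂ v) + B₁ (v + B₂ v)) = A (v + (B₁ v + B₂ v + B₁ (B₂ v)))
    rw [map_add B₁]
    congr 1
    abel
  · -- the range of the linear map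
    let L : (E →L[ℝ] E) × E →ₗ[ℝ] E :=
      { toFun := fun x => ∑ l ∈ Finset.range q, (T ^ (q - l)) (x.1 ((T ^ l) e)) +
          ((T ^ q) x.2 - x.2)
        map_add' := by
          intro x y
          simp only [Prod.fst_add, Prod.snd_add, map_add, add_apply]
          rw [Finset.sum_add_distrib]
          abel
        map_smul' := by
          intro a x
          simp only [Prod.smul_fst, Prod.smul_snd, map_smul, smul_apply, RingHom.id_apply]
          rw [← Finset.smul_sum, ← smul_sub, ← smul_add] }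
    have hW : W ≤ LinearMap.range L := by
      rw [Submodule.span_le]
      rintro _ ⟨j, rfl⟩
      refine ⟨((q : ℝ)⁻¹ • ((T ^ j) ∘L P), 0), ?_⟩
      show ∑ l ∈ Finset.range q, (T ^ (q - l)) (((q : ℝ)⁻¹ • ((T ^ j) ∘L P)) ((T ^ l) e)) +
          ((T ^ q) 0 - 0) = (A₁ ^ j) e
      rw [map_zero, sub_zero, add_zero]
      have h1 : ∀ l ∈ Finset.range q, (T ^ (q - l)) (((q : ℝ)⁻¹ • ((T ^ j) ∘L P)) ((T ^ l) e)) =
          (q : ℝ)⁻¹ • (A₁ ^ j) e := by
        intro l hl
        have hl' := Finset.mem_range.mp hl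
        show (T ^ (q - l)) ((q : ℝ)⁻¹ • (T ^ j) (P ((T ^ l) e))) = _
        rw [map_smul, hPid _ (by rw [hTpow]; exact Submodule.subset_span ⟨l, rfl⟩)]
        congr 1
        have h2 : (T ^ (q - l)) ((T ^ j) ((T ^ l) e)) = (T ^ (q - l) * T ^ j * T ^ l) e := rfl
        rw [h2, ← pow_add, ← pow_add, show q - l + j + l = j + q by omega, pow_add]
        show (T ^ j) ((T ^ q) e) = _
        rw [hTe, hTpow]
      rw [Finset.sum_congr rfl h1, Finset.sum_const, Finset.card_range, ← Nat.cast_smul_eq_nsmul ℝ,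
        smul_smul, mul_inv_cancel₀ (by exact_mod_cast hq.ne'), one_smul]
    intro y
    -- solve modulo `W`
    have hs : (t ^ q)⁻¹ ∉ spectrum ℝ Ā := fun h => ht ⟨⟨ht0, htδ⟩, h⟩
    rw [spectrum.notMem_iff] at hs
    have hsurj := ((Module.End.isUnit_iff _).mp hs).2
    have ht0' : t ^ q ≠ 0 := by positivity
    obtain ⟨η', hη'⟩ := hsurj (Submodule.Quotient.mk (-((t ^ q)⁻¹ • y)))
    obtain ⟨η, rfl⟩ := Submodule.Quotient.mk_surjective W η'
    have h1 : (t ^ q)⁻¹ • η - (A₁ ^ q) η + (t ^ q)⁻¹ • y ∈ W := by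
      rw [← Submodule.Quotient.mk_eq_zero]
      have h2 : (algebraMap ℝ (Module.End ℝ (E ⧸ W)) (t ^ q)⁻¹ - Ā) (Submodule.Quotient.mk η) =
          Submodule.Quotient.mk ((t ^ q)⁻¹ • η - (A₁ ^ q) η) := rfl
      rw [h2] at hη'
      rw [Submodule.Quotient.mk_add, hη', Submodule.Quotient.mk_neg, neg_add_cancel]
    have h2 : y - ((T ^ q) η - η) ∈ W := by
      have h3 := W.smul_mem (t ^ q) h1
      have h4 := W.sub_mem h3 (hmod q η)
      have e1 : t ^ q • ((t ^ q)⁻¹ • η - (A₁ ^ q) η + (t ^ q)⁻¹ • y) -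
          ((T ^ q) η - t ^ q • (A₁ ^ q) η) = y - ((T ^ q) η - η) := by
        rw [smul_add, smul_sub, smul_smul, smul_smul, mul_inv_cancel₀ ht0', one_smul, one_smul]
        abel
      rwa [e1] at h4
    have h3 : y ∈ LinearMap.range L := by
      have h4 : y = L (0, η) + (y - ((T ^ q) η - η)) := by
        have : L (0, η) = (T ^ q) η - η := by
          show ∑ l ∈ Finset.range q, (T ^ (q - l)) ((0 : E →L[ℝ] E) ((T ^ l) e)) +
            ((T ^ q) η - η) = _
          simp
        rw [this]; abel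
      rw [h4]
      exact Submodule.add_mem _ ⟨_, rfl⟩ (hW h2)
    obtain ⟨⟨β, η⟩, h⟩ := h3
    exact ⟨β, η, h⟩

end Pool.Agent.AxA
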