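import Pool.Agent.AxA.Homo2

/-!
# Orbits with prescribed gaps near a transverse homoclinic orbit
-/

set_option autoImplicit false

open Filter Topology Set TopologicalSpace
open scoped Manifold ContDiff

namespace Pool.Agent.AxA

section sums

/-- partial sums of the gaps -/
def psum (N : ℕ) (s : ℕ → ℕ) : ℕ → ℕ
  | 0 => 0
  | i + 1 => psum N s i + (N + s i)

/-- periodic transition times with prescribed gaps -/
def pT (N : ℕ) (s : ℕ → ℕ) (K : ℕ) : Set ℤ :=
  {l | ∃ j < K, l % (psum N s K : ℤ) = psum N s j}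

variable {N : ℕ} {s : ℕ → ℕ}

theorem psum_strictMono (hN : 0 < N) : StrictMono (psum N s) :=
  strictMono_nat_of_lt_succ fun j => by show _ < psum N s j + (N + s j); omega

theorem psum_mem {K : ℕ} (hN : 0 < N) (hK : 0 < K) {j : ℕ} (hj : j ≤ K) :
    (psum N s j : ℤ) ∈ pT N s K := by
  rcases hj.lt_or_eq with h | h
  · refine ⟨j, h, ?_⟩
    apply Int.emod_eq_of_lt (by positivity)
    exact_mod_cast psum_strictMono hN h
  · subst h
    refine ⟨0, hK, ?_⟩
    rw [Int.emod_self]; rfl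

theorem not_mem_pT {K : ℕ} (hN : 0 < N) {j : ℕ} (hj : j < K) {x : ℤ} (h1 : (psum N s j : ℤ) < x)
    (h2 : x < psum N s (j + 1)) : x ∉ pT N s K := by
  rintro ⟨i, hi, hxi⟩
  have hm := psum_strictMono (s := s) hN
  have h3 : (psum N s (j + 1) : ℤ) ≤ psum N s K := by exact_mod_cast hm.monotone hj
  rw [Int.emod_eq_of_lt (by omega) (by omega)] at hxi
  have h4 : psum N s j < psum N s i := by omega
  have h5 : psum N s i < psum N s (j + 1) := by omega
  rw [hm.lt_iff_lt] at h4 h5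
  omega

theorem adm_pT {K : ℕ} (hN : 0 < N) (hK : 0 < K) : Adm (pT N s K) N := by
  have hm := psum_strictMono (s := s) hN
  have hL : (0 : ℤ) < psum N s K := by
    have := hm hK
    omega
  have hzero : ∀ q : ℤ, q * psum N s K ∈ pT N s K := by
    intro q
    refine ⟨0, hK, ?_⟩
    rw [Int.mul_emod_left]; rfl
  refine ⟨?_, ?_, ?_⟩
  · rintro l ⟨i, hi, hli⟩ j hj hjN ⟨i', hi', hli'⟩
    have h1 : psum N s (i + 1) ≤ psum N s K := hm.monotone hi
    have h2 : psum N s (i + 1) = psum N s i + (N + s i) := rfl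
    have h3 : (l + j) % (psum N s K : ℤ) = psum N s i + j := by
      rw [Int.add_emod, hli]
      have h4 : (j : ℤ) % (psum N s K : ℤ) = j := Int.emod_eq_of_lt (by omega) (by omega)
      rw [h4]
      exact Int.emod_eq_of_lt (by omega) (by omega)
    rw [h3] at hli'
    have h4 : psum N s i < psum N s i' := by omega
    have h5 : psum N s i' < psum N s (i + 1) := by omega
    rw [hm.lt_iff_lt] at h4 h5
    omega
  · intro l
    refine ⟨(psum N s K - l % psum N s K).toNat, ?_⟩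
    have h1 := Int.emod_lt_of_pos l hL
    rw [Int.toNat_of_nonneg (by omega)]
    have h2 : l + (psum N s K - l % psum N s K) = (l / psum N s K + 1) * psum N s K := by
      have := Int.emod_add_mul_ediv l (psum N s K)
      linarith
    rw [h2]
    exact hzero _
  · intro l
    refine ⟨((l - 1) % psum N s K).toNat, ?_⟩
    have h1 := Int.emod_nonneg (l - 1) hL.ne'
    rw [Int.toNat_of_nonneg h1]
    have h2 : l - 1 - (l - 1) % psum N s K = ((l - 1) / psum N s K) * psum N s K := by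
      have := Int.emod_add_mul_ediv (l - 1) (psum N s K)
      linarith
    rw [h2]
    exact hzero _

theorem per_pT {K : ℕ} (l : ℤ) : l + (psum N s K : ℤ) ∈ pT N s K ↔ l ∈ pT N s K := by
  show (∃ j < K, (l + psum N s K) % (psum N s K : ℤ) = psum N s j) ↔ _
  rw [Int.add_emod_right]
  rfl

theorem dp_pT {K : ℕ} (hN : 0 < N) (hK : 0 < K) {j d : ℕ} (hj : j < K) (hd : d < N + s j) :
    dp (pT N s K) (psum N s j + 1 + d) = d ∧ dm (pT N s K) (psum N s j + 1 + d) = N + s j - 1 - d := by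
  have h2 : psum N s (j + 1) = psum N s j + (N + s j) := rfl
  constructor
  · apply dp_eq
    · have := psum_mem (s := s) hN hK hj.le
      convert this using 1
      ring
    · intro e he
      apply not_mem_pT hN hj <;> omega
  · apply dm_eq
    · have := psum_mem (s := s) hN hK (show j + 1 ≤ K from hj)
      convert this using 1
      omega
    · intro e he
      apply not_mem_pT hN hj <;> omega

end sums

variable {E : Type*} [NormedAddCommGroup E] [NormedSpace ℝ E]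
  {M : Type*} [MetricSpace M] [ChartedSpace E M]

/-- The horseshoe of a transverse homoclinic orbit. -/
theorem homo_horseshoe [FiniteDimensional ℝ E] {r : ℕ∞} (hr : 1 ≤ r)
    {g : M ≃ₘ^r⟮𝓘(ℝ, E), 𝓘(ℝ, E)⟯ M} {φ : OpenPartialHomeomorph M E} {p : M}
    {n n₁ : ℕ} {y : M} (H : Homo g φ p n n₁ y) (ht : Trans g φ n n₁ y) {ε : ℝ} (hε : 0 < ε) :
    ∃ N₀ : ℕ, ∀ T : Set ℤ, Adm T N₀ → ∀ L : ℕ, 0 < L → (∀ l, l + (L : ℤ) ∈ T ↔ l ∈ T) →
      ∃ X : ℤ → M, (∀ l, dist (X l) (if dp T l ≤ dm T l then g^[n₁ + n * dp T l] y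
          else g.symm^[n * dm T l] y) < ε) ∧
        (∀ l ∉ T, g^[n] (X l) = X (l + 1)) ∧ ∀ l ∈ T, g^[n₁] (X l) = X (l + 1) := by
  classical
  have hr' : (1 : WithTop ℕ∞) ≤ ((r : ℕ∞) : WithTop ℕ∞) := by exact_mod_cast hr
  obtain ⟨Ba, Bb, hBa, hBb, htr⟩ := ht
  have hyφ : y ∈ φ.source := H.ha 0
  have hb0 : g^[n₁] y ∈ φ.source := H.hb 0
  have hgn := contMDiff_iterate g.contMDiff
  have hga : ∀ k, g^[n] (g.symm^[n * (k + 1)] y) = g.symm^[n * k] y := by
    intro k
    have e : n * (k + 1) = n + n * k := by ring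
    rw [e, Function.iterate_add_apply, (symm_iterate g n _).2]
  have hgb : ∀ k, g^[n] (g^[n₁ + n * k] y) = g^[n₁ + n * (k + 1)] y := by
    intro k
    rw [← Function.iterate_add_apply, show n + (n₁ + n * k) = n₁ + n * (k + 1) by ring]
  set G : E → E := fun z => loc φ g^[n₁] (φ p + z) - φ p with hG
  have hGc : ContDiffAt ℝ 1 G (φ y - φ p) := by
    have h1 : ContDiffAt ℝ 1 (loc φ g^[n₁]) (φ p + (φ y - φ p)) := by
      rw [add_sub_cancel]
      exact (contDiffAt_loc (hgn n₁) H.hφ hyφ hb0).of_le hr'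
    have h2 : ContDiffAt ℝ 1 (fun z : E => φ p + z) (φ y - φ p) :=
      contDiffAt_const.add contDiffAt_id
    exact (h1.comp (φ y - φ p) h2).sub contDiffAt_const
  have hGd : fderiv ℝ G (φ y - φ p) = fderiv ℝ (loc φ g^[n₁]) (φ y) := by
    show fderiv ℝ (fun z => loc φ g^[n₁] (φ p + z) - φ p) (φ y - φ p) = _
    rw [fderiv_sub_const, fderiv_comp_add_left, add_sub_cancel]
  have hGab : G (φ y - φ p) = φ (g^[n₁] y) - φ p := by
    show φ (g^[n₁] (φ.symm (φ p + (φ y - φ p)))) - φ p = _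
    rw [add_sub_cancel, φ.left_inv hyφ]
  -- stay in the chart
  obtain ⟨ρ, hρ, hρ'⟩ : ∃ ρ > 0, ∀ x ∈ φ.source, ‖φ x - φ y‖ ≤ ρ → g^[n₁] x ∈ φ.source := by
    have hO : IsOpen (φ.target ∩ φ.symm ⁻¹' (g^[n₁] ⁻¹' φ.source)) :=
      φ.isOpen_inter_preimage_symm (φ.open_source.preimage (hgn n₁).continuous)
    have hm : φ y ∈ φ.target ∩ φ.symm ⁻¹' (g^[n₁] ⁻¹' φ.source) := by
      refine ⟨φ.map_source hyφ, ?_⟩
      show g^[n₁] (φ.symm (φ y)) ∈ φ.source
      rw [φ.left_inv hyφ]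
      exact hb0
    obtain ⟨ρ, hρ, hball⟩ := Metric.nhds_basis_closedBall.mem_iff.mp (hO.mem_nhds hm)
    refine ⟨ρ, hρ, fun x hx hxρ => ?_⟩
    have := (hball (mem_closedBall_iff_norm.mpr hxρ)).2
    have h2 : g^[n₁] (φ.symm (φ x)) ∈ φ.source := this
    rwa [φ.left_inv hx] at h2
  obtain ⟨N₀, hN₀⟩ := mhorse hr g.contMDiff H.hφ H.hp H.hpn H.hyp
    (α := fun k => g.symm^[n * k] y) (β := fun k => g^[n₁ + n * k] y) H.ha H.hb H.hat H.hbt
    hga hgb hBa hBb (G := G) hGc hGab (by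
      intro w hw hw'
      have hw'' : fderiv ℝ G (φ y - φ p) w ∈ Sb Bb := hw'
      rw [hGd] at hw''
      exact htr w hw hw'') (ε := min ε ρ) (lt_min hε hρ)
  refine ⟨N₀, fun T hT L hL hper => ?_⟩
  obtain ⟨X, -, hXε, hXn, hXt⟩ := hN₀ T hT L hL hper
  refine ⟨X, fun l => (hXε l).trans_le (min_le_left _ _), hXn, fun l hl => ?_⟩
  obtain ⟨h1, h2, h3, h4⟩ := hXt l hl
  have h5 : g^[n₁] (X l) ∈ φ.source := hρ' _ h1 (h3.trans (min_le_right _ _))
  apply φ.injOn h5 h2
  have h6 : φ (g^[n₁] (φ.symm (φ p + (φ (X l) - φ p)))) - φ p = φ (X (l + 1)) - φ p := h4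
  rw [add_sub_cancel, φ.left_inv h1] at h6
  exact sub_left_injective h6

end Pool.Agent.AxA
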