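import Pool.Agent.AxA.Phase

/-!
# Recurrent points
-/

set_option autoImplicit false

open Filter Topology Set TopologicalSpace

namespace Pool.Agent.AxA

/-- every closed invariant set contains a recurrent point -/
theorem exists_recurrent {X : Type*} [TopologicalSpace X] [CompactSpace X] {f : X → X}
    (hf : Continuous f) {A : Set X} (hA : IsClosed A) (hne : A.Nonempty)
    (hinv : ∀ x ∈ A, f x ∈ A) : ∃ z ∈ A, IsRec f z := by
  obtain ⟨m, ⟨hmA, hmc, hmn, hmi⟩, hmin⟩ := zorn_superset
    {S : Set X | S ⊆ A ∧ IsClosed S ∧ S.Nonempty ∧ ∀ x ∈ S, f x ∈ S} (by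
    intro c hc hchain
    rcases c.eq_empty_or_nonempty with rfl | hcne
    · exact ⟨A, ⟨Subset.rfl, hA, hne, hinv⟩, fun s hs => absurd hs (Set.notMem_empty s)⟩
    have hne : Nonempty c := hcne.to_subtype
    have htd : Directed (· ⊇ ·) (fun s : c => (s : Set X)) := by
      intro s s'
      rcases hchain.total s.2 s'.2 with h | h
      · exact ⟨s, Subset.rfl, h⟩
      · exact ⟨s', h, Subset.rfl⟩
    have hL := IsCompact.nonempty_iInter_of_directed_nonempty_isCompact_isClosed
      (fun s : c => (s : Set X)) htd (fun s => (hc s.2).2.2.1) (fun s => (hc s.2).2.1.isCompact)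
      (fun s => (hc s.2).2.1)
    refine ⟨⋂ s : c, (s : Set X), ⟨?_, isClosed_iInter fun s => (hc s.2).2.1, hL, ?_⟩, ?_⟩
    · obtain ⟨s₀, hs₀⟩ := hcne
      exact (Set.iInter_subset _ (⟨s₀, hs₀⟩ : c)).trans (hc hs₀).1
    · intro x hx
      rw [Set.mem_iInter] at hx ⊢
      exact fun s => (hc s.2).2.2.2 x (hx s)
    · intro s hs
      exact Set.iInter_subset _ (⟨s, hs⟩ : c))
  obtain ⟨z, hz⟩ := hmn
  refine ⟨z, hmA hz, ?_⟩
  have hzm : ∀ j, f^[j] z ∈ m := by
    intro j
    induction j with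
    | zero => exact hz
    | succ j ih => rw [Function.iterate_succ_apply']; exact hmi _ ih
  have h1 : m ⊆ closure (range fun j => f^[j + 1] z) := by
    apply hmin
    · refine ⟨?_, isClosed_closure, (range_nonempty _).closure, ?_⟩
      · apply (closure_minimal _ hmc).trans hmA
        rintro _ ⟨j, rfl⟩
        exact hzm _
      · intro x hx
        apply map_mem_closure hf hx
        rintro _ ⟨j, rfl⟩
        exact ⟨j + 1, Function.iterate_succ_apply' _ _ _⟩
    · apply closure_minimal _ hmc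
      rintro _ ⟨j, rfl⟩
      exact hzm _
  intro U hU
  obtain ⟨_, hw, j, rfl⟩ := mem_closure_iff_nhds.mp (h1 hz) U hU
  exact ⟨j + 1, Nat.succ_pos _, hw⟩

/-- if all recurrent points are periodic, then every orbit follows some periodic orbit for
arbitrarily long times -/
theorem track {X : Type*} [MetricSpace X] [CompactSpace X] {f : X → X} (hf : Continuous f)
    (hrec : ∀ x, IsRec f x → x ∈ Function.periodicPts f) (x : X) :
    ∃ (q : X) (π : ℕ), 0 < π ∧ f^[π] q = q ∧ ∀ (D : ℕ) (δ : ℝ), 0 < δ →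
      ∃ S, ∀ i ≤ D, dist (f^[S + i] x) (f^[i] q) < δ := by
  obtain ⟨q, hq, hqr⟩ := exists_recurrent hf (isClosed_omega f x) (omega_nonempty f x) (by
    intro w hw
    rw [omega, mem_ofPred_eq, mapClusterPt_iff_frequently] at hw ⊢
    intro U hU
    have h1 := hw _ (hf.continuousAt.preimage_mem_nhds hU)
    rw [Filter.frequently_atTop] at h1 ⊢
    intro N
    obtain ⟨j, hj, hj'⟩ := h1 N
    refine ⟨j + 1, by omega, ?_⟩
    rw [Function.iterate_succ_apply']
    exact hj')
  obtain ⟨π, hπ, hqπ⟩ := hrec q hqr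
  refine ⟨q, π, hπ, hqπ, fun D δ hδ => ?_⟩
  have h1 : ∀ᶠ w in 𝓝 q, ∀ i ∈ Finset.range (D + 1), dist (f^[i] w) (f^[i] q) < δ := by
    rw [Filter.eventually_all_finset]
    intro i _
    exact ((hf.iterate i).continuousAt (x := q)).eventually (Metric.ball_mem_nhds _ hδ)
  obtain ⟨S, hS⟩ := ((mapClusterPt_iff_frequently.mp hq) _ h1).exists
  refine ⟨S, fun i hi => ?_⟩
  have := hS i (Finset.mem_range.mpr (by omega))
  rwa [← Function.iterate_add_apply, Nat.add_comm] at this

end Pool.Agent.AxA
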