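import Mathlib

/-!
# A Toeplitz type sequence
-/

set_option autoImplicit false

namespace Pool.Agent.AxA

/-- the gap sequence -/
def tsq (i : ℕ) : ℕ := padicValNat 2 (i + 1) % 2

theorem tsq_le (i : ℕ) : tsq i ≤ 1 := Nat.le_of_lt_succ (Nat.mod_lt _ two_pos)

theorem padic_odd (v w : ℕ) : padicValNat 2 (2 ^ v * (2 * w + 1)) = v := by
  have : Fact (Nat.Prime 2) := ⟨Nat.prime_two⟩
  rw [padicValNat.mul (by positivity) (by omega), padicValNat.prime_pow,
    padicValNat.eq_zero_of_not_dvd (by omega), add_zero]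

/-- no window of length `4 c` of the gap sequence has period `c` -/
theorem tsq_aperiodic {c : ℕ} (hc : 0 < c) (a : ℕ) :
    ∃ j ≤ 4 * c, tsq (a + j) ≠ tsq (a + c + j) := by
  obtain ⟨v, u, hu, hcu⟩ := Nat.exists_eq_two_pow_mul_odd hc.ne'
  obtain ⟨u', rfl⟩ := hu
  set m : ℕ := 2 ^ (v + 2) with hm
  have hm0 : 0 < m := by positivity
  -- choose `j` with `a + j + 1 ≡ 2 ^ (v + 1)` modulo `2 ^ (v + 2)`
  obtain ⟨j, hj, w, hw⟩ : ∃ j < m, ∃ w, a + j + 1 = 2 ^ (v + 1) * (2 * w + 1) := by
    refine ⟨(2 ^ (v + 1) + (m - (a + 1) % m)) % m, Nat.mod_lt _ hm0, ?_⟩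
    have h1 : (a + 1 + (2 ^ (v + 1) + (m - (a + 1) % m)) % m) % m = 2 ^ (v + 1) := by
      rw [Nat.add_mod_mod]
      have h2 := Nat.mod_lt (a + 1) hm0
      have h3 := Nat.div_add_mod (a + 1) m
      have h4 : a + 1 + (2 ^ (v + 1) + (m - (a + 1) % m)) = 2 ^ (v + 1) + m * ((a + 1) / m + 1) := by
        rw [Nat.mul_add, mul_one]
        omega
      rw [h4, Nat.add_mul_mod_self_left]
      apply Nat.mod_eq_of_lt
      rw [hm]
      exact Nat.pow_lt_pow_right (by norm_num) (by omega)
    set x := a + 1 + (2 ^ (v + 1) + (m - (a + 1) % m)) % m with hx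
    have h5 := Nat.div_add_mod x m
    rw [h1] at h5
    refine ⟨x / m, ?_⟩
    have h6 : a + (2 ^ (v + 1) + (m - (a + 1) % m)) % m + 1 = x := by rw [hx]; ring
    rw [h6]
    have h7 : m = 2 ^ (v + 1) * 2 := by rw [hm]; ring
    generalize x / m = q at h5 ⊢
    rw [← h5, h7]
    ring
  refine ⟨j, ?_, ?_⟩
  · have h1 : m ≤ 4 * c := by
      rw [hm, hcu, pow_add]
      nlinarith [Nat.two_pow_pos v]
    omega
  · unfold tsq
    have h1 : padicValNat 2 (a + j + 1) = v + 1 := by rw [hw]; exact padic_odd _ _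
    have h2 : padicValNat 2 (a + c + j + 1) = v := by
      have h3 : a + c + j + 1 = 2 ^ v * (2 * (2 * w + 1 + u') + 1) := by
        have h4 : a + c + j + 1 = (a + j + 1) + c := by ring
        rw [h4, hw, hcu]
        ring
      rw [h3]
      exact padic_odd _ _
    rw [h1, h2]
    omega

/-- **No long periodic windows.** -/
theorem no_periodic_window {P n : ℕ} (hP : 0 < P) (hn : 0 < n) {θ : ℕ → ℕ} (h0 : θ 0 = 0)
    (hθ : ∀ j, θ (j + 1) = θ j + P + n * tsq j) {π : ℕ} (hπ : 0 < π) :
    ∃ D, ∀ S, ¬ ∀ i, i + π ≤ D → (S + i ∈ Set.range θ ↔ S + i + π ∈ Set.range θ) := by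
  have hmono : StrictMono θ := strictMono_nat_of_lt_succ fun j => by rw [hθ]; omega
  set G := P + n with hG
  have hgap : ∀ j, θ (j + 1) ≤ θ j + G := fun j => by
    rw [hθ, hG]
    have := Nat.mul_le_mul_left n (tsq_le j)
    omega
  have hgapn : ∀ j i, θ (j + i) ≤ θ j + i * G := by
    intro j i
    induction i with
    | zero => simp
    | succ i ih =>
      have := hgap (j + i)
      rw [← Nat.add_assoc, Nat.succ_mul]
      omega
  have hlow : ∀ j i, θ j + i ≤ θ (j + i) := by
    intro j i
    induction i with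
    | zero => simp
    | succ i ih =>
      have := hmono (show j + i < j + (i + 1) by omega)
      omega
  refine ⟨G * (4 * π + 3) + π, fun S hS => ?_⟩
  classical
  have hex : ∃ a, S ≤ θ a := ⟨S, by have := hlow 0 S; rw [zero_add] at this; omega⟩
  set a := Nat.find hex with ha
  have ha1 : S ≤ θ a := Nat.find_spec hex
  have ha2 : θ a ≤ S + G := by
    rcases Nat.eq_zero_or_pos a with h | h
    · rw [h, h0]; omega
    · have h1 := Nat.find_min hex (show a - 1 < a by omega)
      have h2 := hgap (a - 1)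
      rw [show a - 1 + 1 = a by omega] at h2
      omega
  have hiff : ∀ t, S ≤ t → t ≤ S + G * (4 * π + 3) → (t ∈ Set.range θ ↔ t + π ∈ Set.range θ) := by
    intro t ht1 ht2
    have := hS (t - S) (by omega)
    rwa [show S + (t - S) = t by omega] at this
  obtain ⟨a', ha'⟩ := (hiff (θ a) ha1 (by nlinarith)).mp ⟨a, rfl⟩
  have haa : a < a' := by
    rw [← hmono.lt_iff_lt]; omega
  set c := a' - a with hc
  have hc0 : 0 < c := by omega
  have hcπ : c ≤ π := by
    have := hlow a c
    rw [show a + c = a' by omega] at this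
    omega
  have key : ∀ j, j ≤ 4 * π + 1 → θ (a + j) + π = θ (a + c + j) := by
    intro j
    induction j with
    | zero => intro _; rw [add_zero, add_zero, show a + c = a' by omega, ha']
    | succ j ih =>
      intro hj
      have ih' := ih (by omega)
      have hb : θ (a + (j + 1)) ≤ S + G * (4 * π + 3) := by
        have h1 := hgapn a (j + 1)
        have h2 : (j + 1) * G ≤ (4 * π + 1) * G := Nat.mul_le_mul_right G hj
        nlinarith
      have hlt1 := hmono (show a < a + (j + 1) by omega)
      obtain ⟨m, hm⟩ := (hiff (θ (a + (j + 1))) (by omega) hb).mp ⟨_, rfl⟩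
      have hlt2 := hmono (show a + j < a + (j + 1) by omega)
      have hm1 : a + c + j < m := by
        rw [← hmono.lt_iff_lt]; omega
      have hm2 : m ≤ a + c + (j + 1) := by
        by_contra hcon
        push Not at hcon
        have h3 := hmono hcon
        have h4 := hmono (show a + c + j < a + c + (j + 1) by omega)
        obtain ⟨m', hm'⟩ := (hiff (θ (a + c + (j + 1)) - π) (by
            have := hmono.monotone (show a ≤ a + j by omega)
            omega) (by omega)).mpr ⟨a + c + (j + 1), by omega⟩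
        have h5 : a + j < m' := by rw [← hmono.lt_iff_lt]; omega
        have h6 : m' < a + (j + 1) := by rw [← hmono.lt_iff_lt]; omega
        omega
      have hm3 : m = a + c + (j + 1) := by omega
      rw [← hm3, hm]
  obtain ⟨j, hj, hj'⟩ := tsq_aperiodic hc0 a
  apply hj'
  have h1 := key j (by omega)
  have h2 := key (j + 1) (by omega)
  have h3 := hθ (a + j)
  have h4 := hθ (a + c + j)
  rw [← Nat.add_assoc, ← Nat.add_assoc] at h2
  have h5 : n * tsq (a + j) = n * tsq (a + c + j) := by omega
  exact Nat.eq_of_mul_eq_mul_left hn h5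

end Pool.Agent.AxA
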