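import Pool.Agent.AxA.Block
import Pool.Agent.AxA.Toep
import Pool.Agent.AxA.Rec

/-!
# A nonperiodic recurrent point near a transverse homoclinic orbit
-/

set_option autoImplicit false

open Filter Topology Set TopologicalSpace
open scoped Manifold ContDiff

namespace Pool.Agent.AxA

variable {E : Type*} [NormedAddCommGroup E] [NormedSpace ℝ E]
  {M : Type*} [MetricSpace M] [ChartedSpace E M]

theorem blocks [FiniteDimensional ℝ E] [CompactSpace M] {r : ℕ∞} (hr : 1 ≤ r)
    {g : M ≃ₘ^r⟮𝓘(ℝ, E), 𝓘(ℝ, E)⟯ M} {φ : OpenPartialHomeomorph M E} {p : M}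
    {n n₁ : ℕ} {y : M} (H : Homo g φ p n n₁ y) (ht : Trans g φ n n₁ y) :
    ∃ ε₀ > 0, ∃ P > 0, ∀ K > 0, ∀ s : ℕ → ℕ, ∃ Y : ℕ → M, ∀ j < K,
      dist (Y j) (g^[n₁] y) ≤ ε₀ ∧ Y (j + 1) = g^[P + n * s j] (Y j) ∧
      ∀ t, 0 < t → t < P + n * s j → 4 * ε₀ ≤ dist (g^[t] (Y j)) (g^[n₁] y) := by
  classical
  set b := g^[n₁] y with hb
  have hpp : p ∈ Function.periodicPts g := ⟨n, H.hn, H.hpn⟩
  have hcl : IsClosed (orb g p) := (orb_finite hpp).isClosed
  have hne : (orb g p).Nonempty := ⟨_, mem_orb_self _⟩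
  have hsy : g.symm^[n₁] b = y := (symm_iterate g n₁ y).1
  have hbn : b ∉ Function.periodicPts g := by
    rintro ⟨m, hm, hbm⟩
    apply H.hy
    refine ⟨m, hm, ?_⟩
    have h1 : g^[m] b = b := hbm
    have hinj : Function.Injective (g^[n₁]) := (show Function.Injective g from g.injective).iterate n₁
    apply hinj
    rw [← Function.iterate_add_apply, Nat.add_comm, Function.iterate_add_apply]
    exact h1
  have hborb : b ∉ orb g p := fun h => hbn (periodic_of_mem_orb hpp h)
  have hbn1 : ∀ j, g^[j + 1] b ≠ b := fun j h => hbn ⟨j + 1, Nat.succ_pos _, h⟩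
  have hbn2 : ∀ j, g.symm^[j + 1] b ≠ b := by
    intro j h
    apply hbn1 j
    conv_lhs => rw [← h]
    exact (symm_iterate g _ b).2
  have hfo : Tendsto (fun j => Metric.infDist (g^[j + 1] b) (orb g p)) atTop (𝓝 0) := by
    refine ((Filter.tendsto_add_atTop_iff_nat (n₁ + 1)).mpr H.hfo).congr fun j => ?_
    rw [show j + (n₁ + 1) = (j + 1) + n₁ by ring, Function.iterate_add_apply _ (j + 1) n₁]
  have hba : Tendsto (fun j => Metric.infDist (g.symm^[j + 1] b) (orb g p)) atTop (𝓝 0) :=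
    (Filter.tendsto_add_atTop_iff_nat 1).mpr (shift_back H.hba n₁)
  obtain ⟨δ, ⟨hδ1, hδ2⟩, hδ0⟩ := (((away hcl hne hfo hborb hbn1).and
    (away hcl hne hba hborb hbn2)).and self_mem_nhdsWithin).exists
  have hδ : 0 < δ := hδ0
  set ε₀ := δ / 5 with hε₀
  have hε₀0 : 0 < ε₀ := by positivity
  obtain ⟨η, hη, hη'⟩ := unif_iter g (n + n₁) hε₀0
  obtain ⟨N₀, hN₀⟩ := homo_horseshoe hr H ht (ε := min η ε₀) (lt_min hη hε₀0)
  set N := N₀ + 2 with hN
  have hNpos : 0 < N := by omega
  have hn₁ := H.hn₁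
  have hn := H.hn
  refine ⟨ε₀, hε₀0, n * (N - 1) + n₁, by omega, fun K hK s => ?_⟩
  have hL : 0 < psum N s K := psum_strictMono hNpos hK
  have hT := adm_pT (s := s) hNpos hK
  have hT' : Adm (pT N s K) N₀ :=
    ⟨fun l hl j h1 h2 => hT.gap l hl j h1 (by omega), hT.next, hT.prev⟩
  obtain ⟨X, hXε, hXn, hXt⟩ := hN₀ (pT N s K) hT' (psum N s K) hL per_pT
  refine ⟨fun j => X (psum N s j + 1), fun j hj => ?_⟩
  have hstep : ∀ d, d ≤ N + s j - 1 → X (psum N s j + 1 + d) = g^[n * d] (X (psum N s j + 1)) := by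
    intro d
    induction d with
    | zero => intro _; simp
    | succ d ih =>
      intro hd
      have h1 : (psum N s j : ℤ) + 1 + d ∉ pT N s K := by
        have h2 : psum N s (j + 1) = psum N s j + (N + s j) := rfl
        apply not_mem_pT hNpos hj <;> omega
      have h2 := hXn _ h1
      rw [ih (by omega)] at h2
      rw [show n * (d + 1) = n + n * d by ring, Function.iterate_add_apply, h2,
        show (psum N s j : ℤ) + 1 + ((d + 1 : ℕ) : ℤ) = psum N s j + 1 + d + 1 by push_cast; ring]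
  have e1 : n * (N + s j - 1) = n * (N - 1) + n * s j := by
    rw [← Nat.mul_add]
    congr 1
    omega
  have hnear : ∀ d, d < N + s j → dist (X (psum N s j + 1 + d))
      (if d ≤ N + s j - 1 - d then g^[n₁ + n * d] y else g.symm^[n * (N + s j - 1 - d)] y) <
        min η ε₀ := by
    intro d hd
    have h1 := hXε (psum N s j + 1 + d)
    rwa [(dp_pT hNpos hK hj hd).1, (dp_pT hNpos hK hj hd).2] at h1
  refine ⟨?_, ?_, ?_⟩
  · have h1 := hnear 0 (by omega)
    rw [if_pos (Nat.zero_le _)] at h1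
    simp only [Nat.cast_zero, add_zero, mul_zero] at h1
    exact (h1.trans_le (min_le_right _ _)).le
  · show X (psum N s (j + 1) + 1) = g^[n * (N - 1) + n₁ + n * s j] (X (psum N s j + 1))
    have h1 := hXt _ (psum_mem (s := s) hNpos hK (show j + 1 ≤ K from hj))
    rw [← h1]
    have h2 : ((psum N s (j + 1) : ℕ) : ℤ) = psum N s j + 1 + ((N + s j - 1 : ℕ) : ℤ) := by
      have : psum N s (j + 1) = psum N s j + (N + s j) := rfl
      omega
    rw [h2, hstep _ le_rfl, ← Function.iterate_add_apply, e1,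
      show n₁ + (n * (N - 1) + n * s j) = n * (N - 1) + n₁ + n * s j by ring]
  · intro t ht0 htP
    show 4 * ε₀ ≤ dist (g^[t] (X (psum N s j + 1))) b
    set d := min (t / n) (N + s j - 1) with hd
    have hdn : n * d ≤ t := (Nat.mul_le_mul_left n (min_le_left _ _)).trans (Nat.mul_div_le _ _)
    have hdN : d ≤ N + s j - 1 := min_le_right _ _
    set i := t - n * d with hi
    have hti : t = i + n * d := by omega
    have hin : i ≤ n + n₁ := by
      rcases le_total (t / n) (N + s j - 1) with h1 | h1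
      · have h2 : d = t / n := by rw [hd, min_eq_left h1]
        have h3 := Nat.div_add_mod t n
        have h4 := Nat.mod_lt t hn
        rw [← h2] at h3
        omega
      · have h2 : d = N + s j - 1 := by rw [hd, min_eq_right h1]
        rw [h2, e1] at hti
        omega
    have h1 : g^[t] (X (psum N s j + 1)) = g^[i] (X (psum N s j + 1 + d)) := by
      rw [hstep d hdN, ← Function.iterate_add_apply, ← hti]
    have h2 := hnear d (by omega)
    have h3 := (hη' _ _ (h2.trans_le (min_le_left _ _)) i hin).1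
    rw [← h1] at h3
    have h4 : δ ≤ dist (g^[i] (if d ≤ N + s j - 1 - d then g^[n₁ + n * d] y
        else g.symm^[n * (N + s j - 1 - d)] y)) b := by
      split_ifs with h5
      · have h6 : g^[i] (g^[n₁ + n * d] y) = g^[t - 1 + 1] b := by
          rw [hb, ← Function.iterate_add_apply, ← Function.iterate_add_apply,
            show i + (n₁ + n * d) = t - 1 + 1 + n₁ by omega]
        rw [h6]
        exact hδ1 _
      · set e := N + s j - 1 - d with he
        have e2 : n * (N + s j - 1) = n * d + n * e := by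
          rw [← Nat.mul_add]
          congr 1
          omega
        have hlt : i < n * e + n₁ := by
          have e3 : n * (N - 1) + n * s j = n * d + n * e := by rw [← e1, e2]
          have e4 : i + n * d < n * (N - 1) + n₁ + n * s j := by rw [← hti]; exact htP
          generalize n * (N - 1) = Q1 at e3 e4
          generalize n * s j = Q2 at e3 e4
          generalize n * d = Q3 at e3 e4
          omega
        have h6 : g^[i] (g.symm^[n * e] y) = g.symm^[n * e + n₁ - i - 1 + 1] b := by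
          rw [← hsy, ← Function.iterate_add_apply, (symm_sub g hlt.le b).1,
            show n * e + n₁ - i - 1 + 1 = n * e + n₁ - i by omega]
        rw [h6]
        exact hδ2 _
    have h5 := dist_triangle_left (g^[i] (if d ≤ N + s j - 1 - d then g^[n₁ + n * d] y
        else g.symm^[n * (N + s j - 1 - d)] y)) b (g^[t] (X (psum N s j + 1)))
    linarith

/-- infinitely many blocks -/
theorem blocks_inf [FiniteDimensional ℝ E] [CompactSpace M] {r : ℕ∞} (hr : 1 ≤ r)
    {g : M ≃ₘ^r⟮𝓘(ℝ, E), 𝓘(ℝ, E)⟯ M} {φ : OpenPartialHomeomorph M E} {p : M}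
    {n n₁ : ℕ} {y : M} (H : Homo g φ p n n₁ y) (ht : Trans g φ n n₁ y) :
    ∃ ε₀ > 0, ∃ P > 0, ∀ s : ℕ → ℕ, ∃ Y : ℕ → M, ∀ j,
      dist (Y j) (g^[n₁] y) ≤ ε₀ ∧ Y (j + 1) = g^[P + n * s j] (Y j) ∧
      ∀ t, 0 < t → t < P + n * s j → 4 * ε₀ ≤ dist (g^[t] (Y j)) (g^[n₁] y) := by
  obtain ⟨ε₀, hε₀, P, hP, hbl⟩ := blocks hr H ht
  refine ⟨ε₀, hε₀, P, hP, fun s => ?_⟩
  choose Z hZ using fun k : ℕ => hbl (k + 1) (Nat.succ_pos _) s
  set W : Ultrafilter ℕ := hyperfilter ℕ with hW
  have hWle : (W : Filter ℕ) ≤ atTop := Nat.hyperfilter_le_atTop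
  have hlim : ∀ j, ∃ w, Tendsto (fun k => Z k j) W (𝓝 w) := by
    intro j
    obtain ⟨w, -, hw⟩ := isCompact_univ.ultrafilter_le_nhds (W.map fun k => Z k j) (by simp)
    exact ⟨w, hw⟩
  choose Y hY using hlim
  have hev : ∀ j, ∀ᶠ k in (W : Filter ℕ), j < k + 1 := fun j =>
    hWle (Filter.eventually_atTop.mpr ⟨j, fun k hk => by omega⟩)
  refine ⟨Y, fun j => ⟨?_, ?_, ?_⟩⟩
  · have h1 : Tendsto (fun k => dist (Z k j) (g^[n₁] y)) W (𝓝 (dist (Y j) (g^[n₁] y))) :=
      (hY j).dist tendsto_const_nhds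
    exact le_of_tendsto h1 ((hev j).mono fun k hk => (hZ k j hk).1)
  · have h1 : Tendsto (fun k => g^[P + n * s j] (Z k j)) W (𝓝 (g^[P + n * s j] (Y j))) :=
      ((g.continuous.iterate _).tendsto _).comp (hY j)
    refine tendsto_nhds_unique (hY (j + 1)) (h1.congr' ?_)
    exact (hev j).mono fun k hk => (hZ k j hk).2.1.symm
  · intro t h0 h1
    have h2 : Tendsto (fun k => dist (g^[t] (Z k j)) (g^[n₁] y)) W
        (𝓝 (dist (g^[t] (Y j)) (g^[n₁] y))) :=
      (((g.continuous.iterate _).tendsto _).comp (hY j)).dist tendsto_const_nhds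
    exact ge_of_tendsto h2 ((hev j).mono fun k hk => (hZ k j hk).2.2 t h0 h1)

/-- **A transverse homoclinic orbit creates a nonperiodic recurrent point.** -/
theorem no_transverse [FiniteDimensional ℝ E] [CompactSpace M] {r : ℕ∞} (hr : 1 ≤ r)
    {g : M ≃ₘ^r⟮𝓘(ℝ, E), 𝓘(ℝ, E)⟯ M} (hrec : ∀ x, IsRec g x → x ∈ Function.periodicPts g)
    {φ : OpenPartialHomeomorph M E} {p : M}
    {n n₁ : ℕ} {y : M} (H : Homo g φ p n n₁ y) (ht : Trans g φ n n₁ y) : False := by
  classical
  obtain ⟨ε₀, hε₀, P, hP, hbl⟩ := blocks_inf hr H ht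
  obtain ⟨Y, hY⟩ := hbl tsq
  set b := g^[n₁] y with hb
  -- visit times
  let θ : ℕ → ℕ := fun j => Nat.rec 0 (fun j t => t + P + n * tsq j) j
  have hθ0 : θ 0 = 0 := rfl
  have hθ : ∀ j, θ (j + 1) = θ j + P + n * tsq j := fun j => rfl
  have hYθ : ∀ j, g^[θ j] (Y 0) = Y j := by
    intro j
    induction j with
    | zero => rfl
    | succ j ih =>
      rw [(hY j).2.1, ← ih, ← Function.iterate_add_apply, hθ,
        show θ j + P + n * tsq j = P + n * tsq j + θ j by ring]
  have hin : ∀ t, t ∈ Set.range θ → dist (g^[t] (Y 0)) b ≤ ε₀ := by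
    rintro _ ⟨j, rfl⟩
    rw [hYθ]
    exact (hY j).1
  have hmono : StrictMono θ := strictMono_nat_of_lt_succ fun j => by rw [hθ]; omega
  have hout : ∀ t, t ∉ Set.range θ → 4 * ε₀ ≤ dist (g^[t] (Y 0)) b := by
    intro t ht
    have hex : ∃ j, t < θ j := by
      refine ⟨t + 1, ?_⟩
      have : t + 1 ≤ θ (t + 1) := hmono.le_apply
      omega
    obtain ⟨j, hj1, hjmin⟩ : ∃ j, t < θ j ∧ ∀ i < j, ¬ t < θ i :=
      ⟨sInf {j | t < θ j}, Nat.sInf_mem (s := {j | t < θ j}) hex,
        fun i hi h => Nat.notMem_of_lt_sInf (s := {j | t < θ j}) hi h⟩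
    have hj0 : j ≠ 0 := by
      intro h
      rw [h, hθ0] at hj1
      omega
    have hj2 : θ (j - 1) ≤ t := by
      have := hjmin (j - 1) (by omega)
      omega
    have hj3 : θ (j - 1) ≠ t := fun h => ht ⟨j - 1, h⟩
    have h1 := hθ (j - 1)
    rw [show j - 1 + 1 = j by omega] at h1
    have h2 := (hY (j - 1)).2.2 (t - θ (j - 1)) (by omega) (by omega)
    rw [← hYθ (j - 1), ← Function.iterate_add_apply, Nat.sub_add_cancel hj2] at h2
    exact h2
  obtain ⟨q, π, hπ, hq, htr⟩ := track g.continuous hrec (Y 0)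
  obtain ⟨D, hD⟩ := no_periodic_window hP H.hn hθ0 hθ hπ
  obtain ⟨S, hS⟩ := htr D ε₀ hε₀
  apply hD S
  intro i hi
  have hqi : g^[i + π] q = g^[i] q := by rw [Function.iterate_add_apply, hq]
  have h1 := hS i (by omega)
  have h2 := hS (i + π) (by omega)
  rw [hqi, ← Nat.add_assoc] at h2
  have h3 := dist_triangle_right (g^[S + i] (Y 0)) (g^[S + i + π] (Y 0)) (g^[i] q)
  constructor
  · intro h
    by_contra hcon
    have h4 := hin _ h
    have h5 := hout _ hcon
    have h6 := dist_triangle_left (g^[S + i + π] (Y 0)) b (g^[S + i] (Y 0))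
    have h7 := dist_triangle (g^[S + i + π] (Y 0)) (g^[S + i] (Y 0)) b
    rw [dist_comm (g^[S + i + π] (Y 0)) (g^[S + i] (Y 0))] at h7
    linarith
  · intro h
    by_contra hcon
    have h4 := hin _ h
    have h5 := hout _ hcon
    have h7 := dist_triangle (g^[S + i] (Y 0)) (g^[S + i + π] (Y 0)) b
    linarith

end Pool.Agent.AxA
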