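import Pool.Agent.AxA.Alg

/-!
# Creation of a periodic orbit near a non-hyperbolic fixed point
-/

set_option autoImplicit false

open Filter Topology Set

namespace Pool.Agent.AxA

variable {E : Type*} [NormedAddCommGroup E] [NormedSpace ℝ E]

theorem zmod_val_add_one {q : ℕ} [NeZero q] (l : ZMod q) :
    (l + 1).val = if l.val + 1 = q then 0 else l.val + 1 := by
  have h1 : (l + 1).val = (l.val + 1) % q := by
    rw [ZMod.val_add, ZMod.val_one_eq_one_mod, Nat.add_mod_mod]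
  have h2 : l.val < q := ZMod.val_lt l
  rw [h1]
  split_ifs with h
  · rw [h, Nat.mod_self]
  · exact Nat.mod_eq_of_lt (by omega)

/-- The linear map of the creation problem. -/
theorem creation_surjective [FiniteDimensional ℝ E] {T : E →L[ℝ] E} {e : E} {q : ℕ} [NeZero q]
    (hTe : (T ^ q) e = e)
    (hs : ∀ y : E, ∃ (β : E →L[ℝ] E) (η : E),
        ∑ l ∈ Finset.range q, (T ^ (q - l)) (β ((T ^ l) e)) + ((T ^ q) η - η) = y)
    (y : ZMod q → E) : ∃ (β : E →L[ℝ] E) (η : ZMod q → E), ∀ l : ZMod q,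
      T (β ((T ^ l.val) e)) + T (η l) - η (l + 1) = y l := by
  have hq : 0 < q := Nat.pos_of_ne_zero (NeZero.ne q)
  obtain ⟨β, η₀, h⟩ := hs (∑ l ∈ Finset.range q, (T ^ (q - 1 - l)) (y (l : ZMod q)))
  let η' : ℕ → E := fun n => Nat.rec η₀ (fun n z => T z + T (β ((T ^ n) e)) - y (n : ZMod q)) n
  have hη0 : η' 0 = η₀ := rfl
  have hηs : ∀ n, η' (n + 1) = T (η' n) + T (β ((T ^ n) e)) - y (n : ZMod q) := fun n => rfl
  have hform : ∀ n : ℕ, η' n = (T ^ n) η₀ +
      ∑ l ∈ Finset.range n, (T ^ (n - 1 - l)) (T (β ((T ^ l) e)) - y (l : ZMod q)) := by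
    intro n
    induction n with
    | zero => simp [hη0]
    | succ n ih =>
      rw [hηs, ih, map_add, map_sum, Finset.sum_range_succ, pow_succ']
      have h1 : ∀ l ∈ Finset.range n, T ((T ^ (n - 1 - l)) (T (β ((T ^ l) e)) - y (l : ZMod q))) =
          (T ^ (n + 1 - 1 - l)) (T (β ((T ^ l) e)) - y (l : ZMod q)) := by
        intro l hl
        have := Finset.mem_range.mp hl
        rw [show n + 1 - 1 - l = (n - 1 - l) + 1 by omega, pow_succ']
        rfl
      rw [Finset.sum_congr rfl h1, show n + 1 - 1 - n = 0 by omega, pow_zero]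
      show T ((T ^ n) η₀) + _ + T (β ((T ^ n) e)) - y (n : ZMod q) = T ((T ^ n) η₀) +
        (_ + (T (β ((T ^ n) e)) - y (n : ZMod q)))
      abel
  have hηq : η' q = η₀ := by
    rw [hform]
    have h1 : ∑ l ∈ Finset.range q, (T ^ (q - 1 - l)) (T (β ((T ^ l) e)) - y (l : ZMod q)) =
        ∑ l ∈ Finset.range q, (T ^ (q - l)) (β ((T ^ l) e)) -
          ∑ l ∈ Finset.range q, (T ^ (q - 1 - l)) (y (l : ZMod q)) := by
      rw [← Finset.sum_sub_distrib]
      apply Finset.sum_congr rfl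
      intro l hl
      have := Finset.mem_range.mp hl
      rw [map_sub]
      congr 1
      rw [show q - l = (q - 1 - l) + 1 by omega, pow_succ]
      rfl
    rw [h1, ← h]
    abel
  refine ⟨β, fun l => η' l.val, fun l => ?_⟩
  have h1 : η' (l + 1).val = η' (l.val + 1) := by
    rw [zmod_val_add_one]
    split_ifs with hl
    · rw [hl, hηq, hη0]
    · rfl
  show T (β ((T ^ l.val) e)) + T (η' l.val) - η' (l + 1).val = y l
  rw [h1, hηs, ZMod.natCast_zmod_val]
  abel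

/-- **Local creation of a periodic orbit.** -/
theorem exists_periodic_orbit [FiniteDimensional ℝ E] {T : E →L[ℝ] E} {e : E} {q : ℕ} [NeZero q]
    (he : e ≠ 0) (hTe : (T ^ q) e = e)
    (hs : ∀ y : E, ∃ (β : E →L[ℝ] E) (η : E),
        ∑ l ∈ Finset.range q, (T ^ (q - l)) (β ((T ^ l) e)) + ((T ^ q) η - η) = y)
    {H : E → E} (hH0 : H 0 = 0) (hH : HasStrictFDerivAt H T 0) {ε : ℝ} (hε : 0 < ε) :
    ∃ B : E →L[ℝ] E, ‖B‖ < ε ∧ ∃ z : ZMod q → E, (∀ l, H (z l + B (z l)) = z (l + 1)) ∧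
      (∀ l, ‖z l‖ < ε) ∧ (∀ l, ‖z l + B (z l)‖ < ε) ∧ z 0 ≠ 0 := by
  classical
  let el : ZMod q → E := fun l => (T ^ l.val) e
  have hel : ∀ l, T (el l) = el (l + 1) := by
    intro l
    show T ((T ^ l.val) e) = (T ^ (l + 1).val) e
    rw [zmod_val_add_one]
    split_ifs with hl
    · have : T ((T ^ l.val) e) = (T ^ (l.val + 1)) e := by rw [pow_succ']; rfl
      rw [this, hl, hTe, pow_zero]; rfl
    · rw [pow_succ']; rfl
  obtain ⟨M, hM0, hM⟩ : ∃ M : ℝ, 0 < M ∧ ∀ l, ‖el l‖ ≤ M := by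
    refine ⟨‖el‖ + 1, by positivity, fun l => (norm_le_pi_norm el l).trans (by linarith)⟩
  let Llin : (E →L[ℝ] E) × (ZMod q → E) →ₗ[ℝ] (ZMod q → E) :=
    { toFun := fun x l => T (x.1 (el l)) + T (x.2 l) - x.2 (l + 1)
      map_add' := by
        intro x y
        funext l
        simp only [Prod.fst_add, Prod.snd_add, add_apply, map_add, Pi.add_apply]
        abel
      map_smul' := by
        intro a x
        funext l
        simp only [Prod.smul_fst, Prod.smul_snd, smul_apply, map_smul, Pi.smul_apply,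
          RingHom.id_apply, smul_sub, smul_add] }
  let L : (E →L[ℝ] E) × (ZMod q → E) →L[ℝ] (ZMod q → E) := LinearMap.toContinuousLinearMap Llin
  have hL : ∀ x l, L x l = T (x.1 (el l)) + T (x.2 l) - x.2 (l + 1) := fun x l => rfl
  have hLs : L.range = ⊤ := by
    rw [eq_top_iff]
    intro y _
    obtain ⟨β, η, h⟩ := creation_surjective hTe hs y
    exact ⟨(β, η), funext h⟩
  let R := L.nonlinearRightInverseOfSurjective hLs
  have hRpos : 0 < R.nnnorm := L.nonlinearRightInverseOfSurjective_nnnorm_pos hLs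
  set N : ℝ := (R.nnnorm : ℝ)⁻¹ with hN
  have hNpos : 0 < N := by
    have : (0:ℝ) < R.nnnorm := by exact_mod_cast hRpos
    positivity
  -- the radius
  set ρ : ℝ := min (min 1 (ε / 2)) (min (‖e‖ / 2) (N / (8 * (‖T‖ + 1)))) with hρ
  have hepos : 0 < ‖e‖ := norm_pos_iff.mpr he
  have hρ0 : 0 < ρ := by positivity
  have hρ1 : ρ ≤ 1 := (min_le_left _ _).trans (min_le_left _ _)
  have hρε : ρ ≤ ε / 2 := (min_le_left _ _).trans (min_le_right _ _)
  have hρe : ρ ≤ ‖e‖ / 2 := (min_le_right _ _).trans (min_le_left _ _)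
  have hρN : ρ * (8 * (‖T‖ + 1)) ≤ N := by
    have : ρ ≤ N / (8 * (‖T‖ + 1)) := (min_le_right _ _).trans (min_le_right _ _)
    rwa [le_div_iff₀ (by positivity)] at this
  -- the Lipschitz constant of the remainder
  set κ : ℝ := min (N / (4 * (M + 3))) (N * ρ / (4 * M)) with hκ
  have hκ0 : 0 < κ := by positivity
  have hκ1 : κ * (4 * (M + 3)) ≤ N := by
    have : κ ≤ N / (4 * (M + 3)) := min_le_left _ _
    rwa [le_div_iff₀ (by positivity)] at this
  have hκ2 : κ * (4 * M) ≤ N * ρ := by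
    have : κ ≤ N * ρ / (4 * M) := min_le_right _ _
    rwa [le_div_iff₀ (by positivity)] at this
  obtain ⟨s, hs0, happ⟩ := hH.approximates_deriv_on_nhds (c := κ.toNNReal)
    (Or.inr (Real.toNNReal_pos.mpr hκ0))
  obtain ⟨r, hr0, hr⟩ := Metric.mem_nhds_iff.mp hs0
  have hκl : ∀ u v : E, ‖u‖ < r → ‖v‖ < r → ‖H u - H v - T (u - v)‖ ≤ κ * ‖u - v‖ := by
    intro u v hu hv
    have := happ u (hr (by simpa using hu)) v (hr (by simpa using hv))
    rwa [Real.coe_toNNReal κ hκ0.le] at this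
  -- the scale
  set δ : ℝ := min (r / (4 * (M + 1))) (ε / (4 * (M + 1))) with hδ
  have hδ0 : 0 < δ := by positivity
  have hδr : δ * (2 * (M + 1)) < r := by
    have h1 : δ ≤ r / (4 * (M + 1)) := min_le_left _ _
    rw [le_div_iff₀ (by positivity)] at h1
    nlinarith
  have hδε : δ * (2 * (M + 1)) < ε := by
    have h1 : δ ≤ ε / (4 * (M + 1)) := min_le_right _ _
    rw [le_div_iff₀ (by positivity)] at h1
    nlinarith
  let u : (E →L[ℝ] E) × (ZMod q → E) → ZMod q → E := fun x l => (el l + x.2 l) + x.1 (el l + x.2 l)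
  let G : (E →L[ℝ] E) × (ZMod q → E) → (ZMod q → E) := fun x l =>
    δ⁻¹ • H (δ • u x l) - (el (l + 1) + x.2 (l + 1))
  have hcomp : ∀ x ∈ Metric.closedBall (0 : (E →L[ℝ] E) × (ZMod q → E)) ρ,
      ‖x.1‖ ≤ ρ ∧ ∀ l, ‖x.2 l‖ ≤ ρ := by
    intro x hx
    have hx' : ‖x‖ ≤ ρ := by simpa using hx
    exact ⟨(norm_fst_le x).trans hx', fun l => (norm_le_pi_norm x.2 l).trans
      ((norm_snd_le x).trans hx')⟩
  have hub : ∀ x ∈ Metric.closedBall (0 : (E →L[ℝ] E) × (ZMod q → E)) ρ, ∀ l,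
      ‖u x l‖ ≤ 2 * (M + 1) := by
    intro x hx l
    obtain ⟨h1, h2⟩ := hcomp x hx
    have h3 : ‖el l + x.2 l‖ ≤ M + 1 := (norm_add_le _ _).trans (add_le_add (hM l)
      ((h2 l).trans hρ1))
    have h4 : ‖x.1 (el l + x.2 l)‖ ≤ 1 * (M + 1) := by
      refine (x.1.le_opNorm _).trans ?_
      exact mul_le_mul (h1.trans hρ1) h3 (norm_nonneg _) (by norm_num)
    calc ‖u x l‖ ≤ ‖el l + x.2 l‖ + ‖x.1 (el l + x.2 l)‖ := norm_add_le _ _
      _ ≤ 2 * (M + 1) := by linarith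
  have hδu : ∀ x ∈ Metric.closedBall (0 : (E →L[ℝ] E) × (ZMod q → E)) ρ, ∀ l,
      ‖δ • u x l‖ < min r ε := by
    intro x hx l
    rw [norm_smul, Real.norm_eq_abs, abs_of_pos hδ0, lt_min_iff]
    have := hub x hx l
    exact ⟨lt_of_le_of_lt (mul_le_mul_of_nonneg_left this hδ0.le) hδr,
      lt_of_le_of_lt (mul_le_mul_of_nonneg_left this hδ0.le) hδε⟩
  have hApp : ApproximatesLinearOn G L (Metric.closedBall 0 ρ) (N / 2).toNNReal := by
    intro x hx y hy
    rw [Real.coe_toNNReal _ (by positivity)]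
    obtain ⟨hx1, hx2⟩ := hcomp x hx
    obtain ⟨hy1, hy2⟩ := hcomp y hy
    have hd1 : ‖x.1 - y.1‖ ≤ ‖x - y‖ := norm_fst_le (x - y)
    have hd2 : ∀ l, ‖x.2 l - y.2 l‖ ≤ ‖x - y‖ := fun l =>
      (norm_le_pi_norm (x.2 - y.2) l).trans (norm_snd_le (x - y))
    rw [pi_norm_le_iff_of_nonneg (by positivity)]
    intro l
    have hu : u x l - u y l = (x.2 l - y.2 l) + ((x.1 - y.1) (el l + x.2 l) +
        y.1 (x.2 l - y.2 l)) := by
      show (el l + x.2 l) + x.1 (el l + x.2 l) - ((el l + y.2 l) + y.1 (el l + y.2 l)) = _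
      rw [sub_apply, map_sub]
      have : y.1 (el l + x.2 l) = y.1 (el l) + y.1 (x.2 l) := map_add _ _ _
      rw [this]
      have : y.1 (el l + y.2 l) = y.1 (el l) + y.1 (y.2 l) := map_add _ _ _
      rw [this]
      abel
    have hun : ‖u x l - u y l‖ ≤ (M + 3) * ‖x - y‖ := by
      rw [hu]
      have h1 : ‖(x.1 - y.1) (el l + x.2 l)‖ ≤ ‖x - y‖ * (M + 1) := by
        refine ((x.1 - y.1).le_opNorm _).trans ?_
        refine mul_le_mul hd1 ((norm_add_le _ _).trans (add_le_add (hM l) ((hx2 l).trans hρ1)))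
          (norm_nonneg _) (norm_nonneg _)
      have h2 : ‖y.1 (x.2 l - y.2 l)‖ ≤ 1 * ‖x - y‖ := by
        refine (y.1.le_opNorm _).trans ?_
        exact mul_le_mul (hy1.trans hρ1) (hd2 l) (norm_nonneg _) (by norm_num)
      calc _ ≤ ‖x.2 l - y.2 l‖ + ‖(x.1 - y.1) (el l + x.2 l) + y.1 (x.2 l - y.2 l)‖ :=
            norm_add_le _ _
        _ ≤ ‖x.2 l - y.2 l‖ + (‖(x.1 - y.1) (el l + x.2 l)‖ + ‖y.1 (x.2 l - y.2 l)‖) := by
            gcongr; exact norm_add_le _ _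
        _ ≤ (M + 3) * ‖x - y‖ := by
            have := hd2 l
            nlinarith
    have hmain : (G x - G y - L (x - y)) l =
        δ⁻¹ • (H (δ • u x l) - H (δ • u y l) - T (δ • u x l - δ • u y l)) +
          T ((x.1 - y.1) (x.2 l) + y.1 (x.2 l - y.2 l)) := by
      show (δ⁻¹ • H (δ • u x l) - (el (l + 1) + x.2 (l + 1))) -
        (δ⁻¹ • H (δ • u y l) - (el (l + 1) + y.2 (l + 1))) -
        (T ((x.1 - y.1) (el l)) + T (x.2 l - y.2 l) - (x.2 (l + 1) - y.2 (l + 1))) = _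
      have h1 : δ⁻¹ • T (δ • u x l - δ • u y l) = T (u x l - u y l) := by
        rw [← smul_sub, map_smul, smul_smul, inv_mul_cancel₀ hδ0.ne', one_smul]
      have h2 : T (u x l - u y l) = T (x.2 l - y.2 l) + (T ((x.1 - y.1) (el l)) +
          T ((x.1 - y.1) (x.2 l)) + T (y.1 (x.2 l - y.2 l))) := by
        rw [hu, map_add, map_add, map_add (x.1 - y.1), map_add]
      rw [smul_sub, smul_sub, h1, h2, map_add]
      abel
    rw [hmain]
    have hxr := hδu x hx l
    have hyr := hδu y hy l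
    rw [lt_min_iff] at hxr hyr
    have h1 : ‖δ⁻¹ • (H (δ • u x l) - H (δ • u y l) - T (δ • u x l - δ • u y l))‖ ≤
        κ * ((M + 3) * ‖x - y‖) := by
      rw [norm_smul, norm_inv, Real.norm_eq_abs, abs_of_pos hδ0]
      have h2 := hκl _ _ hxr.1 hyr.1
      have h3 : ‖δ • u x l - δ • u y l‖ = δ * ‖u x l - u y l‖ := by
        rw [← smul_sub, norm_smul, Real.norm_eq_abs, abs_of_pos hδ0]
      rw [h3] at h2
      rw [inv_mul_le_iff₀ hδ0]
      refine h2.trans ?_
      have : κ * (δ * ‖u x l - u y l‖) = δ * (κ * ‖u x l - u y l‖) := by ring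
      rw [this]
      gcongr
    have h2 : ‖T ((x.1 - y.1) (x.2 l) + y.1 (x.2 l - y.2 l))‖ ≤ ‖T‖ * (2 * ρ * ‖x - y‖) := by
      refine (T.le_opNorm _).trans (mul_le_mul_of_nonneg_left ?_ (norm_nonneg _))
      refine (norm_add_le _ _).trans ?_
      have h3 : ‖(x.1 - y.1) (x.2 l)‖ ≤ ‖x - y‖ * ρ :=
        ((x.1 - y.1).le_opNorm _).trans (mul_le_mul hd1 (hx2 l) (norm_nonneg _) (norm_nonneg _))
      have h4 : ‖y.1 (x.2 l - y.2 l)‖ ≤ ρ * ‖x - y‖ :=
        (y.1.le_opNorm _).trans (mul_le_mul hy1 (hd2 l) (norm_nonneg _) hρ0.le)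
      linarith
    have h5 : ‖T‖ * (2 * ρ * ‖x - y‖) ≤ N / 4 * ‖x - y‖ := by
      have h6 : ‖T‖ * (2 * ρ) ≤ N / 4 := by nlinarith [norm_nonneg T]
      calc ‖T‖ * (2 * ρ * ‖x - y‖) = ‖T‖ * (2 * ρ) * ‖x - y‖ := by ring
        _ ≤ _ := mul_le_mul_of_nonneg_right h6 (norm_nonneg _)
    have h6 : κ * ((M + 3) * ‖x - y‖) ≤ N / 4 * ‖x - y‖ := by
      calc κ * ((M + 3) * ‖x - y‖) = κ * (M + 3) * ‖x - y‖ := by ring
        _ ≤ _ := mul_le_mul_of_nonneg_right (by linarith) (norm_nonneg _)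
    calc _ ≤ _ := norm_add_le _ _
      _ ≤ N / 4 * ‖x - y‖ + N / 4 * ‖x - y‖ := add_le_add (h1.trans h6) (h2.trans h5)
      _ = N / 2 * ‖x - y‖ := by ring
  -- surjectivity
  have hsurj := hApp.surjOn_closedBall_of_nonlinearRightInverse R hρ0.le
    (Subset.refl (Metric.closedBall (0 : (E →L[ℝ] E) × (ZMod q → E)) ρ))
  have h0 : (0 : ZMod q → E) ∈ Metric.closedBall (G 0)
      (((R.nnnorm : ℝ)⁻¹ - (N / 2).toNNReal) * ρ) := by
    rw [Real.coe_toNNReal _ (by positivity), ← hN, mem_closedBall_iff_norm, zero_sub, norm_neg]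
    rw [pi_norm_le_iff_of_nonneg (by nlinarith)]
    intro l
    have e1 : G 0 l = δ⁻¹ • (H (δ • el l) - H 0 - T (δ • el l - 0)) := by
      show δ⁻¹ • H (δ • u 0 l) - (el (l + 1) + (0 : E)) = _
      have : u 0 l = el l := by
        show (el l + (0 : E)) + (0 : E →L[ℝ] E) (el l + (0 : E)) = el l
        simp
      rw [this, hH0, sub_zero, sub_zero, smul_sub, map_smul, hel, smul_smul,
        inv_mul_cancel₀ hδ0.ne', one_smul, add_zero]
    rw [e1, norm_smul, norm_inv, Real.norm_eq_abs, abs_of_pos hδ0, inv_mul_le_iff₀ hδ0]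
    have hn : ‖δ • el l‖ = δ * ‖el l‖ := by rw [norm_smul, Real.norm_eq_abs, abs_of_pos hδ0]
    have h1 : ‖δ • el l‖ < r := by
      rw [hn]
      have := hM l
      nlinarith
    refine (hκl _ _ h1 (by simpa using hr0)).trans ?_
    rw [sub_zero, hn]
    have h2 := hM l
    have h3 : κ * (δ * ‖el l‖) ≤ δ * (κ * M) := by
      calc κ * (δ * ‖el l‖) = δ * (κ * ‖el l‖) := by ring
        _ ≤ _ := by gcongr
    refine h3.trans (mul_le_mul_of_nonneg_left ?_ hδ0.le)
    nlinarith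
  obtain ⟨x, hx, hGx⟩ := hsurj h0
  obtain ⟨hx1, hx2⟩ := hcomp x hx
  refine ⟨x.1, by linarith, fun l => δ • (el l + x.2 l), ?_, ?_, ?_, ?_⟩
  · intro l
    have h1 := congrFun hGx l
    have h2 : δ⁻¹ • H (δ • u x l) = el (l + 1) + x.2 (l + 1) := sub_eq_zero.mp h1
    have h3 : H (δ • u x l) = δ • (el (l + 1) + x.2 (l + 1)) := by
      rw [← h2, smul_smul, mul_inv_cancel₀ hδ0.ne', one_smul]
    show H (δ • (el l + x.2 l) + x.1 (δ • (el l + x.2 l))) = δ • (el (l + 1) + x.2 (l + 1))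
    rw [← h3]
    congr 1
    show δ • (el l + x.2 l) + x.1 (δ • (el l + x.2 l)) =
      δ • ((el l + x.2 l) + x.1 (el l + x.2 l))
    rw [map_smul, ← smul_add]
  · intro l
    rw [norm_smul, Real.norm_eq_abs, abs_of_pos hδ0]
    have h3 : ‖el l + x.2 l‖ ≤ M + 1 := (norm_add_le _ _).trans (add_le_add (hM l)
      ((hx2 l).trans hρ1))
    nlinarith
  · intro l
    have e1 : δ • (el l + x.2 l) + x.1 (δ • (el l + x.2 l)) = δ • u x l := by
      show _ = δ • ((el l + x.2 l) + x.1 (el l + x.2 l))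
      rw [map_smul, ← smul_add]
    rw [e1]
    exact (lt_min_iff.mp (hδu x hx l)).2
  · intro h
    have h1 : el 0 + x.2 0 = 0 := by
      rcases smul_eq_zero.mp h with h | h
      · exact absurd h hδ0.ne'
      · exact h
    have h2 : el 0 = e := by
      show (T ^ (0 : ZMod q).val) e = e
      rw [ZMod.val_zero]; rfl
    rw [h2] at h1
    have h3 : ‖e‖ = ‖x.2 0‖ := by
      rw [eq_neg_of_add_eq_zero_left h1, norm_neg]
    have := hx2 0
    linarith

end Pool.Agent.AxA
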