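import Pool.Agent.AxA.Defs

/-!
# The `C^r` topology and smooth families of diffeomorphisms
-/

set_option autoImplicit false

open Filter Topology Set
open scoped Manifold ContDiff

namespace Pool.Agent.AxA

section iterated

variable {P E F : Type*} [NormedAddCommGroup P] [NormedSpace ℝ P]
  [NormedAddCommGroup E] [NormedSpace ℝ E] [NormedAddCommGroup F] [NormedSpace ℝ F]

/-- the partial iterated derivative through the full one -/
theorem partial_iteratedFDeriv {Φ : P × E → F} {j : ℕ} {s : Set (P × E)} (hs : IsOpen s)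
    (hΦ : ContDiffOn ℝ j Φ s) {μ : P} {y : E} (h : (μ, y) ∈ s) :
    iteratedFDeriv ℝ j (fun y' => Φ (μ, y')) y =
      (iteratedFDeriv ℝ j Φ (μ, y)).compContinuousLinearMap
        fun _ => ContinuousLinearMap.inr ℝ P E := by
  set g : E →L[ℝ] P × E := ContinuousLinearMap.inr ℝ P E with hg
  set Ψ : P × E → F := fun p => Φ (p + (μ, 0)) with hΨ
  set t : Set (P × E) := (fun p => p + (μ, 0)) ⁻¹' s with ht
  have hto : IsOpen t := hs.preimage (by fun_prop)
  have hΨc : ContDiffOn ℝ j Ψ t :=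
    hΦ.comp (contDiff_id.add contDiff_const).contDiffOn (fun p hp => hp)
  have hgy : g y + (μ, 0) = (μ, y) := by simp [hg]
  have hyt : g y ∈ t := by
    show g y + (μ, 0) ∈ s
    rw [hgy]; exact h
  have hgt : IsOpen (g ⁻¹' t) := hto.preimage g.continuous
  have h1 := g.iteratedFDerivWithin_comp_right hΨc hto.uniqueDiffOn hgt.uniqueDiffOn hyt
    (i := j) le_rfl
  rw [iteratedFDerivWithin_of_isOpen j hgt hyt, iteratedFDerivWithin_of_isOpen j hto hyt] at h1
  have h2 : Ψ ∘ g = fun y' => Φ (μ, y') := by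
    funext y'
    show Φ (g y' + (μ, 0)) = Φ (μ, y')
    congr 1
    simp [hg]
  rw [h2] at h1
  rw [h1, hΨ, iteratedFDeriv_comp_add_right, hgy]

/-- Joint continuity of partial iterated derivatives. -/
theorem continuousAt_partial_iteratedFDeriv {Φ : P × E → F} {j : ℕ} {μ : P} {y : E}
    (hΦ : ContDiffAt ℝ j Φ (μ, y)) :
    ContinuousAt (fun p : P × E => iteratedFDeriv ℝ j (fun y' => Φ (p.1, y')) p.2) (μ, y) := by
  obtain ⟨s, hs, hso, hmem⟩ := mem_nhds_iff.mp (hΦ.eventually (by simp))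
  have h1 : ContinuousAt (fun p : P × E => (iteratedFDeriv ℝ j Φ p).compContinuousLinearMap
        fun _ => ContinuousLinearMap.inr ℝ P E) (μ, y) := by
    have h2 := hΦ.continuousAt_iteratedFDeriv (k := j) le_rfl
    have h3 : Continuous (fun q : ContinuousMultilinearMap ℝ (fun _ : Fin j => P × E) F =>
        q.compContinuousLinearMap fun _ => ContinuousLinearMap.inr ℝ P E) :=
      (ContinuousMultilinearMap.compContinuousLinearMapL (𝕜 := ℝ) (F := F)
        (fun _ : Fin j => ContinuousLinearMap.inr ℝ P E)).continuous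
    exact h3.continuousAt.comp h2
  refine h1.congr ?_
  filter_upwards [hso.mem_nhds hmem] with p hp
  have hc : ContDiffOn ℝ j Φ s := fun q hq => by
    have h4 : ContDiffAt ℝ j Φ q := hs hq
    exact h4.contDiffWithinAt
  exact (partial_iteratedFDeriv hso hc (μ := p.1) (y := p.2) hp).symm

end iterated

section topology

variable {E : Type*} [NormedAddCommGroup E] [NormedSpace ℝ E]
  {M : Type*} [TopologicalSpace M] [ChartedSpace E M]

variable {P : Type*} [NormedAddCommGroup P] [NormedSpace ℝ P]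

/-- A family of self-maps of `M` jointly of class `C^r` near the parameter `0`. -/
def IsFam (r : ℕ∞) (F : P → M → M) : Prop :=
  ∀ x, ContMDiffAt (𝓘(ℝ, P).prod 𝓘(ℝ, E)) 𝓘(ℝ, E) r (fun p : P × M => F p.1 p.2) (0, x)

theorem IsFam.continuousAt {r : ℕ∞} {F : P → M → M} (hF : IsFam (E := E) r F) (x : M) :
    ContinuousAt (fun p : P × M => F p.1 p.2) (0, x) := (hF x).continuousAt

/-- composition of families -/
theorem IsFam.comp {r : ℕ∞} {F G : P → M → M} (hF : IsFam (E := E) r F)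
    (hG : IsFam (E := E) r G) : IsFam (E := E) r (fun μ x => F μ (G μ x)) := by
  intro x
  have h1 : ContMDiffAt (𝓘(ℝ, P).prod 𝓘(ℝ, E)) (𝓘(ℝ, P).prod 𝓘(ℝ, E)) r
      (fun p : P × M => (p.1, G p.1 p.2)) (0, x) := contMDiffAt_fst.prodMk (hG x)
  exact ContMDiffAt.comp (0, x) (g := fun p : P × M => F p.1 p.2) (hF (G 0 x)) h1

theorem IsFam.const {r : ℕ∞} {f : M → M} (hf : ContMDiff 𝓘(ℝ, E) 𝓘(ℝ, E) r f) :
    IsFam (E := E) (P := P) r (fun _ => f) := by
  intro x
  exact ContMDiffAt.comp (0, x) (g := f) (hf x) contMDiffAt_snd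

theorem IsFam.iterate {r : ℕ∞} {F : P → M → M} (hF : IsFam (E := E) r F) (n : ℕ) :
    IsFam (E := E) r (fun μ => (F μ)^[n]) := by
  induction n with
  | zero => exact IsFam.const contMDiff_id
  | succ n ih =>
    have := hF.comp ih
    refine fun x => (this x).congr_of_eventuallyEq (Eventually.of_forall fun p => ?_)
    exact Function.iterate_succ_apply' _ _ _

/-- The local expression of a family in charts. -/
theorem IsFam.chart {r : ℕ∞} {F : P → M → M} (hF : IsFam (E := E) r F)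
    {φ ψ : OpenPartialHomeomorph M E} (hφ : φ ∈ IsManifold.maximalAtlas 𝓘(ℝ, E) ∞ M)
    (hψ : ψ ∈ IsManifold.maximalAtlas 𝓘(ℝ, E) ∞ M) {x : M} (hx : x ∈ φ.source)
    (hFx : F 0 x ∈ ψ.source) :
    ContDiffAt ℝ r (fun p : P × E => ψ (F p.1 (φ.symm p.2))) (0, φ x) := by
  have hr : ((r : ℕ∞) : WithTop ℕ∞) ≤ ∞ := by exact_mod_cast le_top
  have h1 : ContMDiffAt 𝓘(ℝ, P × E) 𝓘(ℝ, P) r (fun p : P × E => p.1) (0, φ x) :=
    contDiffAt_fst.contMDiffAt
  have h2 : ContMDiffAt 𝓘(ℝ, P × E) 𝓘(ℝ, E) r (fun p : P × E => p.2) (0, φ x) :=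
    contDiffAt_snd.contMDiffAt
  have h3 : ContMDiffAt 𝓘(ℝ, E) 𝓘(ℝ, E) r φ.symm (φ x) :=
    (contMDiffAt_symm_of_mem_maximalAtlas hφ (φ.map_source hx)).of_le hr
  have h4 : ContMDiffAt 𝓘(ℝ, P × E) 𝓘(ℝ, E) r (fun p : P × E => φ.symm p.2) (0, φ x) :=
    ContMDiffAt.comp (0, φ x) (g := φ.symm) h3 h2
  have h5 : ContMDiffAt 𝓘(ℝ, P × E) (𝓘(ℝ, P).prod 𝓘(ℝ, E)) r
      (fun p : P × E => (p.1, φ.symm p.2)) (0, φ x) := h1.prodMk h4
  have hx' : φ.symm (φ x) = x := φ.left_inv hx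
  have h6 : ContMDiffAt 𝓘(ℝ, P × E) 𝓘(ℝ, E) r (fun p : P × E => F p.1 (φ.symm p.2)) (0, φ x) :=
    ContMDiffAt.comp (0, φ x) (g := fun p : P × M => F p.1 p.2) (by
      show ContMDiffAt _ _ _ _ (0, φ.symm (φ x))
      rw [hx']; exact hF x) h5
  have h7 : ContMDiffAt 𝓘(ℝ, E) 𝓘(ℝ, E) r ψ (F 0 x) :=
    (contMDiffAt_of_mem_maximalAtlas hψ hFx).of_le hr
  have h8 : ContMDiffAt 𝓘(ℝ, P × E) 𝓘(ℝ, E) r (fun p : P × E => ψ (F p.1 (φ.symm p.2)))
      (0, φ x) :=
    ContMDiffAt.comp (0, φ x) (g := ψ) (by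
      show ContMDiffAt _ _ _ _ (F 0 (φ.symm (φ x)))
      rw [hx']; exact h7) h6
  exact h8.contDiffAt

/-- A smooth family of diffeomorphisms is continuous in the `C^r` topology. -/
theorem IsFam.tendsto {r : ℕ∞} {F : P → M ≃ₘ^r⟮𝓘(ℝ, E), 𝓘(ℝ, E)⟯ M}
    (hF : IsFam (E := E) r (fun μ => ⇑(F μ))) :
    Tendsto F (𝓝 0) (@nhds _ (crTopology E M r) (F 0)) := by
  rw [show crTopology E M r = TopologicalSpace.generateFrom _ from rfl,
    TopologicalSpace.tendsto_nhds_generateFrom_iff]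
  rintro _ ⟨g, φ, ψ, K, k, ε, hφ, hψ, hK, hKφ, hgK, hk, hε, rfl⟩ ⟨h1, h2⟩
  have ev1 : ∀ᶠ μ in 𝓝 (0 : P), ∀ x ∈ K, F μ x ∈ ψ.source := by
    apply hK.eventually_forall_of_forall_eventually
    intro x hx
    exact (hF.continuousAt x).eventually (ψ.open_source.mem_nhds (h1 x hx))
  have ev2 : ∀ j ∈ Finset.range (k + 1), ∀ᶠ μ in 𝓝 (0 : P), ∀ x ∈ K,
      ‖iteratedFDeriv ℝ j (fun y => ψ (F μ (φ.symm y))) (φ x) -
      iteratedFDeriv ℝ j (fun y => ψ (g (φ.symm y))) (φ x)‖ < ε := by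
    intro j hj
    have hjk : j ≤ k := Nat.lt_succ_iff.mp (Finset.mem_range.mp hj)
    have hjr : ((j : ℕ) : WithTop ℕ∞) ≤ ((r : ℕ∞) : WithTop ℕ∞) := by
      exact_mod_cast (show (j : ℕ∞) ≤ r from (by exact_mod_cast hjk : (j : ℕ∞) ≤ k).trans hk)
    apply hK.eventually_forall_of_forall_eventually
    intro x hx
    have hxs := hKφ hx
    have c1 : ContDiffAt ℝ j (fun p : P × E => ψ (F p.1 (φ.symm p.2))) (0, φ x) :=
      (hF.chart hφ hψ hxs (h1 x hx)).of_le hjr
    have c2 : ContDiffAt ℝ j (fun p : P × E => ψ (g (φ.symm p.2))) (0, φ x) :=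
      ((IsFam.const (P := P) g.contMDiff).chart hφ hψ hxs (hgK x hx)).of_le hjr
    have d1 := continuousAt_partial_iteratedFDeriv c1
    have d2 := continuousAt_partial_iteratedFDeriv c2
    have hφx : ContinuousAt (fun p : P × M => (p.1, φ p.2)) (0, x) :=
      continuousAt_fst.prodMk ((φ.continuousAt hxs).comp continuousAt_snd)
    have d3 := (d1.sub d2).norm
    have d4 : ContinuousAt (fun p : P × M =>
        ‖iteratedFDeriv ℝ j (fun y => ψ (F p.1 (φ.symm y))) (φ p.2) -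
        iteratedFDeriv ℝ j (fun y => ψ (g (φ.symm y))) (φ p.2)‖) (0, x) :=
      ContinuousAt.comp (x := (0, x)) (f := fun p : P × M => (p.1, φ p.2)) d3 hφx
    exact d4.eventually (gt_mem_nhds (h2 j hjk x hx))
  rw [← Filter.eventually_all_finset] at ev2
  filter_upwards [ev1, ev2] with μ hμ1 hμ2
  exact ⟨hμ1, fun j hj x hx => hμ2 j (Finset.mem_range.mpr (Nat.lt_succ_of_le hj)) x hx⟩

end topology

end Pool.Agent.AxA
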