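import Mathlib

/-!
# Stability and Axiom A: definitions

`M` is a manifold without boundary of class `C^∞`, modelled on a finite dimensional real normed
space `E`, and `M ≃ₘ^r⟮𝓘(ℝ, E), 𝓘(ℝ, E)⟯ M` is the set of `C^r` diffeomorphisms of `M`.
-/

set_option autoImplicit false

open Filter Topology Set Bundle
open scoped Manifold ContDiff

namespace Pool.Agent.AxA

section topological

variable {X : Type*} [TopologicalSpace X]

/-- The set of nonwandering points: `x` is nonwandering if for every neighbourhood `U` of `x` there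
is `n > 0` such that `f^n(U)` meets `U`. -/
def nonwandering (f : X → X) : Set X :=
  {x | ∀ U ∈ 𝓝 x, ∃ n > 0, (f^[n] '' U ∩ U).Nonempty}

/-- The point `x` is recurrent: its forward orbit returns to every neighbourhood of `x`. -/
def IsRec (f : X → X) (x : X) : Prop := ∀ U ∈ 𝓝 x, ∃ n > 0, f^[n] x ∈ U

end topological

section manifold

variable {E : Type*} [NormedAddCommGroup E] [NormedSpace ℝ E]
  {M : Type*} [TopologicalSpace M] [ChartedSpace E M]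

/-- The basic sets of the `C^r` topology: the diffeomorphisms `h` such that `h(K)` is contained in
the domain of the chart `ψ` and the derivatives up to order `k` of the local expressions of `h` and
`g` in the charts `φ`, `ψ` differ by less than `ε` at all points of `K`. -/
def crSubbasic {r : ℕ∞} (g : M ≃ₘ^r⟮𝓘(ℝ, E), 𝓘(ℝ, E)⟯ M) (φ ψ : OpenPartialHomeomorph M E)
    (K : Set M) (k : ℕ) (ε : ℝ) : Set (M ≃ₘ^r⟮𝓘(ℝ, E), 𝓘(ℝ, E)⟯ M) :=
  {h | (∀ x ∈ K, h x ∈ ψ.source) ∧ ∀ j ≤ k, ∀ x ∈ K,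
    ‖iteratedFDeriv ℝ j (fun y => ψ (h (φ.symm y))) (φ x) -
      iteratedFDeriv ℝ j (fun y => ψ (g (φ.symm y))) (φ x)‖ < ε}

/-- The `C^r` topology on the set of `C^r` diffeomorphisms of the manifold `M`, generated by the
basic sets for all `g`, all smooth charts `φ`, `ψ`, all compact sets `K` contained in the domain of
`φ` with `g(K)` contained in the domain of `ψ`, all finite orders `k ≤ r` and all `ε > 0`. -/
@[reducible] def crTopology (E : Type*) [NormedAddCommGroup E] [NormedSpace ℝ E]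
    (M : Type*) [TopologicalSpace M] [ChartedSpace E M] (r : ℕ∞) :
    TopologicalSpace (M ≃ₘ^r⟮𝓘(ℝ, E), 𝓘(ℝ, E)⟯ M) :=
  TopologicalSpace.generateFrom
    {N | ∃ (g : M ≃ₘ^r⟮𝓘(ℝ, E), 𝓘(ℝ, E)⟯ M) (φ ψ : OpenPartialHomeomorph M E) (K : Set M)
      (k : ℕ) (ε : ℝ), φ ∈ IsManifold.maximalAtlas 𝓘(ℝ, E) ∞ M ∧
      ψ ∈ IsManifold.maximalAtlas 𝓘(ℝ, E) ∞ M ∧ IsCompact K ∧ K ⊆ φ.source ∧
      (∀ x ∈ K, g x ∈ ψ.source) ∧ (k : ℕ∞) ≤ r ∧ 0 < ε ∧ N = crSubbasic g φ ψ K k ε}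

/-- A diffeomorphism `f` is `Ω`-stable in the `C^r` topology: it has a neighbourhood `N` such that
for all `g ∈ N` there is a homeomorphism `h` from `Ω(f)` to `Ω(g)` with `h ∘ f = g ∘ h` on
`Ω(f)`. -/
def OmegaStable {r : ℕ∞} (f : M ≃ₘ^r⟮𝓘(ℝ, E), 𝓘(ℝ, E)⟯ M) : Prop :=
  ∃ N : Set (M ≃ₘ^r⟮𝓘(ℝ, E), 𝓘(ℝ, E)⟯ M), @IsOpen _ (crTopology E M r) N ∧ f ∈ N ∧
    ∀ g ∈ N, ∃ h : nonwandering f ≃ₜ nonwandering g,
      ∀ x y : nonwandering f, (y : M) = f x → (h y : M) = g (h x)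

variable [IsManifold 𝓘(ℝ, E) ∞ M]

/-- The invariant set `Λ` of the diffeomorphism `f` is hyperbolic. The splitting of the tangent
bundle over `Λ` is given by projections `P x` of the tangent spaces `T_x M`, with `E^s_x` the image
and `E^u_x` the kernel of `P x`: they depend continuously on `x ∈ Λ` and commute with the derivative
of `f`. For some Riemannian metric `ρ` on `M` there are constants `c > 0` and `0 < μ < 1` such that
`‖Df^m v‖ ≤ c μ^m ‖v‖` for `v ∈ E^s` and `‖Df^{-m} v‖ ≤ c μ^m ‖v‖` for `v ∈ E^u`, for all `m ≥ 0`,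
where `‖v‖ = √(ρ(v, v))`. -/
def IsHyperbolic {r : ℕ∞} (f : M ≃ₘ^r⟮𝓘(ℝ, E), 𝓘(ℝ, E)⟯ M) (Λ : Set M) : Prop :=
  ∃ P : ∀ x : M, TangentSpace 𝓘(ℝ, E) x →L[ℝ] TangentSpace 𝓘(ℝ, E) x,
    ContinuousOn (fun x => TotalSpace.mk' (E →L[ℝ] E)
      (E := fun x : M => TangentSpace 𝓘(ℝ, E) x →L[ℝ] TangentSpace 𝓘(ℝ, E) x) x (P x)) Λ ∧
    (∀ x ∈ Λ, P x ∘L P x = P x) ∧
    (∀ x ∈ Λ, mfderiv 𝓘(ℝ, E) 𝓘(ℝ, E) f x ∘L P x = P (f x) ∘L mfderiv 𝓘(ℝ, E) 𝓘(ℝ, E) f x) ∧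
    ∃ ρ : ContMDiffRiemannianMetric 𝓘(ℝ, E) ∞ E (fun x : M => TangentSpace 𝓘(ℝ, E) x),
      ∃ c > 0, ∃ μ : ℝ, 0 < μ ∧ μ < 1 ∧ ∀ x ∈ Λ, ∀ (m : ℕ) (v : TangentSpace 𝓘(ℝ, E) x),
        (P x v = v →
          √(ρ.inner (f^[m] x) (mfderiv 𝓘(ℝ, E) 𝓘(ℝ, E) f^[m] x v)
            (mfderiv 𝓘(ℝ, E) 𝓘(ℝ, E) f^[m] x v)) ≤ c * μ ^ m * √(ρ.inner x v v)) ∧
        (P x v = 0 →
          √(ρ.inner (f.symm^[m] x) (mfderiv 𝓘(ℝ, E) 𝓘(ℝ, E) f.symm^[m] x v)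
            (mfderiv 𝓘(ℝ, E) 𝓘(ℝ, E) f.symm^[m] x v)) ≤ c * μ ^ m * √(ρ.inner x v v))

/-- Axiom A: the nonwandering set is hyperbolic and the periodic points are dense in it. -/
def AxiomA {r : ℕ∞} (f : M ≃ₘ^r⟮𝓘(ℝ, E), 𝓘(ℝ, E)⟯ M) : Prop :=
  IsHyperbolic f (nonwandering f) ∧ nonwandering f ⊆ closure (Function.periodicPts f)

end manifold

end Pool.Agent.AxA
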