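import Pool.Agent.AxA.Spot

/-!
# Robust properties of diffeomorphisms and affine local perturbations
-/

set_option autoImplicit false

open Filter Topology Set
open scoped Manifold ContDiff

namespace Pool.Agent.AxA

section partialderiv

variable {P E F : Type*} [NormedAddCommGroup P] [NormedSpace ℝ P]
  [NormedAddCommGroup E] [NormedSpace ℝ E] [NormedAddCommGroup F] [NormedSpace ℝ F]

theorem hasFDerivAt_partial {Φ : P × E → F} {μ : P} {y : E}
    (h : DifferentiableAt ℝ Φ (μ, y)) :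
    HasFDerivAt (fun y' => Φ (μ, y')) ((fderiv ℝ Φ (μ, y)) ∘L ContinuousLinearMap.inr ℝ P E) y :=
  h.hasFDerivAt.comp y (hasFDerivAt_prodMk_right μ y)

theorem continuousAt_partial_fderiv {Φ : P × E → F} {μ : P} {y : E}
    (hΦ : ContDiffAt ℝ 1 Φ (μ, y)) :
    ContinuousAt (fun p : P × E => fderiv ℝ (fun y' => Φ (p.1, y')) p.2) (μ, y) := by
  have h1 : ∀ᶠ p in 𝓝 (μ, y), ContDiffAt ℝ 1 Φ p := hΦ.eventually (by simp)
  have h2 : ContinuousAt (fun p : P × E => (fderiv ℝ Φ p) ∘L ContinuousLinearMap.inr ℝ P E)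
      (μ, y) := by
    have h3 : ContinuousAt (fderiv ℝ Φ) (μ, y) :=
      (hΦ.fderiv_right (m := 0) (by norm_num)).continuousAt
    exact h3.clm_comp continuousAt_const
  refine h2.congr ?_
  filter_upwards [h1] with p hp
  exact (hasFDerivAt_partial (μ := p.1) (y := p.2) (hp.differentiableAt one_ne_zero)).fderiv.symm

end partialderiv

section

variable {E : Type*} [NormedAddCommGroup E] [NormedSpace ℝ E]
  {M : Type*} [TopologicalSpace M] [ChartedSpace E M]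

/-- the parameter space of affine perturbations -/
abbrev Par (E : Type*) [NormedAddCommGroup E] [NormedSpace ℝ E] := E × (E →L[ℝ] E)

/-- A property of diffeomorphisms is robust if it persists in smooth families. -/
def Rob {r : ℕ∞} (Q : (M ≃ₘ^r⟮𝓘(ℝ, E), 𝓘(ℝ, E)⟯ M) → Prop) : Prop :=
  ∀ F : Par E → M ≃ₘ^r⟮𝓘(ℝ, E), 𝓘(ℝ, E)⟯ M, IsFam (E := E) r (fun μ => ⇑(F μ)) → Q (F 0) →
    ∀ᶠ μ in 𝓝 0, Q (F μ)

theorem Rob.and {r : ℕ∞} {Q Q' : (M ≃ₘ^r⟮𝓘(ℝ, E), 𝓘(ℝ, E)⟯ M) → Prop} (h : Rob Q)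
    (h' : Rob Q') : Rob fun g => Q g ∧ Q' g :=
  fun F hF h0 => (h F hF h0.1).and (h' F hF h0.2)

theorem Rob.forall_finset {r : ℕ∞} {ι : Type*} {s : Finset ι}
    {Q : ι → (M ≃ₘ^r⟮𝓘(ℝ, E), 𝓘(ℝ, E)⟯ M) → Prop} (h : ∀ i ∈ s, Rob (Q i)) :
    Rob fun g => ∀ i ∈ s, Q i g := by
  intro F hF h0
  rw [Filter.eventually_all_finset]
  exact fun i hi => h i hi F hF (h0 i hi)

/-- Open sets of the `C^r` topology are robust. -/
theorem rob_of_isOpen {r : ℕ∞} {N : Set (M ≃ₘ^r⟮𝓘(ℝ, E), 𝓘(ℝ, E)⟯ M)}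
    (hN : @IsOpen _ (crTopology E M r) N) : Rob fun g => g ∈ N := by
  intro F hF h0
  have h1 : N ∈ @nhds _ (crTopology E M r) (F 0) := by
    let _ := crTopology E M r
    exact hN.mem_nhds h0
  exact hF.tendsto h1

/-- disjointness of compact sets persists -/
theorem rob_disjoint [T2Space M] {r : ℕ∞} {K C : Set M} (hK : IsCompact K) (hC : IsClosed C)
    (m : ℕ) : Rob fun g : M ≃ₘ^r⟮𝓘(ℝ, E), 𝓘(ℝ, E)⟯ M => ∀ x ∈ K, g^[m] x ∉ C := by
  intro F hF h0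
  apply hK.eventually_forall_of_forall_eventually
  intro x hx
  exact ((hF.iterate m).continuousAt x).eventually (hC.isOpen_compl.mem_nhds (h0 x hx))

/-- the map in a chart -/
def loc (φ : OpenPartialHomeomorph M E) (g : M → M) (y : E) : E := φ (g (φ.symm y))

theorem contDiffAt_loc {r : ℕ∞} {g : M → M} (hg : ContMDiff 𝓘(ℝ, E) 𝓘(ℝ, E) r g)
    {φ : OpenPartialHomeomorph M E} (hφ : φ ∈ IsManifold.maximalAtlas 𝓘(ℝ, E) ∞ M) {x : M}
    (hx : x ∈ φ.source) (hgx : g x ∈ φ.source) : ContDiffAt ℝ r (loc φ g) (φ x) := by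
  have h1 := (IsFam.const (P := ℝ) hg).chart hφ hφ hx hgx
  have h2 : ContDiffAt ℝ r (fun y : E => ((0 : ℝ), y)) (φ x) :=
    contDiffAt_const.prodMk contDiffAt_id
  exact ContDiffAt.comp (φ x) (g := fun p : ℝ × E => φ (g (φ.symm p.2))) h1 h2

/-- the fixed points of `g ^ n` in `K` are non-degenerate -/
def Good (φ : OpenPartialHomeomorph M E) (K : Set M) (n : ℕ) (g : M → M) : Prop :=
  ∀ x ∈ K, g^[n] x = x → IsUnit (fderiv ℝ (loc φ g^[n]) (φ x) - 1)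

theorem rob_good [T2Space M] [CompleteSpace E] {r : ℕ∞} (hr : 1 ≤ r)
    {φ : OpenPartialHomeomorph M E} (hφ : φ ∈ IsManifold.maximalAtlas 𝓘(ℝ, E) ∞ M) {K : Set M}
    (hK : IsCompact K) (hKφ : K ⊆ φ.source) (n : ℕ) :
    Rob fun g : M ≃ₘ^r⟮𝓘(ℝ, E), 𝓘(ℝ, E)⟯ M => Good φ K n g := by
  intro F hF h0
  have hr' : (1 : WithTop ℕ∞) ≤ ((r : ℕ∞) : WithTop ℕ∞) := by exact_mod_cast hr
  apply hK.eventually_forall_of_forall_eventually
  intro x hx
  by_cases hfix : (F 0)^[n] x = x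
  · have h1 : ContDiffAt ℝ 1 (fun p : Par E × E => φ ((F p.1)^[n] (φ.symm p.2))) (0, φ x) :=
      ((hF.iterate n).chart hφ hφ (hKφ hx) (by rw [hfix]; exact hKφ hx)).of_le hr'
    have h2 := continuousAt_partial_fderiv h1
    have h3 : ContinuousAt (fun p : Par E × M => (p.1, φ p.2)) (0, x) :=
      continuousAt_fst.prodMk ((φ.continuousAt (hKφ hx)).comp continuousAt_snd)
    have h4 : ContinuousAt (fun p : Par E × M =>
        fderiv ℝ (loc φ (F p.1)^[n]) (φ p.2) - 1) (0, x) :=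
      (ContinuousAt.comp (x := (0, x)) (f := fun p : Par E × M => (p.1, φ p.2)) h2 h3).sub
        continuousAt_const
    have h5 : {L : E →L[ℝ] E | IsUnit L} ∈ 𝓝 (fderiv ℝ (loc φ (F 0)^[n]) (φ x) - 1) :=
      Units.isOpen.mem_nhds (h0 x hx hfix)
    filter_upwards [h4.eventually h5] with p hp _
    exact hp
  · have h1 : ContinuousAt (fun p : Par E × M => ((F p.1)^[n] p.2, p.2)) (0, x) :=
      ((hF.iterate n).continuousAt x).prodMk continuousAt_snd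
    have h2 : {q : M × M | q.1 ≠ q.2} ∈ 𝓝 ((F 0)^[n] x, x) :=
      isOpen_ne_fun continuous_fst continuous_snd |>.mem_nhds hfix
    filter_upwards [h1.eventually h2] with p hp hp'
    exact absurd hp' hp

/-- non-degenerate fixed points are isolated -/
theorem isolated_of_isUnit [CompleteSpace E] {r : ℕ∞} (hr : 1 ≤ r) {g : M → M}
    (hg : ContMDiff 𝓘(ℝ, E) 𝓘(ℝ, E) r g)
    {φ : OpenPartialHomeomorph M E} (hφ : φ ∈ IsManifold.maximalAtlas 𝓘(ℝ, E) ∞ M) {x : M}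
    (hx : x ∈ φ.source) (hgx : g x = x) (hu : IsUnit (fderiv ℝ (loc φ g) (φ x) - 1)) :
    ∃ U ∈ 𝓝 x, ∀ y ∈ U, g y = y → y = x := by
  have hr' : (1 : WithTop ℕ∞) ≤ ((r : ℕ∞) : WithTop ℕ∞) := by exact_mod_cast hr
  have h1 : ContDiffAt ℝ 1 (loc φ g) (φ x) :=
    (contDiffAt_loc hg hφ hx (by rw [hgx]; exact hx)).of_le hr'
  have h2 : HasStrictFDerivAt (loc φ g) (fderiv ℝ (loc φ g) (φ x)) (φ x) :=
    h1.hasStrictFDerivAt one_ne_zero
  obtain ⟨u, hu⟩ := hu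
  have h3 : HasStrictFDerivAt (fun y => loc φ g y - y)
      ((ContinuousLinearEquiv.unitsEquiv ℝ E u : E ≃L[ℝ] E) : E →L[ℝ] E) (φ x) := by
    have : ((ContinuousLinearEquiv.unitsEquiv ℝ E u : E ≃L[ℝ] E) : E →L[ℝ] E) =
        fderiv ℝ (loc φ g) (φ x) - ContinuousLinearMap.id ℝ E := by
      rw [show fderiv ℝ (loc φ g) (φ x) - ContinuousLinearMap.id ℝ E = (u : E →L[ℝ] E) from hu.symm]
      rfl
    rw [this]
    exact h2.sub (hasStrictFDerivAt_id _)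
  let e := h3.toOpenPartialHomeomorph (fun y => loc φ g y - y)
  have he : φ x ∈ e.source := h3.mem_toOpenPartialHomeomorph_source
  have hinj : InjOn (fun y => loc φ g y - y) e.source := e.injOn
  have h4 : φ ⁻¹' e.source ∈ 𝓝 x := (φ.continuousAt hx).preimage_mem_nhds
    (e.open_source.mem_nhds he)
  refine ⟨φ ⁻¹' e.source ∩ φ.source, Filter.inter_mem h4 (φ.open_source.mem_nhds hx), ?_⟩
  rintro y ⟨hy1, hy2⟩ hgy
  have h5 : φ y = φ x := by
    apply hinj hy1 he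
    show φ (g (φ.symm (φ y))) - φ y = φ (g (φ.symm (φ x))) - φ x
    rw [φ.left_inv hy2, φ.left_inv hx, hgy, hgx, sub_self, sub_self]
  exact φ.injOn hy2 hx h5

/-- a closed set of isolated points is finite -/
theorem finite_of_isolated {X : Type*} [TopologicalSpace X] {Z : Set X} (hZ : IsCompact Z)
    (h : ∀ x ∈ Z, ∃ U ∈ 𝓝 x, ∀ y ∈ U, y ∈ Z → y = x) : Z.Finite := by
  choose! U hU hUx using h
  obtain ⟨t, ht, hcov⟩ := hZ.elim_nhds_subcover U hU
  refine (t.finite_toSet).subset ?_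
  intro y hy
  obtain ⟨x, hx, hyx⟩ := Set.mem_iUnion₂.mp (hcov hy)
  rw [hUx x (ht x hx) y hyx hy]
  exact hx

/-- **Affine local perturbations.** -/
theorem exists_affine [T2Space M] [FiniteDimensional ℝ E] {φ : OpenPartialHomeomorph M E}
    (hφ : φ ∈ IsManifold.maximalAtlas 𝓘(ℝ, E) ∞ M) {x₀ : M} (hx₀ : x₀ ∈ φ.source) {U : Set M}
    (hU : U ∈ 𝓝 x₀) (r : ℕ∞) :
    ∃ ρ > 0, Metric.closedBall (φ x₀) ρ ⊆ φ.target ∧
      (∀ y ∈ Metric.closedBall (φ x₀) ρ, φ.symm y ∈ U) ∧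
      ∃ τ : Par E → M ≃ₘ^r⟮𝓘(ℝ, E), 𝓘(ℝ, E)⟯ M, (∀ x, τ 0 x = x) ∧
      IsFam (E := E) r (fun μ => ⇑(τ μ)) ∧ (∀ μ x, x ∉ U → τ μ x = x) ∧
      (∀ μ x, x ∈ U → τ μ x ∈ U) ∧
      ∀ᶠ μ in 𝓝 (0 : Par E), ∀ x ∈ φ.source, ‖φ x - φ x₀‖ ≤ ρ →
        τ μ x ∈ φ.source ∧ φ (τ μ x) = φ x + (μ.1 + μ.2 (φ x - φ x₀)) := by
  set c := φ x₀ with hc
  have hct : c ∈ φ.target := φ.map_source hx₀
  have h1 : φ.symm ⁻¹' U ∈ 𝓝 c := by
    apply (φ.continuousAt_symm hct).preimage_mem_nhds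
    rwa [hc, φ.left_inv hx₀]
  obtain ⟨ρ', hρ', hball⟩ := Metric.mem_nhds_iff.mp (Filter.inter_mem (φ.open_target.mem_nhds hct) h1)
  set ρ := ρ' / 4 with hρ
  have hρ0 : 0 < ρ := by positivity
  have hS : Metric.closedBall c (2 * ρ) ⊆ φ.target := fun y hy => (hball
    (Metric.closedBall_subset_ball (by rw [hρ]; linarith) hy)).1
  have hSU : ∀ y ∈ Metric.closedBall c (2 * ρ), φ.symm y ∈ U := fun y hy => (hball
    (Metric.closedBall_subset_ball (by rw [hρ]; linarith) hy)).2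
  let χ : ContDiffBump c := ⟨ρ, 2 * ρ, hρ0, by linarith⟩
  let L₁ : E → (Par E →L[ℝ] E) := fun y =>
    ContinuousLinearMap.fst ℝ E (E →L[ℝ] E) +
      (ContinuousLinearMap.apply ℝ E (y - c)) ∘L ContinuousLinearMap.snd ℝ E (E →L[ℝ] E)
  have hL₁ : ContDiff ℝ ∞ L₁ := by
    apply contDiff_const.add
    have h2 : ContDiff ℝ ∞ (fun y : E => (ContinuousLinearMap.apply ℝ E (y - c) :
        (E →L[ℝ] E) →L[ℝ] E)) :=
      (ContinuousLinearMap.apply ℝ E : E →L[ℝ] (E →L[ℝ] E) →L[ℝ] E).contDiff.comp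
        (contDiff_id.sub contDiff_const)
    exact h2.clm_comp contDiff_const
  let Φ : E → (Par E →L[ℝ] E) := fun y => (χ y • ContinuousLinearMap.id ℝ E) ∘L L₁ y
  have hΦ : ContDiff ℝ ∞ Φ := by
    have h2 : ContDiff ℝ ∞ (fun y => χ y • ContinuousLinearMap.id ℝ E) :=
      χ.contDiff.smul contDiff_const
    exact h2.clm_comp hL₁
  have hΦS : ∀ y ∉ Metric.closedBall c (2 * ρ), Φ y = 0 := by
    intro y hy
    have h2 : χ y = 0 := by
      apply χ.zero_of_le_dist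
      rw [Metric.mem_closedBall, not_le] at hy
      exact hy.le
    show (χ y • ContinuousLinearMap.id ℝ E) ∘L L₁ y = 0
    rw [h2, zero_smul, ContinuousLinearMap.zero_comp]
  obtain ⟨τ, hτ0, hτF, hτS, hτev⟩ := exists_family hφ hΦ hS (isCompact_closedBall _ _) hΦS r
  have hsupp : ∀ μ x, x ∉ U → τ μ x = x := by
    intro μ x hx
    apply hτS
    rintro ⟨y, hy, rfl⟩
    exact hx (hSU y hy)
  refine ⟨ρ, hρ0, fun y hy => hS (Metric.closedBall_subset_closedBall (by linarith) hy),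
    fun y hy => hSU y (Metric.closedBall_subset_closedBall (by linarith) hy), τ, hτ0, hτF,
    hsupp, ?_, ?_⟩
  · intro μ x hx
    by_contra h
    have h2 := hsupp μ _ h
    have h3 : τ μ x = x := (τ μ).injective h2
    rw [h3] at h
    exact h hx
  · filter_upwards [hτev] with μ hμ x hx hxρ
    obtain ⟨h2, h3⟩ := hμ x hx
    refine ⟨h2, ?_⟩
    rw [h3]
    congr 1
    show ((χ (φ x) • ContinuousLinearMap.id ℝ E) ∘L L₁ (φ x)) μ = _
    have h4 : χ (φ x) = 1 := χ.one_of_mem_closedBall (by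
      rw [mem_closedBall_iff_norm]; exact hxρ)
    rw [h4, one_smul]
    rfl

end

end Pool.Agent.AxA
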