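import Pool.Agent.AxA.Riem

/-!
# Axiom A for finite hyperbolic nonwandering sets
-/

set_option autoImplicit false

open Filter Topology Set TopologicalSpace Bundle
open scoped Manifold ContDiff

namespace Pool.Agent.AxA

variable {E : Type*} [NormedAddCommGroup E] [NormedSpace ℝ E]
  {M : Type*} [TopologicalSpace M] [ChartedSpace E M]

theorem MD_iter_add {r : ℕ∞} (hr : 1 ≤ r) {g : M → M} (hg : ContMDiff 𝓘(ℝ, E) 𝓘(ℝ, E) r g)
    (s t : ℕ) (x : M) (v : E) :
    MD E (g^[s + t]) x v = MD E (g^[s]) (g^[t] x) (MD E (g^[t]) x v) := by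
  have h1 : g^[s + t] = fun y => g^[s] (g^[t] y) := by
    funext y
    exact Function.iterate_add_apply _ _ _ _
  rw [h1, MD_comp (mdiff_of_le hr (contMDiff_iterate hg s) _)
    (mdiff_of_le hr (contMDiff_iterate hg t) _)]
  rfl

theorem MD_iter_period {r : ℕ∞} (hr : 1 ≤ r) {g : M → M} (hg : ContMDiff 𝓘(ℝ, E) 𝓘(ℝ, E) r g)
    {x : M} {n : ℕ} (hx : g^[n] x = x) (s k : ℕ) (v : E) :
    MD E (g^[s + n * k]) x v = MD E (g^[s]) x ((MD E (g^[n]) x)^[k] v) := by
  induction k generalizing v with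
  | zero => rfl
  | succ k ih =>
    rw [Function.iterate_succ_apply, show s + n * (k + 1) = (s + n * k) + n by ring,
      MD_iter_add hr hg, hx, ih]

theorem MD_inv {r : ℕ∞} (hr : 1 ≤ r) (f : M ≃ₘ^r⟮𝓘(ℝ, E), 𝓘(ℝ, E)⟯ M) (m : ℕ) (x : M) (v : E) :
    MD E (f.symm^[m]) (f^[m] x) (MD E (f^[m]) x v) = v := by
  have h1 : MD E (fun y => f.symm^[m] (f^[m] y)) x = MD E (fun y => y) x := by
    congr 1
    funext y
    exact (symm_iterate f m y).1
  rw [MD_comp (mdiff_of_le hr (contMDiff_iterate f.symm.contMDiff m) _)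
    (mdiff_of_le hr (contMDiff_iterate f.contMDiff m) _), MD_id] at h1
  exact DFunLike.congr_fun h1 v

theorem MD_zero (g : M → M) (x : M) (v : E) : MD E (g^[0]) x v = v := by
  have : MD E (g^[0]) x = 1 := MD_id
  rw [this]
  rfl

/-- **Axiom A for finite nonwandering sets.** -/
theorem axiomA_of_finite [T2Space M] [CompactSpace M] [FiniteDimensional ℝ E] [IsManifold 𝓘(ℝ, E) ∞ M] {r : ℕ∞}
    (hr : 1 ≤ r) {f : M ≃ₘ^r⟮𝓘(ℝ, E), 𝓘(ℝ, E)⟯ M} (hΛ : (nonwandering f).Finite)
    (hyp : HypPer E f) : AxiomA f := by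
  classical
  set Λ := nonwandering f with hΛd
  have hmap : ∀ x ∈ Λ, f x ∈ Λ := fun x hx => nonwandering_map f.continuous hx
  have hper : ∀ x ∈ Λ, x ∈ Function.periodicPts f := by
    intro x hx
    have : Finite Λ := hΛ
    let F : Λ → Λ := fun y => ⟨f y, hmap y y.2⟩
    have hF : Function.Injective F := by
      intro y z h
      apply Subtype.ext
      exact f.injective (congrArg Subtype.val h)
    obtain ⟨n, hn, hxn⟩ := hF.mem_periodicPts ⟨x, hx⟩
    refine ⟨n, hn, ?_⟩
    have h1 : ∀ k (y : Λ), ((F^[k] y : Λ) : M) = f^[k] y := by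
      intro k
      induction k with
      | zero => intro y; rfl
      | succ k ih =>
        intro y
        rw [Function.iterate_succ_apply, ih, Function.iterate_succ_apply]
    have h2 := congrArg Subtype.val (show F^[n] ⟨x, hx⟩ = ⟨x, hx⟩ from hxn)
    rw [h1] at h2
    exact h2
  have hmapn : ∀ m, ∀ x ∈ Λ, f^[m] x ∈ Λ := by
    intro m
    induction m with
    | zero => exact fun x hx => hx
    | succ m ih => intro x hx; rw [Function.iterate_succ_apply]; exact ih _ (hmap x hx)
  have hsmap : ∀ x ∈ Λ, f.symm x ∈ Λ := by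
    intro x hx
    obtain ⟨n, hn, hxn⟩ := hper x hx
    have h1 : f^[n] x = x := hxn
    rw [show n = (n - 1) + 1 by omega, Function.iterate_succ_apply'] at h1
    rw [← h1, f.symm_apply_apply]
    exact hmapn _ x hx
  have hsmapn : ∀ m, ∀ x ∈ Λ, f.symm^[m] x ∈ Λ := by
    intro m
    induction m with
    | zero => exact fun x hx => hx
    | succ m ih => intro x hx; rw [Function.iterate_succ_apply]; exact ih _ (hsmap x hx)
  -- splitting at the points of `Λ`
  have hpoint : ∀ x ∈ Λ, IsCompl (Bd fun m => MD E (f^[m]) x) (Bd fun m => MD E (f.symm^[m]) x) ∧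
      (∃ c > 0, ∃ μ : ℝ, 0 < μ ∧ μ < 1 ∧ ∀ v ∈ Bd (fun m => MD E (f^[m]) x), ∀ m,
        ‖MD E (f^[m]) x v‖ ≤ c * μ ^ m * ‖v‖) ∧
      (∃ c > 0, ∃ μ : ℝ, 0 < μ ∧ μ < 1 ∧ ∀ v ∈ Bd (fun m => MD E (f.symm^[m]) x), ∀ m,
        ‖MD E (f.symm^[m]) x v‖ ≤ c * μ ^ m * ‖v‖) := by
    intro x hx
    obtain ⟨n, hn, hn'⟩ := exists_period (show Function.Injective f from f.injective) (hper x hx)
    obtain ⟨hxn, hmin⟩ := hn' x (mem_orb_self x)
    have hxs : f.symm^[n] x = x := by
      conv_lhs => rw [← hxn]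
      exact (symm_iterate f n x).1
    have hA1 : HypLin (MD E (f^[n]) x) := by
      rw [MD_eq_loc (mdiff_of_le hr (contMDiff_iterate f.contMDiff n) x) hxn]
      exact hyp x n hn hxn hmin
    have i1 : ∀ v, MD E (f.symm^[n]) x (MD E (f^[n]) x v) = v := by
      intro v
      have := MD_inv hr f n x v
      rwa [hxn] at this
    have i2 : ∀ v, MD E (f^[n]) x (MD E (f.symm^[n]) x v) = v := by
      intro v
      have := MD_inv hr f.symm n x v
      rw [hxs] at this
      exact this
    let A : E ≃L[ℝ] E := ContinuousLinearEquiv.equivOfInverse (MD E (f^[n]) x)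
      (MD E (f.symm^[n]) x) i1 i2
    have hAe : (A : E →L[ℝ] E) = MD E (f^[n]) x := rfl
    have hAs : (A.symm : E →L[ℝ] E) = MD E (f.symm^[n]) x := rfl
    have hA : HypLin (A : E →L[ℝ] E) := hA1
    have hAsym : HypLin (A.symm : E →L[ℝ] E) := hA.symm
    have hT1 : ∀ s k v, MD E (f^[s + n * k]) x v = MD E (f^[s]) x ((A : E →L[ℝ] E)^[k] v) :=
      fun s k v => MD_iter_period hr f.contMDiff hxn s k v
    have hT2 : ∀ s k v, MD E (f.symm^[s + n * k]) x v =
        MD E (f.symm^[s]) x ((A.symm : E →L[ℝ] E)^[k] v) :=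
      fun s k v => MD_iter_period hr f.symm.contMDiff hxs s k v
    have e1 : (Bd fun m => MD E (f^[m]) x) = Es (A : E →L[ℝ] E) :=
      Bd_eq hn (MD_zero f x) hT1
    have e2 : (Bd fun m => MD E (f.symm^[m]) x) = Es (A.symm : E →L[ℝ] E) :=
      Bd_eq hn (MD_zero f.symm x) hT2
    refine ⟨?_, ?_, ?_⟩
    · rw [e1, e2]
      refine ⟨?_, ?_⟩
      · rw [Submodule.disjoint_def]
        exact fun v h1 h2 => hA.eq_zero_of_mem h1 h2
      · rw [codisjoint_iff]
        exact hA.sup_eq_top
    · rw [e1]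
      exact rate hA hn hT1
    · rw [e2]
      exact rate hAsym hn hT2
  have hP : ∀ x, ∃ P : E →L[ℝ] E, x ∈ Λ →
      (∀ v ∈ Bd (fun m => MD E (f^[m]) x), P v = v) ∧
      (∀ v ∈ Bd (fun m => MD E (f.symm^[m]) x), P v = 0) ∧
      ∀ v, P v ∈ Bd (fun m => MD E (f^[m]) x) ∧ v - P v ∈ Bd (fun m => MD E (f.symm^[m]) x) := by
    intro x
    by_cases hx : x ∈ Λ
    · obtain ⟨P, hP⟩ := exists_proj _ _ (hpoint x hx).1
      exact ⟨P, fun _ => hP⟩
    · exact ⟨0, fun h => absurd h hx⟩
  choose P hP using hP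
  have hcomm : ∀ x ∈ Λ, ∀ v, MD E f x (P x v) = P (f x) (MD E f x v) := by
    intro x hx v
    obtain ⟨h1, h2, h3⟩ := hP x hx
    obtain ⟨h4, h5, h6⟩ := hP (f x) (hmap x hx)
    obtain ⟨ha, hb⟩ := h3 v
    have ha' : MD E f x (P x v) ∈ Bd (fun m => MD E (f^[m]) (f x)) := by
      obtain ⟨C, hC⟩ := ha
      refine ⟨C, fun m => ?_⟩
      have := hC (m + 1)
      rw [MD_iter_add hr f.contMDiff] at this
      exact this
    have hb' : MD E f x (v - P x v) ∈ Bd (fun m => MD E (f.symm^[m]) (f x)) := by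
      obtain ⟨C, hC⟩ := hb
      refine ⟨max C ‖MD E f x (v - P x v)‖, fun m => ?_⟩
      rcases m with _ | m
      · rw [MD_zero]
        exact le_max_right _ _
      · rw [MD_iter_add hr f.symm.contMDiff]
        have e1 : MD E (f.symm^[1]) (f x) (MD E f x (v - P x v)) = v - P x v :=
          MD_inv hr f 1 x (v - P x v)
        have e2 : f.symm^[1] (f x) = x := f.symm_apply_apply x
        rw [e1, e2]
        exact (hC m).trans (le_max_left _ _)
    have h7 : MD E f x v = MD E f x (P x v) + MD E f x (v - P x v) := by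
      rw [← map_add]
      congr 1
      abel
    rw [h7, map_add, h4 _ ha', h5 _ hb', add_zero]
  obtain ⟨ρ⟩ := exists_riemannian (E := E) (M := M)
  refine ⟨⟨P, hΛ.continuousOn _, fun x hx => ?_, fun x hx => ?_, ρ, ?_⟩, fun x hx =>
    subset_closure (hper x hx)⟩
  · ext v
    exact (hP x hx).1 _ ((hP x hx).2.2 v).1
  · ext v
    exact hcomm x hx v
  · -- constants
    have hcmp : ∀ y : M, ∃ a > 0, ∃ a' > 0, ∀ v : E, a * ‖v‖ ≤ √(ρ.inner y v v) ∧
        √(ρ.inner y v v) ≤ a' * ‖v‖ := fun y =>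
      exists_compare (E := E) (ρ.inner y) (fun v hv => ρ.pos y v hv)
    choose a ha a' ha' hcmp using hcmp
    set K : ℝ := ∑ y ∈ hΛ.toFinset, a' y with hK
    have hKle : ∀ y ∈ Λ, a' y ≤ K := fun y hy =>
      Finset.single_le_sum (f := a') (fun z _ => (ha' z).le) (by simpa using hy)
    have key : ∀ t : Finset M, (∀ x ∈ t, x ∈ Λ) → ∃ c > 0, ∃ μ : ℝ, 0 < μ ∧ μ < 1 ∧ ∀ x ∈ t,
        ∀ (m : ℕ) (v : E),
        (P x v = v → √(ρ.inner (f^[m] x) (MD E (f^[m]) x v) (MD E (f^[m]) x v)) ≤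
          c * μ ^ m * √(ρ.inner x v v)) ∧
        (P x v = 0 → √(ρ.inner (f.symm^[m] x) (MD E (f.symm^[m]) x v) (MD E (f.symm^[m]) x v)) ≤
          c * μ ^ m * √(ρ.inner x v v)) := by
      intro t
      induction t using Finset.induction_on with
      | empty => exact fun _ => ⟨1, one_pos, 1 / 2, by norm_num, by norm_num, fun x hx =>
          absurd hx (Finset.notMem_empty x)⟩
      | insert x t hxt ih =>
        intro ht
        obtain ⟨c₀, hc₀, μ₀, hμ₀, hμ₀1, h₀⟩ := ih fun y hy => ht y (Finset.mem_insert_of_mem hy)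
        have hx := ht x (Finset.mem_insert_self _ _)
        obtain ⟨-, ⟨c₁, hc₁, μ₁, hμ₁, hμ₁1, h₁⟩, c₂, hc₂, μ₂, hμ₂, hμ₂1, h₂⟩ := hpoint x hx
        have hKx : 0 < K := (ha' x).trans_le (hKle x hx)
        -- general step
        have step : ∀ (c μ c' μ' : ℝ) (y : M) (v w : E) (m : ℕ), 0 < c → 0 < μ → μ ≤ μ' →
            K * c / a x ≤ c' → y ∈ Λ → ‖w‖ ≤ c * μ ^ m * ‖v‖ →
            √(ρ.inner y w w) ≤ c' * μ' ^ m * √(ρ.inner x v v) := by
          intro c μ c' μ' y v w m hc hμ hμμ' hcc' hy hw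
          have h3 := (hcmp y w).2
          have h4 := (hcmp x v).1
          have hax := ha x
          have h5 : √(ρ.inner y w w) ≤ K * ‖w‖ :=
            h3.trans (mul_le_mul_of_nonneg_right (hKle y hy) (norm_nonneg _))
          have h6 : ‖v‖ ≤ √(ρ.inner x v v) / a x := by
            rw [le_div_iff₀ hax]; linarith
          have h7 : K * ‖w‖ ≤ K * (c * μ ^ m * (√(ρ.inner x v v) / a x)) := by
            apply mul_le_mul_of_nonneg_left _ hKx.le
            refine hw.trans (mul_le_mul_of_nonneg_left h6 (by positivity))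
          have h8 : K * (c * μ ^ m * (√(ρ.inner x v v) / a x)) =
              K * c / a x * (μ ^ m * √(ρ.inner x v v)) := by ring
          have h9 : μ ^ m ≤ μ' ^ m := pow_le_pow_left₀ hμ.le hμμ' m
          have h10 : 0 ≤ √(ρ.inner x v v) := Real.sqrt_nonneg _
          calc √(ρ.inner y w w) ≤ K * c / a x * (μ ^ m * √(ρ.inner x v v)) := by
                rw [← h8]; exact h5.trans h7
            _ ≤ c' * (μ' ^ m * √(ρ.inner x v v)) := by
                apply mul_le_mul hcc' (mul_le_mul_of_nonneg_right h9 h10)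
                · positivity
                · exact le_trans (by positivity) hcc'
            _ = c' * μ' ^ m * √(ρ.inner x v v) := by ring
        set c := max c₀ (max (K * c₁ / a x) (K * c₂ / a x)) with hc
        set μ := max μ₀ (max μ₁ μ₂) with hμ
        have hcc : 0 < c := lt_max_of_lt_left hc₀
        refine ⟨c, hcc, μ, lt_max_of_lt_left hμ₀, max_lt hμ₀1 (max_lt hμ₁1 hμ₂1), ?_⟩
        intro y hy m v
        rcases Finset.mem_insert.mp hy with rfl | hy
        · obtain ⟨h3, h4, h5⟩ := hP y hx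
          constructor
          · intro hv
            have hvm : v ∈ Bd (fun m => MD E (f^[m]) y) := by
              have := (h5 v).1
              rwa [hv] at this
            exact step c₁ μ₁ c μ _ v _ m hc₁ hμ₁
              ((le_max_left _ _).trans (le_max_right _ _))
              ((le_max_left _ _).trans (le_max_right _ _)) (hmapn m y hx) (h₁ v hvm m)
          · intro hv
            have hvm : v ∈ Bd (fun m => MD E (f.symm^[m]) y) := by
              have := (h5 v).2
              rwa [hv, sub_zero] at this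
            exact step c₂ μ₂ c μ _ v _ m hc₂ hμ₂
              ((le_max_right _ _).trans (le_max_right _ _))
              ((le_max_right _ _).trans (le_max_right _ _)) (hsmapn m y hx) (h₂ v hvm m)
        · have hmono : c₀ * μ₀ ^ m * √(ρ.inner y v v) ≤ c * μ ^ m * √(ρ.inner y v v) := by
            apply mul_le_mul_of_nonneg_right _ (Real.sqrt_nonneg _)
            apply mul_le_mul (le_max_left _ _) _ (by positivity) hcc.le
            exact pow_le_pow_left₀ hμ₀.le (le_max_left _ _) m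
          exact ⟨fun hv => ((h₀ y hy m v).1 hv).trans hmono,
            fun hv => ((h₀ y hy m v).2 hv).trans hmono⟩
    obtain ⟨c, hc, μ, hμ, hμ1, h⟩ := key hΛ.toFinset (fun x hx => by simpa using hx)
    exact ⟨c, hc, μ, hμ, hμ1, fun x hx m v => h x (by simpa using hx) m v⟩

end Pool.Agent.AxA
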