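import Pool.Agent.AxA.Homothety

/-!
# Finiteness of the periodic points of a given period
-/

set_option autoImplicit false

open Filter Topology Set
open scoped Manifold ContDiff

namespace Pool.Agent.AxA

variable {E : Type*} [NormedAddCommGroup E] [NormedSpace ℝ E]
  {M : Type*} [TopologicalSpace M] [ChartedSpace E M]

theorem isUnit_of_injective [FiniteDimensional ℝ E] {L : E →L[ℝ] E} (h : ∀ v, L v = 0 → v = 0) :
    IsUnit L := by
  have hinj : Function.Injective (L : E →ₗ[ℝ] E) := by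
    rw [← LinearMap.ker_eq_bot, LinearMap.ker_eq_bot']
    exact h
  let e : E ≃L[ℝ] E := (LinearEquiv.ofInjectiveEndo (L : E →ₗ[ℝ] E) hinj).toContinuousLinearEquiv
  refine ⟨(ContinuousLinearEquiv.unitsEquiv ℝ E).symm e, ?_⟩
  ext v
  rfl

/-- generic scalars -/
theorem exists_scalar [FiniteDimensional ℝ E] {ι : Type*} (t : Finset ι) (A : ι → E →L[ℝ] E)
    {n : ℕ} (hn : 0 < n) {δ : ℝ} (hδ : 0 < δ) :
    ∃ s : ℝ, 0 < s ∧ s < δ ∧ ∀ i ∈ t, IsUnit ((1 + s) ^ n • A i - 1) := by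
  have hinf : (Set.Ioo (0:ℝ) δ).Infinite := Set.Ioo_infinite hδ
  have hfin : ∀ i ∈ t, (Set.Ioo (0:ℝ) δ ∩ (fun s : ℝ => ((1 + s) ^ n)⁻¹) ⁻¹'
      (spectrum ℝ ((A i : E →ₗ[ℝ] E) : Module.End ℝ E))).Finite := by
    intro i _
    apply Set.Finite.of_finite_image (f := fun s : ℝ => ((1 + s) ^ n)⁻¹)
    · refine (Module.End.finite_spectrum ((A i : E →ₗ[ℝ] E) : Module.End ℝ E)).subset ?_
      rintro _ ⟨t, ⟨-, ht⟩, rfl⟩
      exact ht
    · rintro s ⟨⟨hs0, -⟩, -⟩ s' ⟨⟨hs0', -⟩, -⟩ h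
      have h1 : (1 + s) ^ n = (1 + s') ^ n := inv_injective h
      have h2 := (pow_left_inj₀ (by linarith) (by linarith) hn.ne').mp h1
      linarith
  have hfin' : (⋃ i ∈ t, Set.Ioo (0:ℝ) δ ∩ (fun s : ℝ => ((1 + s) ^ n)⁻¹) ⁻¹'
      (spectrum ℝ ((A i : E →ₗ[ℝ] E) : Module.End ℝ E))).Finite :=
    Set.Finite.biUnion t.finite_toSet hfin
  obtain ⟨s, ⟨hs0, hsδ⟩, hs⟩ := (hinf.sdiff hfin').nonempty
  refine ⟨s, hs0, hsδ, fun i hi => ?_⟩
  apply isUnit_of_injective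
  intro v hv
  by_contra hv0
  apply hs
  rw [Set.mem_iUnion₂]
  refine ⟨i, hi, ⟨hs0, hsδ⟩, ?_⟩
  show ((1 + s) ^ n)⁻¹ ∈ spectrum ℝ ((A i : E →ₗ[ℝ] E) : Module.End ℝ E)
  rw [← Module.End.hasEigenvalue_iff_mem_spectrum]
  apply Module.End.hasEigenvalue_of_hasEigenvector (x := v)
  refine ⟨?_, hv0⟩
  rw [Module.End.mem_eigenspace_iff]
  have h1 : (1 + s) ^ n • A i v = v := by
    have : ((1 + s) ^ n • A i - 1) v = (1 + s) ^ n • A i v - v := rfl
    rw [this] at hv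
    exact sub_eq_zero.mp hv
  have h2 : (1 + s) ^ n ≠ 0 := by positivity
  show A i v = _
  conv_rhs => rw [← h1]
  rw [smul_smul, inv_mul_cancel₀ h2, one_smul]

/-- **Finiteness of the periodic points of each period** under stability of the number of
periodic points. -/
theorem finite_fixed [CompactSpace M] [T2Space M] [IsManifold 𝓘(ℝ, E) ∞ M]
    [FiniteDimensional ℝ E] {r : ℕ∞} (hr : 1 ≤ r)
    {R : (M ≃ₘ^r⟮𝓘(ℝ, E), 𝓘(ℝ, E)⟯ M) → Prop} (hR : Rob R) {f : M ≃ₘ^r⟮𝓘(ℝ, E), 𝓘(ℝ, E)⟯ M}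
    (hf : R f) (hcount : ∀ g, R g → ∀ m, Nonempty ({x // f^[m] x = x} ≃ {x // g^[m] x = x})) :
    ∀ n, 0 < n → {x | f^[n] x = x}.Finite := by
  classical
  intro n
  induction n using Nat.strong_induction_on with
  | _ n ih =>
  intro hn
  have hr' : (1 : WithTop ℕ∞) ≤ ((r : ℕ∞) : WithTop ℕ∞) := by exact_mod_cast hr
  -- the points of lower period
  have hΛfin : (⋃ m ∈ Finset.Ioo 0 n, {x | f^[m] x = x}).Finite := by
    apply Set.Finite.biUnion (Finset.finite_toSet _)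
    intro m hm
    have := Finset.mem_Ioo.mp hm
    exact ih m this.2 this.1
  let Λ : Finset M := hΛfin.toFinset
  have hmemΛ : ∀ x, x ∈ Λ ↔ ∃ m, 0 < m ∧ m < n ∧ f^[m] x = x := by
    intro x
    rw [Set.Finite.mem_toFinset, Set.mem_iUnion₂]
    constructor
    · rintro ⟨m, hm, hx⟩
      have := Finset.mem_Ioo.mp hm
      exact ⟨m, this.1, this.2, hx⟩
    · rintro ⟨m, h1, h2, hx⟩
      exact ⟨m, Finset.mem_Ioo.mpr ⟨h1, h2⟩, hx⟩
  have hfΛ : ∀ q ∈ (Λ : Set M), f q ∈ (Λ : Set M) := by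
    intro q hq
    rw [Finset.mem_coe, hmemΛ] at hq ⊢
    obtain ⟨m, h1, h2, h3⟩ := hq
    refine ⟨m, h1, h2, ?_⟩
    rw [← Function.iterate_succ_apply, Function.iterate_succ_apply', h3]
  obtain ⟨τ, hτ0, hτF, -, hτΛ⟩ := exists_homothety (E := E) hr Λ ∅ (Finset.disjoint_empty_right _)
  have hcont : Tendsto (fun s : ℝ => ((0, s • (1 : E →L[ℝ] E)) : Par E)) (𝓝 0) (𝓝 0) := by
    have : Continuous (fun s : ℝ => ((0, s • (1 : E →L[ℝ] E)) : Par E)) := by fun_prop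
    have h := this.tendsto 0
    rw [zero_smul] at h
    exact h
  have hev := hτΛ.and (hcont.eventually (hR.pert hf hτ0 hτF))
  obtain ⟨δ, hδ, hδ'⟩ := Metric.eventually_nhds_iff.mp hev
  obtain ⟨s, hs0, hsδ, hsu⟩ := exists_scalar Λ (fun p => MD E (f^[n]) p) hn hδ
  obtain ⟨hτs, hRg₁⟩ := hδ' (show dist s 0 < δ by
    rw [Real.dist_eq, sub_zero, abs_of_pos hs0]; exact hsδ)
  set g₁ := pert f (τ (0, s • (1 : E →L[ℝ] E))) with hg₁
  have hprod : ∀ p ∈ Λ, ∀ k, g₁^[k] p = f^[k] p ∧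
      MD E (g₁^[k]) p = (1 + s) ^ k • MD E (f^[k]) p := by
    intro p hp k
    obtain ⟨h1, -, h3⟩ := MD_iterate_homothety (mdiff_of_le hr f.contMDiff)
      (mdiff_of_le hr (τ (0, s • (1 : E →L[ℝ] E))).contMDiff) hfΛ (s := s)
      (fun q hq => (hτs q hq).1) (fun q hq => (hτs q hq).2) (Finset.mem_coe.mpr hp) k
    exact ⟨h1, h3⟩
  have hlow : ∀ m, 0 < m → m < n → {x | g₁^[m] x = x} = {x | f^[m] x = x} := by
    intro m hm hmn
    have hfm := ih m hmn hm
    obtain ⟨e⟩ := hcount g₁ hRg₁ m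
    have hgm : {x | g₁^[m] x = x}.Finite := by
      have : Finite {x // f^[m] x = x} := hfm
      have : Finite {x // g₁^[m] x = x} := Finite.of_equiv _ e
      exact this
    refine (Set.eq_of_subset_of_ncard_le ?_ ?_ hgm).symm
    · intro x hx
      have h1 : x ∈ Λ := (hmemΛ x).mpr ⟨m, hm, hmn, hx⟩
      show g₁^[m] x = x
      rw [(hprod x h1 m).1]
      exact hx
    · rw [← Nat.card_coe_set_eq, ← Nat.card_coe_set_eq]
      exact (Nat.card_congr e).ge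
  have hg₁c : ContMDiff 𝓘(ℝ, E) 𝓘(ℝ, E) r (g₁^[n]) := contMDiff_iterate g₁.contMDiff n
  -- local data
  have hlc : LocallyCompactSpace M := ChartedSpace.locallyCompactSpace E M
  let sep : (M → M) → Set M → Prop := fun g C => ∀ m, 0 < m → m < n → ∀ y ∈ C, g^[m] y ∉ C
  have hdata : ∀ x : M, ∃ K : Set M, IsCompact K ∧ K ∈ 𝓝 x ∧ K ⊆ (chartAt E x).source ∧
      (Good (chartAt E x) K n g₁ ∨ ∃ C : Set M, IsCompact C ∧ sep g₁ C ∧
        ∀ Q : (M ≃ₘ^r⟮𝓘(ℝ, E), 𝓘(ℝ, E)⟯ M) → Prop, Rob Q →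
        ∀ g : M ≃ₘ^r⟮𝓘(ℝ, E), 𝓘(ℝ, E)⟯ M, Q g → sep g C →
        ∃ g' : M ≃ₘ^r⟮𝓘(ℝ, E), 𝓘(ℝ, E)⟯ M, Q g' ∧ Good (chartAt E x) K n g') := by
    intro x
    have hφ : chartAt E x ∈ IsManifold.maximalAtlas 𝓘(ℝ, E) ∞ M :=
      IsManifold.chart_mem_maximalAtlas x
    have hxs := mem_chart_source E x
    have hsn : (chartAt E x).source ∈ 𝓝 x := (chartAt E x).open_source.mem_nhds hxs
    by_cases hfix : g₁^[n] x = x
    · by_cases hxΛ : x ∈ Λ
      · -- a point of lower period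
        have h1 : IsUnit (fderiv ℝ (loc (chartAt E x) g₁^[n]) (chartAt E x x) - 1) := by
          rw [← MD_eq_loc ((mdiff_of_le hr hg₁c) x) hfix, (hprod x hxΛ n).2]
          exact hsu x hxΛ
        have h2 : ContDiffAt ℝ 1 (loc (chartAt E x) g₁^[n]) (chartAt E x x) :=
          (contDiffAt_loc hg₁c hφ hxs (by rw [hfix]; exact hxs)).of_le hr'
        have h3 : ContinuousAt (fderiv ℝ (loc (chartAt E x) g₁^[n])) (chartAt E x x) :=
          (h2.fderiv_right (m := 0) (by norm_num)).continuousAt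
        have h4 : ContinuousAt (fun y => fderiv ℝ (loc (chartAt E x) g₁^[n]) (chartAt E x y) - 1)
            x :=
          (ContinuousAt.comp (x := x) (f := chartAt E x) h3
            ((chartAt E x).continuousAt hxs)).sub continuousAt_const
        have h5 : ∀ᶠ y in 𝓝 x,
            IsUnit (fderiv ℝ (loc (chartAt E x) g₁^[n]) (chartAt E x y) - 1) :=
          h4.eventually (Units.isOpen.mem_nhds h1)
        obtain ⟨K, hK, hKs, hKc⟩ := local_compact_nhds (Filter.inter_mem hsn h5)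
        exact ⟨K, hKc, hK, fun y hy => (hKs hy).1, Or.inl fun y hy _ => (hKs hy).2⟩
      · -- a point of minimal period `n`
        have hne : ∀ m, 0 < m → m < n → g₁^[m] x ≠ x := by
          intro m hm hmn h
          apply hxΛ
          rw [hmemΛ]
          refine ⟨m, hm, hmn, ?_⟩
          have : x ∈ {x | g₁^[m] x = x} := h
          rw [hlow m hm hmn] at this
          exact this
        have h1 : ∀ m ∈ Finset.Ioo 0 n, ∃ W ∈ 𝓝 x, ∀ y ∈ W, g₁^[m] y ∉ W := by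
          intro m hm
          have hm' := Finset.mem_Ioo.mp hm
          obtain ⟨U, V, hU, hV, hxU, hxV, hUV⟩ := t2_separation (hne m hm'.1 hm'.2)
          have hcm : ContinuousAt (g₁^[m]) x := (g₁.continuous.iterate m).continuousAt
          refine ⟨V ∩ g₁^[m] ⁻¹' U, Filter.inter_mem (hV.mem_nhds hxV)
            (hcm.preimage_mem_nhds (hU.mem_nhds hxU)), ?_⟩
          rintro y ⟨-, hy⟩ ⟨hy', -⟩
          exact Set.disjoint_left.mp hUV hy hy'
        choose! W hW hW' using h1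
        have hWn : (⋂ m ∈ Finset.Ioo 0 n, W m) ∈ 𝓝 x := by
          rw [Filter.biInter_finset_mem]
          exact hW
        obtain ⟨C, hC, hCs, hCc⟩ := local_compact_nhds hWn
        obtain ⟨K, hKc, hKn, hKs, hspot⟩ := exists_spot hr hφ hxs hC
        refine ⟨K, hKc, hKn, hKs, Or.inr ⟨C, hCc, ?_, ?_⟩⟩
        · intro m hm hmn y hy hy'
          have hmI : m ∈ Finset.Ioo 0 n := Finset.mem_Ioo.mpr ⟨hm, hmn⟩
          have h2 := Set.mem_iInter₂.mp (hCs hy) m hmI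
          have h3 := Set.mem_iInter₂.mp (hCs hy') m hmI
          exact hW' m hmI y h2 h3
        · exact fun Q hQ g hg hsepg => hspot n hn Q hQ g hg hsepg
    · have h1 : ∀ᶠ y in 𝓝 x, g₁^[n] y ≠ y := by
        have : ContinuousAt (fun y => (g₁^[n] y, y)) x :=
          ((g₁.continuous.iterate n).continuousAt).prodMk continuousAt_id
        exact this.eventually ((isOpen_ne_fun continuous_fst continuous_snd).mem_nhds hfix)
      obtain ⟨K, hK, hKs, hKc⟩ := local_compact_nhds (Filter.inter_mem hsn h1)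
      exact ⟨K, hKc, hK, fun y hy => (hKs hy).1, Or.inl fun y hy h => absurd h (hKs hy).2⟩
  choose K hKc hKn hKs hKd using hdata
  obtain ⟨t, -, hcov⟩ := isCompact_univ.elim_nhds_subcover K (fun x _ => hKn x)
  let tA := t.filter fun x => Good (chartAt E x) (K x) n g₁
  let tB := t.filter fun x => ¬ Good (chartAt E x) (K x) n g₁
  have hB : ∀ x ∈ tB, ∃ C : Set M, IsCompact C ∧ sep g₁ C ∧
        ∀ Q : (M ≃ₘ^r⟮𝓘(ℝ, E), 𝓘(ℝ, E)⟯ M) → Prop, Rob Q →
        ∀ g : M ≃ₘ^r⟮𝓘(ℝ, E), 𝓘(ℝ, E)⟯ M, Q g → sep g C →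
        ∃ g' : M ≃ₘ^r⟮𝓘(ℝ, E), 𝓘(ℝ, E)⟯ M, Q g' ∧ Good (chartAt E x) (K x) n g' := by
    intro x hx
    exact (hKd x).resolve_left (Finset.mem_filter.mp hx).2
  choose! C hCc hCsep hCspot using hB
  have hφ : ∀ x : M, chartAt E x ∈ IsManifold.maximalAtlas 𝓘(ℝ, E) ∞ M := fun x =>
    IsManifold.chart_mem_maximalAtlas x
  let Q₀ : (M ≃ₘ^r⟮𝓘(ℝ, E), 𝓘(ℝ, E)⟯ M) → Prop := fun g =>
    (R g ∧ ∀ x ∈ tA, Good (chartAt E x) (K x) n g) ∧
      ∀ x ∈ tB, ∀ m ∈ Finset.Ioo 0 n, ∀ y ∈ C x, g^[m] y ∉ C x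
  have hQ₀ : Rob Q₀ := by
    apply Rob.and
    · apply hR.and
      exact Rob.forall_finset fun x _ => rob_good hr (hφ x) (hKc x) (hKs x) n
    · apply Rob.forall_finset
      intro x hx
      apply Rob.forall_finset
      intro m _
      exact rob_disjoint (hCc x hx) (hCc x hx).isClosed m
  have hsteps : ∀ S : Finset M, S ⊆ tB → ∃ g, Q₀ g ∧ ∀ x ∈ S, Good (chartAt E x) (K x) n g := by
    intro S
    induction S using Finset.induction_on with
    | empty =>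
      intro _
      refine ⟨g₁, ⟨⟨hRg₁, fun x hx => (Finset.mem_filter.mp hx).2⟩, ?_⟩,
        fun x hx => absurd hx (Finset.notMem_empty x)⟩
      intro x hx m hm
      have hm' := Finset.mem_Ioo.mp hm
      exact hCsep x hx m hm'.1 hm'.2
    | insert x S hxS ihS =>
      intro hsub
      have hxB : x ∈ tB := hsub (Finset.mem_insert_self _ _)
      obtain ⟨g, hg, hgS⟩ := ihS ((Finset.subset_insert _ _).trans hsub)
      have hQ' : Rob fun g : M ≃ₘ^r⟮𝓘(ℝ, E), 𝓘(ℝ, E)⟯ M =>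
          Q₀ g ∧ ∀ x ∈ S, Good (chartAt E x) (K x) n g :=
        hQ₀.and (Rob.forall_finset fun x _ => rob_good hr (hφ x) (hKc x) (hKs x) n)
      obtain ⟨g', ⟨hg'1, hg'2⟩, hg'3⟩ := hCspot x hxB _ hQ' g ⟨hg, hgS⟩ (fun m hm hmn =>
        hg.2 x hxB m (Finset.mem_Ioo.mpr ⟨hm, hmn⟩))
      refine ⟨g', hg'1, ?_⟩
      intro y hy
      rcases Finset.mem_insert.mp hy with rfl | hy
      · exact hg'3
      · exact hg'2 y hy
  obtain ⟨g, hg, hgB⟩ := hsteps tB (Finset.Subset.refl _)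
  have hgood : ∀ x ∈ t, Good (chartAt E x) (K x) n g := by
    intro x hx
    by_cases h : Good (chartAt E x) (K x) n g₁
    · exact hg.1.2 x (Finset.mem_filter.mpr ⟨hx, h⟩)
    · exact hgB x (Finset.mem_filter.mpr ⟨hx, h⟩)
  have hgfin : {x | g^[n] x = x}.Finite := by
    apply finite_of_isolated
    · apply IsClosed.isCompact
      exact isClosed_eq (g.continuous.iterate n) continuous_id
    · intro y hy
      obtain ⟨x, hx, hyx⟩ := Set.mem_iUnion₂.mp (hcov (Set.mem_univ y))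
      obtain ⟨U, hU, hU'⟩ := isolated_of_isUnit hr (contMDiff_iterate g.contMDiff n) (hφ x)
        (hKs x hyx) hy (hgood x hx y hyx hy)
      exact ⟨U, hU, fun z hz hz' => hU' z hz hz'⟩
  obtain ⟨e⟩ := hcount g hg.1.1 n
  have : Finite {x // g^[n] x = x} := hgfin
  have : Finite {x // f^[n] x = x} := Finite.of_equiv _ e.symm
  exact this

end Pool.Agent.AxA
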