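import Pool.Agent.AxA.Fam

/-!
# Generic finiteness of the periodic points
-/

set_option autoImplicit false

open Filter Topology Set
open scoped Manifold ContDiff

namespace Pool.Agent.AxA

variable {E : Type*} [NormedAddCommGroup E] [NormedSpace ℝ E]
  {M : Type*} [TopologicalSpace M] [ChartedSpace E M]

/-- perturbation of `g` by `τ` -/
noncomputable def pert {r : ℕ∞} (g τ : M ≃ₘ^r⟮𝓘(ℝ, E), 𝓘(ℝ, E)⟯ M) : M ≃ₘ^r⟮𝓘(ℝ, E), 𝓘(ℝ, E)⟯ M := τ.trans g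

theorem pert_apply {r : ℕ∞} (g τ : M ≃ₘ^r⟮𝓘(ℝ, E), 𝓘(ℝ, E)⟯ M) (x : M) :
    pert g τ x = g (τ x) := rfl

theorem isFam_pert {r : ℕ∞} (g : M ≃ₘ^r⟮𝓘(ℝ, E), 𝓘(ℝ, E)⟯ M) {P : Type*}
    [NormedAddCommGroup P] [NormedSpace ℝ P] {τ : P → M ≃ₘ^r⟮𝓘(ℝ, E), 𝓘(ℝ, E)⟯ M}
    (hτ : IsFam (E := E) r (fun μ => ⇑(τ μ))) :
    IsFam (E := E) r (fun μ => ⇑(pert g (τ μ))) :=
  (IsFam.const (P := P) g.contMDiff).comp hτ

theorem pert_zero {r : ℕ∞} (g : M ≃ₘ^r⟮𝓘(ℝ, E), 𝓘(ℝ, E)⟯ M) {P : Type*}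
    [NormedAddCommGroup P] [NormedSpace ℝ P] {τ : P → M ≃ₘ^r⟮𝓘(ℝ, E), 𝓘(ℝ, E)⟯ M}
    (hτ : ∀ x, τ 0 x = x) : pert g (τ 0) = g := by
  apply DFunLike.ext
  intro x
  rw [pert_apply, hτ]

theorem Rob.pert {r : ℕ∞} {Q : (M ≃ₘ^r⟮𝓘(ℝ, E), 𝓘(ℝ, E)⟯ M) → Prop} (hQ : Rob Q)
    {g : M ≃ₘ^r⟮𝓘(ℝ, E), 𝓘(ℝ, E)⟯ M} (hg : Q g) {τ : Par E → M ≃ₘ^r⟮𝓘(ℝ, E), 𝓘(ℝ, E)⟯ M}
    (hτ0 : ∀ x, τ 0 x = x) (hτ : IsFam (E := E) r (fun μ => ⇑(τ μ))) :
    ∀ᶠ μ in 𝓝 0, Q (Pool.Agent.AxA.pert g (τ μ)) :=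
  hQ (fun μ => Pool.Agent.AxA.pert g (τ μ)) (isFam_pert g hτ) (by rw [pert_zero g hτ0]; exact hg)

omit [ChartedSpace E M] [TopologicalSpace M] in
/-- iterates of a perturbation supported in a set without early returns -/
theorem iterate_pert {g τ : M → M} {C : Set M} {n : ℕ} (hτ : ∀ x ∉ C, τ x = x)
    (hτC : ∀ x ∈ C, τ x ∈ C) (hsep : ∀ m, 0 < m → m < n → ∀ x ∈ C, g^[m] x ∉ C) {x : M}
    (hx : x ∈ C) : ∀ m, 0 < m → m ≤ n → (fun x => g (τ x))^[m] x = g^[m] (τ x) := by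
  intro m
  induction m with
  | zero => intro h; exact absurd h (lt_irrefl _)
  | succ m ih =>
    intro _ hm
    rcases Nat.eq_zero_or_pos m with h | h
    · subst h; rfl
    · rw [Function.iterate_succ_apply', ih h (by omega), Function.iterate_succ_apply' g]
      rw [hτ _ (hsep m h (by omega) _ (hτC x hx))]

/-- Spots: a fixed neighbourhood in which all fixed points of the `n`-th iterate can be made
non-degenerate. -/
theorem exists_spot [T2Space M] [FiniteDimensional ℝ E] {r : ℕ∞} (hr : 1 ≤ r)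
    {φ : OpenPartialHomeomorph M E}
    (hφ : φ ∈ IsManifold.maximalAtlas 𝓘(ℝ, E) ∞ M) {x₀ : M} (hx₀ : x₀ ∈ φ.source) {C : Set M}
    (hC : C ∈ 𝓝 x₀) : ∃ K : Set M, IsCompact K ∧ K ∈ 𝓝 x₀ ∧ K ⊆ φ.source ∧
      ∀ n : ℕ, 0 < n → ∀ Q : (M ≃ₘ^r⟮𝓘(ℝ, E), 𝓘(ℝ, E)⟯ M) → Prop, Rob Q →
        ∀ g : M ≃ₘ^r⟮𝓘(ℝ, E), 𝓘(ℝ, E)⟯ M, Q g →
        (∀ m, 0 < m → m < n → ∀ x ∈ C, g^[m] x ∉ C) →
        ∃ g' : M ≃ₘ^r⟮𝓘(ℝ, E), 𝓘(ℝ, E)⟯ M, Q g' ∧ Good φ K n g' := by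
  classical
  obtain ⟨ρ, hρ, htar, hinC, τ, hτ0, hτF, hτC, hτC', hτev⟩ := exists_affine hφ hx₀ hC r
  have hr' : (1 : WithTop ℕ∞) ≤ ((r : ℕ∞) : WithTop ℕ∞) := by exact_mod_cast hr
  set c := φ x₀ with hc
  have hhalf : Metric.closedBall c (ρ / 2) ⊆ φ.target :=
    (Metric.closedBall_subset_closedBall (by linarith)).trans htar
  refine ⟨φ.symm '' Metric.closedBall c (ρ / 2),
    (isCompact_closedBall c (ρ / 2)).image_of_continuousOn (φ.continuousOn_symm.mono hhalf),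
    ?_, ?_, ?_⟩
  · have h1 : φ ⁻¹' Metric.closedBall c (ρ / 2) ∈ 𝓝 x₀ :=
      (φ.continuousAt hx₀).preimage_mem_nhds (Metric.closedBall_mem_nhds _ (by positivity))
    filter_upwards [h1, φ.open_source.mem_nhds hx₀] with x hx hxs
    exact ⟨φ x, hx, φ.left_inv hxs⟩
  · rintro _ ⟨y, hy, rfl⟩
    exact φ.map_target (hhalf hy)
  intro n hn Q hQ g hg hsep
  let H : E → E := loc φ g^[n]
  have hgn : ContMDiff 𝓘(ℝ, E) 𝓘(ℝ, E) r (g^[n]) := by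
    have h1 := (IsFam.const (P := ℝ) g.contMDiff).iterate n
    intro x
    have h2 : ContMDiffAt 𝓘(ℝ, E) (𝓘(ℝ, ℝ).prod 𝓘(ℝ, E)) r (fun x : M => ((0 : ℝ), x)) x :=
      contMDiffAt_const.prodMk contMDiffAt_id
    exact ContMDiffAt.comp x (g := fun p : ℝ × M => g^[n] p.2) (h1 x) h2
  let S : Set E := {w | w ∈ Metric.closedBall c ρ ∧ g^[n] (φ.symm w) ∈ φ.source ∧
    ¬ IsUnit (fderiv ℝ H w - 1)}
  let Θ : E → E := fun w => w - H w
  -- Sard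
  borelize E
  have hnull : MeasureTheory.Measure.addHaar (Θ '' S) = 0 := by
    apply MeasureTheory.addHaar_image_eq_zero_of_det_fderivWithin_eq_zero
      (f' := fun w => ContinuousLinearMap.id ℝ E - fderiv ℝ H w)
    · rintro w ⟨hw1, hw2, -⟩
      have h1 : ContDiffAt ℝ r (loc φ g^[n]) (φ (φ.symm w)) :=
        contDiffAt_loc hgn hφ (φ.map_target (htar hw1)) hw2
      rw [φ.right_inv (htar hw1)] at h1
      have h2 : DifferentiableAt ℝ H w :=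
        (h1.of_le hr').differentiableAt one_ne_zero
      exact ((hasFDerivAt_id w).sub h2.hasFDerivAt).hasFDerivWithinAt
    · rintro w ⟨-, -, hw3⟩
      by_contra hdet
      apply hw3
      have h1 : IsUnit (ContinuousLinearMap.id ℝ E - fderiv ℝ H w) := by
        let e := ContinuousLinearMap.toContinuousLinearEquivOfDetNeZero _ hdet
        exact ⟨(ContinuousLinearEquiv.unitsEquiv ℝ E).symm e, rfl⟩
      have h2 : fderiv ℝ H w - 1 = -(ContinuousLinearMap.id ℝ E - fderiv ℝ H w) := by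
        rw [neg_sub]; rfl
      rw [h2]
      exact h1.neg
  -- the choice of the translation
  have hcont : Tendsto (fun v : E => ((v, 0) : Par E)) (𝓝 0) (𝓝 0) := by
    have : Continuous (fun v : E => ((v, 0) : Par E)) := by fun_prop
    exact this.tendsto 0
  have hV : ∀ᶠ v in 𝓝 (0 : E), Q (pert g (τ (v, 0))) ∧
      (∀ x ∈ φ.source, ‖φ x - c‖ ≤ ρ → τ (v, 0) x ∈ φ.source ∧ φ (τ (v, 0) x) = φ x + v) ∧
      ‖v‖ ≤ ρ / 2 := by
    have h1 := hcont.eventually (hQ.pert hg hτ0 hτF)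
    have h2 := hcont.eventually hτev
    have h3 : ∀ᶠ v in 𝓝 (0 : E), ‖v‖ ≤ ρ / 2 := by
      filter_upwards [Metric.closedBall_mem_nhds (0 : E) (show 0 < ρ / 2 by positivity)] with v hv
      simpa using hv
    filter_upwards [h1, h2, h3] with v hv1 hv2 hv3
    refine ⟨hv1, fun x hx hxρ => ?_, hv3⟩
    have := hv2 x hx hxρ
    simpa using this
  obtain ⟨V, hVs, hVo, hV0⟩ := mem_nhds_iff.mp hV
  obtain ⟨v, hvV, hvB⟩ : ∃ v ∈ V, v ∉ Θ '' S := by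
    by_contra hcon
    push Not at hcon
    have h1 : MeasureTheory.Measure.addHaar V ≤ MeasureTheory.Measure.addHaar (Θ '' S) :=
      MeasureTheory.measure_mono hcon
    rw [hnull] at h1
    exact (hVo.measure_pos MeasureTheory.Measure.addHaar ⟨0, hV0⟩).not_ge h1
  obtain ⟨hv1, hv2, hv3⟩ := hVs hvV
  refine ⟨pert g (τ (v, 0)), hv1, ?_⟩
  have hiter : ∀ x ∈ C, (pert g (τ (v, 0)))^[n] x = g^[n] (τ (v, 0) x) := fun x hx =>
    iterate_pert (C := C) (hτC (v, 0)) (hτC' (v, 0)) hsep hx n hn le_rfl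
  rintro _ ⟨y, hy, rfl⟩ hfix
  have hys : φ.symm y ∈ φ.source := φ.map_target (hhalf hy)
  have hyρ : y ∈ Metric.closedBall c ρ := Metric.closedBall_subset_closedBall (by linarith) hy
  have hyC : φ.symm y ∈ C := hinC y hyρ
  have hφy : φ (φ.symm y) = y := φ.right_inv (hhalf hy)
  rw [hiter _ hyC] at hfix
  obtain ⟨hτs, hτe⟩ := hv2 (φ.symm y) hys (by
    rw [hφy]; exact (mem_closedBall_iff_norm.mp hyρ))
  rw [hφy] at hτe
  have hw : y + v ∈ Metric.closedBall c ρ := by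
    rw [mem_closedBall_iff_norm] at hy ⊢
    calc ‖y + v - c‖ = ‖(y - c) + v‖ := by congr 1; abel
      _ ≤ ‖y - c‖ + ‖v‖ := norm_add_le _ _
      _ ≤ ρ := by linarith
  have hτx : φ.symm (y + v) = τ (v, 0) (φ.symm y) := by rw [← hτe, φ.left_inv hτs]
  have hH : H (y + v) = y := by
    show φ (g^[n] (φ.symm (y + v))) = y
    rw [hτx, hfix, hφy]
  have hunit : IsUnit (fderiv ℝ H (y + v) - 1) := by
    by_contra hnu
    apply hvB
    refine ⟨y + v, ⟨hw, ?_, hnu⟩, ?_⟩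
    · rw [hτx, hfix]; exact hys
    · show y + v - H (y + v) = v
      rw [hH]; abel
  have hder : fderiv ℝ (loc φ (pert g (τ (v, 0)))^[n]) (φ (φ.symm y)) = fderiv ℝ H (y + v) := by
    rw [hφy]
    have hev : loc φ (pert g (τ (v, 0)))^[n] =ᶠ[𝓝 y] fun y' => H (y' + v) := by
      have h1 : Metric.ball c ρ ∈ 𝓝 y := Metric.isOpen_ball.mem_nhds (by
        rw [mem_closedBall_iff_norm] at hy
        rw [mem_ball_iff_norm]
        linarith)
      filter_upwards [h1] with y' hy'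
      have hy'ρ : y' ∈ Metric.closedBall c ρ := Metric.ball_subset_closedBall hy'
      have h2 : φ.symm y' ∈ φ.source := φ.map_target (htar hy'ρ)
      have h3 : φ (φ.symm y') = y' := φ.right_inv (htar hy'ρ)
      obtain ⟨h4, h5⟩ := hv2 (φ.symm y') h2 (by
        rw [h3]; exact mem_closedBall_iff_norm.mp hy'ρ)
      show φ ((pert g (τ (v, 0)))^[n] (φ.symm y')) = φ (g^[n] (φ.symm (y' + v)))
      rw [hiter _ (hinC y' hy'ρ)]
      congr 2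
      rw [← φ.left_inv h4, h5, h3]
    rw [hev.fderiv_eq, fderiv_comp_add_right]
  rw [hder]
  exact hunit

end Pool.Agent.AxA
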