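import Pool.Agent.AxA.Shadow
import Pool.Agent.AxA.Create

/-!
# Periodic orbits near a transverse homoclinic orbit
-/

set_option autoImplicit false

open Filter Topology Set

namespace Pool.Agent.AxA

variable {E : Type*} [NormedAddCommGroup E] [NormedSpace ℝ E]
variable {F G : E → E} {a b : ℕ → E}

theorem periodic_val {α : Type*} {L : ℕ} [NeZero L] {g : ℤ → α} (hg : ∀ i, g (i + L) = g i)
    (i : ℤ) : g ((i : ZMod L).val : ℤ) = g i := by
  have hp : Function.Periodic g (L : ℤ) := hg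
  rw [ZMod.val_intCast]
  have h1 : i = i % L + (i / L) * L := by
    have := Int.emod_add_mul_ediv i L
    linarith
  conv_rhs => rw [h1]
  exact ((hp.int_mul (i / L)) _).symm

theorem dm_periodic {T : Set ℤ} {L : ℤ} (hT : ∀ l, l + L ∈ T ↔ l ∈ T) (l : ℤ) :
    dm T (l + L) = dm T l := by
  unfold dm
  congr 1
  ext d
  show l + L + d ∈ T ↔ l + d ∈ T
  rw [show l + L + (d : ℤ) = l + d + L by ring]
  exact hT _

theorem dp_periodic {T : Set ℤ} {L : ℤ} (hT : ∀ l, l + L ∈ T ↔ l ∈ T) (l : ℤ) :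
    dp T (l + L) = dp T l := by
  unfold dp
  congr 1
  ext d
  show l + L - 1 - d ∈ T ↔ l - 1 - d ∈ T
  rw [show l + L - 1 - (d : ℤ) = l - 1 - d + L by ring]
  exact hT _

omit [NormedAddCommGroup E] [NormedSpace ℝ E] in
theorem pso_of_mem {T : Set ℤ} {N : ℕ} (hT : Adm T N) (hN : 2 ≤ N) {l : ℤ} (hl : l ∈ T) :
    pso a b T l = a 0 := by
  have h1 : dm T l = 0 := dm_of_mem hl
  have h2 := hT.le_add l
  rw [h1] at h2
  unfold pso
  rw [if_neg (by omega), h1]

omit [NormedAddCommGroup E] [NormedSpace ℝ E] in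
theorem pso_succ_of_mem {T : Set ℤ} {l : ℤ} (hl : l ∈ T) :
    pso a b T (l + 1) = b 0 := by
  have h1 : dp T (l + 1) = 0 := dp_succ_of_mem hl
  unfold pso
  rw [if_pos (by omega), h1]

/-- The horseshoe theorem. -/
theorem horseshoe [FiniteDimensional ℝ E]
    (hFK : ∀ z ∈ insert (0 : E) (range b ∪ range fun n => a (n + 1)), ContDiffAt ℝ 1 F z)
    (hG : ContDiffAt ℝ 1 G (a 0)) (hA : HypLin (fderiv ℝ F 0))
    (ha : Tendsto a atTop (𝓝 0)) (hb : Tendsto b atTop (𝓝 0))
    (hab : G (a 0) = b 0) (hFb : ∀ n, F (b n) = b (n + 1)) (hFa : ∀ n, F (a (n + 1)) = a n)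
    (htr : ∀ x : ℤ → E, (∀ i, x (i + 1) = homA F G a b i (x i)) → (∃ C, ∀ i, ‖x i‖ ≤ C) →
      ∀ i, x i = 0) {ε : ℝ} (hε : 0 < ε) :
    ∃ N₀ : ℕ, ∀ T : Set ℤ, Adm T N₀ → ∀ L : ℕ, 0 < L → (∀ l, l + (L : ℤ) ∈ T ↔ l ∈ T) →
      ∃ x : ℤ → E, (∀ l, x (l + L) = x l) ∧ (∀ l, ‖x l - pso a b T l‖ ≤ ε) ∧
        ∀ l, psf F G T l (x l) = x (l + 1) := by
  classical
  have hF0 : ContinuousAt (fderiv ℝ F) 0 :=
    ((hFK 0 (mem_insert _ _)).fderiv_right (m := 0) (by norm_num)).continuousAt
  obtain ⟨C, hC, N₁, hest⟩ := pso_estimate hF0 hA ha hb htr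
  set c : ℝ := 1 / (2 * C) with hc
  have hc0 : 0 < c := by positivity
  have hKc : IsCompact (insert (0 : E) (range b ∪ range fun n => a (n + 1))) := by
    have h1 : IsCompact (insert (0 : E) (range b)) := hb.isCompact_insert_range
    have h2 : IsCompact (insert (0 : E) (range fun n => a (n + 1))) :=
      (ha.comp (tendsto_add_atTop_nat 1)).isCompact_insert_range
    have h3 := h1.union h2
    convert h3 using 1
    ext x
    simp only [mem_insert_iff, mem_union]
    tauto
  obtain ⟨ρ₁, hρ₁, happF⟩ := uniform_approx hKc hFK hc0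
  obtain ⟨ρ₂, hρ₂, happG⟩ := uniform_approx (F := G) (K := {a 0}) isCompact_singleton
    (by rintro z rfl; exact hG) hc0
  set ρ : ℝ := min ε (min ρ₁ ρ₂) with hρ
  have hρ0 : 0 < ρ := by positivity
  have hCc : C⁻¹ - c = c := by
    rw [hc]; field_simp; norm_num
  obtain ⟨Ra, hRa⟩ := Metric.tendsto_atTop.mp ha (c * ρ / 2) (by positivity)
  obtain ⟨Rb, hRb⟩ := Metric.tendsto_atTop.mp hb (c * ρ / 2) (by positivity)
  refine ⟨N₁ + 2 * (Ra + Rb) + 4, ?_⟩
  intro T hT L hL hper
  have : NeZero L := ⟨hL.ne'⟩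
  have hT1 : Adm T N₁ := ⟨fun l hl j h1 h2 => hT.gap l hl j h1 (by omega), hT.next, hT.prev⟩
  have hpsoP : ∀ i : ℤ, pso a b T (i + L) = pso a b T i := by
    intro i
    unfold pso
    rw [dm_periodic hper, dp_periodic hper]
  have hpsfP : ∀ i : ℤ, psf F G T (i + L) = psf F G T i := by
    intro i
    unfold psf
    simp only [hper]
  have hpsAP : ∀ i : ℤ, psA F G a b T (i + L) = psA F G a b T i := by
    intro i
    unfold psA
    simp only [hper, hpsoP]
  have hcast : ∀ l : ZMod L, pso a b T ((l + 1).val : ℤ) = pso a b T ((l.val : ℤ) + 1) := by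
    intro l
    have h1 := periodic_val (L := L) hpsoP ((l.val : ℤ) + 1)
    have h2 : (((l.val : ℤ) + 1 : ℤ) : ZMod L) = l + 1 := by
      push_cast
      rw [ZMod.natCast_zmod_val]
    rw [h2] at h1
    exact h1
  have happ : ∀ (l : ZMod L) (x y : E), ‖x - pso a b T (l.val : ℤ)‖ ≤ ρ →
      ‖y - pso a b T (l.val : ℤ)‖ ≤ ρ →
      ‖psf F G T (l.val : ℤ) x - psf F G T (l.val : ℤ) y -
        psA F G a b T (l.val : ℤ) (x - y)‖ ≤ c * ‖x - y‖ := by
    intro l x y hx hy
    by_cases hl : ((l.val : ℤ)) ∈ T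
    · rw [pso_of_mem hT (by omega) hl] at hx hy
      have h1 : psf F G T (l.val : ℤ) = G := by unfold psf; rw [if_pos hl]
      have h2 : psA F G a b T (l.val : ℤ) = fderiv ℝ G (a 0) := by unfold psA; rw [if_pos hl]
      rw [h1, h2]
      exact happG (a 0) rfl x y (hx.trans ((min_le_right _ _).trans (min_le_right _ _)))
        (hy.trans ((min_le_right _ _).trans (min_le_right _ _)))
    · have h1 : psf F G T (l.val : ℤ) = F := by unfold psf; rw [if_neg hl]
      have h2 : psA F G a b T (l.val : ℤ) = fderiv ℝ F (pso a b T (l.val : ℤ)) := by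
        unfold psA; rw [if_neg hl]
      have h3 : pso a b T (l.val : ℤ) ∈ insert (0 : E) (range b ∪ range fun n => a (n + 1)) := by
        unfold pso
        split_ifs
        · exact mem_insert_of_mem _ (Or.inl ⟨_, rfl⟩)
        · refine mem_insert_of_mem _ (Or.inr ⟨dm T (l.val : ℤ) - 1, ?_⟩)
          have := hT.dm_of_not_mem hl
          show a (dm T (l.val : ℤ) - 1 + 1) = a (dm T (l.val : ℤ))
          congr 1
          omega
      rw [h1, h2]
      exact happF _ h3 x y (hx.trans ((min_le_right _ _).trans (min_le_left _ _)))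
        (hy.trans ((min_le_right _ _).trans (min_le_left _ _)))
  have hinv : ∀ (v : ZMod L → E) (r : ℝ),
      (∀ l, ‖v (l + 1) - psA F G a b T (l.val : ℤ) (v l)‖ ≤ r) → ∀ l, ‖v l‖ ≤ C * r := by
    intro v r hv l
    have h1 := hest T hT1 (fun i : ℤ => v (i : ZMod L)) r
      ⟨‖v‖, fun i => norm_le_pi_norm v _⟩ (fun i => by
        have h2 := hv (i : ZMod L)
        rw [periodic_val hpsAP i] at h2
        have h3 : ((i + 1 : ℤ) : ZMod L) = (i : ZMod L) + 1 := by push_cast; rfl
        show ‖v ((i + 1 : ℤ) : ZMod L) - _‖ ≤ r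
        rw [h3]
        exact h2) (l.val : ℤ)
    simpa using h1
  have herr : ∀ l : ZMod L, ‖pso a b T ((l + 1).val : ℤ) -
      psf F G T (l.val : ℤ) (pso a b T (l.val : ℤ))‖ ≤ (C⁻¹ - c) * ρ := by
    intro l
    rw [hcast, hCc]
    by_cases hl : ((l.val : ℤ)) ∈ T
    · rw [pso_of_mem hT (by omega) hl, pso_succ_of_mem hl]
      have h1 : psf F G T (l.val : ℤ) = G := by unfold psf; rw [if_pos hl]
      rw [h1, hab, sub_self, norm_zero]
      positivity
    · have h1 : psf F G T (l.val : ℤ) = F := by unfold psf; rw [if_neg hl]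
      rw [h1]
      have h2 := hT.dm_of_not_mem hl
      have h3 := hT.dp_succ_of_not_mem hl
      have h4 := hT.le_add (l.val : ℤ)
      set p := dp T (l.val : ℤ) with hp
      set d := dm T ((l.val : ℤ) + 1) with hd
      unfold pso
      rw [h3, h2, ← hp, ← hd]
      by_cases h5 : p + 1 ≤ d
      · rw [if_pos h5, if_pos (by omega), hFb, sub_self, norm_zero]
        positivity
      · by_cases h6 : p ≤ d + 1
        · rw [if_neg h5, if_pos h6, hFb]
          have h7 := hRa d (by omega)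
          have h8 := hRb (p + 1) (by omega)
          rw [dist_zero_right] at h7 h8
          refine (norm_sub_le _ _).trans ?_
          linarith
        · rw [if_neg h5, if_neg h6, hFa, sub_self, norm_zero]
          positivity
  obtain ⟨X, hX1, hX2⟩ := cyclic_shadow (n := L) (f := fun l => psf F G T (l.val : ℤ))
    (z := fun l => pso a b T (l.val : ℤ)) (A := fun l => psA F G a b T (l.val : ℤ))
    (ρ := ρ) (c := c) (C := C) hρ0.le hc0.le hC happ hinv herr
  refine ⟨fun i => X (i : ZMod L), ?_, ?_, ?_⟩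
  · intro l
    have h1 : ((l + L : ℤ) : ZMod L) = (l : ZMod L) := by
      push_cast
      rw [ZMod.natCast_self, add_zero]
    show X ((l + L : ℤ) : ZMod L) = X (l : ZMod L)
    rw [h1]
  · intro l
    have h1 := hX1 (l : ZMod L)
    rw [periodic_val hpsoP l] at h1
    exact h1.trans (min_le_left _ _)
  · intro l
    have h1 := hX2 (l : ZMod L)
    rw [periodic_val hpsfP l] at h1
    have h2 : ((l + 1 : ℤ) : ZMod L) = (l : ZMod L) + 1 := by push_cast; rfl
    show psf F G T l (X (l : ZMod L)) = X ((l + 1 : ℤ) : ZMod L)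
    rw [h1, h2]

end Pool.Agent.AxA
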