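import Pool.Agent.AxA.Merge

/-!
# Homoclinic orbits
-/

set_option autoImplicit false

open Filter Topology Set TopologicalSpace
open scoped Manifold ContDiff

namespace Pool.Agent.AxA

variable {E : Type*} [NormedAddCommGroup E] [NormedSpace ℝ E]
  {M : Type*} [MetricSpace M] [ChartedSpace E M]

/-- a homoclinic orbit of a hyperbolic periodic point, seen in a chart -/
structure Homo {r : ℕ∞} (g : M ≃ₘ^r⟮𝓘(ℝ, E), 𝓘(ℝ, E)⟯ M) (φ : OpenPartialHomeomorph M E)
    (p : M) (n n₁ : ℕ) (y : M) : Prop where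
  hφ : φ ∈ IsManifold.maximalAtlas 𝓘(ℝ, E) ∞ M
  hp : p ∈ φ.source
  hn : 0 < n
  hpn : g^[n] p = p
  hn₁ : 0 < n₁
  hyp : HypLin (fderiv ℝ (loc φ g^[n]) (φ p))
  hy : y ∉ Function.periodicPts g
  ha : ∀ k, g.symm^[n * k] y ∈ φ.source
  hb : ∀ k, g^[n₁ + n * k] y ∈ φ.source
  hat : Tendsto (fun k => g.symm^[n * k] y) atTop (𝓝 p)
  hbt : Tendsto (fun k => g^[n₁ + n * k] y) atTop (𝓝 p)
  hba : Tendsto (fun j => Metric.infDist (g.symm^[j] y) (orb g p)) atTop (𝓝 0)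
  hfo : Tendsto (fun j => Metric.infDist (g^[j] y) (orb g p)) atTop (𝓝 0)

/-- transversality of the homoclinic orbit -/
def Trans {r : ℕ∞} (g : M ≃ₘ^r⟮𝓘(ℝ, E), 𝓘(ℝ, E)⟯ M) (φ : OpenPartialHomeomorph M E)
    (n n₁ : ℕ) (y : M) : Prop :=
  ∃ Ba Bb : ℕ → E ≃L[ℝ] E,
    (∀ k, (Ba k : E →L[ℝ] E) = fderiv ℝ (loc φ g^[n]) (φ (g.symm^[n * (k + 1)] y))) ∧
    (∀ k, (Bb k : E →L[ℝ] E) = fderiv ℝ (loc φ g^[n]) (φ (g^[n₁ + n * k] y))) ∧
    ∀ w ∈ Sb (fun k => (Ba k).symm), fderiv ℝ (loc φ g^[n₁]) (φ y) w ∈ Sb Bb → w = 0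

theorem not_periodic_iter {r : ℕ∞} {g : M ≃ₘ^r⟮𝓘(ℝ, E), 𝓘(ℝ, E)⟯ M} {y : M} {s : ℕ}
    (h : g.symm^[s] y ∈ Function.periodicPts g) : y ∈ Function.periodicPts g := by
  obtain ⟨n, hn, hy⟩ := h
  refine ⟨n, hn, ?_⟩
  have h1 : g^[n] (g.symm^[s] y) = g.symm^[s] y := hy
  have h2 := congrArg g^[s] h1
  rw [(symm_iterate g s y).2, ← Function.iterate_add_apply, Nat.add_comm,
    Function.iterate_add_apply, (symm_iterate g s y).2] at h2
  exact h2

/-- **Existence of the chart picture.** -/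
theorem exists_homo [CompactSpace M] [IsManifold 𝓘(ℝ, E) ∞ M]
    {r : ℕ∞} {g : M ≃ₘ^r⟮𝓘(ℝ, E), 𝓘(ℝ, E)⟯ M} (hyp : HypPer E g) {p : M}
    (hp : p ∈ Function.periodicPts g) (hc : Conn g.toHomeomorph p p) :
    ∃ φ q n n₁ y, Homo g φ q n n₁ y := by
  obtain ⟨y, hy, hyb, hyf⟩ := hc
  change Tendsto (fun j => Metric.infDist (g.symm^[j] y) (orb g p)) atTop (𝓝 0) at hyb
  change Tendsto (fun j => Metric.infDist (g^[j] y) (orb g p)) atTop (𝓝 0) at hyf
  obtain ⟨q₀, hq₀, hu'⟩ := fwd_phase g.continuous hp hyf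
  have hps : p ∈ Function.periodicPts g.symm := periodic_symm (f := g.toHomeomorph) hp
  have horb : orb g.symm p = orb g p := orb_symm (f := g.toHomeomorph) hp
  rw [← horb] at hyb
  obtain ⟨q₁, hq₁, hv'⟩ := fwd_phase g.symm.continuous hps hyb
  rw [horb] at hq₁ hyb
  obtain ⟨n, hn, hper⟩ := exists_period g.injective hp
  have hq₀n := (hper q₀ hq₀).1
  have hq₁n := (hper q₁ hq₁).1
  have hq₁s : g.symm^[n] q₁ = q₁ := by
    conv_lhs => rw [← hq₁n]
    exact (symm_iterate g n q₁).1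
  have hu2 := tendsto_mul_phase hn hq₀n hu'
  have hv2 := tendsto_mul_phase hn hq₁s hv'
  obtain ⟨s, hs⟩ : ∃ s, g^[s] q₀ = q₁ := by
    have : q₁ ∈ orb g q₀ := by rw [orb_eq_of_mem hp hq₀]; exact hq₁
    exact this
  have hu3 : Tendsto (fun k => g^[s + n * k] y) atTop (𝓝 q₁) := by
    have h1 := ((g.continuous.iterate s).tendsto q₀).comp hu2
    rw [hs] at h1
    refine h1.congr fun k => ?_
    show g^[s] (g^[n * k] y) = _
    rw [← Function.iterate_add_apply]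
  have hso : (chartAt E q₁).source ∈ 𝓝 q₁ :=
    (chartAt E q₁).open_source.mem_nhds (mem_chart_source E q₁)
  obtain ⟨J₀, hJ₀⟩ := Filter.eventually_atTop.mp
    ((hu3.eventually hso).and (hv2.eventually hso))
  set J := J₀ + 1 with hJ
  have horbq : orb g q₁ = orb g p := orb_eq_of_mem hp hq₁
  refine ⟨chartAt E q₁, q₁, n, n * J + (s + n * J), g.symm^[n * J] y,
    IsManifold.chart_mem_maximalAtlas q₁, mem_chart_source E q₁, hn, hq₁n, ?_,
    hyp q₁ n hn hq₁n (hper q₁ hq₁).2, fun h => hy (not_periodic_iter h), ?_, ?_, ?_, ?_, ?_, ?_⟩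
  · have : 0 < n * J := Nat.mul_pos hn (Nat.succ_pos _)
    omega
  · intro k
    rw [← Function.iterate_add_apply, ← Nat.mul_add]
    exact (hJ₀ _ (by omega)).2
  · intro k
    have e : n * J + (s + n * J) + n * k = (s + n * (k + J)) + n * J := by ring
    rw [e, Function.iterate_add_apply, (symm_iterate g (n * J) y).2]
    exact (hJ₀ _ (by omega)).1
  · refine (hv2.comp (tendsto_add_atTop_nat J)).congr fun k => ?_
    show g.symm^[n * (k + J)] y = _
    rw [← Function.iterate_add_apply, ← Nat.mul_add]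
  · refine (hu3.comp (tendsto_add_atTop_nat J)).congr fun k => ?_
    show g^[s + n * (k + J)] y = _
    have e : n * J + (s + n * J) + n * k = (s + n * (k + J)) + n * J := by ring
    rw [e, Function.iterate_add_apply _ (s + n * (k + J)), (symm_iterate g (n * J) y).2]
  · rw [horbq]
    refine ((Filter.tendsto_add_atTop_iff_nat (n * J)).mpr hyb).congr fun j => ?_
    rw [Function.iterate_add_apply]
  · rw [horbq, ← Filter.tendsto_add_atTop_iff_nat (n * J)]
    refine hyf.congr fun j => ?_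
    rw [Function.iterate_add_apply, (symm_iterate g (n * J) y).2]

end Pool.Agent.AxA
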