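import Pool.Agent.AxA.Homo

/-!
# Making a homoclinic orbit transverse
-/

set_option autoImplicit false

open Filter Topology Set TopologicalSpace
open scoped Manifold ContDiff

namespace Pool.Agent.AxA

variable {E : Type*} [NormedAddCommGroup E] [NormedSpace ℝ E]
  {M : Type*} [MetricSpace M] [ChartedSpace E M]

theorem iterate_succ_sub {r : ℕ∞} (g : M ≃ₘ^r⟮𝓘(ℝ, E), 𝓘(ℝ, E)⟯ M) (x : M) (i : ℕ) :
    g^[i + 1] x = g^[i] (g x) := rfl

omit [NormedSpace ℝ E] [ChartedSpace E M] in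
/-- local expressions of maps which agree near a point -/
theorem loc_congr {φ : OpenPartialHomeomorph M E} {x : M} (hx : x ∈ φ.source) {f f' : M → M}
    (h : ∀ᶠ z in 𝓝 x, f z = f' z) : loc φ f =ᶠ[𝓝 (φ x)] loc φ f' := by
  have h1 : Tendsto φ.symm (𝓝 (φ x)) (𝓝 x) := by
    have := (φ.continuousAt_symm (φ.map_source hx)).tendsto
    rwa [φ.left_inv hx] at this
  filter_upwards [h1.eventually h] with z hz
  show φ (f (φ.symm z)) = φ (f' (φ.symm z))
  rw [hz]

/-- **Transversality by perturbation.** -/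
theorem exists_transverse [FiniteDimensional ℝ E] [CompactSpace M] [IsManifold 𝓘(ℝ, E) ∞ M]
    {r : ℕ∞} (hr : 1 ≤ r) {N : Set (M ≃ₘ^r⟮𝓘(ℝ, E), 𝓘(ℝ, E)⟯ M)}
    (hN : @IsOpen _ (crTopology E M r) N)
    {g : M ≃ₘ^r⟮𝓘(ℝ, E), 𝓘(ℝ, E)⟯ M} (hg : g ∈ N) {φ : OpenPartialHomeomorph M E} {p : M}
    {n n₁ : ℕ} {y : M} (H : Homo g φ p n n₁ y) :
    ∃ g' ∈ N, Homo g' φ p n n₁ y ∧ Trans g' φ n n₁ y := by
  classical
  have hr' : (1 : WithTop ℕ∞) ≤ ((r : ℕ∞) : WithTop ℕ∞) := by exact_mod_cast hr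
  have hpp : p ∈ Function.periodicPts g := ⟨n, H.hn, H.hpn⟩
  have hcl : IsClosed (orb g p) := (orb_finite hpp).isClosed
  have hne : (orb g p).Nonempty := ⟨_, mem_orb_self _⟩
  have hyorb : y ∉ orb g p := fun h => H.hy (periodic_of_mem_orb hpp h)
  have hyφ : y ∈ φ.source := H.ha 0
  have hyn : ∀ j, g^[j + 1] y ≠ y := fun j h => H.hy ⟨j + 1, Nat.succ_pos _, h⟩
  have hyn' : ∀ j, g.symm^[j + 1] y ≠ y := by
    intro j h
    apply hyn j
    conv_lhs => rw [← h]
    exact (symm_iterate g _ y).2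
  -- separation
  have h1 : ∀ᶠ δ : ℝ in 𝓝[>] 0, ∀ j, δ ≤ dist (g^[j + 1] y) y :=
    away hcl hne ((Filter.tendsto_add_atTop_iff_nat 1).mpr H.hfo) hyorb hyn
  have h2 : ∀ᶠ δ : ℝ in 𝓝[>] 0, ∀ j, δ ≤ dist (g.symm^[j + 1] y) y :=
    away hcl hne ((Filter.tendsto_add_atTop_iff_nat 1).mpr H.hba) hyorb hyn'
  have h3 : ∀ᶠ δ : ℝ in 𝓝[>] 0, δ < Metric.infDist y (orb g p) :=
    nhdsWithin_le_nhds (gt_mem_nhds ((hcl.notMem_iff_infDist_pos hne).mp hyorb))
  obtain ⟨δ, ⟨hδ1, hδ2, hδ3⟩, hδ0⟩ := ((h1.and (h2.and h3)).and self_mem_nhdsWithin).exists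
  have hδ : 0 < δ := hδ0
  have hδp : ∀ w ∈ orb g p, δ ≤ dist w y := fun w hw => by
    rw [dist_comm]
    exact hδ3.le.trans (Metric.infDist_le_dist_of_mem hw)
  set U : Set M := Metric.ball y (δ / 2) with hU
  have hUn : U ∈ 𝓝 y := Metric.ball_mem_nhds _ (by positivity)
  obtain ⟨ρ, hρ, htar, hinU, τ, hτ0, hτF, hτU, hτU', hτev⟩ := exists_affine H.hφ hyφ hUn r
  -- the derivatives
  have hgn := contMDiff_iterate g.contMDiff
  have hgn' := contMDiff_iterate g.symm.contMDiff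
  have hequiv : ∀ (m : ℕ) (x : M), x ∈ φ.source → g^[m] x ∈ φ.source → ∃ A : E ≃L[ℝ] E,
      (A : E →L[ℝ] E) = fderiv ℝ (loc φ g^[m]) (φ x) := fun m x hx hx' =>
    exists_equiv_loc hr (hgn m) (hgn' m) (fun x => (symm_iterate g m x).1)
      (fun x => (symm_iterate g m x).2) H.hφ hx hx'
  have hga : ∀ k, g^[n] (g.symm^[n * (k + 1)] y) = g.symm^[n * k] y := by
    intro k
    have e : n * (k + 1) = n + n * k := by ring
    rw [e, Function.iterate_add_apply, (symm_iterate g n _).2]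
  have hgb : ∀ k, g^[n] (g^[n₁ + n * k] y) = g^[n₁ + n * (k + 1)] y := by
    intro k
    rw [← Function.iterate_add_apply, show n + (n₁ + n * k) = n₁ + n * (k + 1) by ring]
  choose Ba hBa using fun k => hequiv n (g.symm^[n * (k + 1)] y) (H.ha _)
    (by rw [hga]; exact H.ha _)
  choose Bb hBb using fun k => hequiv n (g^[n₁ + n * k] y) (H.hb _) (by rw [hgb]; exact H.hb _)
  have hb0 : g^[n₁] y ∈ φ.source := H.hb 0
  obtain ⟨D, hD⟩ := hequiv n₁ y hyφ hb0
  have hdim := finrank_le_of_tendsto hr H.hφ H.hp H.hpn H.hyp H.hat H.hbt hBa hBb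
  set S' : Submodule ℝ E := (Sb Bb).map (D.symm.toLinearEquiv : E →ₗ[ℝ] E) with hS'
  have hS'dim : Module.finrank ℝ S' = Module.finrank ℝ (Sb Bb) :=
    LinearEquiv.finrank_map_eq D.symm.toLinearEquiv (Sb Bb)
  have hS'mem : ∀ w, D w ∈ Sb Bb → w ∈ S' := fun w hw =>
    ⟨D w, hw, D.symm_apply_apply w⟩
  have hcont : Tendsto (fun B : E →L[ℝ] E => ((0, B) : Par E)) (𝓝 0) (𝓝 0) := by
    have : Continuous (fun B : E →L[ℝ] E => ((0, B) : Par E)) := by fun_prop
    exact this.tendsto 0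
  have hev := hcont.eventually (hτev.and ((rob_of_isOpen hN).pert hg hτ0 hτF))
  obtain ⟨ε, hε, hε'⟩ := Metric.eventually_nhds_iff.mp hev
  obtain ⟨B, hB, hBgen⟩ := exists_generic (Sb (fun k => (Ba k).symm)) S'
    (by rw [hS'dim]; exact hdim) hε
  obtain ⟨hτB, hg'N⟩ := hε' (show dist B 0 < ε by rwa [dist_zero_right])
  set σ := τ (0, B) with hσ
  set g' := pert g σ with hg'
  have hσy : σ y = y := by
    obtain ⟨h4, h5⟩ := hτB y hyφ (by rw [sub_self, norm_zero]; exact hρ.le)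
    apply φ.injOn h4 hyφ
    rw [h5, sub_self, map_zero, zero_add, add_zero]
  have hoff : ∀ x ∉ U, g' x = g x := fun x hx => by
    show g (σ x) = g x
    rw [hτU _ _ hx]
  have hoff' : ∀ x ∉ U \ {y}, g' x = g x := by
    intro x hx
    by_cases hxy : x = y
    · show g (σ x) = g x
      rw [hxy, hσy]
    · exact hoff x fun h => hx ⟨h, hxy⟩
  have hfar : ∀ x, δ ≤ dist x y → x ∉ U := fun x hx h => by
    have h4 : dist x y < δ / 2 := h
    linarith
  have hfwd : ∀ j, g'^[j] y = g^[j] y := fun j =>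
    iterate_eq_of_avoid hoff' (k := j) (fun i _ => by
      rcases i with _ | i
      · exact fun h => h.2 rfl
      · exact fun h => hfar _ (hδ1 i) h.1) j le_rfl
  have hback : ∀ j, g'.symm^[j] y = g.symm^[j] y :=
    symm_iterate_eq_of_avoid hoff' (fun i hi => by
      obtain ⟨i, rfl⟩ : ∃ j, i = j + 1 := ⟨i - 1, by omega⟩
      exact fun h => hfar _ (hδ2 i) h.1)
  have hper : ∀ j, g'^[j] p = g^[j] p := fun j =>
    iterate_eq_of_avoid hoff (k := j) (fun i _ => hfar _ (hδp _ ⟨i, rfl⟩)) j le_rfl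
  have horb : orb g' p = orb g p := by
    unfold orb
    congr 1
    funext j
    exact hper j
  have hy' : y ∉ Function.periodicPts g' := by
    rintro ⟨m, hm, hym⟩
    apply H.hy
    refine ⟨m, hm, ?_⟩
    have h4 : g'^[m] y = y := hym
    rw [hfwd] at h4
    exact h4
  -- iterates near points whose orbit segment is far from `y`
  have hnear : ∀ (m : ℕ) (x : M), (∀ i < m, δ ≤ dist (g^[i] x) y) →
      ∀ᶠ z in 𝓝 x, (∀ i < m, g^[i] z ∉ U) ∧ g'^[m] z = g^[m] z := by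
    intro m x hx
    have h4 : ∀ᶠ z in 𝓝 x, ∀ i ∈ Finset.range m, δ / 2 < dist (g^[i] z) y := by
      rw [Filter.eventually_all_finset]
      intro i hi
      have h5 : Continuous fun z => dist (g^[i] z) y :=
        (g.continuous.iterate i).dist continuous_const
      refine h5.continuousAt.eventually (lt_mem_nhds ?_)
      have := hx i (Finset.mem_range.mp hi)
      linarith
    filter_upwards [h4] with z hz
    have h5 : ∀ i < m, g^[i] z ∉ U := fun i hi h => by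
      have h6 := hz i (Finset.mem_range.mpr hi)
      have h7 : dist (g^[i] z) y < δ / 2 := h
      linarith
    exact ⟨h5, iterate_eq_of_avoid hoff h5 m le_rfl⟩
  have hfd : ∀ (m : ℕ) (x : M), x ∈ φ.source → (∀ i < m, δ ≤ dist (g^[i] x) y) →
      fderiv ℝ (loc φ g'^[m]) (φ x) = fderiv ℝ (loc φ g^[m]) (φ x) := fun m x hx h =>
    (loc_congr hx ((hnear m x h).mono fun z hz => hz.2)).fderiv_eq
  have hBa' : ∀ k, (Ba k : E →L[ℝ] E) = fderiv ℝ (loc φ g'^[n]) (φ (g'.symm^[n * (k + 1)] y)) := by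
    intro k
    rw [hback, hBa k]
    symm
    apply hfd _ _ (H.ha _)
    intro i hi
    have e : n ≤ n * (k + 1) := Nat.le_mul_of_pos_right _ (Nat.succ_pos _)
    rw [(symm_sub g (by omega) y).1]
    have := hδ2 (n * (k + 1) - i - 1)
    rwa [show n * (k + 1) - i - 1 + 1 = n * (k + 1) - i by omega] at this
  have hBb' : ∀ k, (Bb k : E →L[ℝ] E) = fderiv ℝ (loc φ g'^[n]) (φ (g'^[n₁ + n * k] y)) := by
    intro k
    rw [hfwd, hBb k]
    symm
    apply hfd _ _ (H.hb _)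
    intro i hi
    rw [← Function.iterate_add_apply]
    have := hδ1 (i + (n₁ + n * k) - 1)
    have h4 := H.hn₁
    rwa [show i + (n₁ + n * k) - 1 + 1 = i + (n₁ + n * k) by omega] at this
  have hyp' : fderiv ℝ (loc φ g'^[n]) (φ p) = fderiv ℝ (loc φ g^[n]) (φ p) :=
    hfd n p H.hp fun i _ => hδp _ ⟨i, rfl⟩
  -- the derivative at `y`
  have hn₁ := H.hn₁
  have hDy : fderiv ℝ (loc φ g'^[n₁]) (φ y) = (D : E →L[ℝ] E) ∘L (ContinuousLinearMap.id ℝ E + B) := by
    have h4 : ∀ᶠ z in 𝓝 (g y), g'^[n₁ - 1] z = g^[n₁ - 1] z :=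
      (hnear (n₁ - 1) (g y) (fun i _ => hδ1 i)).mono fun z hz => hz.2
    have h5 : Tendsto (fun x => g (σ x)) (𝓝 y) (𝓝 (g y)) := by
      have h6 : Continuous fun x => g (σ x) := g.continuous.comp σ.continuous
      have := h6.tendsto y
      rwa [hσy] at this
    have h6 : ∀ᶠ x in 𝓝 y, g'^[n₁] x = g^[n₁] (σ x) := by
      filter_upwards [h5.eventually h4] with x hx
      conv_lhs => rw [show n₁ = (n₁ - 1) + 1 by omega]
      conv_rhs => rw [show n₁ = (n₁ - 1) + 1 by omega]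
      rw [Function.iterate_succ_apply, Function.iterate_succ_apply]
      exact hx
    have h7 : loc φ g'^[n₁] =ᶠ[𝓝 (φ y)] fun w => loc φ g^[n₁] (w + B (w - φ y)) := by
      refine (loc_congr hyφ h6).trans ?_
      filter_upwards [Metric.ball_mem_nhds (φ y) hρ] with w hw
      have hw' := Metric.ball_subset_closedBall hw
      have h8 := φ.map_target (htar hw')
      have h9 := φ.right_inv (htar hw')
      obtain ⟨h10, h11⟩ := hτB (φ.symm w) h8 (by
        rw [h9]; exact mem_closedBall_iff_norm.mp hw')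
      show φ (g^[n₁] (σ (φ.symm w))) = φ (g^[n₁] (φ.symm (w + B (w - φ y))))
      congr 2
      rw [h9, zero_add] at h11
      rw [← h11, φ.left_inv h10]
    rw [h7.fderiv_eq]
    have h8 : HasFDerivAt (fun w : E => w + B (w - φ y)) (ContinuousLinearMap.id ℝ E + B)
        (φ y) := by
      have h9 : HasFDerivAt (fun w : E => B (w - φ y)) (B ∘L ContinuousLinearMap.id ℝ E) (φ y) :=
        B.hasFDerivAt.comp (φ y) ((hasFDerivAt_id (φ y)).sub_const (φ y))
      exact (hasFDerivAt_id (φ y)).add h9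
    have h9 : HasFDerivAt (loc φ g^[n₁]) (D : E →L[ℝ] E) (φ y + B (φ y - φ y)) := by
      rw [sub_self, map_zero, add_zero, hD]
      exact (((contDiffAt_loc (hgn n₁) H.hφ hyφ hb0).of_le hr').differentiableAt
        one_ne_zero).hasFDerivAt
    exact (HasFDerivAt.comp (g := loc φ g^[n₁]) (f := fun w => w + B (w - φ y)) (φ y) h9 h8).fderiv
  refine ⟨g', hg'N, ⟨H.hφ, H.hp, H.hn, by rw [hper]; exact H.hpn, H.hn₁,
    by rw [hyp']; exact H.hyp, hy', fun k => by rw [hback]; exact H.ha k,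
    fun k => by rw [hfwd]; exact H.hb k, H.hat.congr fun k => by rw [hback],
    H.hbt.congr fun k => by rw [hfwd], ?_, ?_⟩, Ba, Bb, hBa', hBb', ?_⟩
  · rw [horb]
    exact H.hba.congr fun k => by rw [hback]
  · rw [horb]
    exact H.hfo.congr fun k => by rw [hfwd]
  · intro w hw hw'
    rw [hDy] at hw'
    exact hBgen w hw (hS'mem _ hw')

end Pool.Agent.AxA
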