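import Pool.Agent.AxA.Generic

/-!
# Derivatives, homotheties, and finiteness of the periodic points
-/

set_option autoImplicit false

open Filter Topology Set
open scoped Manifold ContDiff

namespace Pool.Agent.AxA

variable {E : Type*} [NormedAddCommGroup E] [NormedSpace ℝ E]
  {M : Type*} [TopologicalSpace M] [ChartedSpace E M]

/-- the derivative of a self-map, as a linear map of the model space -/
noncomputable def MD (E : Type*) [NormedAddCommGroup E] [NormedSpace ℝ E]
    {M : Type*} [TopologicalSpace M] [ChartedSpace E M] (g : M → M) (x : M) : E →L[ℝ] E :=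
  mfderiv 𝓘(ℝ, E) 𝓘(ℝ, E) g x

theorem MD_comp {f g : M → M} {x : M} (hg : MDifferentiableAt 𝓘(ℝ, E) 𝓘(ℝ, E) g (f x))
    (hf : MDifferentiableAt 𝓘(ℝ, E) 𝓘(ℝ, E) f x) :
    MD E (fun y => g (f y)) x = MD E g (f x) ∘L MD E f x :=
  mfderiv_comp x hg hf

theorem MD_id {x : M} : MD E (fun y : M => y) x = 1 := mfderiv_id

theorem MD_eq_loc {g : M → M} {x : M} (hg : MDifferentiableAt 𝓘(ℝ, E) 𝓘(ℝ, E) g x)
    (hgx : g x = x) : MD E g x = fderiv ℝ (loc (chartAt E x) g) (chartAt E x x) := by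
  unfold MD mfderiv
  rw [if_pos hg]
  simp only [writtenInExtChartAt, extChartAt, hgx, mfld_simps, fderivWithin_univ]
  rfl

theorem mdiff_of_le {r : ℕ∞} (hr : 1 ≤ r) {g : M → M} (hg : ContMDiff 𝓘(ℝ, E) 𝓘(ℝ, E) r g) :
    MDifferentiable 𝓘(ℝ, E) 𝓘(ℝ, E) g := by
  apply hg.mdifferentiable
  have hr' : (1 : WithTop ℕ∞) ≤ ((r : ℕ∞) : WithTop ℕ∞) := by exact_mod_cast hr
  exact (lt_of_lt_of_le zero_lt_one hr').ne'

theorem contMDiff_iterate {r : ℕ∞} {g : M → M} (hg : ContMDiff 𝓘(ℝ, E) 𝓘(ℝ, E) r g) (n : ℕ) :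
    ContMDiff 𝓘(ℝ, E) 𝓘(ℝ, E) r (g^[n]) := by
  induction n with
  | zero => exact contMDiff_id
  | succ n ih => exact ih.comp hg

/-- the product formula for a perturbation by homotheties -/
theorem MD_iterate_homothety {g τ : M → M} (hg : MDifferentiable 𝓘(ℝ, E) 𝓘(ℝ, E) g)
    (hτ : MDifferentiable 𝓘(ℝ, E) 𝓘(ℝ, E) τ) {Λ : Set M} (hΛ : ∀ q ∈ Λ, g q ∈ Λ) {s : ℝ}
    (hτΛ : ∀ q ∈ Λ, τ q = q) (hDτ : ∀ q ∈ Λ, MD E τ q = (1 + s) • (1 : E →L[ℝ] E)) {p : M}
    (hp : p ∈ Λ) (k : ℕ) : (fun x => g (τ x))^[k] p = g^[k] p ∧ g^[k] p ∈ Λ ∧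
      MD E ((fun x => g (τ x))^[k]) p = (1 + s) ^ k • MD E (g^[k]) p := by
  have hgτ : MDifferentiable 𝓘(ℝ, E) 𝓘(ℝ, E) (fun x => g (τ x)) := hg.comp hτ
  have hit : ∀ {f : M → M}, MDifferentiable 𝓘(ℝ, E) 𝓘(ℝ, E) f → ∀ k : ℕ,
      MDifferentiable 𝓘(ℝ, E) 𝓘(ℝ, E) (f^[k]) := by
    intro f hf k
    induction k with
    | zero => exact mdifferentiable_id
    | succ k ih => exact ih.comp hf
  induction k with
  | zero =>
    refine ⟨rfl, hp, ?_⟩
    rw [pow_zero, one_smul]
    rfl
  | succ k ih =>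
    obtain ⟨h1, h2, h3⟩ := ih
    refine ⟨?_, ?_, ?_⟩
    · rw [Function.iterate_succ_apply', Function.iterate_succ_apply', h1, hτΛ _ h2]
    · rw [Function.iterate_succ_apply']
      exact hΛ _ h2
    · have e1 : (fun x => g (τ x))^[k + 1] =
          fun x => (fun x => g (τ x)) ((fun x => g (τ x))^[k] x) := by
        funext x
        exact Function.iterate_succ_apply' _ _ _
      have e2 : g^[k + 1] = fun x => g (g^[k] x) := by
        funext x
        exact Function.iterate_succ_apply' _ _ _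
      rw [e1, MD_comp (hgτ _) (hit hgτ k p), h1, h3, e2, MD_comp (hg _) (hit hg k p),
        MD_comp (hg _) (hτ _), hτΛ _ h2, hDτ _ h2]
      ext v
      simp only [ContinuousLinearMap.comp_apply, smul_apply, map_smul,
        one_apply_eq_self, smul_smul, pow_succ]

/-- Homotheties at finitely many points. -/
theorem exists_homothety [T2Space M] [IsManifold 𝓘(ℝ, E) ∞ M] [FiniteDimensional ℝ E] {r : ℕ∞}
    (hr : 1 ≤ r) (Λ : Finset M) : ∀ Γ : Finset M, Disjoint Λ Γ →
    ∃ τ : Par E → M ≃ₘ^r⟮𝓘(ℝ, E), 𝓘(ℝ, E)⟯ M, (∀ x, τ 0 x = x) ∧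
      IsFam (E := E) r (fun μ => ⇑(τ μ)) ∧ (∀ μ, ∀ x ∈ Γ, ∀ᶠ y in 𝓝 x, τ μ y = y) ∧
      ∀ᶠ s in 𝓝 (0 : ℝ), ∀ q ∈ Λ, τ (0, s • (1 : E →L[ℝ] E)) q = q ∧
        MD E (τ (0, s • (1 : E →L[ℝ] E))) q = (1 + s) • (1 : E →L[ℝ] E) := by
  classical
  induction Λ using Finset.induction_on with
  | empty =>
    intro Γ _
    refine ⟨fun _ => Diffeomorph.refl 𝓘(ℝ, E) M r, fun x => rfl, IsFam.const contMDiff_id,
      fun μ x _ => Eventually.of_forall fun y => rfl, ?_⟩
    exact Eventually.of_forall fun s q hq => absurd hq (Finset.notMem_empty q)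
  | insert q Λ hqΛ ih =>
    intro Γ hΓ
    rw [Finset.disjoint_insert_left] at hΓ
    obtain ⟨hqΓ, hΛΓ⟩ := hΓ
    obtain ⟨τ, hτ0, hτF, hτΓ, hτΛ⟩ := ih (insert q Γ) (by
      rw [Finset.disjoint_insert_right]; exact ⟨hqΛ, hΛΓ⟩)
    -- the spot at `q`
    have hφ : chartAt E q ∈ IsManifold.maximalAtlas 𝓘(ℝ, E) ∞ M :=
      IsManifold.chart_mem_maximalAtlas q
    have hclosed : IsClosed ((Λ ∪ Γ : Finset M) : Set M) := (Finset.finite_toSet _).isClosed
    have hU : ((Λ ∪ Γ : Finset M) : Set M)ᶜ ∈ 𝓝 q := by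
      apply hclosed.isOpen_compl.mem_nhds
      simp [hqΛ, hqΓ]
    obtain ⟨C, hCn, hCc, hCU⟩ : ∃ C ∈ 𝓝 q, IsClosed C ∧ C ⊆ ((Λ ∪ Γ : Finset M) : Set M)ᶜ := by
      have : RegularSpace M := by
        have : LocallyCompactSpace M := ChartedSpace.locallyCompactSpace E M
        infer_instance
      obtain ⟨C, hC1, hC2, hC3⟩ := exists_mem_nhds_isClosed_subset hU
      exact ⟨C, hC1, hC2, hC3⟩
    obtain ⟨ρ, hρ, htar, hinC, σ, hσ0, hσF, hσC, -, hσev⟩ :=
      exists_affine hφ (mem_chart_source E q) hCn r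
    refine ⟨fun μ => pert (τ μ) (σ μ), ?_, ?_, ?_, ?_⟩
    · intro x
      rw [pert_apply, hσ0, hτ0]
    · exact hτF.comp hσF
    · intro μ x hx
      have h1 : ∀ᶠ y in 𝓝 x, σ μ y = y := by
        have : Cᶜ ∈ 𝓝 x := hCc.isOpen_compl.mem_nhds (fun h => by
          have := hCU h
          simp at this
          exact this.2 hx)
        filter_upwards [this] with y hy
        exact hσC μ y hy
      filter_upwards [h1, hτΓ μ x (Finset.mem_insert_of_mem hx)] with y hy1 hy2
      rw [pert_apply, hy1, hy2]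
    · have hcont : Tendsto (fun s : ℝ => ((0, s • (1 : E →L[ℝ] E)) : Par E)) (𝓝 0) (𝓝 0) := by
        have : Continuous (fun s : ℝ => ((0, s • (1 : E →L[ℝ] E)) : Par E)) := by fun_prop
        have h := this.tendsto 0
        rw [zero_smul] at h
        exact h
      filter_upwards [hτΛ, hcont.eventually hσev] with s hs1 hs2
      set μ : Par E := (0, s • (1 : E →L[ℝ] E)) with hμ
      have hτm := mdiff_of_le hr (τ μ).contMDiff
      have hσm := mdiff_of_le hr (σ μ).contMDiff
      have hcomp : ∀ x, MD E (pert (τ μ) (σ μ)) x = MD E (τ μ) (σ μ x) ∘L MD E (σ μ) x :=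
        fun x => MD_comp (hτm _) (hσm _)
      intro p hp
      rcases Finset.mem_insert.mp hp with rfl | hpΛ
      · -- the point `q`
        have h1 : σ μ p = p := by
          obtain ⟨h2, h3⟩ := hs2 p (mem_chart_source E p) (by simpa using hρ.le)
          rw [sub_self, map_zero, add_zero, add_zero] at h3
          exact (chartAt E p).injOn h2 (mem_chart_source E p) h3
        have h2 : ∀ᶠ y in 𝓝 p, τ μ y = y := hτΓ μ p (Finset.mem_insert_self _ _)
        have h3 : τ μ p = p := h2.self_of_nhds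
        have h4 : MD E (τ μ) p = 1 := by
          have : (τ μ : M → M) =ᶠ[𝓝 p] fun y => y := h2
          have h5 : MD E (τ μ) p = MD E (fun y : M => y) p := this.mfderiv_eq
          rw [h5, MD_id]
        have h5 : MD E (σ μ) p = (1 + s) • (1 : E →L[ℝ] E) := by
          rw [MD_eq_loc (hσm p) h1]
          have h6 : loc (chartAt E p) (σ μ) =ᶠ[𝓝 (chartAt E p p)]
              fun y => y + s • (y - chartAt E p p) := by
            filter_upwards [Metric.ball_mem_nhds (chartAt E p p) hρ] with y hy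
            have hyρ := Metric.ball_subset_closedBall hy
            obtain ⟨h7, h8⟩ := hs2 ((chartAt E p).symm y) ((chartAt E p).map_target (htar hyρ))
              (by rw [(chartAt E p).right_inv (htar hyρ)]; exact mem_closedBall_iff_norm.mp hyρ)
            show chartAt E p (σ μ ((chartAt E p).symm y)) = _
            rw [h8, (chartAt E p).right_inv (htar hyρ)]
            show y + (0 + s • (y - chartAt E p p)) = _
            rw [zero_add]
          rw [h6.fderiv_eq]
          have h7 : HasFDerivAt (fun y : E => y + s • (y - chartAt E p p))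
              (ContinuousLinearMap.id ℝ E + s • ContinuousLinearMap.id ℝ E) (chartAt E p p) :=
            (hasFDerivAt_id _).add (((hasFDerivAt_id _).sub_const _).const_smul s)
          rw [h7.fderiv, add_smul, one_smul]
          rfl
        refine ⟨by rw [pert_apply, h1, h3], ?_⟩
        rw [hcomp, h1, h4, h5]
        rfl
      · -- the other points
        obtain ⟨h1, h2⟩ := hs1 p hpΛ
        have h3 : ∀ᶠ y in 𝓝 p, σ μ y = y := by
          have : Cᶜ ∈ 𝓝 p := hCc.isOpen_compl.mem_nhds (fun h => by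
            have := hCU h
            simp at this
            exact this.1 hpΛ)
          filter_upwards [this] with y hy
          exact hσC μ y hy
        have h4 : σ μ p = p := h3.self_of_nhds
        have h5 : MD E (σ μ) p = 1 := by
          have : (σ μ : M → M) =ᶠ[𝓝 p] fun y => y := h3
          have h6 : MD E (σ μ) p = MD E (fun y : M => y) p := this.mfderiv_eq
          rw [h6, MD_id]
        refine ⟨by rw [pert_apply, h4, h1], ?_⟩
        rw [hcomp, h4, h5, h2]
        rfl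

end Pool.Agent.AxA
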