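import Pool.Agent.AxA.Finite
import Pool.Agent.AxA.Create

/-!
# Hyperbolicity of the periodic points
-/

set_option autoImplicit false

open Filter Topology Set
open scoped Manifold ContDiff

namespace Pool.Agent.AxA

variable {E : Type*} [NormedAddCommGroup E] [NormedSpace ℝ E]
  {M : Type*} [TopologicalSpace M] [ChartedSpace E M]

/-- the derivative of a diffeomorphism at a fixed point in a chart -/
theorem exists_equiv_loc [CompleteSpace E] {r : ℕ∞} (hr : 1 ≤ r) {g g' : M → M}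
    (hg : ContMDiff 𝓘(ℝ, E) 𝓘(ℝ, E) r g) (hg' : ContMDiff 𝓘(ℝ, E) 𝓘(ℝ, E) r g')
    (h1 : ∀ x, g' (g x) = x) (h2 : ∀ x, g (g' x) = x)
    {φ : OpenPartialHomeomorph M E} (hφ : φ ∈ IsManifold.maximalAtlas 𝓘(ℝ, E) ∞ M) {x : M}
    (hx : x ∈ φ.source) (hgx : g x ∈ φ.source) :
    ∃ A : E ≃L[ℝ] E, (A : E →L[ℝ] E) = fderiv ℝ (loc φ g) (φ x) := by
  have hr' : (1 : WithTop ℕ∞) ≤ ((r : ℕ∞) : WithTop ℕ∞) := by exact_mod_cast hr
  have c1 : DifferentiableAt ℝ (loc φ g) (φ x) :=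
    ((contDiffAt_loc hg hφ hx hgx).of_le hr').differentiableAt one_ne_zero
  have c2 : DifferentiableAt ℝ (loc φ g') (φ (g x)) :=
    ((contDiffAt_loc hg' hφ hgx (by rw [h1]; exact hx)).of_le hr').differentiableAt one_ne_zero
  have hl : loc φ g (φ x) = φ (g x) := by
    show φ (g (φ.symm (φ x))) = _
    rw [φ.left_inv hx]
  have hl' : loc φ g' (φ (g x)) = φ x := by
    show φ (g' (φ.symm (φ (g x)))) = _
    rw [φ.left_inv hgx, h1]
  have hev : (fun y => loc φ g' (loc φ g y)) =ᶠ[𝓝 (φ x)] fun y => y := by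
    have h3 : ∀ᶠ y in 𝓝 (φ x), y ∈ φ.target := φ.open_target.mem_nhds (φ.map_source hx)
    have h4 : ∀ᶠ y in 𝓝 (φ x), g (φ.symm y) ∈ φ.source := by
      have : ContinuousAt (fun y => g (φ.symm y)) (φ x) :=
        ContinuousAt.comp (g := g) hg.continuous.continuousAt
          (φ.continuousAt_symm (φ.map_source hx))
      refine this.eventually ?_
      show ∀ᶠ y in 𝓝 (g (φ.symm (φ x))), y ∈ φ.source
      rw [φ.left_inv hx]
      exact φ.open_source.mem_nhds hgx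
    filter_upwards [h3, h4] with y hy3 hy4
    show φ (g' (φ.symm (φ (g (φ.symm y))))) = y
    rw [φ.left_inv hy4, h1, φ.right_inv hy3]
  have hev' : (fun y => loc φ g (loc φ g' y)) =ᶠ[𝓝 (φ (g x))] fun y => y := by
    have h3 : ∀ᶠ y in 𝓝 (φ (g x)), y ∈ φ.target := φ.open_target.mem_nhds (φ.map_source hgx)
    have h4 : ∀ᶠ y in 𝓝 (φ (g x)), g' (φ.symm y) ∈ φ.source := by
      have : ContinuousAt (fun y => g' (φ.symm y)) (φ (g x)) :=
        ContinuousAt.comp (g := g') hg'.continuous.continuousAt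
          (φ.continuousAt_symm (φ.map_source hgx))
      refine this.eventually ?_
      show ∀ᶠ y in 𝓝 (g' (φ.symm (φ (g x)))), y ∈ φ.source
      rw [φ.left_inv hgx, h1]
      exact φ.open_source.mem_nhds hx
    filter_upwards [h3, h4] with y hy3 hy4
    show φ (g (φ.symm (φ (g' (φ.symm y))))) = y
    rw [φ.left_inv hy4, h2, φ.right_inv hy3]
  have d1 : (fderiv ℝ (loc φ g') (φ (g x))) ∘L (fderiv ℝ (loc φ g) (φ x)) =
      ContinuousLinearMap.id ℝ E := by
    have h3 : HasFDerivAt (fun y => loc φ g' (loc φ g y))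
        ((fderiv ℝ (loc φ g') (φ (g x))) ∘L (fderiv ℝ (loc φ g) (φ x))) (φ x) := by
      exact HasFDerivAt.comp (g := loc φ g') (φ x) (by rw [hl]; exact c2.hasFDerivAt)
        c1.hasFDerivAt
    exact (h3.congr_of_eventuallyEq hev.symm).unique (hasFDerivAt_id _)
  have d2 : (fderiv ℝ (loc φ g) (φ x)) ∘L (fderiv ℝ (loc φ g') (φ (g x))) =
      ContinuousLinearMap.id ℝ E := by
    have h3 : HasFDerivAt (fun y => loc φ g (loc φ g' y))
        ((fderiv ℝ (loc φ g) (φ x)) ∘L (fderiv ℝ (loc φ g') (φ (g x)))) (φ (g x)) := by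
      exact HasFDerivAt.comp (g := loc φ g) (φ (g x)) (by rw [hl']; exact c1.hasFDerivAt)
        c2.hasFDerivAt
    exact (h3.congr_of_eventuallyEq hev'.symm).unique (hasFDerivAt_id _)
  exact ⟨ContinuousLinearEquiv.equivOfInverse (fderiv ℝ (loc φ g) (φ x))
    (fderiv ℝ (loc φ g') (φ (g x))) (fun v => DFunLike.congr_fun d1 v)
    (fun v => DFunLike.congr_fun d2 v), rfl⟩

theorem symm_iterate {r : ℕ∞} (g : M ≃ₘ^r⟮𝓘(ℝ, E), 𝓘(ℝ, E)⟯ M) (n : ℕ) (x : M) :
    g.symm^[n] (g^[n] x) = x ∧ g^[n] (g.symm^[n] x) = x :=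
  ⟨Function.LeftInverse.iterate (f := g) (g := g.symm) g.symm_apply_apply n x,
   Function.LeftInverse.iterate (f := g.symm) (g := g) g.apply_symm_apply n x⟩

/-- a small neighbourhood of a periodic point without early returns -/
theorem exists_sep [T2Space M] {g : M → M} (hg : Continuous g) {x : M} {n : ℕ}
    (hne : ∀ m, 0 < m → m < n → g^[m] x ≠ x) {U : Set M} (hU : U ∈ 𝓝 x) :
    ∃ C ∈ 𝓝 x, C ⊆ U ∧ ∀ m, 0 < m → m < n → ∀ y ∈ C, g^[m] y ∉ C := by
  have h1 : ∀ m ∈ Finset.Ioo 0 n, ∃ W ∈ 𝓝 x, ∀ y ∈ W, g^[m] y ∉ W := by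
    intro m hm
    have hm' := Finset.mem_Ioo.mp hm
    obtain ⟨U, V, hU, hV, hxU, hxV, hUV⟩ := t2_separation (hne m hm'.1 hm'.2)
    have hcm : ContinuousAt (g^[m]) x := (hg.iterate m).continuousAt
    refine ⟨V ∩ g^[m] ⁻¹' U, Filter.inter_mem (hV.mem_nhds hxV)
      (hcm.preimage_mem_nhds (hU.mem_nhds hxU)), ?_⟩
    rintro y ⟨-, hy⟩ ⟨hy', -⟩
    exact Set.disjoint_left.mp hUV hy hy'
  choose! W hW hW' using h1
  have hWn : (⋂ m ∈ Finset.Ioo 0 n, W m) ∈ 𝓝 x := by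
    rw [Filter.biInter_finset_mem]
    exact hW
  refine ⟨(⋂ m ∈ Finset.Ioo 0 n, W m) ∩ U, Filter.inter_mem hWn hU, fun y hy => hy.2, ?_⟩
  rintro m hm hmn y ⟨hy, -⟩ ⟨hy', -⟩
  have hmI : m ∈ Finset.Ioo 0 n := Finset.mem_Ioo.mpr ⟨hm, hmn⟩
  exact hW' m hmI y (Set.mem_iInter₂.mp hy m hmI) (Set.mem_iInter₂.mp hy' m hmI)

/-- the `n`-th iterate of an affine perturbation, in the chart -/
theorem loc_pert {r : ℕ∞} {φ : OpenPartialHomeomorph M E} {x₀ : M}
    {C : Set M} {ρ : ℝ} (htar : Metric.closedBall (φ x₀) ρ ⊆ φ.target)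
    (hinC : ∀ y ∈ Metric.closedBall (φ x₀) ρ, φ.symm y ∈ C)
    {τ : M ≃ₘ^r⟮𝓘(ℝ, E), 𝓘(ℝ, E)⟯ M} (hτC : ∀ x, x ∉ C → τ x = x)
    (hτC' : ∀ x, x ∈ C → τ x ∈ C) {B : E →L[ℝ] E}
    (hτ : ∀ x ∈ φ.source, ‖φ x - φ x₀‖ ≤ ρ →
      τ x ∈ φ.source ∧ φ (τ x) = φ x + (0 + B (φ x - φ x₀)))
    {g : M ≃ₘ^r⟮𝓘(ℝ, E), 𝓘(ℝ, E)⟯ M} {n : ℕ} (hn : 0 < n)
    (hsep : ∀ m, 0 < m → m < n → ∀ y ∈ C, g^[m] y ∉ C) {y : E}
    (hy : y ∈ Metric.closedBall (φ x₀) ρ) :
    (pert g τ)^[n] (φ.symm y) = g^[n] (φ.symm (y + B (y - φ x₀))) := by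
  have h1 : (pert g τ)^[n] (φ.symm y) = g^[n] (τ (φ.symm y)) :=
    iterate_pert (C := C) hτC hτC' hsep (hinC y hy) n hn le_rfl
  have h2 := φ.map_target (htar hy)
  have h3 := φ.right_inv (htar hy)
  obtain ⟨h4, h5⟩ := hτ (φ.symm y) h2 (by rw [h3]; exact mem_closedBall_iff_norm.mp hy)
  rw [h3, zero_add] at h5
  rw [h1, ← h5, φ.left_inv h4]

/-- **Hyperbolicity of the periodic points** under stability of the number of periodic points. -/
theorem hyp_of_count [CompactSpace M] [T2Space M] [IsManifold 𝓘(ℝ, E) ∞ M]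
    [FiniteDimensional ℝ E] {r : ℕ∞} (hr : 1 ≤ r)
    {R : (M ≃ₘ^r⟮𝓘(ℝ, E), 𝓘(ℝ, E)⟯ M) → Prop} (hR : Rob R)
    (hfin : ∀ g, R g → ∀ m, 0 < m → {x | g^[m] x = x}.Finite)
    (hcount : ∀ g g', R g → R g' → ∀ m, Nonempty ({x // g^[m] x = x} ≃ {x // g'^[m] x = x}))
    {g : M ≃ₘ^r⟮𝓘(ℝ, E), 𝓘(ℝ, E)⟯ M} (hg : R g) {p : M} {n : ℕ} (hn : 0 < n)
    (hp : g^[n] p = p) (hmin : ∀ m, 0 < m → m < n → g^[m] p ≠ p)
    {φ : OpenPartialHomeomorph M E} (hφ : φ ∈ IsManifold.maximalAtlas 𝓘(ℝ, E) ∞ M)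
    (hpφ : p ∈ φ.source) : HypLin (fderiv ℝ (loc φ g^[n]) (φ p)) := by
  classical
  have hr' : (1 : WithTop ℕ∞) ≤ ((r : ℕ∞) : WithTop ℕ∞) := by exact_mod_cast hr
  by_contra hnot
  set c := φ p with hc
  obtain ⟨A, hA⟩ := exists_equiv_loc hr (contMDiff_iterate g.contMDiff n)
    (contMDiff_iterate g.symm.contMDiff n) (fun x => (symm_iterate g n x).1)
    (fun x => (symm_iterate g n x).2) hφ hpφ (by rw [hp]; exact hpφ)
  rw [← hA] at hnot
  -- first perturbation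
  obtain ⟨C, hCn, -, hCsep⟩ := exists_sep g.continuous hmin (univ_mem (f := 𝓝 p))
  obtain ⟨ρ, hρ, htar, hinC, τ, hτ0, hτF, hτC, hτC', hτev⟩ := exists_affine hφ hpφ hCn r
  have hcont : Tendsto (fun B : E →L[ℝ] E => ((0, B) : Par E)) (𝓝 0) (𝓝 0) := by
    have : Continuous (fun B : E →L[ℝ] E => ((0, B) : Par E)) := by fun_prop
    exact this.tendsto 0
  have hev := hcont.eventually (hτev.and (hR.pert hg hτ0 hτF))
  obtain ⟨ε, hε, hε'⟩ := Metric.eventually_nhds_iff.mp hev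
  obtain ⟨B, hB, e, he, q, hq, T, hT, hTe, hTs⟩ := exists_creation hnot hε
  obtain ⟨hτB, hRg₁⟩ := hε' (show dist B 0 < ε by rwa [dist_zero_right])
  set g₁ := pert g (τ (0, B)) with hg₁
  have hτp : τ (0, B) p = p := by
    obtain ⟨h1, h2⟩ := hτB p hpφ (by simpa using hρ.le)
    rw [sub_self, map_zero, add_zero, add_zero] at h2
    exact φ.injOn h1 hpφ h2
  have hpC : p ∈ C := mem_of_mem_nhds hCn
  have hit1 : ∀ m, 0 < m → m ≤ n → g₁^[m] p = g^[m] p := by
    intro m hm hmn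
    have := iterate_pert (g := g) (τ := τ (0, B)) (C := C) (hτC _) (hτC' _) hCsep hpC m hm hmn
    rw [hτp] at this
    exact this
  have hp1 : g₁^[n] p = p := by rw [hit1 n hn le_rfl, hp]
  have hmin1 : ∀ m, 0 < m → m < n → g₁^[m] p ≠ p := fun m hm hmn => by
    rw [hit1 m hm hmn.le]; exact hmin m hm hmn
  have hcball : c ∈ Metric.closedBall c ρ := Metric.mem_closedBall_self hρ.le
  have hD1 : fderiv ℝ (loc φ g₁^[n]) c = T := by
    have h1 : loc φ g₁^[n] =ᶠ[𝓝 c] fun y => loc φ g^[n] (y + B (y - c)) := by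
      filter_upwards [Metric.ball_mem_nhds c hρ] with y hy
      show φ (g₁^[n] (φ.symm y)) = φ (g^[n] (φ.symm (y + B (y - c))))
      rw [loc_pert htar hinC (hτC _) (hτC' _) hτB hn hCsep (Metric.ball_subset_closedBall hy)]
    rw [h1.fderiv_eq]
    have h2 : HasFDerivAt (fun y : E => y + B (y - c)) (ContinuousLinearMap.id ℝ E + B) c := by
      have h3 : HasFDerivAt (fun y : E => B (y - c)) (B ∘L ContinuousLinearMap.id ℝ E) c :=
        B.hasFDerivAt.comp c ((hasFDerivAt_id c).sub_const c)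
      exact (hasFDerivAt_id c).add h3
    have h3 : HasFDerivAt (loc φ g^[n]) (A : E →L[ℝ] E) (c + B (c - c)) := by
      rw [sub_self, map_zero, add_zero, hA]
      exact (((contDiffAt_loc (contMDiff_iterate g.contMDiff n) hφ hpφ
        (by rw [hp]; exact hpφ)).of_le hr').differentiableAt one_ne_zero).hasFDerivAt
    have h4 : HasFDerivAt (fun y => loc φ g^[n] (y + B (y - c)))
        ((A : E →L[ℝ] E) ∘L (ContinuousLinearMap.id ℝ E + B)) c :=
      HasFDerivAt.comp (g := loc φ g^[n]) (f := fun y => y + B (y - c)) c h3 h2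
    rw [h4.fderiv, hT]
    rfl
  -- second perturbation
  set m := n * q with hm
  have hm0 : 0 < m := Nat.mul_pos hn hq
  have hFix := hfin g₁ hRg₁ m hm0
  have hU : ({x | g₁^[m] x = x} \ {p})ᶜ ∈ 𝓝 p := by
    apply (hFix.subset Set.sdiff_subset).isClosed.isOpen_compl.mem_nhds
    simp
  obtain ⟨C', hC'n, hC'U, hC'sep⟩ := exists_sep g₁.continuous hmin1 hU
  obtain ⟨ρ', hρ', htar', hinC', σ, hσ0, hσF, hσC, hσC', hσev⟩ := exists_affine hφ hpφ hC'n r
  have hev' := hcont.eventually (hσev.and (hR.pert hRg₁ hσ0 hσF))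
  obtain ⟨ε₁, hε₁, hε₁'⟩ := Metric.eventually_nhds_iff.mp hev'
  have : NeZero q := ⟨hq.ne'⟩
  let H : E → E := fun y => loc φ g₁^[n] (c + y) - c
  have hH0 : H 0 = 0 := by
    show φ (g₁^[n] (φ.symm (c + 0))) - c = 0
    rw [add_zero, hc, φ.left_inv hpφ, hp1, sub_self]
  have hHd : HasStrictFDerivAt H T 0 := by
    have h1 : HasStrictFDerivAt (loc φ g₁^[n]) T (c + 0) := by
      rw [add_zero, ← hD1]
      exact ((contDiffAt_loc (contMDiff_iterate g₁.contMDiff n) hφ hpφ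
        (by rw [hp1]; exact hpφ)).of_le hr').hasStrictFDerivAt one_ne_zero
    have h2 : HasStrictFDerivAt (fun y : E => c + y) (ContinuousLinearMap.id ℝ E) 0 :=
      (hasStrictFDerivAt_id (0:E)).const_add c
    have h3 := (HasStrictFDerivAt.comp (0:E) h1 h2).sub_const c
    exact h3
  -- points mapped into the chart
  have hev2 : ∀ᶠ y in 𝓝 (0:E), c + y ∈ φ.target ∧ g₁^[n] (φ.symm (c + y)) ∈ φ.source := by
    have h1 : ContinuousAt (fun y : E => c + y) 0 := by fun_prop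
    have h2 : ∀ᶠ y in 𝓝 (0:E), c + y ∈ φ.target := by
      apply h1.eventually
      show ∀ᶠ y in 𝓝 (c + 0), y ∈ φ.target
      rw [add_zero]
      exact φ.open_target.mem_nhds (φ.map_source hpφ)
    have h3 : ContinuousAt (fun y : E => g₁^[n] (φ.symm (c + y))) 0 := by
      apply ContinuousAt.comp (g := g₁^[n]) (g₁.continuous.iterate n).continuousAt
      apply ContinuousAt.comp (g := φ.symm) _ h1
      rw [add_zero]
      exact φ.continuousAt_symm (φ.map_source hpφ)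
    refine h2.and (h3.eventually ?_)
    show ∀ᶠ y in 𝓝 (g₁^[n] (φ.symm (c + 0))), y ∈ φ.source
    rw [add_zero, hc, φ.left_inv hpφ, hp1]
    exact φ.open_source.mem_nhds hpφ
  obtain ⟨ε₂, hε₂, hε₂'⟩ := Metric.eventually_nhds_iff.mp hev2
  obtain ⟨B', hB', z, hz, hzs, hzs', hz0⟩ := exists_periodic_orbit he hTe hTs hH0 hHd
    (ε := min ρ' (min ε₁ ε₂)) (by positivity)
  obtain ⟨hσB, hRg₂⟩ := hε₁' (show dist B' 0 < ε₁ by
    rw [dist_zero_right]
    exact lt_of_lt_of_le hB' ((min_le_right _ _).trans (min_le_left _ _)))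
  set g₂ := pert g₁ (σ (0, B')) with hg₂
  have hzball : ∀ l, c + z l ∈ Metric.closedBall c ρ' := by
    intro l
    rw [mem_closedBall_iff_norm, add_sub_cancel_left]
    exact (lt_of_lt_of_le (hzs l) (min_le_left _ _)).le
  let X : ZMod q → M := fun l => φ.symm (c + z l)
  have hXC : ∀ l, X l ∈ C' := fun l => hinC' _ (hzball l)
  have hX : ∀ l, g₂^[n] (X l) = X (l + 1) := by
    intro l
    have h1 : g₂^[n] (X l) = g₁^[n] (φ.symm (c + z l + B' (c + z l - c))) :=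
      loc_pert htar' hinC' (hσC _) (hσC' _) hσB hn hC'sep (hzball l)
    rw [add_sub_cancel_left, add_assoc] at h1
    have h2 : ‖z l + B' (z l)‖ < ε₂ :=
      lt_of_lt_of_le (hzs' l) ((min_le_right _ _).trans (min_le_right _ _))
    obtain ⟨-, h4⟩ := hε₂' (show dist (z l + B' (z l)) 0 < ε₂ by rwa [dist_zero_right])
    have h5 : loc φ g₁^[n] (c + (z l + B' (z l))) = c + z (l + 1) := by
      have := hz l
      rw [← this]
      show _ = c + (loc φ g₁^[n] (c + (z l + B' (z l))) - c)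
      abel
    rw [h1]
    show _ = φ.symm (c + z (l + 1))
    rw [← h5]
    exact (φ.left_inv h4).symm
  have hXk : ∀ k : ℕ, g₂^[n * k] (X 0) = X (k : ZMod q) := by
    intro k
    induction k with
    | zero => simp
    | succ k ih =>
      rw [Nat.mul_succ, Nat.add_comm, Function.iterate_add_apply, ih, hX]
      congr 1
      push_cast
      rfl
  have hX0 : g₂^[m] (X 0) = X 0 := by
    rw [hm, hXk]
    congr 1
    exact ZMod.natCast_self q
  have hX0p : X 0 ≠ p := by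
    intro h
    have h1 : φ (X 0) = c + z 0 := φ.right_inv (htar' (hzball 0))
    rw [h] at h1
    apply hz0
    have : c + z 0 = c := h1.symm
    simpa using this
  have hX0' : ¬ g₁^[m] (X 0) = X 0 := by
    intro h
    exact hC'U (hXC 0) ⟨h, hX0p⟩
  have hσp : σ (0, B') p = p := by
    obtain ⟨h1, h2⟩ := hσB p hpφ (by simpa using hρ'.le)
    rw [sub_self, map_zero, add_zero, add_zero] at h2
    exact φ.injOn h1 hpφ h2
  -- old periodic points persist
  have hold : ∀ x, g₁^[m] x = x → g₂^[m] x = x := by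
    intro x hx
    have h1 : ∀ k, g₁^[m] (g₁^[k] x) = g₁^[k] x := by
      intro k
      rw [← Function.iterate_add_apply, Nat.add_comm, Function.iterate_add_apply, hx]
    have h2 : ∀ y, g₁^[m] y = y → σ (0, B') y = y := by
      intro y hy
      by_cases hyp : y = p
      · rw [hyp, hσp]
      · apply hσC
        intro hyC
        exact hC'U hyC ⟨hy, hyp⟩
    have h3 : ∀ k, g₂^[k] x = g₁^[k] x := by
      intro k
      induction k with
      | zero => rfl
      | succ k ih =>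
        rw [Function.iterate_succ_apply', ih, Function.iterate_succ_apply']
        show g₁ (σ (0, B') (g₁^[k] x)) = _
        rw [h2 _ (h1 k)]
    rw [h3, hx]
  have hFix2 := hfin g₂ hRg₂ m hm0
  obtain ⟨eq⟩ := hcount g₁ g₂ hRg₁ hRg₂ m
  have hsub : {x | g₁^[m] x = x} ⊆ {x | g₂^[m] x = x} := fun x hx => hold x hx
  have hss : {x | g₁^[m] x = x} ⊂ {x | g₂^[m] x = x} := ⟨hsub, fun h => hX0' (h hX0)⟩
  have h1 := Set.ncard_lt_ncard hss hFix2
  rw [← Nat.card_coe_set_eq, ← Nat.card_coe_set_eq] at h1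
  exact absurd (Nat.card_congr eq) h1.ne

end Pool.Agent.AxA
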