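import Pool.Agent.AxA.Phase
import Pool.Agent.AxA.Hyp

/-!
# Hyperbolic periodic orbits are isolated
-/

set_option autoImplicit false

open Filter Topology Set TopologicalSpace
open scoped Manifold ContDiff

namespace Pool.Agent.AxA

variable {E : Type*} [NormedAddCommGroup E] [NormedSpace ℝ E]
  {M : Type*} [MetricSpace M] [ChartedSpace E M]

/-- a hyperbolic fixed point is the only full orbit in a neighbourhood -/
theorem local_of_hyp [FiniteDimensional ℝ E] {r : ℕ∞} (hr : 1 ≤ r) {g : M → M}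
    (hg : ContMDiff 𝓘(ℝ, E) 𝓘(ℝ, E) r g)
    {φ : OpenPartialHomeomorph M E} (hφ : φ ∈ IsManifold.maximalAtlas 𝓘(ℝ, E) ∞ M) {q : M}
    (hq : q ∈ φ.source) (hgq : g q = q) (hyp : HypLin (fderiv ℝ (loc φ g) (φ q))) :
    ∃ ρ > 0, ∀ x : ℤ → M, (∀ i, x (i + 1) = g (x i)) → (∀ i, dist (x i) q < ρ) → x 0 = q := by
  have hr' : (1 : WithTop ℕ∞) ≤ ((r : ℕ∞) : WithTop ℕ∞) := by exact_mod_cast hr
  obtain ⟨δ, hδ, hrob⟩ := hyp.robust
  set A := fderiv ℝ (loc φ g) (φ q) with hA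
  have hd : HasFDerivAt (loc φ g) A (φ q) :=
    (((contDiffAt_loc hg hφ hq (by rw [hgq]; exact hq)).of_le hr').differentiableAt
      one_ne_zero).hasFDerivAt
  have hHc : loc φ g (φ q) = φ q := by
    show φ (g (φ.symm (φ q))) = _
    rw [φ.left_inv hq, hgq]
  have h1 : ∀ᶠ z in 𝓝 (φ q), ‖loc φ g z - φ q - A (z - φ q)‖ ≤ δ * ‖z - φ q‖ := by
    have := hd.isLittleO.def hδ
    rwa [hHc] at this
  have h2 : ∀ᶠ z in 𝓝 (φ q), ‖z - φ q‖ ≤ 1 := by
    filter_upwards [Metric.closedBall_mem_nhds (φ q) one_pos] with z hz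
    exact mem_closedBall_iff_norm.mp hz
  have h3 : ∀ᶠ x in 𝓝 q, x ∈ φ.source ∧ ‖loc φ g (φ x) - φ q - A (φ x - φ q)‖ ≤ δ * ‖φ x - φ q‖ ∧
      ‖φ x - φ q‖ ≤ 1 :=
    Filter.Eventually.and (φ.open_source.mem_nhds hq)
      ((φ.continuousAt hq).eventually (h1.and h2))
  obtain ⟨ρ, hρ, hball⟩ := Metric.eventually_nhds_iff.mp h3
  refine ⟨ρ, hρ, fun x hx hxρ => ?_⟩
  have h4 := hrob (fun i => φ (x i) - φ q) ⟨1, fun i => (hball (hxρ i)).2.2⟩ (fun i => by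
    have h5 := (hball (hxρ i)).2.1
    have h6 : loc φ g (φ (x i)) = φ (x (i + 1)) := by
      show φ (g (φ.symm (φ (x i)))) = _
      rw [φ.left_inv (hball (hxρ i)).1, hx]
    rw [h6] at h5
    exact h5) 0
  exact φ.injOn (hball (hxρ 0)).1 hq (sub_eq_zero.mp h4)

/-- **Isolation of hyperbolic periodic orbits.** -/
theorem exists_isol [CompactSpace M] [IsManifold 𝓘(ℝ, E) ∞ M] [FiniteDimensional ℝ E] {r : ℕ∞}
    (hr : 1 ≤ r) {g : M ≃ₘ^r⟮𝓘(ℝ, E), 𝓘(ℝ, E)⟯ M}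
    (hyp : ∀ (q : M) (n : ℕ), 0 < n → g^[n] q = q → (∀ m, 0 < m → m < n → g^[m] q ≠ q) →
      HypLin (fderiv ℝ (loc (chartAt E q) g^[n]) (chartAt E q q)))
    {p : M} (hp : p ∈ Function.periodicPts g) : ∃ U, Isol g.toHomeomorph p U := by
  classical
  have hex : ∃ n, 0 < n ∧ g^[n] p = p := hp
  set n := Nat.find hex with hn
  obtain ⟨hn0, hpn⟩ := Nat.find_spec hex
  have hmin : ∀ m, 0 < m → m < n → g^[m] p ≠ p := fun m hm hmn h =>
    Nat.find_min hex hmn ⟨hm, h⟩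
  refine isol_of_local (f := g.toHomeomorph) hn0 hpn ?_
  rintro q ⟨i, rfl⟩
  change ∃ ρ > 0, ∀ x : ℤ → M, (∀ i, x (i + 1) = g^[n] (x i)) → (∀ j, dist (x j) (g^[i] p) < ρ) →
    x 0 = g^[i] p
  have hqn : g^[n] (g^[i] p) = g^[i] p := by
    rw [← Function.iterate_add_apply, Nat.add_comm, Function.iterate_add_apply, hpn]
  refine local_of_hyp hr (contMDiff_iterate g.contMDiff n)
    (IsManifold.chart_mem_maximalAtlas (g^[i] p)) (mem_chart_source E _) hqn ?_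
  apply hyp _ n hn0 hqn
  intro m hm hmn h
  apply hmin m hm hmn
  have h1 : g^[i] (g^[m] p) = g^[i] p := by
    rw [← Function.iterate_add_apply, Nat.add_comm, Function.iterate_add_apply, h]
  exact (g.injective.iterate i) h1

end Pool.Agent.AxA
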