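import Mathlib

/-!
# Hyperbolic linear maps through bounded orbits
-/

set_option autoImplicit false

open Filter Topology Set

namespace Pool.Agent.AxA

variable {E : Type*} [NormedAddCommGroup E] [NormedSpace ℝ E]

/-- `A` has no nonzero bounded full orbit. -/
def HypLin (A : E →L[ℝ] E) : Prop :=
  ∀ x : ℤ → E, (∀ i, x (i + 1) = A (x i)) → (∃ C, ∀ i, ‖x i‖ ≤ C) → ∀ i, x i = 0

theorem tendsto_clm_apply {ι F : Type*} [NormedAddCommGroup F] [NormedSpace ℝ F] {l : Filter ι}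
    {B : ι → E →L[ℝ] F} {x : ι → E} {B₀ : E →L[ℝ] F} {x₀ : E} (hB : Tendsto B l (𝓝 B₀))
    (hx : Tendsto x l (𝓝 x₀)) : Tendsto (fun k => B k (x k)) l (𝓝 (B₀ x₀)) :=
  ((isBoundedBilinearMap_apply (𝕜 := ℝ) (E := E) (F := F)).continuous.tendsto (B₀, x₀)).comp
    (hB.prodMk_nhds hx)

omit [NormedSpace ℝ E] in
/-- recentering of a bounded sequence at a large term -/
theorem exists_recenter {ι : Type*} (x : ι → E) (hb : ∃ C, ∀ i, ‖x i‖ ≤ C) (i₀ : ι)
    (h : x i₀ ≠ 0) : ∃ s > 0, ∃ m, (∀ i, ‖x i‖ ≤ s) ∧ s / 2 ≤ ‖x m‖ := by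
  obtain ⟨C, hC⟩ := hb
  have hbdd : BddAbove (Set.range fun i => ‖x i‖) := ⟨C, by rintro _ ⟨i, rfl⟩; exact hC i⟩
  have h0 : 0 < ‖x i₀‖ := norm_pos_iff.mpr h
  have : Nonempty ι := ⟨i₀⟩
  have hs : 0 < ⨆ i, ‖x i‖ := lt_of_lt_of_le h0 (le_ciSup hbdd i₀)
  obtain ⟨m, hm⟩ := exists_lt_of_lt_ciSup (show (⨆ i, ‖x i‖) / 2 < ⨆ i, ‖x i‖ by linarith)
  exact ⟨⨆ i, ‖x i‖, hs, m, fun i => le_ciSup hbdd i, hm.le⟩

/-- The compactness principle. -/
theorem cp [FiniteDimensional ℝ E] {A : ℤ → E →L[ℝ] E} {B : ℕ → ℤ → E →L[ℝ] E} {x : ℕ → ℤ → E}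
    {U : Ultrafilter ℕ} {c : ℝ} (hx : ∀ i, ∀ᶠ k in (U : Filter ℕ), ‖x k i‖ ≤ 1)
    (hB : ∀ i, Tendsto (fun k => B k i) U (𝓝 (A i)))
    (hr : ∀ i, Tendsto (fun k => x k (i + 1) - B k i (x k i)) U (𝓝 0))
    (h0 : ∀ᶠ k in (U : Filter ℕ), c ≤ ‖x k 0‖) :
    ∃ y : ℤ → E, (∀ i, ‖y i‖ ≤ 1) ∧ c ≤ ‖y 0‖ ∧ (∀ i, y (i + 1) = A i (y i)) ∧
      ∀ i, Tendsto (fun k => x k i) U (𝓝 (y i)) := by
  have hlim : ∀ i, ∃ y ∈ Metric.closedBall (0 : E) 1, Tendsto (fun k => x k i) U (𝓝 y) := by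
    intro i
    have hc : IsCompact (Metric.closedBall (0 : E) 1) := isCompact_closedBall 0 1
    have := hc.ultrafilter_le_nhds (U.map fun k => x k i) (by
      rw [le_principal_iff]
      exact (hx i).mono fun k hk => by simpa using hk)
    simpa [Tendsto] using this
  choose y hy hty using hlim
  refine ⟨y, fun i => by simpa using hy i, ?_, ?_, hty⟩
  · exact ge_of_tendsto (hty 0).norm h0
  · intro i
    have h1 : Tendsto (fun k => x k (i + 1) - B k i (x k i)) U (𝓝 (y (i + 1) - A i (y i))) :=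
      (hty (i + 1)).sub (tendsto_clm_apply (hB i) (hty i))
    have := tendsto_nhds_unique h1 (hr i)
    exact sub_eq_zero.mp this

/-- The basic a priori estimate. -/
theorem HypLin.estimate [FiniteDimensional ℝ E] {A : E →L[ℝ] E} (hA : HypLin A) :
    ∃ C > 0, ∀ (x : ℤ → E) (r : ℝ), (∃ s, ∀ i, ‖x i‖ ≤ s) → (∀ i, ‖x (i + 1) - A (x i)‖ ≤ r) →
      ∀ i, ‖x i‖ ≤ C * r := by
  by_contra hcon
  push Not at hcon
  have key : ∀ k : ℕ, ∃ y : ℤ → E, (∀ i, ‖y i‖ ≤ 1) ∧ 1 / 2 ≤ ‖y 0‖ ∧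
      ∀ i, ‖y (i + 1) - A (y i)‖ ≤ 1 / (k + 1) := by
    intro k
    obtain ⟨x, r, hb, hr, i₀, hi₀⟩ := hcon (k + 1) (by positivity)
    have hr0 : 0 ≤ r := (norm_nonneg _).trans (hr 0)
    have hx0 : x i₀ ≠ 0 := by
      intro h
      rw [h, norm_zero] at hi₀
      have : 0 ≤ ((k:ℝ) + 1) * r := by positivity
      linarith
    obtain ⟨s, hs, m, hsm, hm⟩ := exists_recenter x hb i₀ hx0
    have hsr : (k + 1) * r < s := lt_of_lt_of_le hi₀ (hsm i₀)
    refine ⟨fun i => s⁻¹ • x (i + m), ?_, ?_, ?_⟩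
    · intro i
      rw [norm_smul, norm_inv, Real.norm_eq_abs, abs_of_pos hs, inv_mul_le_iff₀ hs, mul_one]
      exact hsm _
    · rw [norm_smul, norm_inv, Real.norm_eq_abs, abs_of_pos hs, zero_add,
        le_inv_mul_iff₀ hs]
      linarith
    · intro i
      have e : s⁻¹ • x (i + 1 + m) - A (s⁻¹ • x (i + m)) =
          s⁻¹ • (x (i + m + 1) - A (x (i + m))) := by
        rw [map_smul, smul_sub, show i + 1 + m = i + m + 1 by ring]
      show ‖s⁻¹ • x (i + 1 + m) - A (s⁻¹ • x (i + m))‖ ≤ _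
      rw [e, norm_smul, norm_inv, Real.norm_eq_abs, abs_of_pos hs, inv_mul_le_iff₀ hs]
      have h1 := hr (i + m)
      have h2 : r ≤ s * (1 / (k + 1)) := by
        rw [mul_one_div, le_div_iff₀ (by positivity)]
        linarith
      exact h1.trans h2
  choose y hy1 hy0 hyr using key
  obtain ⟨z, hz1, hz0, hz, -⟩ := cp (A := fun _ => A) (B := fun _ _ => A) (x := y)
    (U := hyperfilter ℕ) (c := 1 / 2) (fun i => Eventually.of_forall fun k => hy1 k i)
    (fun i => tendsto_const_nhds) (fun i => by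
      have : Tendsto (fun k => y k (i + 1) - A (y k i)) atTop (𝓝 0) := by
        refine squeeze_zero_norm (fun k => hyr k i) ?_
        exact tendsto_one_div_add_atTop_nhds_zero_nat
      exact this.mono_left Nat.hyperfilter_le_atTop) (Eventually.of_forall fun k => hy0 k)
  have := hA z hz ⟨1, hz1⟩ 0
  rw [this, norm_zero] at hz0
  linarith

/-- Robustness: a cocycle close to a hyperbolic map has no nonzero bounded solution. -/
theorem HypLin.robust [FiniteDimensional ℝ E] {A : E →L[ℝ] E} (hA : HypLin A) :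
    ∃ δ > 0, ∀ (x : ℤ → E), (∃ s, ∀ i, ‖x i‖ ≤ s) →
      (∀ i, ‖x (i + 1) - A (x i)‖ ≤ δ * ‖x i‖) → ∀ i, x i = 0 := by
  obtain ⟨C, hC, hest⟩ := hA.estimate
  refine ⟨1 / (4 * C), by positivity, ?_⟩
  intro x hb hx i₀
  by_contra h0
  obtain ⟨s, hs, m, hsm, hm⟩ := exists_recenter x hb i₀ h0
  have h1 := hest x (1 / (4 * C) * s) hb (fun i => (hx i).trans (by
    apply mul_le_mul_of_nonneg_left (hsm i) (by positivity))) m
  have h2 : C * (1 / (4 * C) * s) = s / 4 := by field_simp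
  rw [h2] at h1
  linarith


/-- gluing of a forward and a backward sequence -/
def glue {α : Type*} (u w : ℕ → α) : ℤ → α
  | Int.ofNat n => u n
  | Int.negSucc n => w (n + 1)

theorem glue_step {α : Type*} {P : α → α → Prop} {u w : ℕ → α} (hu : ∀ n, P (u n) (u (n + 1)))
    (hw : ∀ n, P (w (n + 1)) (w n)) (h0 : u 0 = w 0) (i : ℤ) :
    P (glue u w i) (glue u w (i + 1)) := by
  match i with
  | Int.ofNat n => exact hu n
  | Int.negSucc 0 =>
    show P (w 1) (u 0)
    rw [h0]; exact hw 0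
  | Int.negSucc (n + 1) =>
    show P (w (n + 2)) (w (n + 1))
    exact hw (n + 1)

theorem glue_forall {α : Type*} {P : α → Prop} {u w : ℕ → α} (hu : ∀ n, P (u n))
    (hw : ∀ n, P (w n)) (i : ℤ) : P (glue u w i) := by
  match i with
  | Int.ofNat n => exact hu n
  | Int.negSucc n => exact hw (n + 1)

/-- vectors with bounded forward orbit -/
def Es (A : E →L[ℝ] E) : Submodule ℝ E where
  carrier := {v | ∃ C, ∀ n : ℕ, ‖A^[n] v‖ ≤ C}
  zero_mem' := ⟨0, fun n => by
    rw [Function.iterate_fixed (map_zero A), norm_zero]⟩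
  add_mem' := by
    rintro v w ⟨C, hC⟩ ⟨D, hD⟩
    refine ⟨C + D, fun n => ?_⟩
    rw [iterate_map_add]
    exact (norm_add_le _ _).trans (add_le_add (hC n) (hD n))
  smul_mem' := by
    rintro c v ⟨C, hC⟩
    refine ⟨‖c‖ * C, fun n => ?_⟩
    have : A^[n] (c • v) = c • A^[n] v := by
      induction n with
      | zero => rfl
      | succ n ih => rw [Function.iterate_succ_apply', ih, map_smul, Function.iterate_succ_apply']
    rw [this, norm_smul]
    exact mul_le_mul_of_nonneg_left (hC n) (norm_nonneg _)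

theorem mem_Es {A : E →L[ℝ] E} {v : E} : v ∈ Es A ↔ ∃ C, ∀ n : ℕ, ‖A^[n] v‖ ≤ C := Iff.rfl

theorem HypLin.eq_zero_of_mem {A : E ≃L[ℝ] E} (hA : HypLin (A : E →L[ℝ] E)) {v : E}
    (h1 : v ∈ Es (A : E →L[ℝ] E)) (h2 : v ∈ Es (A.symm : E →L[ℝ] E)) : v = 0 := by
  obtain ⟨C, hC⟩ := h1
  obtain ⟨D, hD⟩ := h2
  have h := hA (glue (fun n => A^[n] v) (fun n => A.symm^[n] v)) (fun i => by
      exact glue_step (P := fun a b => b = (A : E →L[ℝ] E) a) (u := fun n => A^[n] v)
        (w := fun n => A.symm^[n] v) (fun n => Function.iterate_succ_apply' _ _ _)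
        (fun n => by
          show A.symm^[n] v = A (A.symm^[n + 1] v)
          rw [Function.iterate_succ_apply', ContinuousLinearEquiv.apply_symm_apply]) rfl i)
    ⟨max C D, glue_forall (P := fun a => ‖a‖ ≤ max C D) (fun n => (hC n).trans (le_max_left _ _))
      (fun n => (hD n).trans (le_max_right _ _))⟩ 0
  exact h

theorem HypLin.symm {A : E ≃L[ℝ] E} (hA : HypLin (A : E →L[ℝ] E)) :
    HypLin (A.symm : E →L[ℝ] E) := by
  intro x hx hb i
  have := hA (fun j => x (-j)) (fun j => by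
    have h := hx (-(j + 1))
    rw [show -(j + 1) + 1 = -j by ring] at h
    show x (-(j + 1)) = A (x (-j))
    rw [h]
    exact (A.apply_symm_apply _).symm) (by
      obtain ⟨C, hC⟩ := hb
      exact ⟨C, fun j => hC _⟩) (-i)
  simpa using this

/-- Uniform decay of bounded forward orbits. -/
theorem HypLin.decay [FiniteDimensional ℝ E] {A : E →L[ℝ] E} (hA : HypLin A) :
    ∃ N : ℕ, ∀ (x : ℕ → E) (s : ℝ), (∀ i, x (i + 1) = A (x i)) → (∀ i, ‖x i‖ ≤ s) →
      ∀ i, N ≤ i → ‖x i‖ ≤ s / 2 := by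
  by_contra hcon
  push Not at hcon
  choose x s hx hs i hi hxi using hcon
  have hspos : ∀ k, 0 < s k := fun k => by
    have := hs k (i k)
    have := hxi k
    linarith
  obtain ⟨z, hz1, hz0, hz, -⟩ := cp (A := fun _ => A) (B := fun _ _ => A)
    (x := fun k j => if 0 ≤ j + i k then (s k)⁻¹ • x k (j + i k).toNat else 0)
    (U := hyperfilter ℕ) (c := 1 / 2) (fun j => Eventually.of_forall fun k => by
      split_ifs with h
      · rw [norm_smul, norm_inv, Real.norm_eq_abs, abs_of_pos (hspos k),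
          inv_mul_le_iff₀ (hspos k), mul_one]
        exact hs k _
      · simp) (fun j => tendsto_const_nhds) (fun j => by
      refine tendsto_const_nhds.congr' ?_
      refine Filter.Eventually.filter_mono Nat.hyperfilter_le_atTop ?_
      filter_upwards [Filter.eventually_ge_atTop ((-j).toNat)] with k hk
      have hik : ((-j).toNat : ℤ) ≤ i k := by exact_mod_cast hk.trans (hi k)
      have h1 : 0 ≤ j + i k := by
        have := Int.self_le_toNat (-j)
        omega
      have h2 : 0 ≤ j + 1 + i k := by omega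
      rw [if_pos h1, if_pos h2, map_smul, show (j + 1 + i k).toNat = (j + i k).toNat + 1 by omega,
        hx, sub_self]) (Eventually.of_forall fun k => by
      rw [if_pos (by positivity), norm_smul, norm_inv, Real.norm_eq_abs, abs_of_pos (hspos k),
        le_inv_mul_iff₀ (hspos k)]
      have := hxi k
      simp only [zero_add, Int.toNat_natCast]
      linarith)
  have := hA z hz ⟨1, hz1⟩ 0
  rw [this, norm_zero] at hz0
  linarith

/-- Exponential decay of bounded forward orbits. -/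
theorem HypLin.exp_decay [FiniteDimensional ℝ E] {A : E →L[ℝ] E} (hA : HypLin A) :
    ∃ C > 0, ∃ μ : ℝ, 0 < μ ∧ μ < 1 ∧ ∀ v ∈ Es A, ∀ n : ℕ, ‖A^[n] v‖ ≤ C * μ ^ n * ‖v‖ := by
  obtain ⟨N₀, hN₀⟩ := hA.decay
  obtain ⟨N, hN1, hN⟩ : ∃ N : ℕ, 0 < N ∧ ∀ (x : ℕ → E) (s : ℝ), (∀ i, x (i + 1) = A (x i)) →
      (∀ i, ‖x i‖ ≤ s) → ∀ i, N ≤ i → ‖x i‖ ≤ s / 2 :=
    ⟨N₀ + 1, Nat.succ_pos _, fun x s h1 h2 i hi => hN₀ x s h1 h2 i (by omega)⟩
  set K : ℝ := (max 1 ‖A‖) ^ N with hK
  have hK1 : 1 ≤ K := one_le_pow₀ (le_max_left _ _)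
  set μ : ℝ := (1 / 2 : ℝ) ^ (1 / N : ℝ) with hμ
  have hNr : (0:ℝ) < N := by exact_mod_cast hN1
  have hμ0 : 0 < μ := by positivity
  have hμ1 : μ < 1 := Real.rpow_lt_one (by norm_num) (by norm_num) (by positivity)
  have hμN : μ ^ N = 1 / 2 := by
    rw [hμ, ← Real.rpow_natCast, ← Real.rpow_mul (by norm_num), one_div_mul_cancel hNr.ne',
      Real.rpow_one]
  refine ⟨2 * K, by positivity, μ, hμ0, hμ1, ?_⟩
  rintro v ⟨C, hC⟩ n
  -- the supremum is bounded by `K * ‖v‖`
  have hit : ∀ i, A^[i + 1] v = A (A^[i] v) := fun i => Function.iterate_succ_apply' _ _ _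
  have hsmall : ∀ i, i ≤ N → ‖A^[i] v‖ ≤ K * ‖v‖ := by
    intro i hi
    have h1 : ∀ i, ‖A^[i] v‖ ≤ (max 1 ‖A‖) ^ i * ‖v‖ := by
      intro i
      induction i with
      | zero => simp
      | succ i ih =>
        rw [hit]
        calc ‖A (A^[i] v)‖ ≤ ‖A‖ * ‖A^[i] v‖ := A.le_opNorm _
          _ ≤ max 1 ‖A‖ * ((max 1 ‖A‖) ^ i * ‖v‖) := by
              apply mul_le_mul (le_max_right _ _) ih (norm_nonneg _) (by positivity)
          _ = _ := by ring
    exact (h1 i).trans (mul_le_mul_of_nonneg_right (pow_le_pow_right₀ (le_max_left _ _) hi)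
      (norm_nonneg _))
  have hbdd : BddAbove (Set.range fun i => ‖A^[i] v‖) := ⟨C, by rintro _ ⟨i, rfl⟩; exact hC i⟩
  have hle : ∀ i, ‖A^[i] v‖ ≤ ⨆ i, ‖A^[i] v‖ := fun i => le_ciSup hbdd i
  have hsK : ∀ i, ‖A^[i] v‖ ≤ K * ‖v‖ := by
    have h1 : (⨆ i, ‖A^[i] v‖) ≤ max (K * ‖v‖) ((⨆ i, ‖A^[i] v‖) / 2) := by
      apply ciSup_le
      intro i
      rcases le_total i N with h | h
      · exact (hsmall i h).trans (le_max_left _ _)
      · exact (hN _ _ hit hle i h).trans (le_max_right _ _)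
    have h2 : (⨆ i, ‖A^[i] v‖) ≤ K * ‖v‖ := by
      rcases le_max_iff.mp h1 with h | h
      · exact h
      · have h3 : 0 ≤ ⨆ i, ‖A^[i] v‖ := (norm_nonneg _).trans (hle 0)
        have h4 : (0:ℝ) ≤ K * ‖v‖ := by positivity
        linarith
    exact fun i => (hle i).trans h2
  have hq : ∀ q : ℕ, ∀ i, q * N ≤ i → ‖A^[i] v‖ ≤ (1 / 2) ^ q * (K * ‖v‖) := by
    intro q
    induction q with
    | zero => intro i _; simpa using hsK i
    | succ q ih =>
      intro i hi
      have := hN (fun j => A^[j + q * N] v) ((1 / 2) ^ q * (K * ‖v‖))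
        (fun j => by rw [show j + 1 + q * N = j + q * N + 1 by ring]; exact hit _)
        (fun j => ih _ (by omega)) (i - q * N) (by
          have : (q + 1) * N = q * N + N := by ring
          omega)
      have e : i - q * N + q * N = i := by
        have : (q + 1) * N = q * N + N := by ring
        omega
      simp only [e] at this
      rw [pow_succ]
      linarith
  have h1 := hq (n / N) n (Nat.div_mul_le_self n N)
  have h2 : (1 / 2 : ℝ) ^ (n / N) ≤ 2 * μ ^ n := by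
    have e : μ ^ n = (1 / 2) ^ (n / N) * μ ^ (n % N) := by
      rw [← hμN, ← pow_mul, ← pow_add, Nat.div_add_mod]
    have h3 : 1 / 2 ≤ μ ^ (n % N) := by
      rw [← hμN]
      exact pow_le_pow_of_le_one hμ0.le hμ1.le (Nat.mod_lt _ hN1).le
    rw [e]
    have h4 : (0:ℝ) < (1 / 2) ^ (n / N) := by positivity
    nlinarith
  calc ‖A^[n] v‖ ≤ (1 / 2) ^ (n / N) * (K * ‖v‖) := h1
    _ ≤ 2 * μ ^ n * (K * ‖v‖) := mul_le_mul_of_nonneg_right h2 (by positivity)
    _ = _ := by ring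

/-- The splitting. -/
theorem HypLin.sup_eq_top [FiniteDimensional ℝ E] {A : E ≃L[ℝ] E}
    (hA : HypLin (A : E →L[ℝ] E)) : Es (A : E →L[ℝ] E) ⊔ Es (A.symm : E →L[ℝ] E) = ⊤ := by
  obtain ⟨C, hC, hest⟩ := hA.estimate
  rw [eq_top_iff]
  intro v _
  -- periodic solutions
  have key : ∀ n : ℕ, ∃ w : E, w - A^[n + 1] w = v ∧ ∀ j ≤ n, ‖A^[j] w‖ ≤ C * ‖v‖ := by
    intro n
    have hlin : ∀ j : ℕ, ∃ T : E →ₗ[ℝ] E, ∀ w, T w = A^[j] w := by
      intro j
      refine ⟨((A : E →L[ℝ] E) : E →ₗ[ℝ] E) ^ j, fun w => ?_⟩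
      rw [Module.End.pow_apply]
      rfl
    obtain ⟨T, hT⟩ := hlin (n + 1)
    have hinj : Function.Injective (LinearMap.id - T : E →ₗ[ℝ] E) := by
      rw [← LinearMap.ker_eq_bot, LinearMap.ker_eq_bot']
      intro w hw
      have hw' : A^[n + 1] w = w := by
        have : w - A^[n + 1] w = 0 := by simpa [hT] using hw
        exact (sub_eq_zero.mp this).symm
      have hper : Function.IsPeriodicPt A (n + 1) w := hw'
      have hb : ∃ D, ∀ j : ℕ, ‖A^[j] w‖ ≤ D := by
        refine ⟨∑ k ∈ Finset.range (n + 1), ‖A^[k] w‖, fun j => ?_⟩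
        rw [← hper.iterate_mod_apply j]
        exact Finset.single_le_sum (f := fun k => ‖A^[k] w‖) (fun _ _ => norm_nonneg _)
          (Finset.mem_range.mpr (Nat.mod_lt _ (Nat.succ_pos _)))
      have hb' : ∃ D, ∀ j : ℕ, ‖A.symm^[j] w‖ ≤ D := by
        obtain ⟨D, hD⟩ := hb
        refine ⟨D, fun j => ?_⟩
        have e : A.symm^[j] w = A^[(n + 1) * j - j] w := by
          have h1 : A^[(n + 1) * j] w = w := by
            have := hper.mul_const j
            exact this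
          have h2 : A^[j] (A^[(n + 1) * j - j] w) = w := by
            rw [← Function.iterate_add_apply, Nat.add_sub_cancel', h1]
            exact Nat.le_mul_of_pos_left _ (Nat.succ_pos _)
          conv_lhs => rw [← h2]
          exact Function.LeftInverse.iterate (f := A) (g := A.symm) A.symm_apply_apply j _
        rw [e]
        exact hD _
      exact hA.eq_zero_of_mem hb hb'
    have hsurj : Function.Surjective (LinearMap.id - T : E →ₗ[ℝ] E) :=
      LinearMap.injective_iff_surjective.mp hinj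
    obtain ⟨w, hw⟩ := hsurj v
    have hw' : w - A^[n + 1] w = v := by simpa [hT] using hw
    refine ⟨w, hw', ?_⟩
    have hn1 : (0:ℤ) < (n:ℤ) + 1 := by positivity
    have h := hest (fun j => A^[((j - 1) % ((n : ℤ) + 1)).toNat] w) ‖v‖
      ⟨∑ k ∈ Finset.range (n + 1), ‖A^[k] w‖, fun j => by
        refine Finset.single_le_sum (f := fun k => ‖A^[k] w‖) (fun _ _ => norm_nonneg _)
          (Finset.mem_range.mpr ?_)
        have h1 := Int.emod_lt_of_pos (j - 1) hn1
        have h2 := Int.emod_nonneg (j - 1) hn1.ne'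
        omega⟩ (fun j => by
        show ‖A^[((j + 1 - 1) % ((n : ℤ) + 1)).toNat] w -
          A (A^[((j - 1) % ((n : ℤ) + 1)).toNat] w)‖ ≤ ‖v‖
        rw [← Function.iterate_succ_apply' (⇑A), show j + 1 - 1 = j by ring]
        have h1 := Int.emod_lt_of_pos (j - 1) hn1
        have h2 := Int.emod_nonneg (j - 1) hn1.ne'
        have h3 := Int.emod_lt_of_pos j hn1
        have h4 := Int.emod_nonneg j hn1.ne'
        by_cases hj : j % ((n:ℤ) + 1) = 0
        · have h5 : (j - 1) % ((n:ℤ) + 1) = n := by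
            rw [Int.sub_emod, hj]
            rcases Nat.eq_zero_or_pos n with h | h
            · subst h; simp
            · have : (1:ℤ) % ((n:ℤ) + 1) = 1 := Int.emod_eq_of_lt (by norm_num) (by omega)
              rw [this, zero_sub, show (-1 : ℤ) = (n:ℤ) - ((n:ℤ) + 1) * 1 by ring,
                Int.sub_mul_emod_self_left, Int.emod_eq_of_lt (by positivity) (by omega)]
          rw [hj, h5]
          show ‖w - A^[n + 1] w‖ ≤ ‖v‖
          rw [hw']
        · have h5 : (j - 1) % ((n:ℤ) + 1) = j % ((n:ℤ) + 1) - 1 := by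
            have h6 : j - 1 = (j % ((n:ℤ) + 1) - 1) + ((n:ℤ) + 1) * (j / ((n:ℤ) + 1)) := by
              have := Int.emod_add_mul_ediv j ((n:ℤ) + 1)
              linarith
            rw [h6, Int.add_mul_emod_self_left]
            exact Int.emod_eq_of_lt (by omega) (by omega)
          rw [h5, show ((j % ((n:ℤ) + 1) - 1).toNat).succ = (j % ((n:ℤ) + 1)).toNat by omega,
            sub_self, norm_zero]
          exact norm_nonneg _)
    intro j hj
    have h1 := h (j + 1)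
    have h2 : ((j:ℤ) + 1 - 1) % ((n:ℤ) + 1) = j := by
      rw [add_sub_cancel_right]
      exact Int.emod_eq_of_lt (by positivity) (by omega)
    simp only [h2, Int.toNat_natCast] at h1
    exact h1
  choose w hw1 hw2 using key
  -- limit
  have hcpt : IsCompact (Metric.closedBall (0 : E) (C * ‖v‖)) := isCompact_closedBall _ _
  obtain ⟨a, -, φ, hφ, hφt⟩ := hcpt.tendsto_subseq (x := w) (fun n => by
    simpa using hw2 n 0 (Nat.zero_le _))
  have hcont : ∀ j : ℕ, Continuous (A^[j]) := fun j => A.continuous.iterate j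
  have hcont' : ∀ j : ℕ, Continuous (A.symm^[j]) := fun j => A.symm.continuous.iterate j
  have ha : a ∈ Es (A : E →L[ℝ] E) := by
    refine ⟨C * ‖v‖, fun j => ?_⟩
    have h1 : Tendsto (fun k => ‖A^[j] (w (φ k))‖) atTop (𝓝 ‖A^[j] a‖) :=
      (((hcont j).tendsto a).comp hφt).norm
    refine le_of_tendsto h1 ?_
    filter_upwards [Filter.eventually_ge_atTop j] with k hk
    exact hw2 _ j (hk.trans (hφ.id_le k))
  have hb : v - a ∈ Es (A.symm : E →L[ℝ] E) := by
    refine ⟨C * ‖v‖ + ‖A.symm.toContinuousLinearMap‖ * 0 + ‖v‖ + C * ‖v‖ , fun j => ?_⟩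
    have h1 : Tendsto (fun k => ‖A.symm^[j] (v - w (φ k))‖) atTop (𝓝 ‖A.symm^[j] (v - a)‖) :=
      (((hcont' j).tendsto (v - a)).comp (tendsto_const_nhds.sub hφt)).norm
    refine le_of_tendsto h1 ?_
    filter_upwards [Filter.eventually_ge_atTop j] with k hk
    have hk' : j ≤ φ k := hk.trans (hφ.id_le k)
    have e1 : v - w (φ k) = -(A^[φ k + 1] (w (φ k))) := by
      conv_lhs => rw [← hw1 (φ k)]
      abel
    rcases Nat.eq_zero_or_pos j with hj | hj
    · subst hj
      show ‖v - w (φ k)‖ ≤ _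
      have := norm_sub_le v (w (φ k))
      have h3 := hw2 (φ k) 0 (Nat.zero_le _)
      simp only [Function.iterate_zero, id] at h3
      have : 0 ≤ C * ‖v‖ := by positivity
      linarith
    · rw [e1]
      have e2 : A.symm^[j] (-(A^[φ k + 1] (w (φ k)))) = -(A^[φ k + 1 - j] (w (φ k))) := by
        rw [iterate_map_neg]
        congr 1
        have : φ k + 1 = j + (φ k + 1 - j) := by omega
        conv_lhs => rw [this, Function.iterate_add_apply]
        exact Function.LeftInverse.iterate (f := A) (g := A.symm) A.symm_apply_apply j _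
      rw [e2, norm_neg]
      have h3 := hw2 (φ k) (φ k + 1 - j) (by omega)
      have : 0 ≤ C * ‖v‖ := by positivity
      have := norm_nonneg v
      linarith
  rw [show v = a + (v - a) by abel]
  exact Submodule.add_mem_sup ha hb


/-- product of a cocycle -/
noncomputable def cocyc (B : ℕ → E ≃L[ℝ] E) : ℕ → E ≃L[ℝ] E
  | 0 => ContinuousLinearEquiv.refl ℝ E
  | n + 1 => (cocyc B n).trans (B n)

theorem cocyc_succ_apply (B : ℕ → E ≃L[ℝ] E) (n : ℕ) (v : E) :
    cocyc B (n + 1) v = B n (cocyc B n v) := rfl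

theorem cocyc_add_apply (B : ℕ → E ≃L[ℝ] E) (n m : ℕ) (v : E) :
    cocyc B (n + m) v = cocyc (fun j => B (n + j)) m (cocyc B n v) := by
  induction m with
  | zero => rfl
  | succ m ih =>
    rw [cocyc_succ_apply, ← ih]
    rfl

/-- vectors with bounded forward orbit under a cocycle -/
noncomputable def Sb (B : ℕ → E ≃L[ℝ] E) : Submodule ℝ E where
  carrier := {v | ∃ C, ∀ n : ℕ, ‖cocyc B n v‖ ≤ C}
  zero_mem' := ⟨0, fun n => by rw [map_zero, norm_zero]⟩
  add_mem' := by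
    rintro v w ⟨C, hC⟩ ⟨D, hD⟩
    refine ⟨C + D, fun n => ?_⟩
    rw [map_add]
    exact (norm_add_le _ _).trans (add_le_add (hC n) (hD n))
  smul_mem' := by
    rintro c v ⟨C, hC⟩
    refine ⟨‖c‖ * C, fun n => ?_⟩
    rw [map_smul, norm_smul]
    exact mul_le_mul_of_nonneg_left (hC n) (norm_nonneg _)

theorem mem_Sb {B : ℕ → E ≃L[ℝ] E} {v : E} : v ∈ Sb B ↔ ∃ C, ∀ n : ℕ, ‖cocyc B n v‖ ≤ C :=
  Iff.rfl

/-- The dimension lemma. -/
theorem HypLin.finrank_Sb [FiniteDimensional ℝ E] {A : E ≃L[ℝ] E}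
    (hA : HypLin (A : E →L[ℝ] E)) {B : ℕ → E ≃L[ℝ] E}
    (hB : Tendsto (fun n => (B n : E →L[ℝ] E)) atTop (𝓝 (A : E →L[ℝ] E))) :
    Module.finrank ℝ (Sb B) + Module.finrank ℝ (Es (A.symm : E →L[ℝ] E)) ≤
      Module.finrank ℝ E := by
  obtain ⟨δ, hδ, hrob⟩ := hA.robust
  obtain ⟨J, hJ⟩ := Metric.tendsto_atTop.mp hB δ hδ
  have hinj : Function.Injective ((cocyc B J : E →L[ℝ] E) : E →ₗ[ℝ] E) := (cocyc B J).injective
  have h1 : Module.finrank ℝ (Sb B) =
      Module.finrank ℝ ((Sb B).map ((cocyc B J : E →L[ℝ] E) : E →ₗ[ℝ] E)) :=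
    (LinearEquiv.finrank_map_eq (cocyc B J).toLinearEquiv (Sb B)).symm
  rw [h1]
  apply Submodule.finrank_add_finrank_le_of_disjoint
  rw [Submodule.disjoint_def]
  rintro v' ⟨v, ⟨C, hC⟩, rfl⟩ ⟨D, hD⟩
  have h := hrob (glue (fun n => cocyc B (J + n) v) (fun n => A.symm^[n] (cocyc B J v)))
    ⟨max C D, glue_forall (P := fun a => ‖a‖ ≤ max C D) (fun n => (hC _).trans (le_max_left _ _))
      (fun n => (hD n).trans (le_max_right _ _))⟩
    (fun i => by
      exact glue_step (P := fun a b => ‖b - (A : E →L[ℝ] E) a‖ ≤ δ * ‖a‖)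
        (u := fun n => cocyc B (J + n) v)
        (w := fun n => A.symm^[n] (cocyc B J v)) (fun n => by
          show ‖cocyc B (J + n + 1) v - (A : E →L[ℝ] E) (cocyc B (J + n) v)‖ ≤ _
          rw [cocyc_succ_apply]
          show ‖(B (J + n) : E →L[ℝ] E) (cocyc B (J + n) v) -
            (A : E →L[ℝ] E) (cocyc B (J + n) v)‖ ≤ _
          rw [← sub_apply]
          refine (ContinuousLinearMap.le_opNorm _ _).trans ?_
          refine mul_le_mul_of_nonneg_right ?_ (norm_nonneg _)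
          have := hJ (J + n) (by omega)
          rw [dist_eq_norm] at this
          exact this.le) (fun n => by
          show ‖A.symm^[n] (cocyc B J v) - A (A.symm^[n + 1] (cocyc B J v))‖ ≤ _
          rw [Function.iterate_succ_apply', ContinuousLinearEquiv.apply_symm_apply, sub_self,
            norm_zero]
          positivity) rfl i) 0
  exact h

theorem finrank_Es_add [FiniteDimensional ℝ E] {A : E ≃L[ℝ] E}
    (hA : HypLin (A : E →L[ℝ] E)) : Module.finrank ℝ (Es (A : E →L[ℝ] E)) +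
      Module.finrank ℝ (Es (A.symm : E →L[ℝ] E)) = Module.finrank ℝ E := by
  have h1 : IsCompl (Es (A : E →L[ℝ] E)) (Es (A.symm : E →L[ℝ] E)) :=
    ⟨by
      rw [Submodule.disjoint_def]
      exact fun v h1 h2 => hA.eq_zero_of_mem h1 h2, by
      rw [codisjoint_iff]
      exact hA.sup_eq_top⟩
  exact Submodule.finrank_add_eq_of_isCompl h1

/-- The dimension inequality for homoclinic orbits. -/
theorem HypLin.finrank_le [FiniteDimensional ℝ E] {A : E ≃L[ℝ] E}
    (hA : HypLin (A : E →L[ℝ] E)) {B B' : ℕ → E ≃L[ℝ] E}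
    (hB : Tendsto (fun n => (B n : E →L[ℝ] E)) atTop (𝓝 (A : E →L[ℝ] E)))
    (hB' : Tendsto (fun n => (B' n : E →L[ℝ] E)) atTop (𝓝 (A.symm : E →L[ℝ] E))) :
    Module.finrank ℝ (Sb B') + Module.finrank ℝ (Sb B) ≤ Module.finrank ℝ E := by
  have h1 := hA.finrank_Sb hB
  have h2 := (hA.symm).finrank_Sb hB'
  rw [ContinuousLinearEquiv.symm_symm] at h2
  have h3 := finrank_Es_add hA
  omega

/-- Generic position. -/
theorem exists_generic [FiniteDimensional ℝ E] (U S : Submodule ℝ E)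
    (h : Module.finrank ℝ U + Module.finrank ℝ S ≤ Module.finrank ℝ E) {ε : ℝ} (hε : 0 < ε) :
    ∃ B : E →L[ℝ] E, ‖B‖ < ε ∧ ∀ u ∈ U, u + B u ∈ S → u = 0 := by
  obtain ⟨C, hC⟩ := Submodule.exists_isCompl S
  have hdim := Submodule.finrank_add_eq_of_isCompl hC
  have hle : Module.finrank ℝ U ≤ Module.finrank ℝ C := by omega
  obtain ⟨T₀, hT₀⟩ := (finrank_le_iff_exists_linearMap (R := ℝ) (M := U) (M' := C)).mp hle
  obtain ⟨T, hT⟩ := LinearMap.exists_extend (C.subtype ∘ₗ T₀)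
  have hTu : ∀ u : U, T u = T₀ u := fun u => by
    have := LinearMap.congr_fun hT u
    simpa using this
  let Φ : (E →ₗ[ℝ] E) → (U × S →ₗ[ℝ] E) := fun R =>
    (R ∘ₗ U.subtype ∘ₗ LinearMap.fst ℝ U S) - S.subtype ∘ₗ LinearMap.snd ℝ U S
  have hΦ : ∀ R x, Φ R x = R x.1 - x.2 := fun R x => rfl
  have hker : LinearMap.ker (Φ T) = ⊥ := by
    rw [LinearMap.ker_eq_bot']
    rintro ⟨u, s⟩ hx
    rw [hΦ, hTu, sub_eq_zero] at hx
    have h1 : (T₀ u : E) ∈ S := by rw [hx]; exact s.2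
    have h2 : (T₀ u : E) = 0 := (Submodule.disjoint_def.mp hC.disjoint) _ h1 (T₀ u).2
    have h3 : T₀ u = 0 := Subtype.ext h2
    have h4 : u = 0 := hT₀ (by rw [h3, map_zero])
    have h5 : (s : E) = 0 := by rw [← hx, h2]
    have h6 : s = 0 := Subtype.ext h5
    rw [h4, h6]; rfl
  obtain ⟨Ψ, hΨ⟩ := (Φ T).exists_leftInverse_of_injective hker
  let C₀ : Module.End ℝ (U × S) := Ψ ∘ₗ Φ LinearMap.id
  set TT : E →L[ℝ] E := LinearMap.toContinuousLinearMap (T - LinearMap.id) with hTT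
  set δ : ℝ := min (1 / 2) (ε / (‖TT‖ + 1)) with hδ
  have hδ0 : 0 < δ := by positivity
  have hinf : (Set.Ioo (0:ℝ) δ).Infinite := Set.Ioo_infinite hδ0
  have hfin : (Set.Ioo (0:ℝ) δ ∩ (fun t : ℝ => -t / (1 - t)) ⁻¹' (spectrum ℝ C₀)).Finite := by
    apply Set.Finite.of_finite_image (f := fun t : ℝ => -t / (1 - t))
    · refine (Module.End.finite_spectrum C₀).subset ?_
      rintro _ ⟨t, ⟨-, ht⟩, rfl⟩
      exact ht
    · rintro t ⟨⟨ht0, ht1⟩, -⟩ t' ⟨⟨ht0', ht1'⟩, -⟩ h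
      have h1 : t < 1 / 2 := ht1.trans_le (min_le_left _ _)
      have h2 : t' < 1 / 2 := ht1'.trans_le (min_le_left _ _)
      have h3 : (1 - t) ≠ 0 := by linarith
      have h4 : (1 - t') ≠ 0 := by linarith
      simp only at h
      rw [div_eq_div_iff h3 h4] at h
      linarith
  obtain ⟨t, ⟨ht0, htδ⟩, ht⟩ := (hinf.sdiff hfin).nonempty
  have ht1 : t < 1 / 2 := htδ.trans_le (min_le_left _ _)
  have ht2 : t < ε / (‖TT‖ + 1) := htδ.trans_le (min_le_right _ _)
  refine ⟨t • TT, ?_, ?_⟩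
  · rw [norm_smul, Real.norm_eq_abs, abs_of_pos ht0]
    rw [lt_div_iff₀ (by positivity)] at ht2
    have := norm_nonneg TT
    nlinarith
  · intro u hu hs
    by_contra hu0
    apply ht
    refine ⟨⟨ht0, htδ⟩, ?_⟩
    show -t / (1 - t) ∈ spectrum ℝ C₀
    rw [← Module.End.hasEigenvalue_iff_mem_spectrum]
    let x : U × S := (⟨u, hu⟩, ⟨u + (t • TT) u, hs⟩)
    have hx0 : x ≠ 0 := by
      intro h
      apply hu0
      have := congrArg (fun y : U × S => (y.1 : E)) h
      simpa [x] using this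
    apply Module.End.hasEigenvalue_of_hasEigenvector (x := x)
    refine ⟨?_, hx0⟩
    rw [Module.End.mem_eigenspace_iff]
    have h1 : (1 - t) • Φ LinearMap.id x + t • Φ T x = 0 := by
      rw [hΦ, hΦ]
      show (1 - t) • (u - (u + (t • TT) u)) + t • (T u - (u + (t • TT) u)) = 0
      have e : (t • TT) u = t • (T u - u) := rfl
      rw [e]
      module
    have h2 : (1 - t) • C₀ x + t • x = 0 := by
      have h3 := congrArg Ψ h1
      rw [map_add, map_smul, map_smul, map_zero] at h3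
      have h4 : Ψ (Φ T x) = x := LinearMap.congr_fun hΨ x
      rw [h4] at h3
      exact h3
    have h3 : (1 - t) ≠ 0 := by linarith
    have h4 : (1 - t) • C₀ x = (-t) • x := by
      rw [neg_smul]
      exact eq_neg_of_add_eq_zero_left h2
    rw [div_eq_inv_mul, mul_smul, ← h4, smul_smul, inv_mul_cancel₀ h3, one_smul]

end Pool.Agent.AxA
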