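import Pool.Agent.AxA.Iso
import Pool.Agent.AxA.HS

/-!
# Horseshoes on manifolds
-/

set_option autoImplicit false

open Filter Topology Set TopologicalSpace
open scoped Manifold ContDiff

namespace Pool.Agent.AxA

section linear

variable {E : Type*} [NormedAddCommGroup E] [NormedSpace ℝ E]

/-- transversality in terms of the bounded orbits -/
theorem homA_trans {F G : E → E} {a b : ℕ → E} {Ba Bb : ℕ → E ≃L[ℝ] E}
    (hBa : ∀ k, (Ba k : E →L[ℝ] E) = fderiv ℝ F (a (k + 1)))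
    (hBb : ∀ k, (Bb k : E →L[ℝ] E) = fderiv ℝ F (b k))
    (h : ∀ w ∈ Sb (fun k => (Ba k).symm), fderiv ℝ G (a 0) w ∈ Sb Bb → w = 0) :
    ∀ x : ℤ → E, (∀ i, x (i + 1) = homA F G a b i (x i)) → (∃ C, ∀ i, ‖x i‖ ≤ C) →
      ∀ i, x i = 0 := by
  intro x hx hb i
  obtain ⟨C, hC⟩ := hb
  have h1 : x 1 = fderiv ℝ G (a 0) (x 0) := hx 0
  have hf : ∀ k : ℕ, cocyc Bb k (x 1) = x (k + 1) := by
    intro k
    induction k with
    | zero => simp [cocyc]
    | succ k ih =>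
      rw [cocyc_succ_apply, ih]
      have h2 := hx ((k : ℤ) + 1)
      have h3 : homA F G a b ((k : ℤ) + 1) = fderiv ℝ F (b k) := rfl
      rw [h3, ← hBb k] at h2
      push_cast
      exact h2.symm
  have hbk : ∀ k : ℕ, cocyc (fun k => (Ba k).symm) k (x 0) = x (-k) := by
    intro k
    induction k with
    | zero => simp [cocyc]
    | succ k ih =>
      rw [cocyc_succ_apply, ih]
      have h2 := hx (Int.negSucc k)
      have h3 : homA F G a b (Int.negSucc k) = fderiv ℝ F (a (k + 1)) := rfl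
      rw [h3, ← hBa k] at h2
      have h4 : Int.negSucc k + 1 = -(k : ℤ) := by rw [Int.negSucc_eq]; ring
      rw [h4] at h2
      rw [h2]
      have h5 : Int.negSucc k = -((k + 1 : ℕ) : ℤ) := by rw [Int.negSucc_eq]; push_cast; ring
      rw [h5]
      exact (Ba k).symm_apply_apply _
  have hs1 : x 1 ∈ Sb Bb := ⟨C, fun k => by rw [hf]; exact hC _⟩
  have hs0 : x 0 ∈ Sb (fun k => (Ba k).symm) := ⟨C, fun k => by rw [hbk]; exact hC _⟩
  have h0 : x 0 = 0 := h _ hs0 (by rw [← h1]; exact hs1)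
  have h10 : x 1 = 0 := by rw [h1, h0, map_zero]
  rcases le_or_gt i 0 with hi | hi
  · obtain ⟨k, hk⟩ := Int.eq_ofNat_of_zero_le (show 0 ≤ -i by omega)
    have : i = -(k : ℤ) := by omega
    rw [this, ← hbk, h0, map_zero]
  · obtain ⟨k, hk⟩ := Int.eq_ofNat_of_zero_le (show 0 ≤ i - 1 by omega)
    have : i = (k : ℤ) + 1 := by omega
    rw [this, ← hf, h10, map_zero]

end linear

variable {E : Type*} [NormedAddCommGroup E] [NormedSpace ℝ E]
  {M : Type*} [MetricSpace M] [ChartedSpace E M]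

omit [ChartedSpace E M] [NormedSpace ℝ E] in
theorem unif_near {K : Set E} (hK : IsCompact K) {ψ : E → M} (hψ : ∀ z ∈ K, ContinuousAt ψ z)
    {ε : ℝ} (hε : 0 < ε) :
    ∃ ρ > 0, ∀ z ∈ K, ∀ z', ‖z' - z‖ ≤ ρ → dist (ψ z') (ψ z) < ε := by
  have h1 := hK.uniformContinuousAt_of_continuousAt ψ hψ (Metric.dist_mem_uniformity hε)
  obtain ⟨ρ, hρ, hρ'⟩ := Metric.mem_uniformity_dist.mp h1
  refine ⟨ρ / 2, by positivity, fun z hz z' hz' => ?_⟩
  have h2 : dist z z' < ρ := by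
    rw [dist_comm, dist_eq_norm]; linarith
  have := hρ' h2 hz
  rw [dist_comm]
  exact this

/-- **Horseshoes on manifolds.** -/
theorem mhorse [FiniteDimensional ℝ E] {r : ℕ∞} (hr : 1 ≤ r) {g : M → M}
    (hg : ContMDiff 𝓘(ℝ, E) 𝓘(ℝ, E) r g) {φ : OpenPartialHomeomorph M E}
    (hφ : φ ∈ IsManifold.maximalAtlas 𝓘(ℝ, E) ∞ M) {p : M} (hp : p ∈ φ.source) {n : ℕ}
    (hpn : g^[n] p = p) (hyp : HypLin (fderiv ℝ (loc φ g^[n]) (φ p)))
    {α β : ℕ → M} (hαφ : ∀ k, α k ∈ φ.source) (hβφ : ∀ k, β k ∈ φ.source)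
    (hα : Tendsto α atTop (𝓝 p)) (hβ : Tendsto β atTop (𝓝 p))
    (hgα : ∀ k, g^[n] (α (k + 1)) = α k) (hgβ : ∀ k, g^[n] (β k) = β (k + 1))
    {Ba Bb : ℕ → E ≃L[ℝ] E} (hBa : ∀ k, (Ba k : E →L[ℝ] E) = fderiv ℝ (loc φ g^[n]) (φ (α (k + 1))))
    (hBb : ∀ k, (Bb k : E →L[ℝ] E) = fderiv ℝ (loc φ g^[n]) (φ (β k)))
    {G : E → E} (hG : ContDiffAt ℝ 1 G (φ (α 0) - φ p))
    (hGab : G (φ (α 0) - φ p) = φ (β 0) - φ p)
    (htr : ∀ w ∈ Sb (fun k => (Ba k).symm),
      fderiv ℝ G (φ (α 0) - φ p) w ∈ Sb Bb → w = 0) {ε : ℝ} (hε : 0 < ε) :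
    ∃ N₀ : ℕ, ∀ T : Set ℤ, Adm T N₀ → ∀ L : ℕ, 0 < L → (∀ l, l + (L : ℤ) ∈ T ↔ l ∈ T) →
      ∃ X : ℤ → M, (∀ l, X (l + L) = X l) ∧
        (∀ l, dist (X l) (if dp T l ≤ dm T l then β (dp T l) else α (dm T l)) < ε) ∧
        (∀ l ∉ T, g^[n] (X l) = X (l + 1)) ∧
        ∀ l ∈ T, X l ∈ φ.source ∧ X (l + 1) ∈ φ.source ∧ ‖φ (X l) - φ (α 0)‖ ≤ ε ∧
          G (φ (X l) - φ p) = φ (X (l + 1)) - φ p := by
  classical
  have hr' : (1 : WithTop ℕ∞) ≤ ((r : ℕ∞) : WithTop ℕ∞) := by exact_mod_cast hr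
  set c := φ p with hc
  set a : ℕ → E := fun k => φ (α k) - c with ha
  set b : ℕ → E := fun k => φ (β k) - c with hb
  set F : E → E := fun z => loc φ g^[n] (c + z) - c with hF
  have hgn := contMDiff_iterate hg n
  have hca : ∀ k, c + a k = φ (α k) := fun k => by simp [ha]
  have hcb : ∀ k, c + b k = φ (β k) := fun k => by simp [hb]
  have hFc : ∀ x ∈ φ.source, g^[n] x ∈ φ.source → ContDiffAt ℝ 1 F (φ x - c) ∧
      fderiv ℝ F (φ x - c) = fderiv ℝ (loc φ g^[n]) (φ x) := by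
    intro x hx hgx
    have h1 : ContDiffAt ℝ 1 (loc φ g^[n]) (c + (φ x - c)) := by
      rw [add_sub_cancel]
      exact (contDiffAt_loc hgn hφ hx hgx).of_le hr'
    have h2 : ContDiffAt ℝ 1 (fun z : E => c + z) (φ x - c) := contDiffAt_const.add contDiffAt_id
    refine ⟨(h1.comp (φ x - c) h2).sub contDiffAt_const, ?_⟩
    show fderiv ℝ (fun z => loc φ g^[n] (c + z) - c) (φ x - c) = _
    rw [fderiv_sub_const, fderiv_comp_add_left, add_sub_cancel]
  have hat : Tendsto a atTop (𝓝 0) := by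
    have h1 : Tendsto (fun k => φ (α k)) atTop (𝓝 c) := (φ.continuousAt hp).tendsto.comp hα
    have := h1.sub_const c
    rwa [sub_self] at this
  have hbt : Tendsto b atTop (𝓝 0) := by
    have h1 : Tendsto (fun k => φ (β k)) atTop (𝓝 c) := (φ.continuousAt hp).tendsto.comp hβ
    have := h1.sub_const c
    rwa [sub_self] at this
  have hFb : ∀ k, F (b k) = b (k + 1) := by
    intro k
    show φ (g^[n] (φ.symm (c + b k))) - c = b (k + 1)
    rw [hcb, φ.left_inv (hβφ k), hgβ]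
  have hFa : ∀ k, F (a (k + 1)) = a k := by
    intro k
    show φ (g^[n] (φ.symm (c + a (k + 1)))) - c = a k
    rw [hca, φ.left_inv (hαφ _), hgα]
  have hF0 := hFc p hp (by rw [hpn]; exact hp)
  rw [← hc, sub_self] at hF0
  -- the compact sets
  set K : Set E := insert 0 (range a ∪ range b) with hK
  have hKc : IsCompact K := by
    have h1 : IsCompact (insert (0 : E) (range b)) := hbt.isCompact_insert_range
    have h2 : IsCompact (insert (0 : E) (range a)) := hat.isCompact_insert_range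
    have h3 := h1.union h2
    convert h3 using 1
    ext x
    simp only [hK, mem_insert_iff, mem_union]
    tauto
  set KF : Set E := insert (0 : E) (range b ∪ range fun n => a (n + 1)) with hKF
  have hKFc : IsCompact KF := by
    have h1 : IsCompact (insert (0 : E) (range b)) := hbt.isCompact_insert_range
    have h2 : IsCompact (insert (0 : E) (range fun n => a (n + 1))) :=
      (hat.comp (tendsto_add_atTop_nat 1)).isCompact_insert_range
    have h3 := h1.union h2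
    convert h3 using 1
    ext x
    simp only [hKF, mem_insert_iff, mem_union]
    tauto
  have hKt : ∀ z ∈ K, c + z ∈ φ.target := by
    rintro z (rfl | ⟨k, rfl⟩ | ⟨k, rfl⟩)
    · rw [add_zero]; exact φ.map_source hp
    · rw [hca]; exact φ.map_source (hαφ k)
    · rw [hcb]; exact φ.map_source (hβφ k)
  let ψ : E → M := fun z => φ.symm (c + z)
  have hψ : ∀ z ∈ K, ContinuousAt ψ z := by
    intro z hz
    apply ContinuousAt.comp (g := φ.symm) (φ.continuousAt_symm (hKt z hz))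
    fun_prop
  obtain ⟨ρ₁, hρ₁, hρ₁'⟩ := unif_near hKc hψ hε
  have hO1 : IsOpen {z : E | c + z ∈ φ.target} := φ.open_target.preimage (by fun_prop)
  obtain ⟨ρ₂, hρ₂, hρ₂'⟩ := hKc.exists_thickening_subset_open hO1 hKt
  have hO2 : IsOpen {z : E | c + z ∈ φ.target ∩ φ.symm ⁻¹' (g^[n] ⁻¹' φ.source)} :=
    (φ.isOpen_inter_preimage_symm (φ.open_source.preimage hgn.continuous)).preimage (by fun_prop)
  have hKF2 : KF ⊆ {z : E | c + z ∈ φ.target ∩ φ.symm ⁻¹' (g^[n] ⁻¹' φ.source)} := by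
    rintro z (rfl | ⟨k, rfl⟩ | ⟨k, rfl⟩)
    · refine ⟨hKt 0 (mem_insert _ _), ?_⟩
      show g^[n] (φ.symm (c + 0)) ∈ φ.source
      rw [add_zero, hc, φ.left_inv hp, hpn]; exact hp
    · refine ⟨hKt _ (Or.inr (Or.inr ⟨k, rfl⟩)), ?_⟩
      show g^[n] (φ.symm (c + b k)) ∈ φ.source
      rw [hcb, φ.left_inv (hβφ k), hgβ]; exact hβφ _
    · refine ⟨hKt _ (Or.inr (Or.inl ⟨k + 1, rfl⟩)), ?_⟩
      show g^[n] (φ.symm (c + a (k + 1))) ∈ φ.source
      rw [hca, φ.left_inv (hαφ _), hgα]; exact hαφ _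
  obtain ⟨ρ₃, hρ₃, hρ₃'⟩ := hKFc.exists_thickening_subset_open hO2 hKF2
  set ε' : ℝ := min (min ε ρ₁) (min ρ₂ ρ₃) / 2 with hε'
  have hε'0 : 0 < ε' := by positivity
  have hmm : 0 < min (min ε ρ₁) (min ρ₂ ρ₃) := by positivity
  have e1 : ε' ≤ ε := by
    have := min_le_left (min ε ρ₁) (min ρ₂ ρ₃)
    have := min_le_left ε ρ₁
    linarith
  have e2 : ε' ≤ ρ₁ := by
    have := min_le_left (min ε ρ₁) (min ρ₂ ρ₃)
    have := min_le_right ε ρ₁
    linarith
  have e3 : ε' < ρ₂ := by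
    have := min_le_right (min ε ρ₁) (min ρ₂ ρ₃)
    have := min_le_left ρ₂ ρ₃
    linarith
  have e4 : ε' < ρ₃ := by
    have := min_le_right (min ε ρ₁) (min ρ₂ ρ₃)
    have := min_le_right ρ₂ ρ₃
    linarith
  have htrans := homA_trans (F := F) (G := G) (a := a) (b := b) (Ba := Ba) (Bb := Bb)
    (fun k => by
      rw [hBa k]
      exact (hFc (α (k + 1)) (hαφ _) (by rw [hgα]; exact hαφ _)).2.symm)
    (fun k => by
      rw [hBb k]
      exact (hFc (β k) (hβφ _) (by rw [hgβ]; exact hβφ _)).2.symm) htr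
  obtain ⟨N₀, hN₀⟩ := horseshoe (F := F) (G := G) (a := a) (b := b) (by
      rintro z (rfl | ⟨k, rfl⟩ | ⟨k, rfl⟩)
      · exact hF0.1
      · exact (hFc (β k) (hβφ _) (by rw [hgβ]; exact hβφ _)).1
      · exact (hFc (α (k + 1)) (hαφ _) (by rw [hgα]; exact hαφ _)).1) hG
    (by rw [hF0.2]; exact hyp) hat hbt hGab hFb hFa htrans hε'0
  refine ⟨N₀ + 2, fun T hT L hL hper => ?_⟩
  have hT' : Adm T N₀ := ⟨fun l hl j h1 h2 => hT.gap l hl j h1 (by omega), hT.next, hT.prev⟩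
  obtain ⟨x, hxL, hxε, hx⟩ := hN₀ T hT' L hL hper
  have hpsoK : ∀ l, pso a b T l ∈ K := by
    intro l
    unfold pso
    split_ifs
    · exact Or.inr (Or.inr ⟨_, rfl⟩)
    · exact Or.inr (Or.inl ⟨_, rfl⟩)
  have htar : ∀ l, c + x l ∈ φ.target := by
    intro l
    apply hρ₂'
    rw [Metric.mem_thickening_iff]
    refine ⟨_, hpsoK l, ?_⟩
    rw [dist_eq_norm]
    exact lt_of_le_of_lt (hxε l) e3
  have hψpso : ∀ l, ψ (pso a b T l) = if dp T l ≤ dm T l then β (dp T l) else α (dm T l) := by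
    intro l
    unfold pso
    split_ifs
    · show φ.symm (c + b _) = _
      rw [hcb, φ.left_inv (hβφ _)]
    · show φ.symm (c + a _) = _
      rw [hca, φ.left_inv (hαφ _)]
  refine ⟨fun l => ψ (x l), fun l => by show ψ (x (l + L)) = ψ (x l); rw [hxL], ?_, ?_, ?_⟩
  · intro l
    rw [← hψpso l]
    exact hρ₁' _ (hpsoK l) _ ((hxε l).trans e2)
  · intro l hl
    have h1 : F (x l) = x (l + 1) := by
      have := hx l
      unfold psf at this
      rwa [if_neg hl] at this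
    have hKFl : pso a b T l ∈ KF := by
      unfold pso
      split_ifs with h
      · exact Or.inr (Or.inl ⟨_, rfl⟩)
      · refine Or.inr (Or.inr ⟨dm T l - 1, ?_⟩)
        have h2 := hT.dm_of_not_mem hl
        show a (dm T l - 1 + 1) = a (dm T l)
        congr 1
        omega
    have h2 : x l ∈ {z : E | c + z ∈ φ.target ∩ φ.symm ⁻¹' (g^[n] ⁻¹' φ.source)} := by
      apply hρ₃'
      rw [Metric.mem_thickening_iff]
      refine ⟨_, hKFl, ?_⟩
      rw [dist_eq_norm]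
      exact lt_of_le_of_lt (hxε l) e4
    show g^[n] (φ.symm (c + x l)) = φ.symm (c + x (l + 1))
    rw [← h1]
    show _ = φ.symm (c + (φ (g^[n] (φ.symm (c + x l))) - c))
    rw [add_sub_cancel, φ.left_inv h2.2]
  · intro l hl
    have h1 : G (x l) = x (l + 1) := by
      have := hx l
      unfold psf at this
      rwa [if_pos hl] at this
    have h2 : ∀ j, φ (ψ (x j)) = c + x j := fun j => φ.right_inv (htar j)
    have h3 : pso a b T l = a 0 := pso_of_mem hT (by omega) hl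
    have h4 := hxε l
    rw [h3] at h4
    refine ⟨φ.map_target (htar l), φ.map_target (htar (l + 1)), ?_, ?_⟩
    · rw [h2, show c + x l - φ (α 0) = x l - a 0 by simp [ha]; abel]
      exact h4.trans e1
    · rw [h2, h2, add_sub_cancel_left, add_sub_cancel_left, h1]

end Pool.Agent.AxA
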