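import Pool.Agent.AxA.Block2

/-!
# Finiteness of the nonwandering set
-/

set_option autoImplicit false

open Filter Topology Set TopologicalSpace
open scoped Manifold ContDiff

namespace Pool.Agent.AxA

variable {E : Type*} [NormedAddCommGroup E] [NormedSpace ℝ E]
  {M : Type*}

/-- **Finiteness of the nonwandering set.** -/
theorem finite_nonwandering [MetricSpace M] [ChartedSpace E M] [FiniteDimensional ℝ E]
    [CompactSpace M] [IsManifold 𝓘(ℝ, E) ∞ M] {r : ℕ∞} (hr : 1 ≤ r)
    {N : Set (M ≃ₘ^r⟮𝓘(ℝ, E), 𝓘(ℝ, E)⟯ M)} (hN : @IsOpen _ (crTopology E M r) N)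
    (hyp : ∀ g ∈ N, HypPer E g)
    (hrec : ∀ g ∈ N, ∀ x, IsRec g x → x ∈ Function.periodicPts g)
    (hfin : ∀ g ∈ N, ∀ n, 0 < n → {x | g^[n] x = x}.Finite)
    {f : M ≃ₘ^r⟮𝓘(ℝ, E), 𝓘(ℝ, E)⟯ M} (hf : f ∈ N) : (nonwandering f).Finite := by
  classical
  by_contra hinf
  have hIsol : ∀ g ∈ N, ∀ p ∈ Function.periodicPts g.toHomeomorph,
      ∃ U, Isol g.toHomeomorph p U := fun g hg p hp => exists_isol hr (hyp g hg) hp
  obtain ⟨k₁, hk₁, hcyc₁⟩ := exists_cycle (f := f.toHomeomorph) (hrec f hf) (hfin f hf)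
    (hIsol f hf) hinf
  have hex : ∃ k, 0 < k ∧ ∃ g ∈ N, HasCycle g.toHomeomorph k := ⟨k₁, hk₁, f, hf, hcyc₁⟩
  obtain ⟨hk, g, hg, hcyc⟩ := Nat.find_spec hex
  set k := Nat.find hex with hkdef
  have hmin : ∀ g' ∈ N, ∀ j, 0 < j → j < k → ¬ HasCycle g'.toHomeomorph j :=
    fun g' hg' j hj hjk h => Nat.find_min hex hjk ⟨hj, g', hg', h⟩
  rcases Nat.lt_or_ge 1 k with h | h
  · exact merge hr hN hyp h hg hcyc hmin
  · have hk1 : k = 1 := by omega
    rw [hk1] at hcyc
    obtain ⟨P, hP, hC, hP1⟩ := hcyc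
    have hC0 := hC 0 one_pos
    rw [zero_add, hP1] at hC0
    obtain ⟨φ, q, n, n₁, y, H⟩ := exists_homo (hyp g hg) (hP 0) hC0
    obtain ⟨g', hg', H', ht⟩ := exists_transverse hr hN hg H
    exact no_transverse hr (hrec g' hg') H' ht

section topological

variable [TopologicalSpace M] [ChartedSpace E M]

omit [ChartedSpace E M] in
theorem nonwandering_map {f : M → M} (hf : Continuous f) {x : M} (hx : x ∈ nonwandering f) :
    f x ∈ nonwandering f := by
  intro U hU
  obtain ⟨n, hn, _, ⟨z, hz, rfl⟩, hz'⟩ := hx _ (hf.continuousAt.preimage_mem_nhds hU)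
  exact ⟨n, hn, f (f^[n] z), ⟨f z, hz, (Function.iterate_succ_apply f n z).symm.trans
    (Function.iterate_succ_apply' f n z)⟩, hz'⟩

omit [ChartedSpace E M] in
theorem fixed_mem_nonwandering {f : M → M} {n : ℕ} (hn : 0 < n) {x : M} (hx : f^[n] x = x) :
    x ∈ nonwandering f := fun _ hU =>
  ⟨n, hn, x, ⟨x, mem_of_mem_nhds hU, hx⟩, mem_of_mem_nhds hU⟩

omit [ChartedSpace E M] in
theorem rec_mem_nonwandering {f : M → M} {x : M} (hx : IsRec f x) : x ∈ nonwandering f := by
  intro U hU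
  obtain ⟨n, hn, hx⟩ := hx U hU
  exact ⟨n, hn, f^[n] x, ⟨x, mem_of_mem_nhds hU, rfl⟩, hx⟩

section conj

variable {f g : M → M} (hf : Continuous f)
  (h : nonwandering f ≃ₜ nonwandering g)
  (hconj : ∀ x y : nonwandering f, (y : M) = f x → (h y : M) = g (h x))

include hf hconj

omit [ChartedSpace E M] in
theorem conj_iterate (n : ℕ) (x y : nonwandering f) (hxy : (y : M) = f^[n] x) :
    (h y : M) = g^[n] (h x) := by
  induction n generalizing x with
  | zero =>
    have : y = x := Subtype.ext hxy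
    rw [this]; rfl
  | succ n ih =>
    rw [Function.iterate_succ_apply] at hxy ⊢
    rw [ih ⟨f x, nonwandering_map hf x.2⟩ hxy, hconj x ⟨f x, nonwandering_map hf x.2⟩ rfl]

omit [ChartedSpace E M] in
theorem conj_fixed (m : ℕ) : Nonempty ({x // f^[m] x = x} ≃ {x // g^[m] x = x}) := by
  rcases Nat.eq_zero_or_pos m with rfl | hm
  · exact ⟨(Equiv.subtypeUnivEquiv fun x => rfl).trans (Equiv.subtypeUnivEquiv fun x => rfl).symm⟩
  refine ⟨⟨fun x => ⟨h ⟨x.1, fixed_mem_nonwandering hm x.2⟩, ?_⟩,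
    fun x => ⟨h.symm ⟨x.1, fixed_mem_nonwandering hm x.2⟩, ?_⟩, ?_, ?_⟩⟩
  · rw [← conj_iterate hf h hconj m ⟨x.1, fixed_mem_nonwandering hm x.2⟩
      ⟨x.1, fixed_mem_nonwandering hm x.2⟩ x.2.symm]
  · set w : nonwandering g := ⟨x.1, fixed_mem_nonwandering hm x.2⟩ with hw
    have hmem : f^[m] (h.symm w : M) ∈ nonwandering f := by
      have : ∀ k, f^[k] (h.symm w : M) ∈ nonwandering f := by
        intro k
        induction k with
        | zero => exact (h.symm w).2
        | succ k ih => rw [Function.iterate_succ_apply']; exact nonwandering_map hf ih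
      exact this m
    have h1 := conj_iterate hf h hconj m (h.symm w) ⟨_, hmem⟩ rfl
    rw [h.apply_symm_apply] at h1
    have h2 : h ⟨_, hmem⟩ = w := Subtype.ext (h1.trans x.2)
    have h3 : (⟨_, hmem⟩ : nonwandering f) = h.symm w :=
      (h.symm_apply_apply _).symm.trans (congrArg h.symm h2)
    exact congrArg Subtype.val h3
  · intro x
    apply Subtype.ext
    show ((h.symm (h _) : nonwandering f) : M) = x
    rw [h.symm_apply_apply]
  · intro x
    apply Subtype.ext
    show ((h (h.symm _) : nonwandering g) : M) = x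
    rw [h.apply_symm_apply]

omit [ChartedSpace E M] in
theorem conj_rec (hrec : ∀ x, IsRec f x → x ∈ Function.periodicPts f) {x : M}
    (hx : IsRec g x) : x ∈ Function.periodicPts g := by
  have hxm : x ∈ nonwandering g := rec_mem_nonwandering hx
  set w : nonwandering g := ⟨x, hxm⟩ with hw
  set z : nonwandering f := h.symm w with hz
  have hhz : h z = w := h.apply_symm_apply w
  have hit : ∀ k, f^[k] (z : M) ∈ nonwandering f := by
    intro k
    induction k with
    | zero => exact z.2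
    | succ k ih => rw [Function.iterate_succ_apply']; exact nonwandering_map hf ih
  have hzrec : IsRec f z := by
    intro U hU
    have h1 : (fun v : nonwandering g => ((h.symm v : nonwandering f) : M)) ⁻¹' U ∈ 𝓝 w :=
      (continuous_subtype_val.comp h.symm.continuous).continuousAt.preimage_mem_nhds hU
    rw [nhds_subtype_eq_comap, Filter.mem_comap] at h1
    obtain ⟨V, hV, hVU⟩ := h1
    obtain ⟨n, hn, hxn⟩ := hx V hV
    refine ⟨n, hn, ?_⟩
    have h2 := conj_iterate hf h hconj n z ⟨_, hit n⟩ rfl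
    rw [hhz] at h2
    have h3 : h ⟨_, hit n⟩ ∈ Subtype.val ⁻¹' V := by
      show ((h ⟨_, hit n⟩ : nonwandering g) : M) ∈ V
      rw [h2]
      exact hxn
    have h4 := hVU h3
    have h5 : ((h.symm (h ⟨_, hit n⟩) : nonwandering f) : M) ∈ U := h4
    rwa [h.symm_apply_apply] at h5
  obtain ⟨n, hn, hzn⟩ := hrec z hzrec
  refine ⟨n, hn, ?_⟩
  have h1 := conj_iterate hf h hconj n z z (show (z : M) = f^[n] z from (hzn : f^[n] (z:M) = z).symm)
  rw [hhz] at h1
  exact h1.symm

end conj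

end topological

end Pool.Agent.AxA
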