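import Pool.Agent.AxA.TwoConn

/-!
# Merging connections
-/

set_option autoImplicit false

open Filter Topology Set TopologicalSpace
open scoped Manifold ContDiff

namespace Pool.Agent.AxA

section top

variable {X : Type*} [MetricSpace X]

/-- a sequence converging to a closed set stays away from any point which is not in the set and
not in the sequence -/
theorem away {z : ℕ → X} {S : Set X} (hS : IsClosed S) (hne : S.Nonempty)
    (h : Tendsto (fun j => Metric.infDist (z j) S) atTop (𝓝 0)) {w : X} (hw : w ∉ S)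
    (hz : ∀ j, z j ≠ w) : ∀ᶠ δ : ℝ in 𝓝[>] 0, ∀ j, δ ≤ dist (z j) w := by
  have hd : 0 < Metric.infDist w S := (hS.notMem_iff_infDist_pos hne).mp hw
  obtain ⟨J, hJ⟩ := Filter.eventually_atTop.mp (h.eventually (gt_mem_nhds (half_pos hd)))
  have h1 : ∀ᶠ δ : ℝ in 𝓝[>] 0, ∀ j ∈ Finset.range J, δ ≤ dist (z j) w := by
    rw [Filter.eventually_all_finset]
    intro j _
    have h2 : ∀ᶠ δ : ℝ in 𝓝[>] 0, δ < dist (z j) w :=
      nhdsWithin_le_nhds (gt_mem_nhds (dist_pos.mpr (hz j)))
    exact h2.mono fun _ h => h.le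
  have h3 : ∀ᶠ δ : ℝ in 𝓝[>] 0, δ < Metric.infDist w S / 2 :=
    nhdsWithin_le_nhds (gt_mem_nhds (half_pos hd))
  filter_upwards [h1, h3] with δ h4 h5 j
  rcases lt_or_ge j J with hj | hj
  · exact h4 j (Finset.mem_range.mpr hj)
  · have h6 := hJ j hj
    have h7 := Metric.infDist_le_infDist_add_dist (s := S) (x := w) (y := z j)
    rw [dist_comm] at h7
    linarith

theorem two_limits [CompactSpace X] {z : ℕ → X} {S S' : Set X} (hS : IsClosed S)
    (hne : S.Nonempty) (hS' : IsClosed S') (hne' : S'.Nonempty)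
    (h : Tendsto (fun j => Metric.infDist (z j) S) atTop (𝓝 0))
    (h' : Tendsto (fun j => Metric.infDist (z j) S') atTop (𝓝 0)) : ∃ x, x ∈ S ∧ x ∈ S' := by
  obtain ⟨w, -, σ, hσ, hw⟩ := isCompact_univ.tendsto_subseq (fun j => mem_univ (z j))
  refine ⟨w, ?_, ?_⟩
  · rw [hS.mem_iff_infDist_zero hne]
    exact tendsto_nhds_unique (((Metric.continuous_infDist_pt S).tendsto w).comp hw)
      (h.comp hσ.tendsto_atTop)
  · rw [hS'.mem_iff_infDist_zero hne']
    exact tendsto_nhds_unique (((Metric.continuous_infDist_pt S').tendsto w).comp hw)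
      (h'.comp hσ.tendsto_atTop)

end top

variable {E : Type*} [NormedAddCommGroup E] [NormedSpace ℝ E]
  {M : Type*} [MetricSpace M] [ChartedSpace E M]

theorem not_periodic {r : ℕ∞} {g : M ≃ₘ^r⟮𝓘(ℝ, E), 𝓘(ℝ, E)⟯ M} {S : Set M} (hS : IsClosed S)
    (hne : S.Nonempty) {y : M}
    (h : Tendsto (fun j => Metric.infDist (g.symm^[j] y) S) atTop (𝓝 0)) (hy : y ∉ S) :
    y ∉ Function.periodicPts g := by
  rintro ⟨m, hm, hym⟩
  apply hy
  rw [hS.mem_iff_infDist_zero hne]
  have h1 : Tendsto (fun k => m * k) atTop atTop := Filter.tendsto_id.const_mul_atTop' hm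
  have h2 := h.comp h1
  refine tendsto_nhds_unique (tendsto_const_nhds.congr fun k => ?_) h2
  show Metric.infDist y S = Metric.infDist (g.symm^[m * k] y) S
  have h3 : g^[m * k] y = y := hym.mul_const k
  congr 1
  conv_rhs => rw [← h3]
  exact ((symm_iterate g _ y).1).symm

theorem shift_back {r : ℕ∞} {g : M ≃ₘ^r⟮𝓘(ℝ, E), 𝓘(ℝ, E)⟯ M} {S : Set M} {y : M}
    (h : Tendsto (fun j => Metric.infDist (g.symm^[j] y) S) atTop (𝓝 0)) (s : ℕ) :
    Tendsto (fun j => Metric.infDist (g.symm^[j] (g^[s] y)) S) atTop (𝓝 0) := by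
  rw [← Filter.tendsto_add_atTop_iff_nat s]
  refine h.congr fun j => ?_
  rw [Function.iterate_add_apply, (symm_iterate g s y).1]

/-- **Merging.** -/
theorem merge [FiniteDimensional ℝ E] [CompactSpace M] [IsManifold 𝓘(ℝ, E) ∞ M]
    {r : ℕ∞} (hr : 1 ≤ r) {N : Set (M ≃ₘ^r⟮𝓘(ℝ, E), 𝓘(ℝ, E)⟯ M)}
    (hN : @IsOpen _ (crTopology E M r) N) (hyp : ∀ g ∈ N, HypPer E g) {k : ℕ} (hk : 2 ≤ k)
    {g : M ≃ₘ^r⟮𝓘(ℝ, E), 𝓘(ℝ, E)⟯ M} (hg : g ∈ N) (hcyc : HasCycle g.toHomeomorph k)
    (hmin : ∀ g' ∈ N, ∀ j, 0 < j → j < k → ¬ HasCycle g'.toHomeomorph j) : False := by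
  classical
  obtain ⟨P, hP, hC, hPk⟩ := hcyc
  have hP' : ∀ i, P i ∈ Function.periodicPts g := hP
  have hfin : ∀ i, (orb g (P i)).Finite := fun i => orb_finite (hP' i)
  have hcl : ∀ i, IsClosed (orb g (P i)) := fun i => (hfin i).isClosed
  have hne : ∀ i, (orb g (P i)).Nonempty := fun i => ⟨_, mem_orb_self _⟩
  have hC' : ∀ i < k, ∃ y, y ∉ Function.periodicPts g ∧
      Tendsto (fun j => Metric.infDist (g.symm^[j] y) (orb g (P i))) atTop (𝓝 0) ∧
      Tendsto (fun j => Metric.infDist (g^[j] y) (orb g (P (i + 1)))) atTop (𝓝 0) := hC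
  have : Nonempty M := ⟨P 0⟩
  choose! y hynp hyb hyf using hC'
  -- the orbits are distinct
  have hdist' : ∀ i j, i < j → j < k → orb g (P i) ≠ orb g (P j) := by
    intro i j hij hjk heq
    apply hmin g hg (j - i) (by omega) (by omega)
    refine ⟨fun l => if l = j - i then P i else P (i + l), fun l => ?_, fun l hl => ?_, ?_⟩
    · show (if l = j - i then P i else P (i + l)) ∈ _
      split_ifs
      · exact hP i
      · exact hP _
    · show Conn g.toHomeomorph (if l = j - i then P i else P (i + l))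
        (if l + 1 = j - i then P i else P (i + (l + 1)))
      rw [if_neg (by omega)]
      by_cases h : l + 1 = j - i
      · rw [if_pos h]
        have h1 := hC (i + l) (by omega)
        obtain ⟨w, h2, h3, h4⟩ := h1
        refine ⟨w, h2, h3, ?_⟩
        rw [show i + l + 1 = j by omega] at h4
        have h5 : orb g.toHomeomorph (P j) = orb g.toHomeomorph (P i) := heq.symm
        rwa [h5] at h4
      · rw [if_neg h]
        exact hC (i + l) (by omega)
    · show (if j - i = j - i then P i else P (i + (j - i))) = if 0 = j - i then P i else P (i + 0)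
      rw [if_pos rfl, if_neg (by omega), add_zero]
  have hdist : ∀ a b, a < k → b < k → a ≠ b → orb g (P a) ≠ orb g (P b) := by
    intro a b ha hb hab
    rcases lt_or_gt_of_ne hab with h | h
    · exact hdist' a b h hb
    · exact (hdist' b a h ha).symm
  have hyne : ∀ a b, a < k → b < k → a ≠ b → ∀ s, g^[s] (y a) ≠ y b := by
    intro a b ha hb hab s h
    have h1 := shift_back (hyb a ha) s
    rw [h] at h1
    obtain ⟨w, hw1, hw2⟩ := two_limits (hcl a) (hne a) (hcl b) (hne b) h1 (hyb b hb)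
    exact hdist a b ha hb hab
      ((orb_eq_of_mem (hP' a) hw1).symm.trans (orb_eq_of_mem (hP' b) hw2))
  have hyne' : ∀ a b, a < k → b < k → ∀ s, 0 < s → g^[s] (y a) ≠ y b := by
    intro a b ha hb s hs h
    by_cases hab : a = b
    · subst hab
      exact hynp a ha ⟨s, hs, h⟩
    · exact hyne a b ha hb hab s h
  have hyorb : ∀ b < k, ∀ i, y b ∉ orb g (P i) := fun b hb i h =>
    hynp b hb (periodic_of_mem_orb (hP' i) h)
  -- separation
  have hsep : ∀ᶠ δ : ℝ in 𝓝[>] 0, ∀ b ∈ Finset.range 2, ∀ a ∈ Finset.range k,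
      ((∀ j, δ ≤ dist (g^[j + 1] (y a)) (y b)) ∧ (∀ j, δ ≤ dist (g.symm^[j + 1] (y a)) (y b)) ∧
        (a ≠ b → δ ≤ dist (y a) (y b))) := by
    rw [Filter.eventually_all_finset]
    intro b hb
    rw [Filter.eventually_all_finset]
    intro a ha
    have hbk : b < k := lt_of_lt_of_le (Finset.mem_range.mp hb) hk
    have hak : a < k := Finset.mem_range.mp ha
    refine (away (hcl (a + 1)) (hne _) ?_ (hyorb b hbk _) ?_).and
      ((away (hcl a) (hne _) ?_ (hyorb b hbk _) ?_).and ?_)
    · exact (hyf a hak).comp (tendsto_add_atTop_nat 1)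
    · exact fun j => hyne' a b hak hbk (j + 1) (Nat.succ_pos _)
    · exact (hyb a hak).comp (tendsto_add_atTop_nat 1)
    · intro j h
      apply hyne' b a hbk hak (j + 1) (Nat.succ_pos _)
      rw [← h]
      exact (symm_iterate g _ _).2
    · by_cases hab : a = b
      · exact Eventually.of_forall fun _ h => absurd hab h
      · have h2 : ∀ᶠ δ : ℝ in 𝓝[>] 0, δ < dist (y a) (y b) :=
          nhdsWithin_le_nhds (gt_mem_nhds (dist_pos.mpr (hyne a b hak hbk hab 0)))
        exact h2.mono fun _ h _ => h.le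
  have hsepP : ∀ᶠ δ : ℝ in 𝓝[>] 0, ∀ b ∈ Finset.range 2, ∀ i ∈ Finset.range (k + 1),
      ∀ w ∈ orb g (P i), δ ≤ dist w (y b) := by
    rw [Filter.eventually_all_finset]
    intro b hb
    rw [Filter.eventually_all_finset]
    intro i _
    have hbk : b < k := lt_of_lt_of_le (Finset.mem_range.mp hb) hk
    have hd : 0 < Metric.infDist (y b) (orb g (P i)) :=
      ((hcl i).notMem_iff_infDist_pos (hne i)).mp (hyorb b hbk i)
    have h2 : ∀ᶠ δ : ℝ in 𝓝[>] 0, δ < Metric.infDist (y b) (orb g (P i)) :=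
      nhdsWithin_le_nhds (gt_mem_nhds hd)
    filter_upwards [h2] with δ hδ w hw
    rw [dist_comm]
    exact hδ.le.trans (Metric.infDist_le_dist_of_mem hw)
  obtain ⟨δ₀, ⟨hA, hB⟩, hδ₀⟩ := ((hsep.and hsepP).and self_mem_nhdsWithin).exists
  have hδ₀' : 0 < δ₀ := hδ₀
  set U : ℕ → Set M := fun b => Metric.ball (y b) (δ₀ / 2) with hU
  have hUn : ∀ b, U b ∈ 𝓝 (y b) := fun b => Metric.ball_mem_nhds _ (by positivity)
  have hb2 : ∀ {w : M} {d : ℝ}, (∀ b ∈ Finset.range 2, d ≤ dist w (y b)) → ∀ {x : M},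
      dist x w < d - δ₀ / 2 + 0 → x ∉ U 0 ∪ U 1 := by
    intro w d hd x hx hxU
    rcases hxU with h | h
    · have h1 := hd 0 (by simp)
      have h2 : dist x (y 0) < δ₀ / 2 := h
      have h3 := dist_triangle w x (y 0)
      rw [dist_comm w x] at h3
      linarith
    · have h1 := hd 1 (by simp)
      have h2 : dist x (y 1) < δ₀ / 2 := h
      have h3 := dist_triangle w x (y 1)
      rw [dist_comm w x] at h3
      linarith
  have havoid : ∀ {w : M}, (∀ b ∈ Finset.range 2, δ₀ ≤ dist w (y b)) → w ∉ U 0 ∪ U 1 := by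
    intro w hw
    apply hb2 hw
    rw [dist_self]
    linarith
  have h0k : (0 : ℕ) < k := by omega
  have h1k : (1 : ℕ) < k := by omega
  have hdisj : Disjoint (U 0) (U 1) := by
    apply Metric.ball_disjoint_ball
    have h1 := (hA 1 (by simp) 0 (Finset.mem_range.mpr h0k)).2.2 (by omega)
    linarith
  obtain ⟨δ₁, hδ₁, hpush⟩ := push hN hg (hUn 0) (hUn 1) hdisj
  obtain ⟨δ₂, hδ₂, hcont⟩ := Metric.continuousAt_iff.mp
    (g.symm.continuous.continuousAt (x := g (y 0))) δ₁ hδ₁
  rw [g.symm_apply_apply] at hcont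
  set ε : ℝ := min (min δ₁ δ₂) (δ₀ / 2) with hε
  have hε0 : 0 < ε := by positivity
  have hε1 : ε ≤ δ₁ := (min_le_left _ _).trans (min_le_left _ _)
  have hε2 : ε ≤ δ₂ := (min_le_left _ _).trans (min_le_right _ _)
  have hε3 : ε ≤ δ₀ / 2 := min_le_right _ _
  have hu1 : Tendsto (fun j => Metric.infDist (g^[j] (g (y 0))) (orb g (P 1))) atTop (𝓝 0) := by
    have h1 := (Filter.tendsto_add_atTop_iff_nat 1).mpr (hyf 0 h0k)
    refine h1.congr fun j => ?_
    rw [Function.iterate_succ_apply]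
  obtain ⟨m, x, hm, hx, hxu, hxv⟩ := two_point_conn hr (hyp g hg) (hP' 1) (u := g (y 0))
    (v := y 1) hu1 (hyb 1 h1k) hε0
  obtain ⟨g', hg', hgy, hgx, hgU⟩ := hpush (g.symm x) (g^[m] x)
    (hcont (hxu.trans_le hε2)) (hxv.trans_le hε1)
  rw [g.apply_symm_apply] at hgy
  have hfwdA : ∀ a < k, ∀ j, g^[j + 1] (y a) ∉ U 0 ∪ U 1 := fun a ha j =>
    havoid fun b hb => (hA b hb a (Finset.mem_range.mpr ha)).1 j
  have hbackA : ∀ a < k, ∀ j > 0, g.symm^[j] (y a) ∉ U 0 ∪ U 1 := by
    intro a ha j hj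
    obtain ⟨j, rfl⟩ : ∃ i, j = i + 1 := ⟨j - 1, by omega⟩
    exact havoid fun b hb => (hA b hb a (Finset.mem_range.mpr ha)).2.1 j
  have hPA : ∀ i ≤ k, ∀ w ∈ orb g (P i), w ∉ U 0 ∪ U 1 := fun i hi w hw =>
    havoid fun b hb => hB b hb i (Finset.mem_range.mpr (by omega)) w hw
  -- the orbit of `x`
  have hxA : ∀ i < m, g^[i] x ∉ U 0 ∪ U 1 := by
    intro i hi
    rcases hx i hi.le with h | h
    · apply hb2 (w := g^[i] (g (y 0))) (d := δ₀) (fun b hb => by
        have := (hA b hb 0 (Finset.mem_range.mpr h0k)).1 i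
        rwa [Function.iterate_succ_apply] at this)
      linarith
    · apply hb2 (w := g.symm^[m - i] (y 1)) (d := δ₀) (fun b hb => by
        have := (hA b hb 1 (Finset.mem_range.mpr h1k)).2.1 (m - i - 1)
        rwa [show m - i - 1 + 1 = m - i by omega] at this)
      linarith
  have hx' : ∀ i ≤ m, g'^[i] x = g^[i] x := iterate_eq_of_avoid hgU hxA
  have hxm : g'^[m + 1] x = g (y 1) := by
    rw [Function.iterate_succ_apply', hx' m le_rfl, hgx]
  have hy1' : ∀ j, g'^[j] (g (y 1)) = g^[j] (g (y 1)) := fun j =>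
    iterate_eq_of_avoid hgU (k := j) (fun i _ => by
      rw [← Function.iterate_succ_apply]
      exact hfwdA 1 h1k i) j le_rfl
  -- the periodic orbits
  have hPorb : ∀ i ≤ k, ∀ j, g'^[j] (P i) = g^[j] (P i) := fun i hi j =>
    iterate_eq_of_avoid hgU (k := j) (fun l _ => hPA i hi _ ⟨l, rfl⟩) j le_rfl
  have horb : ∀ i ≤ k, orb g' (P i) = orb g (P i) := by
    intro i hi
    unfold orb
    congr 1
    funext j
    exact hPorb i hi j
  have hPper : ∀ i ≤ k, P i ∈ Function.periodicPts g' := by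
    intro i hi
    obtain ⟨n, hn, hPn⟩ := hP' i
    refine ⟨n, hn, ?_⟩
    show g'^[n] (P i) = P i
    rw [hPorb i hi]
    exact hPn
  -- the new connection
  have hnew : Conn g'.toHomeomorph (P 0) (P 2) := by
    have hback : ∀ j, g'.symm^[j] (y 0) = g.symm^[j] (y 0) :=
      symm_iterate_eq_of_avoid hgU (hbackA 0 h0k)
    have hb' : Tendsto (fun j => Metric.infDist (g'.symm^[j] (y 0)) (orb g' (P 0))) atTop
        (𝓝 0) := by
      rw [horb 0 (by omega)]
      refine (hyb 0 h0k).congr fun j => ?_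
      rw [hback]
    refine ⟨y 0, ?_, hb', ?_⟩
    · apply not_periodic (S := orb g' (P 0)) _ _ hb'
      · rw [horb 0 (by omega)]
        exact hyorb 0 h0k 0
      · rw [horb 0 (by omega)]
        exact hcl 0
      · exact ⟨_, mem_orb_self _⟩
    · show Tendsto (fun j => Metric.infDist (g'^[j] (y 0)) (orb g' (P 2))) atTop (𝓝 0)
      rw [horb 2 hk, ← Filter.tendsto_add_atTop_iff_nat (m + 1 + 1)]
      have h1 := (Filter.tendsto_add_atTop_iff_nat 1).mpr (hyf 1 h1k)
      refine h1.congr fun j => ?_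
      rw [show j + (m + 1 + 1) = (j + (m + 1)) + 1 by ring,
        Function.iterate_succ_apply g' (j + (m + 1)), hgy, Function.iterate_add_apply g' j, hxm,
        hy1', Function.iterate_succ_apply]
  have hold : ∀ i, 2 ≤ i → i < k → Conn g'.toHomeomorph (P i) (P (i + 1)) := by
    intro i hi2 hik
    have hback : ∀ j, g'.symm^[j] (y i) = g.symm^[j] (y i) :=
      symm_iterate_eq_of_avoid hgU (hbackA i hik)
    have hfwd : ∀ j, g'^[j] (y i) = g^[j] (y i) := fun j =>
      iterate_eq_of_avoid hgU (k := j) (fun l _ => by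
        rcases l with _ | l
        · exact havoid fun b hb => (hA b hb i (Finset.mem_range.mpr hik)).2.2 (by
            have := Finset.mem_range.mp hb
            omega)
        · exact hfwdA i hik l) j le_rfl
    have hb' : Tendsto (fun j => Metric.infDist (g'.symm^[j] (y i)) (orb g' (P i))) atTop
        (𝓝 0) := by
      rw [horb i hik.le]
      refine (hyb i hik).congr fun j => ?_
      rw [hback]
    refine ⟨y i, ?_, hb', ?_⟩
    · apply not_periodic (S := orb g' (P i)) _ _ hb'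
      · rw [horb i hik.le]
        exact hyorb i hik i
      · rw [horb i hik.le]
        exact hcl i
      · exact ⟨_, mem_orb_self _⟩
    · show Tendsto (fun j => Metric.infDist (g'^[j] (y i)) (orb g' (P (i + 1)))) atTop (𝓝 0)
      rw [horb (i + 1) hik]
      refine (hyf i hik).congr fun j => ?_
      rw [hfwd]
  apply hmin g' hg' (k - 1) (by omega) (by omega)
  refine ⟨fun l => if l = 0 then P 0 else P (min (l + 1) k), fun l => ?_, fun l hl => ?_, ?_⟩
  · show (if l = 0 then P 0 else P (min (l + 1) k)) ∈ _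
    split_ifs
    · exact hPper 0 (by omega)
    · exact hPper _ (min_le_right _ _)
  · show Conn g'.toHomeomorph (if l = 0 then P 0 else P (min (l + 1) k))
      (if l + 1 = 0 then P 0 else P (min (l + 1 + 1) k))
    rcases Nat.eq_zero_or_pos l with h | h
    · subst h
      rw [if_pos rfl, if_neg (by omega), min_eq_left (by omega)]
      exact hnew
    · rw [if_neg (by omega), if_neg (by omega), min_eq_left (by omega), min_eq_left (by omega)]
      exact hold (l + 1) (by omega) (by omega)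
  · show (if k - 1 = 0 then P 0 else P (min (k - 1 + 1) k)) = if 0 = 0 then P 0 else _
    rw [if_neg (by omega), if_pos rfl, min_eq_left (by omega), show k - 1 + 1 = k by omega, hPk]

end Pool.Agent.AxA
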