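import Pool.Agent.AxA.Topo4
import Pool.Agent.AxA.Lin

/-!
# Orbits asymptotic to a periodic orbit
-/

set_option autoImplicit false

open Filter Topology Set TopologicalSpace

namespace Pool.Agent.AxA

variable {X : Type*} [MetricSpace X] [CompactSpace X]

omit [CompactSpace X] in
theorem finite_sep {S : Set X} (hS : S.Finite) :
    ∃ d > 0, ∀ a ∈ S, ∀ b ∈ S, dist a b < d → a = b := by
  have h1 : ∀ z ∈ S ×ˢ S, ∀ᶠ d : ℝ in 𝓝[>] 0, dist z.1 z.2 < d → z.1 = z.2 := by
    rintro ⟨a, b⟩ -
    by_cases hab : a = b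
    · exact Eventually.of_forall fun _ _ => hab
    · have h2 : ∀ᶠ d : ℝ in 𝓝[>] 0, d < dist a b :=
        nhdsWithin_le_nhds (gt_mem_nhds (dist_pos.mpr hab))
      filter_upwards [h2] with d hd h3
      exact absurd h3 (not_lt.mpr hd.le)
  have h2 := (Filter.eventually_all_finite (hS.prod hS)).mpr h1
  obtain ⟨d, hd1, hd2⟩ := (h2.and self_mem_nhdsWithin).exists
  exact ⟨d, hd2, fun a ha b hb => hd1 (a, b) ⟨ha, hb⟩⟩

/-- orbits near a periodic orbit follow it with a fixed phase -/
theorem phase {f : X → X} (hf : Continuous f) {q : X} (hq : q ∈ Function.periodicPts f) :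
    ∃ ε > 0, ∀ y, (∀ j, Metric.infDist (f^[j] y) (orb f q) < ε) →
      ∃ q₀ ∈ orb f q, ∀ j, dist (f^[j] y) (f^[j] q₀) = Metric.infDist (f^[j] y) (orb f q) := by
  have hfin := orb_finite hq
  obtain ⟨d, hd, hsep⟩ := finite_sep hfin
  have hu := CompactSpace.uniformContinuous_of_continuous hf
  obtain ⟨η, hη, hη'⟩ := Metric.uniformContinuous_iff.mp hu (d / 2) (by positivity)
  refine ⟨min η (d / 2), by positivity, fun y hy => ?_⟩
  have hch : ∀ j, ∃ w ∈ orb f q, Metric.infDist (f^[j] y) (orb f q) = dist (f^[j] y) w := fun j =>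
    hfin.isCompact.exists_infDist_eq_dist ⟨q, mem_orb_self q⟩ _
  choose w hw hw' using hch
  have hstep : ∀ j, f (w j) = w (j + 1) := by
    intro j
    apply hsep _ (mem_orb_trans (hw j) ⟨1, rfl⟩) _ (hw (j + 1))
    have h1 : dist (w j) (f^[j] y) < η := by
      rw [dist_comm, ← hw' j]
      exact (hy j).trans_le (min_le_left _ _)
    have h2 := hη' h1
    have h3 : dist (f^[j + 1] y) (w (j + 1)) < d / 2 := by
      rw [← hw' (j + 1)]
      exact (hy _).trans_le (min_le_right _ _)
    rw [Function.iterate_succ_apply'] at h3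
    calc dist (f (w j)) (w (j + 1)) ≤ dist (f (w j)) (f (f^[j] y)) +
          dist (f (f^[j] y)) (w (j + 1)) := dist_triangle _ _ _
      _ < d := by linarith
  have hall : ∀ j, f^[j] (w 0) = w j := by
    intro j
    induction j with
    | zero => rfl
    | succ j ih => rw [Function.iterate_succ_apply', ih, hstep]
  exact ⟨w 0, hw 0, fun j => by rw [hall, hw' j]⟩

omit [CompactSpace X] in
theorem symm_iter (f : X ≃ₜ X) (n : ℕ) (x : X) :
    f.symm^[n] (f^[n] x) = x ∧ f^[n] (f.symm^[n] x) = x :=
  ⟨Function.LeftInverse.iterate (f := f) (g := f.symm) f.symm_apply_apply n x,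
   Function.LeftInverse.iterate (f := f.symm) (g := f) f.apply_symm_apply n x⟩

omit [CompactSpace X] in
theorem symm_iter_eq {f : X ≃ₜ X} {n : ℕ} {x : X} (hx : f^[n] x = x) : f.symm^[n] x = x := by
  conv_lhs => rw [← hx]
  exact (symm_iter f n x).1

omit [CompactSpace X] in
theorem periodic_symm {f : X ≃ₜ X} {p : X} (hp : p ∈ Function.periodicPts f) :
    p ∈ Function.periodicPts f.symm := by
  obtain ⟨n, hn, hpn⟩ := hp
  exact ⟨n, hn, symm_iter_eq hpn⟩

omit [CompactSpace X] in
theorem orb_symm_subset {f : X ≃ₜ X} {p : X} (hp : p ∈ Function.periodicPts f) :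
    orb f.symm p ⊆ orb f p := by
  obtain ⟨n, hn, hpn⟩ := hp
  rintro _ ⟨i, rfl⟩
  refine ⟨n * i - i, ?_⟩
  show f^[n * i - i] p = f.symm^[i] p
  have h1 : f^[n * i] p = p := hpn.mul_const i
  have h2 : f^[i] (f^[n * i - i] p) = p := by
    rw [← Function.iterate_add_apply, Nat.add_sub_cancel' (Nat.le_mul_of_pos_left _ hn), h1]
  conv_rhs => rw [← h2]
  exact ((symm_iter f i _).1).symm

omit [CompactSpace X] in
theorem orb_symm {f : X ≃ₜ X} {p : X} (hp : p ∈ Function.periodicPts f) :
    orb f.symm p = orb f p := by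
  apply Set.Subset.antisymm (orb_symm_subset hp)
  have := orb_symm_subset (f := f.symm) (periodic_symm hp)
  rwa [Homeomorph.symm_symm] at this

/-- an orbit asymptotic to a periodic orbit is asymptotic to the orbit of one of its points -/
theorem fwd_phase {f : X → X} (hf : Continuous f) {q y : X} (hq : q ∈ Function.periodicPts f)
    (h : Tendsto (fun j => Metric.infDist (f^[j] y) (orb f q)) atTop (𝓝 0)) :
    ∃ q₀ ∈ orb f q, Tendsto (fun j => dist (f^[j] y) (f^[j] q₀)) atTop (𝓝 0) := by
  obtain ⟨ε, hε, hph⟩ := phase hf hq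
  obtain ⟨J, hJ⟩ := Filter.eventually_atTop.mp (h.eventually (gt_mem_nhds hε))
  obtain ⟨w, hw, hw'⟩ := hph (f^[J] y) (fun j => by
    rw [← Function.iterate_add_apply]
    exact hJ _ (by omega))
  obtain ⟨n, hn, hqn⟩ := periodic_of_mem_orb hq hw
  refine ⟨f^[n * J - J] w, mem_orb_trans hw ⟨_, rfl⟩, ?_⟩
  have h1 : f^[J] (f^[n * J - J] w) = w := by
    rw [← Function.iterate_add_apply, Nat.add_sub_cancel' (Nat.le_mul_of_pos_left _ hn)]
    exact hqn.mul_const J
  rw [← Filter.tendsto_add_atTop_iff_nat J]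
  rw [← Filter.tendsto_add_atTop_iff_nat J] at h
  refine h.congr fun j => ?_
  rw [Function.iterate_add_apply, Function.iterate_add_apply f j J (f^[n * J - J] w), h1]
  exact (hw' j).symm

omit [CompactSpace X] in
theorem tendsto_mul_phase {f : X → X} {q y : X} {n : ℕ} (hn : 0 < n) (hq : f^[n] q = q)
    (h : Tendsto (fun j => dist (f^[j] y) (f^[j] q)) atTop (𝓝 0)) :
    Tendsto (fun k => f^[n * k] y) atTop (𝓝 q) := by
  rw [tendsto_iff_dist_tendsto_zero]
  have h1 : Tendsto (fun k => n * k) atTop atTop :=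
    Filter.tendsto_id.const_mul_atTop' hn
  refine (h.comp h1).congr fun k => ?_
  have : f^[n * k] q = q := (show Function.IsPeriodicPt f n q from hq).mul_const k
  show dist (f^[n * k] y) (f^[n * k] q) = _
  rw [this]

/-- isolation of a periodic orbit from local isolation -/
theorem isol_of_local {f : X ≃ₜ X} {p : X} {n : ℕ} (hn : 0 < n) (hp : f^[n] p = p)
    (h : ∀ q ∈ orb f p, ∃ ρ > 0, ∀ x : ℤ → X, (∀ i, x (i + 1) = f^[n] (x i)) →
      (∀ i, dist (x i) q < ρ) → x 0 = q) : ∃ U, Isol f p U := by
  have hpp : p ∈ Function.periodicPts f := ⟨n, hn, hp⟩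
  have hfin := orb_finite hpp
  obtain ⟨d, hd, hsep⟩ := finite_sep hfin
  obtain ⟨ε₁, hε₁, hph₁⟩ := phase f.continuous hpp
  obtain ⟨ε₂, hε₂, hph₂⟩ := phase f.symm.continuous (periodic_symm hpp)
  have hrho : ∃ ρ > 0, ∀ q ∈ orb f p, ∀ x : ℤ → X, (∀ i, x (i + 1) = f^[n] (x i)) →
      (∀ i, dist (x i) q < ρ) → x 0 = q := by
    choose! ρ hρ hρ' using h
    have hne : hfin.toFinset.Nonempty := ⟨p, by simpa using mem_orb_self p⟩
    obtain ⟨w₀, hw₀, hw₀'⟩ := hfin.toFinset.exists_min_image ρ hne
    refine ⟨ρ w₀, hρ w₀ (by simpa using hw₀), fun q hq x hx hxq => hρ' q hq x hx fun i => ?_⟩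
    exact (hxq i).trans_le (hw₀' q (by simpa using hq))
  obtain ⟨ρ, hρ, hloc⟩ := hrho
  set ε := min (min ε₁ ε₂) (min (d / 2) ρ) / 2 with hε
  have hε0 : 0 < ε := by positivity
  have hm := min_le_left (min ε₁ ε₂) (min (d / 2) ρ)
  have hm' := min_le_right (min ε₁ ε₂) (min (d / 2) ρ)
  have hmp : 0 < min (min ε₁ ε₂) (min (d / 2) ρ) := by positivity
  have h1 : ε < ε₁ := by have := min_le_left ε₁ ε₂; linarith
  have h2 : ε < ε₂ := by have := min_le_right ε₁ ε₂; linarith
  have h3 : ε < d / 2 := by have := min_le_left (d / 2) ρ; linarith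
  have h4 : ε < ρ := by have := min_le_right (d / 2) ρ; linarith
  refine ⟨{x | Metric.infDist x (orb f p) ≤ ε},
    isClosed_le (Metric.continuous_infDist_pt _) continuous_const, ?_, ?_⟩
  · intro x hx
    have h5 : ∀ᶠ z in 𝓝 x, Metric.infDist z (orb f p) < ε := by
      have h6 : Tendsto (fun z => Metric.infDist z (orb f p)) (𝓝 x) (𝓝 0) := by
        have := (Metric.continuous_infDist_pt (orb f p)).tendsto x
        rwa [Metric.infDist_zero_of_mem hx] at this
      exact h6.eventually (gt_mem_nhds hε0)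
    filter_upwards [h5] with z hz using hz.le
  · intro x hx hx'
    obtain ⟨q, hq, hq'⟩ := hph₁ x fun j => lt_of_le_of_lt (hx j) h1
    rw [orb_symm hpp] at hph₂
    obtain ⟨q', hqq, hqq'⟩ := hph₂ x fun j => lt_of_le_of_lt (hx' j) h2
    have hq0 : dist x q ≤ ε := by
      have := hq' 0
      simp only [Function.iterate_zero, id_eq] at this
      rw [this]; exact hx 0
    have hqq0 : dist x q' ≤ ε := by
      have := hqq' 0
      simp only [Function.iterate_zero, id_eq] at this
      rw [this]; exact hx 0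
    have hqe : q = q' := by
      apply hsep q hq q' hqq
      calc dist q q' ≤ dist q x + dist x q' := dist_triangle _ _ _
        _ < d := by rw [dist_comm q x]; linarith
    subst hqe
    have hqn : f^[n] q = q := by
      obtain ⟨i, rfl⟩ := hq
      show f^[n] (f^[i] p) = f^[i] p
      rw [← Function.iterate_add_apply, Nat.add_comm, Function.iterate_add_apply, hp]
    have hkey := hloc q hq (glue (fun k => f^[n * k] x) (fun k => f.symm^[n * k] x)) (fun i => by
      exact glue_step (P := fun a b => b = f^[n] a) (u := fun k => f^[n * k] x)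
        (w := fun k => f.symm^[n * k] x) (fun k => by
          show f^[n * (k + 1)] x = f^[n] (f^[n * k] x)
          rw [← Function.iterate_add_apply]; congr 2; ring) (fun k => by
          show f.symm^[n * k] x = f^[n] (f.symm^[n * (k + 1)] x)
          have : n * (k + 1) = n + n * k := by ring
          rw [this, Function.iterate_add_apply]
          exact ((symm_iter f n _).2).symm) rfl i) (glue_forall (P := fun a => dist a q < ρ)
        (fun k => by
          show dist (f^[n * k] x) q < ρ
          have e : f^[n * k] q = q := (show Function.IsPeriodicPt f n q from hqn).mul_const k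
          have := hq' (n * k)
          rw [e] at this
          rw [this]
          exact lt_of_le_of_lt (hx _) h4) (fun k => by
          show dist (f.symm^[n * k] x) q < ρ
          have e : f.symm^[n * k] q = q :=
            (show Function.IsPeriodicPt f.symm n q from symm_iter_eq hqn).mul_const k
          have := hqq' (n * k)
          rw [e] at this
          rw [this]
          exact lt_of_le_of_lt (hx' _) h4))
    have : x = q := hkey
    rw [this]
    exact hq

end Pool.Agent.AxA
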