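import Pool.Agent.AxA.Two

/-!
# Pushing two points
-/

set_option autoImplicit false

open Filter Topology Set TopologicalSpace
open scoped Manifold ContDiff

namespace Pool.Agent.AxA

section fam

variable {E : Type*} [NormedAddCommGroup E] [NormedSpace ℝ E]
  {M : Type*} [TopologicalSpace M] [ChartedSpace E M]
  {P P' : Type*} [NormedAddCommGroup P] [NormedSpace ℝ P]
  [NormedAddCommGroup P'] [NormedSpace ℝ P']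

theorem IsFam.comap {r : ℕ∞} {F : P → M → M} (hF : IsFam (E := E) r F) (L : P' →L[ℝ] P) :
    IsFam (E := E) r (fun μ => F (L μ)) := by
  intro x
  have h1 : ContMDiffAt (𝓘(ℝ, P').prod 𝓘(ℝ, E)) 𝓘(ℝ, P) r (fun p : P' × M => L p.1) (0, x) :=
    L.contDiff.contMDiff.contMDiffAt.comp (0, x) contMDiffAt_fst
  have h2 : ContMDiffAt (𝓘(ℝ, P').prod 𝓘(ℝ, E)) (𝓘(ℝ, P).prod 𝓘(ℝ, E)) r
      (fun p : P' × M => (L p.1, p.2)) (0, x) := h1.prodMk contMDiffAt_snd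
  exact ContMDiffAt.comp (0, x) (g := fun p : P × M => F p.1 p.2) (by
    show ContMDiffAt _ _ _ _ (L 0, x)
    rw [map_zero]; exact hF x) h2

end fam

section orbits

variable {X : Type*}

theorem iterate_eq_of_avoid {g g' : X → X} {U : Set X} (h : ∀ x ∉ U, g' x = g x) {x : X} {k : ℕ}
    (hx : ∀ i < k, g^[i] x ∉ U) : ∀ i ≤ k, g'^[i] x = g^[i] x := by
  intro i
  induction i with
  | zero => intro _; rfl
  | succ i ih =>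
    intro hi
    rw [Function.iterate_succ_apply', ih (by omega), Function.iterate_succ_apply',
      h _ (hx i (by omega))]

end orbits

variable {E : Type*} [NormedAddCommGroup E] [NormedSpace ℝ E]
  {M : Type*} [MetricSpace M] [ChartedSpace E M]

theorem symm_iterate_eq_of_avoid {r : ℕ∞} {g g' : M ≃ₘ^r⟮𝓘(ℝ, E), 𝓘(ℝ, E)⟯ M} {U : Set M}
    (h : ∀ x ∉ U, g' x = g x) {x : M} (hx : ∀ i > 0, g.symm^[i] x ∉ U) :
    ∀ i, g'.symm^[i] x = g.symm^[i] x := by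
  intro i
  induction i with
  | zero => rfl
  | succ i ih =>
    rw [Function.iterate_succ_apply', ih, Function.iterate_succ_apply']
    have h1 := h _ (hx (i + 1) (Nat.succ_pos _))
    rw [Function.iterate_succ_apply', g.apply_symm_apply] at h1
    rw [← h1, g'.symm_apply_apply, h1]

/-- **Push lemma.** -/
theorem push [FiniteDimensional ℝ E] [IsManifold 𝓘(ℝ, E) ∞ M] {r : ℕ∞}
    {N : Set (M ≃ₘ^r⟮𝓘(ℝ, E), 𝓘(ℝ, E)⟯ M)}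
    (hN : @IsOpen _ (crTopology E M r) N) {g : M ≃ₘ^r⟮𝓘(ℝ, E), 𝓘(ℝ, E)⟯ M} (hg : g ∈ N)
    {y₁ y₂ : M} {U₁ U₂ : Set M} (hU₁ : U₁ ∈ 𝓝 y₁) (hU₂ : U₂ ∈ 𝓝 y₂) (hd : Disjoint U₁ U₂) :
    ∃ δ > 0, ∀ x₁ x₂, dist x₁ y₁ < δ → dist x₂ y₂ < δ → ∃ g' ∈ N, g' y₁ = g x₁ ∧ g' x₂ = g y₂ ∧
      ∀ x ∉ U₁ ∪ U₂, g' x = g x := by
  classical
  set φ₁ := chartAt E y₁ with hφ₁
  set φ₂ := chartAt E y₂ with hφ₂
  have hm₁ : φ₁ ∈ IsManifold.maximalAtlas 𝓘(ℝ, E) ∞ M := IsManifold.chart_mem_maximalAtlas y₁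
  have hm₂ : φ₂ ∈ IsManifold.maximalAtlas 𝓘(ℝ, E) ∞ M := IsManifold.chart_mem_maximalAtlas y₂
  have hy₁ : y₁ ∈ φ₁.source := mem_chart_source E y₁
  have hy₂ : y₂ ∈ φ₂.source := mem_chart_source E y₂
  obtain ⟨ρ₁, hρ₁, -, -, τ₁, hτ₁0, hτ₁F, hτ₁U, -, hτ₁⟩ := exists_affine hm₁ hy₁ hU₁ r
  obtain ⟨ρ₂, hρ₂, -, -, τ₂, hτ₂0, hτ₂F, hτ₂U, -, hτ₂⟩ := exists_affine hm₂ hy₂ hU₂ r
  let Φ : Par E × Par E → M ≃ₘ^r⟮𝓘(ℝ, E), 𝓘(ℝ, E)⟯ M := fun μ => pert (pert g (τ₁ μ.1)) (τ₂ μ.2)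
  have hΦF : IsFam (E := E) r (fun μ => ⇑(Φ μ)) := by
    have h1 : IsFam (E := E) r (fun μ : Par E × Par E => ⇑(τ₁ μ.1)) :=
      hτ₁F.comap (ContinuousLinearMap.fst ℝ (Par E) (Par E))
    have h2 : IsFam (E := E) r (fun μ : Par E × Par E => ⇑(τ₂ μ.2)) :=
      hτ₂F.comap (ContinuousLinearMap.snd ℝ (Par E) (Par E))
    exact ((IsFam.const (P := Par E × Par E) g.contMDiff).comp h1).comp h2
  have hΦ0 : Φ 0 = g := by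
    apply DFunLike.ext
    intro x
    show g (τ₁ 0 (τ₂ 0 x)) = g x
    rw [hτ₂0, hτ₁0]
  have hev : ∀ᶠ μ in 𝓝 (0 : Par E × Par E), Φ μ ∈ N := by
    have h1 := hΦF.tendsto
    rw [hΦ0] at h1
    have h2 : N ∈ @nhds _ (crTopology E M r) g := by
      let _ := crTopology E M r
      exact hN.mem_nhds hg
    exact h1 h2
  have hev1 : ∀ᶠ μ in 𝓝 (0 : Par E × Par E), ∀ x ∈ φ₁.source, ‖φ₁ x - φ₁ y₁‖ ≤ ρ₁ →
        τ₁ μ.1 x ∈ φ₁.source ∧ φ₁ (τ₁ μ.1 x) = φ₁ x + (μ.1.1 + μ.1.2 (φ₁ x - φ₁ y₁)) :=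
    (continuous_fst.tendsto (0 : Par E × Par E)).eventually hτ₁
  have hev2 : ∀ᶠ μ in 𝓝 (0 : Par E × Par E), ∀ x ∈ φ₂.source, ‖φ₂ x - φ₂ y₂‖ ≤ ρ₂ →
        τ₂ μ.2 x ∈ φ₂.source ∧ φ₂ (τ₂ μ.2 x) = φ₂ x + (μ.2.1 + μ.2.2 (φ₂ x - φ₂ y₂)) :=
    (continuous_snd.tendsto (0 : Par E × Par E)).eventually hτ₂
  -- parameters as functions of the points
  let ν : M × M → Par E × Par E := fun q => ((φ₁ q.1 - φ₁ y₁, 0), (φ₂ y₂ - φ₂ q.2, 0))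
  have hν : Tendsto ν (𝓝 (y₁, y₂)) (𝓝 0) := by
    have c1 : ContinuousAt (fun q : M × M => φ₁ q.1 - φ₁ y₁) (y₁, y₂) :=
      (ContinuousAt.comp (x := (y₁, y₂)) (g := φ₁) (φ₁.continuousAt hy₁)
        continuousAt_fst).sub continuousAt_const
    have c2 : ContinuousAt (fun q : M × M => φ₂ y₂ - φ₂ q.2) (y₁, y₂) :=
      continuousAt_const.sub (ContinuousAt.comp (x := (y₁, y₂)) (g := φ₂) (φ₂.continuousAt hy₂)
        continuousAt_snd)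
    have c3 : ContinuousAt ν (y₁, y₂) :=
      (c1.prodMk continuousAt_const).prodMk (c2.prodMk continuousAt_const)
    have e : ν (y₁, y₂) = 0 := by
      show ((φ₁ y₁ - φ₁ y₁, 0), (φ₂ y₂ - φ₂ y₂, 0)) = 0
      rw [sub_self, sub_self]; rfl
    have := c3.tendsto
    rwa [e] at this
  have hs1 : ∀ᶠ q in 𝓝 (y₁, y₂), q.1 ∈ φ₁.source :=
    continuousAt_fst.eventually (φ₁.open_source.mem_nhds hy₁)
  have hs2 : ∀ᶠ q : M × M in 𝓝 (y₁, y₂), q.2 ∈ φ₂.source ∧ ‖φ₂ q.2 - φ₂ y₂‖ ≤ ρ₂ := by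
    refine (continuousAt_snd.eventually (φ₂.open_source.mem_nhds hy₂)).and ?_
    have h1 : ∀ᶠ x in 𝓝 y₂, ‖φ₂ x - φ₂ y₂‖ ≤ ρ₂ := by
      filter_upwards [(φ₂.continuousAt hy₂).preimage_mem_nhds
        (Metric.closedBall_mem_nhds (φ₂ y₂) hρ₂)] with x hx
      exact mem_closedBall_iff_norm.mp hx
    exact (continuousAt_snd (p := (y₁, y₂))).eventually h1
  obtain ⟨δ, hδ, hδ'⟩ := Metric.eventually_nhds_iff.mp
    ((hν.eventually (hev.and (hev1.and hev2))).and (hs1.and hs2))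
  refine ⟨δ, hδ, fun x₁ x₂ h1 h2 => ?_⟩
  obtain ⟨⟨h3, h4, h5⟩, h6, h7, h8⟩ := hδ' (y := (x₁, x₂)) (by
    rw [Prod.dist_eq]; exact max_lt h1 h2)
  have hy₁U₂ : y₁ ∉ U₂ := fun h => Set.disjoint_left.mp hd (mem_of_mem_nhds hU₁) h
  have hy₂U₁ : y₂ ∉ U₁ := fun h => Set.disjoint_left.mp hd h (mem_of_mem_nhds hU₂)
  refine ⟨Φ (ν (x₁, x₂)), h3, ?_, ?_, ?_⟩
  · obtain ⟨h9, h10⟩ := h4 y₁ hy₁ (by rw [sub_self, norm_zero]; exact hρ₁.le)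
    show g (τ₁ (ν (x₁, x₂)).1 (τ₂ (ν (x₁, x₂)).2 y₁)) = g x₁
    rw [hτ₂U _ _ hy₁U₂]
    congr 1
    apply φ₁.injOn h9 h6
    rw [h10, sub_self, map_zero, add_zero]
    show φ₁ y₁ + (φ₁ x₁ - φ₁ y₁) = φ₁ x₁
    abel
  · obtain ⟨h9, h10⟩ := h5 x₂ h7 h8
    show g (τ₁ (ν (x₁, x₂)).1 (τ₂ (ν (x₁, x₂)).2 x₂)) = g y₂
    have h11 : τ₂ (ν (x₁, x₂)).2 x₂ = y₂ := by
      apply φ₂.injOn h9 hy₂
      rw [h10]
      show φ₂ x₂ + ((φ₂ y₂ - φ₂ x₂) + (0 : E →L[ℝ] E) _) = φ₂ y₂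
      rw [zero_apply]
      abel
    rw [h11, hτ₁U _ _ hy₂U₁]
  · intro x hx
    show g (τ₁ (ν (x₁, x₂)).1 (τ₂ (ν (x₁, x₂)).2 x)) = g x
    rw [hτ₂U _ _ (fun h => hx (Or.inr h)), hτ₁U _ _ (fun h => hx (Or.inl h))]

end Pool.Agent.AxA
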