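import Pool.Agent.AxA.Main

/-!
# Axiom A for finite nonwandering sets
-/

set_option autoImplicit false

open Filter Topology Set TopologicalSpace
open scoped Manifold ContDiff

namespace Pool.Agent.AxA

section linear

variable {E : Type*} [NormedAddCommGroup E] [NormedSpace ℝ E]

/-- the projection of a splitting -/
theorem exists_proj [FiniteDimensional ℝ E] (p q : Submodule ℝ E) (h : IsCompl p q) :
    ∃ P : E →L[ℝ] E, (∀ v ∈ p, P v = v) ∧ (∀ v ∈ q, P v = 0) ∧ ∀ v, P v ∈ p ∧ v - P v ∈ q := by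
  let e := Submodule.prodEquivOfIsCompl p q h
  let P₀ : E →ₗ[ℝ] E := p.subtype ∘ₗ LinearMap.fst ℝ p q ∘ₗ (e.symm : E →ₗ[ℝ] p × q)
  have he : ∀ x : p × q, e x = (x.1 : E) + x.2 := fun x => by
    simp [e]
  have hP : ∀ v, P₀ v = ((e.symm v).1 : E) := fun v => rfl
  refine ⟨LinearMap.toContinuousLinearMap P₀, fun v hv => ?_, fun v hv => ?_, fun v => ?_⟩
  · show P₀ v = v
    have h1 : e (⟨v, hv⟩, 0) = v := by rw [he]; simp
    have h2 : e.symm v = (⟨v, hv⟩, 0) := by rw [LinearEquiv.symm_apply_eq, h1]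
    rw [hP, h2]
  · show P₀ v = 0
    have h1 : e (0, ⟨v, hv⟩) = v := by rw [he]; simp
    have h2 : e.symm v = (0, ⟨v, hv⟩) := by rw [LinearEquiv.symm_apply_eq, h1]
    rw [hP, h2]
    rfl
  · show P₀ v ∈ p ∧ v - P₀ v ∈ q
    rw [hP]
    refine ⟨(e.symm v).1.2, ?_⟩
    have h1 : e (e.symm v) = v := e.apply_symm_apply v
    rw [he] at h1
    have h2 : v - ((e.symm v).1 : E) = ((e.symm v).2 : E) := sub_eq_of_eq_add' h1.symm
    rw [h2]
    exact (e.symm v).2.2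

/-- vectors with bounded orbit under a family of maps -/
def Bd (T : ℕ → E →L[ℝ] E) : Submodule ℝ E where
  carrier := {v | ∃ C, ∀ m : ℕ, ‖T m v‖ ≤ C}
  zero_mem' := ⟨0, fun n => by rw [map_zero, norm_zero]⟩
  add_mem' := by
    rintro v w ⟨C, hC⟩ ⟨D, hD⟩
    refine ⟨C + D, fun n => ?_⟩
    rw [map_add]
    exact (norm_add_le _ _).trans (add_le_add (hC n) (hD n))
  smul_mem' := by
    rintro c v ⟨C, hC⟩
    refine ⟨‖c‖ * C, fun n => ?_⟩
    rw [map_smul, norm_smul]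
    exact mul_le_mul_of_nonneg_left (hC n) (norm_nonneg _)

theorem mem_Bd {T : ℕ → E →L[ℝ] E} {v : E} : v ∈ Bd T ↔ ∃ C, ∀ m : ℕ, ‖T m v‖ ≤ C := Iff.rfl

theorem exists_bound (T : ℕ → E →L[ℝ] E) (n : ℕ) :
    ∃ K, 0 ≤ K ∧ ∀ s < n, ∀ v, ‖T s v‖ ≤ K * ‖v‖ := by
  refine ⟨∑ s ∈ Finset.range n, ‖T s‖, by positivity, fun s hs v => ?_⟩
  refine ((T s).le_opNorm v).trans (mul_le_mul_of_nonneg_right ?_ (norm_nonneg _))
  exact Finset.single_le_sum (f := fun s => ‖T s‖) (fun _ _ => norm_nonneg _)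
    (Finset.mem_range.mpr hs)

theorem Bd_eq {T : ℕ → E →L[ℝ] E} {A : E →L[ℝ] E} {n : ℕ} (hn : 0 < n) (h0 : ∀ v, T 0 v = v)
    (hT : ∀ s k v, T (s + n * k) v = T s (A^[k] v)) : Bd T = Es A := by
  ext v
  rw [mem_Bd, mem_Es]
  constructor
  · rintro ⟨C, hC⟩
    refine ⟨C, fun k => ?_⟩
    have := hC (0 + n * k)
    rwa [hT, h0] at this
  · rintro ⟨C, hC⟩
    obtain ⟨K, hK, hK'⟩ := exists_bound T n
    refine ⟨K * C, fun m => ?_⟩
    have h1 : m = m % n + n * (m / n) := (Nat.mod_add_div m n).symm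
    rw [h1, hT]
    exact (hK' _ (Nat.mod_lt _ hn) _).trans (mul_le_mul_of_nonneg_left (hC _) hK)

theorem rate [FiniteDimensional ℝ E] {T : ℕ → E →L[ℝ] E} {A : E →L[ℝ] E} (hA : HypLin A) {n : ℕ}
    (hn : 0 < n) (hT : ∀ s k v, T (s + n * k) v = T s (A^[k] v)) :
    ∃ c > 0, ∃ μ : ℝ, 0 < μ ∧ μ < 1 ∧ ∀ v ∈ Es A, ∀ m : ℕ, ‖T m v‖ ≤ c * μ ^ m * ‖v‖ := by
  obtain ⟨C, hC, μ₀, hμ₀, hμ₁, hdec⟩ := hA.exp_decay
  obtain ⟨K, hK, hK'⟩ := exists_bound T n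
  set μ : ℝ := μ₀ ^ ((1 : ℝ) / n) with hμ
  have hn' : (0 : ℝ) < n := by exact_mod_cast hn
  have hμpos : 0 < μ := Real.rpow_pos_of_pos hμ₀ _
  have hμlt : μ < 1 := Real.rpow_lt_one hμ₀.le hμ₁ (by positivity)
  have hμn : μ ^ n = μ₀ := by
    rw [hμ, ← Real.rpow_natCast, ← Real.rpow_mul hμ₀.le, one_div, inv_mul_cancel₀ hn'.ne',
      Real.rpow_one]
  refine ⟨K * C * (μ ^ n)⁻¹ + 1, by positivity, μ, hμpos, hμlt, fun v hv m => ?_⟩
  have h1 : m = m % n + n * (m / n) := (Nat.mod_add_div m n).symm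
  set s := m % n with hs
  set k := m / n with hk
  have hsn : s < n := Nat.mod_lt _ hn
  have h2 : ‖T m v‖ ≤ K * (C * μ₀ ^ k * ‖v‖) := by
    conv_lhs => rw [h1]
    rw [hT]
    exact (hK' s hsn _).trans (mul_le_mul_of_nonneg_left (hdec v hv k) hK)
  have h3 : μ₀ ^ k ≤ (μ ^ n)⁻¹ * μ ^ m := by
    rw [← hμn, ← pow_mul]
    rw [le_inv_mul_iff₀ (by positivity), ← pow_add]
    apply pow_le_pow_of_le_one hμpos.le hμlt.le
    omega
  have h4 : K * (C * μ₀ ^ k * ‖v‖) ≤ K * C * (μ ^ n)⁻¹ * μ ^ m * ‖v‖ := by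
    have h5 : K * (C * μ₀ ^ k * ‖v‖) = K * C * ‖v‖ * μ₀ ^ k := by ring
    rw [h5]
    calc K * C * ‖v‖ * μ₀ ^ k ≤ K * C * ‖v‖ * ((μ ^ n)⁻¹ * μ ^ m) :=
          mul_le_mul_of_nonneg_left h3 (by positivity)
      _ = _ := by ring
  have h6 : 0 ≤ μ ^ m * ‖v‖ := by positivity
  calc ‖T m v‖ ≤ K * C * (μ ^ n)⁻¹ * μ ^ m * ‖v‖ := h2.trans h4
    _ ≤ (K * C * (μ ^ n)⁻¹ + 1) * μ ^ m * ‖v‖ := by nlinarith

/-- comparison of a scalar product with the norm -/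
theorem exists_compare [FiniteDimensional ℝ E] (b : E →L[ℝ] E →L[ℝ] ℝ)
    (hb : ∀ v, v ≠ 0 → 0 < b v v) :
    ∃ a > 0, ∃ a' > 0, ∀ v, a * ‖v‖ ≤ √(b v v) ∧ √(b v v) ≤ a' * ‖v‖ := by
  have hnn : ∀ v, 0 ≤ b v v := by
    intro v
    by_cases h : v = 0
    · rw [h]; simp
    · exact (hb v h).le
  have hup : ∀ v, √(b v v) ≤ (√‖b‖ + 1) * ‖v‖ := by
    intro v
    have h1 : b v v ≤ ‖b‖ * ‖v‖ * ‖v‖ := (le_abs_self _).trans (b.le_opNorm₂ v v)
    have h2 : √(b v v) ≤ √(‖b‖ * ‖v‖ * ‖v‖) := Real.sqrt_le_sqrt h1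
    have h3 : √(‖b‖ * ‖v‖ * ‖v‖) = √‖b‖ * ‖v‖ := by
      rw [mul_assoc, Real.sqrt_mul (show 0 ≤ ‖b‖ from norm_nonneg b),
        Real.sqrt_mul_self (norm_nonneg v)]
    have := norm_nonneg v
    rw [h3] at h2
    nlinarith
  have hlow : ∃ a > 0, ∀ v, a * ‖v‖ ≤ √(b v v) := by
    have hc : IsCompact (Metric.sphere (0 : E) 1) := isCompact_sphere 0 1
    rcases (Metric.sphere (0 : E) 1).eq_empty_or_nonempty with he | hne
    · refine ⟨1, one_pos, fun v => ?_⟩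
      by_cases h : v = 0
      · rw [h]; simp
      · exfalso
        have : ‖v‖⁻¹ • v ∈ Metric.sphere (0 : E) 1 := by
          rw [mem_sphere_zero_iff_norm, norm_smul, norm_inv, norm_norm,
            inv_mul_cancel₀ (norm_ne_zero_iff.mpr h)]
        rw [he] at this
        exact this
    · have hcont : Continuous fun v : E => √(b v v) := by fun_prop
      obtain ⟨w, hw, hmin⟩ := hc.exists_isMinOn hne hcont.continuousOn
      have hw0 : w ≠ 0 := by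
        intro h
        rw [mem_sphere_zero_iff_norm, h, norm_zero] at hw
        exact zero_ne_one hw
      refine ⟨√(b w w), Real.sqrt_pos.mpr (hb w hw0), fun v => ?_⟩
      by_cases h : v = 0
      · rw [h]; simp
      · have hv : 0 < ‖v‖ := norm_pos_iff.mpr h
        have h1 : ‖v‖⁻¹ • v ∈ Metric.sphere (0 : E) 1 := by
          rw [mem_sphere_zero_iff_norm, norm_smul, norm_inv, norm_norm, inv_mul_cancel₀ hv.ne']
        have h2 : √(b w w) ≤ √(b (‖v‖⁻¹ • v) (‖v‖⁻¹ • v)) := hmin h1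
        have h3 : b (‖v‖⁻¹ • v) (‖v‖⁻¹ • v) = ‖v‖⁻¹ * ‖v‖⁻¹ * b v v := by
          rw [map_smul, map_smul, smul_apply, smul_eq_mul, smul_eq_mul]
          ring
        rw [h3, Real.sqrt_mul (by positivity), Real.sqrt_mul_self (by positivity)] at h2
        rw [← div_eq_inv_mul, le_div_iff₀ hv] at h2
        exact h2
  obtain ⟨a, ha, ha'⟩ := hlow
  exact ⟨a, ha, √‖b‖ + 1, by positivity, fun v => ⟨ha' v, hup v⟩⟩

end linear

end Pool.Agent.AxA
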