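import Pool.Agent.AxA.Rate

/-!
# Existence of Riemannian metrics
-/

set_option autoImplicit false

open Filter Topology Set Bundle
open scoped Manifold ContDiff

namespace Pool.Agent.AxA

variable {E : Type*} [NormedAddCommGroup E] [NormedSpace ℝ E]
  {M : Type*} [TopologicalSpace M] [ChartedSpace E M]

/-- a scalar product on the model space -/
noncomputable def scal (E : Type*) [NormedAddCommGroup E] [NormedSpace ℝ E]
    [FiniteDimensional ℝ E] : E →L[ℝ] E →L[ℝ] ℝ :=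
  ContinuousLinearMap.bilinearComp (innerSL ℝ : EuclideanSpace ℝ (Fin (Module.finrank ℝ E)) →L[ℝ] _)
    ((toEuclidean : E ≃L[ℝ] _) : E →L[ℝ] _) ((toEuclidean : E ≃L[ℝ] _) : E →L[ℝ] _)

theorem scal_apply [FiniteDimensional ℝ E] (v w : E) :
    scal E v w = inner ℝ (toEuclidean v) (toEuclidean w) := rfl

theorem scal_symm [FiniteDimensional ℝ E] (v w : E) : scal E v w = scal E w v := by
  rw [scal_apply, scal_apply, real_inner_comm]

theorem scal_pos [FiniteDimensional ℝ E] {v : E} (hv : v ≠ 0) : 0 < scal E v v := by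
  rw [scal_apply, real_inner_self_pos]
  intro h
  exact hv ((toEuclidean (E := E)).injective (by rw [h, map_zero]))

/-- the scalar product transported by a linear map -/
noncomputable def bil [FiniteDimensional ℝ E] (L : E →L[ℝ] E) : E →L[ℝ] E →L[ℝ] ℝ :=
  ((ContinuousLinearMap.compL ℝ E E ℝ).flip L) ∘L ((scal E) ∘L L)

theorem bil_apply [FiniteDimensional ℝ E] (L : E →L[ℝ] E) (v w : E) :
    bil L v w = scal E (L v) (L w) := rfl

theorem bil_contDiff [FiniteDimensional ℝ E] : ContDiff ℝ ∞ (bil : (E →L[ℝ] E) → _) := by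
  have h0 : ContDiff ℝ ∞ (fun L : E →L[ℝ] E => (scal E) ∘L L) :=
    contDiff_const.clm_comp contDiff_id
  have h1 : ContDiff ℝ ∞ (fun L : E →L[ℝ] E => (ContinuousLinearMap.compL ℝ E E ℝ).flip L) :=
    ContinuousLinearMap.contDiff (𝕜 := ℝ) (E := E →L[ℝ] E)
      (F := (E →L[ℝ] ℝ) →L[ℝ] (E →L[ℝ] ℝ)) ((ContinuousLinearMap.compL ℝ E E ℝ).flip)
  exact h1.clm_comp h0

/-- the scalar product transported by a trivialization -/
noncomputable def sloc [FiniteDimensional ℝ E] [IsManifold 𝓘(ℝ, E) ∞ M] (x₀ x : M) :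
    TangentSpace 𝓘(ℝ, E) x →L[ℝ] TangentSpace 𝓘(ℝ, E) x →L[ℝ] ℝ :=
  @bil E _ _ _ ((trivializationAt E (TangentSpace 𝓘(ℝ, E)) x₀).continuousLinearMapAt ℝ x)

theorem sloc_apply [FiniteDimensional ℝ E] [IsManifold 𝓘(ℝ, E) ∞ M] (x₀ x : M)
    (v w : TangentSpace 𝓘(ℝ, E) x) : sloc x₀ x v w =
    scal E ((trivializationAt E (TangentSpace 𝓘(ℝ, E)) x₀).continuousLinearMapAt ℝ x v)
      ((trivializationAt E (TangentSpace 𝓘(ℝ, E)) x₀).continuousLinearMapAt ℝ x w) := rfl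

theorem sloc_smooth [FiniteDimensional ℝ E] [IsManifold 𝓘(ℝ, E) ∞ M] (x₀ : M) :
    ContMDiffOn 𝓘(ℝ, E) (𝓘(ℝ, E).prod 𝓘(ℝ, E →L[ℝ] E →L[ℝ] ℝ)) ∞
      (fun x => TotalSpace.mk' (E →L[ℝ] E →L[ℝ] ℝ)
        (E := fun x : M => TangentSpace 𝓘(ℝ, E) x →L[ℝ] TangentSpace 𝓘(ℝ, E) x →L[ℝ] ℝ)
        x (sloc x₀ x)) (trivializationAt E (TangentSpace 𝓘(ℝ, E)) x₀).baseSet := by
  intro x₁ hx₁
  rw [contMDiffWithinAt_hom_bundle]
  refine ⟨contMDiffWithinAt_id, ?_⟩
  set e := trivializationAt E (TangentSpace 𝓘(ℝ, E)) x₀ with he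
  set e₁ := trivializationAt E (TangentSpace 𝓘(ℝ, E)) x₁ with he₁
  have hx₁' : x₁ ∈ e₁.baseSet := mem_baseSet_trivializationAt E _ x₁
  have h1 : ContMDiffAt 𝓘(ℝ, E) 𝓘(ℝ, E →L[ℝ] E) ∞
      (fun b : M => (e₁.coordChangeL ℝ e b : E →L[ℝ] E)) x₁ := contMDiffAt_coordChangeL hx₁' hx₁
  have h2 : ContMDiffAt 𝓘(ℝ, E) 𝓘(ℝ, E →L[ℝ] E →L[ℝ] ℝ) ∞
      (fun b : M => bil (e₁.coordChangeL ℝ e b : E →L[ℝ] E)) x₁ :=
    bil_contDiff.contMDiff.contMDiffAt.comp x₁ h1
  have key : ∀ x ∈ e.baseSet ∩ e₁.baseSet, ∀ v w : E,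
      ContinuousLinearMap.inCoordinates E (fun x : M => TangentSpace 𝓘(ℝ, E) x) (E →L[ℝ] ℝ)
        (fun x : M => TangentSpace 𝓘(ℝ, E) x →L[ℝ] ℝ) x₁ x x₁ x (sloc x₀ x) v w =
      bil (e₁.coordChangeL ℝ e x : E →L[ℝ] E) v w := by
    intro x hx v w
    rw [inCoordinates_apply_eq₂ (𝕜 := ℝ) (F₁ := E) (F₂ := E) (F₃ := ℝ)
      (E₁ := fun x : M => TangentSpace 𝓘(ℝ, E) x) (E₂ := fun x : M => TangentSpace 𝓘(ℝ, E) x)
      (E₃ := fun _ => ℝ)
      (x₀ := x₁) (x := x) (ϕ := sloc x₀ x) (v := v) (w := w) hx.2 hx.2 (mem_univ _)]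
    rw [sloc_apply, bil_apply]
    have h3 : ∀ u : E, e.continuousLinearMapAt ℝ x (e₁.symm x u) =
        (e₁.coordChangeL ℝ e x : E →L[ℝ] E) u := by
      intro u
      have h4 := e₁.coordChangeL_apply (R := ℝ) e ⟨hx.2, hx.1⟩ u
      have h5 : e.continuousLinearMapAt ℝ x (e₁.symm x u) = (e ⟨x, e₁.symm x u⟩).2 := by
        rw [Trivialization.continuousLinearMapAt_apply, Trivialization.coe_linearMapAt_of_mem e hx.1]
      rw [h5]
      exact h4.symm
    have h6 := h3 v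
    have h7 := h3 w
    rw [h6, h7]
    simp
  refine h2.contMDiffWithinAt.congr_of_eventuallyEq ?_ ?_
  · have h3 : ∀ᶠ x in 𝓝[e.baseSet] x₁, x ∈ e.baseSet ∩ e₁.baseSet :=
      Filter.inter_mem self_mem_nhdsWithin (nhdsWithin_le_nhds (e₁.open_baseSet.mem_nhds hx₁'))
    filter_upwards [h3] with x hx
    ext v w
    exact key x hx v w
  · ext v w
    exact key x₁ ⟨hx₁, hx₁'⟩ v w

theorem sloc_mem [FiniteDimensional ℝ E] [IsManifold 𝓘(ℝ, E) ∞ M] {x₀ x : M}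
    (hx : x ∈ (trivializationAt E (TangentSpace 𝓘(ℝ, E)) x₀).baseSet) {v : TangentSpace 𝓘(ℝ, E) x}
    (hv : v ≠ 0) : 0 < sloc x₀ x v v := by
  rw [sloc_apply]
  apply scal_pos
  intro h
  apply hv
  set e := trivializationAt E (TangentSpace 𝓘(ℝ, E)) x₀ with he
  have h1 := e.symmL_continuousLinearMapAt (R := ℝ) hx v
  rw [h, map_zero] at h1
  exact h1.symm

/-- **Existence of Riemannian metrics.** -/
theorem exists_riemannian [FiniteDimensional ℝ E] [IsManifold 𝓘(ℝ, E) ∞ M] [T2Space M]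
    [SigmaCompactSpace M] :
    Nonempty (ContMDiffRiemannianMetric 𝓘(ℝ, E) ∞ E (fun x : M => TangentSpace 𝓘(ℝ, E) x)) := by
  obtain ⟨s, hs⟩ := exists_contMDiffSection_forall_mem_convex_of_local (n := ⊤) 𝓘(ℝ, E)
    (F_fiber := E →L[ℝ] E →L[ℝ] ℝ)
    (fun x : M => TangentSpace 𝓘(ℝ, E) x →L[ℝ] TangentSpace 𝓘(ℝ, E) x →L[ℝ] ℝ)
    (fun x => {b | (∀ v w, b v w = b w v) ∧ ∀ v, v ≠ 0 → 0 < b v v}) (by
      intro x b hb c hc α β hα hβ hαβ
      refine ⟨fun v w => ?_, fun v hv => ?_⟩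
      · show α * b v w + β * c v w = α * b w v + β * c w v
        rw [hb.1 v w, hc.1 v w]
      · show 0 < α * b v v + β * c v v
        have h1 := hb.2 v hv
        have h2 := hc.2 v hv
        rcases hα.eq_or_lt with h | h
        · have : β = 1 := by linarith
          rw [← h, this]
          linarith
        · have := mul_pos h h1
          have := mul_nonneg hβ h2.le
          linarith) (by
      intro x₀
      refine ⟨(trivializationAt E (TangentSpace 𝓘(ℝ, E)) x₀).baseSet,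
        (trivializationAt E (TangentSpace 𝓘(ℝ, E)) x₀).open_baseSet.mem_nhds
          (mem_baseSet_trivializationAt E _ x₀), sloc x₀, sloc_smooth x₀, fun y hy =>
          ⟨fun v w => ?_, fun v hv => sloc_mem hy hv⟩⟩
      rw [sloc_apply, sloc_apply, scal_symm])
  refine ⟨⟨fun x => s x, fun x v w => (hs x).1 v w, fun x v hv => (hs x).2 v hv, fun x => ?_,
    s.contMDiff⟩⟩
  obtain ⟨a, ha, a', ha', h⟩ := exists_compare (E := E) (s x) (fun v hv => (hs x).2 v hv)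
  have h1 : Bornology.IsBounded {v : E | s x v v < 1} := by
    rw [isBounded_iff_forall_norm_le]
    refine ⟨1 / a, fun v hv => ?_⟩
    have h2 := (h v).1
    have h3 : √(s x v v) ≤ 1 := by
      rw [Real.sqrt_le_one]
      exact (show s x v v < 1 from hv).le
    have h4 : a * ‖v‖ ≤ 1 := h2.trans h3
    rw [le_div_iff₀ ha]
    linarith
  exact (NormedSpace.isVonNBounded_iff (E := E) ℝ (s := {v : E | s x v v < 1})).mpr h1

end Pool.Agent.AxA
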