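import Pool.Agent.AxA.Lin

/-!
# Shadowing of pseudo-orbits following a homoclinic orbit
-/

set_option autoImplicit false

open Filter Topology Set

namespace Pool.Agent.AxA

variable {E : Type*} [NormedAddCommGroup E] [NormedSpace ℝ E]

/-- Shadowing for cyclic systems. -/
theorem cyclic_shadow [FiniteDimensional ℝ E] {n : ℕ} [NeZero n] {f : ZMod n → E → E}
    {z : ZMod n → E} {A : ZMod n → E →L[ℝ] E} {ρ c C : ℝ} (hρ : 0 ≤ ρ) (hc : 0 ≤ c) (hC : 0 < C)
    (happ : ∀ l x y, ‖x - z l‖ ≤ ρ → ‖y - z l‖ ≤ ρ → ‖f l x - f l y - A l (x - y)‖ ≤ c * ‖x - y‖)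
    (hinv : ∀ (v : ZMod n → E) (r : ℝ), (∀ l, ‖v (l + 1) - A l (v l)‖ ≤ r) → ∀ l, ‖v l‖ ≤ C * r)
    (herr : ∀ l, ‖z (l + 1) - f l (z l)‖ ≤ (C⁻¹ - c) * ρ) :
    ∃ x : ZMod n → E, (∀ l, ‖x l - z l‖ ≤ ρ) ∧ ∀ l, f l (x l) = x (l + 1) := by
  let Llin : (ZMod n → E) →ₗ[ℝ] (ZMod n → E) :=
    { toFun := fun v l => A l (v l) - v (l + 1)
      map_add' := by
        intro x y
        funext l
        simp only [map_add, Pi.add_apply]
        abel
      map_smul' := by
        intro a x
        funext l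
        simp only [map_smul, Pi.smul_apply, RingHom.id_apply, smul_sub] }
  let L : (ZMod n → E) →L[ℝ] (ZMod n → E) := LinearMap.toContinuousLinearMap Llin
  have hbound : ∀ v, ‖v‖ ≤ C * ‖L v‖ := by
    intro v
    have h0 : 0 ≤ ‖L v‖ := norm_nonneg _
    rw [pi_norm_le_iff_of_nonneg (by positivity)]
    apply hinv
    intro l
    have := norm_le_pi_norm (L v) l
    rwa [show L v l = A l (v l) - v (l + 1) from rfl, norm_sub_rev] at this
  have hinj : Function.Injective Llin := by
    rw [← LinearMap.ker_eq_bot, LinearMap.ker_eq_bot']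
    intro v hv
    have h1 := hbound v
    have h2 : L v = 0 := hv
    rw [h2, norm_zero, mul_zero] at h1
    exact norm_le_zero_iff.mp h1
  have hsurj : Function.Surjective Llin := LinearMap.injective_iff_surjective.mp hinj
  choose g hg using hsurj
  let R : L.NonlinearRightInverse :=
    { toFun := g
      nnnorm := C.toNNReal
      bound' := fun y => by
        rw [Real.coe_toNNReal _ hC.le]
        have := hbound (g y)
        have h2 : L (g y) = y := hg y
        rwa [h2] at this
      right_inv' := fun y => hg y }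
  let G : (ZMod n → E) → (ZMod n → E) := fun x l => f l (x l) - x (l + 1)
  have hApp : ApproximatesLinearOn G L (Metric.closedBall z ρ) c.toNNReal := by
    intro x hx y hy
    rw [Real.coe_toNNReal _ hc, pi_norm_le_iff_of_nonneg (by positivity)]
    intro l
    have h1 : (G x - G y - L (x - y)) l = f l (x l) - f l (y l) - A l (x l - y l) := by
      show (f l (x l) - x (l + 1)) - (f l (y l) - y (l + 1)) -
        (A l (x l - y l) - (x (l + 1) - y (l + 1))) = _
      abel
    rw [h1]
    rw [mem_closedBall_iff_norm] at hx hy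
    refine (happ l _ _ ((norm_le_pi_norm (x - z) l).trans hx)
      ((norm_le_pi_norm (y - z) l).trans hy)).trans ?_
    exact mul_le_mul_of_nonneg_left (norm_le_pi_norm (x - y) l) hc
  have hs := hApp.surjOn_closedBall_of_nonlinearRightInverse R hρ (Subset.refl _)
  have h0 : (0 : ZMod n → E) ∈ Metric.closedBall (G z) (((R.nnnorm : ℝ)⁻¹ - c.toNNReal) * ρ) := by
    show (0 : ZMod n → E) ∈ Metric.closedBall (G z) ((((C.toNNReal : NNReal) : ℝ)⁻¹ -
      c.toNNReal) * ρ)
    rw [Real.coe_toNNReal _ hC.le, Real.coe_toNNReal _ hc, mem_closedBall_iff_norm, zero_sub,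
      norm_neg, pi_norm_le_iff_of_nonneg ((norm_nonneg _).trans (herr 0))]
    intro l
    have := herr l
    rwa [norm_sub_rev] at this
  obtain ⟨x, hx, hGx⟩ := hs h0
  rw [mem_closedBall_iff_norm] at hx
  refine ⟨x, fun l => (norm_le_pi_norm (x - z) l).trans hx, fun l => ?_⟩
  exact sub_eq_zero.mp (congrFun hGx l)

/-- Uniform linear approximation on a compact set. -/
theorem uniform_approx {F : E → E} {K : Set E} (hK : IsCompact K)
    (hF : ∀ z ∈ K, ContDiffAt ℝ 1 F z) {c : ℝ} (hc : 0 < c) :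
    ∃ ρ > 0, ∀ z ∈ K, ∀ x y, ‖x - z‖ ≤ ρ → ‖y - z‖ ≤ ρ →
      ‖F x - F y - fderiv ℝ F z (x - y)‖ ≤ c * ‖x - y‖ := by
  have h1 : ∀ z ∈ K, ∃ r > 0, ∀ w ∈ Metric.ball z r, ∀ x ∈ Metric.ball z r,
      ∀ y ∈ Metric.ball z r, ‖F x - F y - fderiv ℝ F w (x - y)‖ ≤ c * ‖x - y‖ := by
    intro z hz
    have hst : HasStrictFDerivAt F (fderiv ℝ F z) z := (hF z hz).hasStrictFDerivAt one_ne_zero
    obtain ⟨s, hs, happ⟩ := hst.approximates_deriv_on_nhds (c := (c / 2).toNNReal)
      (Or.inr (Real.toNNReal_pos.mpr (by positivity)))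
    have hcont : ContinuousAt (fderiv ℝ F) z :=
      ((hF z hz).fderiv_right (m := 0) (by norm_num)).continuousAt
    have hev : ∀ᶠ w in 𝓝 z, dist (fderiv ℝ F w) (fderiv ℝ F z) < c / 2 :=
      Metric.tendsto_nhds.mp hcont (c / 2) (by positivity)
    obtain ⟨r, hr, hr'⟩ := Metric.mem_nhds_iff.mp (Filter.inter_mem hs hev)
    refine ⟨r, hr, fun w hw x hx y hy => ?_⟩
    have h2 := happ x (hr' hx).1 y (hr' hy).1
    rw [Real.coe_toNNReal _ (by positivity)] at h2
    have h3 : ‖(fderiv ℝ F z - fderiv ℝ F w) (x - y)‖ ≤ c / 2 * ‖x - y‖ := by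
      refine (ContinuousLinearMap.le_opNorm _ _).trans ?_
      refine mul_le_mul_of_nonneg_right ?_ (norm_nonneg _)
      have := (hr' hw).2
      rw [Set.mem_ofPred_eq, dist_eq_norm, norm_sub_rev] at this
      exact this.le
    have h4 : F x - F y - fderiv ℝ F w (x - y) = (F x - F y - fderiv ℝ F z (x - y)) +
        (fderiv ℝ F z - fderiv ℝ F w) (x - y) := by
      rw [sub_apply]; abel
    rw [h4]
    calc _ ≤ _ := norm_add_le _ _
      _ ≤ c / 2 * ‖x - y‖ + c / 2 * ‖x - y‖ := add_le_add h2 h3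
      _ = _ := by ring
  choose! r hr hr' using h1
  obtain ⟨δ, hδ, hδ'⟩ := lebesgue_number_lemma_of_metric (c := fun z : K => Metric.ball (z : E) (r z))
    hK (fun _ => Metric.isOpen_ball) (fun z hz => Set.mem_iUnion.mpr ⟨⟨z, hz⟩,
      Metric.mem_ball_self (hr z hz)⟩)
  refine ⟨δ / 2, by positivity, fun z hz x y hx hy => ?_⟩
  obtain ⟨z₀, hz₀⟩ := hδ' z hz
  have hx' : x ∈ Metric.ball z δ := by
    rw [mem_ball_iff_norm]; linarith
  have hy' : y ∈ Metric.ball z δ := by
    rw [mem_ball_iff_norm]; linarith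
  exact hr' z₀ z₀.2 z (hz₀ (Metric.mem_ball_self hδ)) x (hz₀ hx') y (hz₀ hy')

/-- `T` is an admissible set of transition times, with gaps at least `N`. -/
structure Adm (T : Set ℤ) (N : ℕ) : Prop where
  gap : ∀ l ∈ T, ∀ j : ℕ, 0 < j → j < N → l + j ∉ T
  next : ∀ l : ℤ, ∃ d : ℕ, l + d ∈ T
  prev : ∀ l : ℤ, ∃ d : ℕ, l - 1 - d ∈ T

/-- time to the next transition -/
noncomputable def dm (T : Set ℤ) (l : ℤ) : ℕ := sInf {d : ℕ | l + d ∈ T}

/-- time since the last transition -/
noncomputable def dp (T : Set ℤ) (l : ℤ) : ℕ := sInf {d : ℕ | l - 1 - d ∈ T}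

theorem dm_eq {T : Set ℤ} {l : ℤ} {d : ℕ} (h1 : l + d ∈ T) (h2 : ∀ j < d, l + (j : ℕ) ∉ T) :
    dm T l = d := by
  apply le_antisymm (Nat.sInf_le h1)
  by_contra hcon
  push Not at hcon
  exact h2 _ hcon (Nat.sInf_mem (s := {d : ℕ | l + d ∈ T}) ⟨d, h1⟩)

theorem dp_eq {T : Set ℤ} {l : ℤ} {d : ℕ} (h1 : l - 1 - d ∈ T)
    (h2 : ∀ j < d, l - 1 - (j : ℕ) ∉ T) : dp T l = d := by
  apply le_antisymm (Nat.sInf_le h1)
  by_contra hcon
  push Not at hcon
  exact h2 _ hcon (Nat.sInf_mem (s := {d : ℕ | l - 1 - d ∈ T}) ⟨d, h1⟩)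

section

variable {T : Set ℤ} {N : ℕ} (hT : Adm T N)

include hT

theorem Adm.dm_mem (l : ℤ) : l + dm T l ∈ T := Nat.sInf_mem (hT.next l)

theorem Adm.dp_mem (l : ℤ) : l - 1 - dp T l ∈ T := Nat.sInf_mem (hT.prev l)

omit hT in
theorem not_mem_of_lt_dm {l : ℤ} {j : ℕ} (h : j < dm T l) : l + j ∉ T := fun h' =>
  Nat.notMem_of_lt_sInf h h'

omit hT in
theorem not_mem_of_lt_dp {l : ℤ} {j : ℕ} (h : j < dp T l) : l - 1 - j ∉ T := fun h' =>
  Nat.notMem_of_lt_sInf h h'

theorem Adm.le_add (l : ℤ) : N ≤ dp T l + dm T l + 1 := by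
  by_contra hcon
  push Not at hcon
  have := hT.gap _ (hT.dp_mem l) (dp T l + dm T l + 1) (by omega) hcon
  apply this
  have h := hT.dm_mem l
  convert h using 1
  push_cast
  ring

omit hT in
theorem dm_of_mem {l : ℤ} (h : l ∈ T) : dm T l = 0 := dm_eq (by simpa using h) (by simp)

omit hT in
theorem dp_succ_of_mem {l : ℤ} (h : l ∈ T) : dp T (l + 1) = 0 :=
  dp_eq (by simpa using h) (by simp)

theorem Adm.dm_of_not_mem {l : ℤ} (h : l ∉ T) : dm T l = dm T (l + 1) + 1 := by
  apply dm_eq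
  · have := hT.dm_mem (l + 1)
    convert this using 1
    push_cast; ring
  · intro j hj
    rcases j with _ | j
    · simpa using h
    · have := not_mem_of_lt_dm (T := T) (l := l + 1) (j := j) (by omega)
      convert this using 2
      push_cast; ring

theorem Adm.dp_succ_of_not_mem {l : ℤ} (h : l ∉ T) : dp T (l + 1) = dp T l + 1 := by
  apply dp_eq
  · have := hT.dp_mem l
    convert this using 1
    push_cast; ring
  · intro j hj
    rcases j with _ | j
    · simpa using h
    · have := not_mem_of_lt_dp (T := T) (l := l) (j := j) (by omega)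
      convert this using 2
      push_cast; ring

end

section

variable (F G : E → E) (a b : ℕ → E)

open Classical in
/-- the pseudo-orbit -/
noncomputable def pso (T : Set ℤ) (l : ℤ) : E :=
  if dp T l ≤ dm T l then b (dp T l) else a (dm T l)

open Classical in
/-- the maps of the pseudo-orbit -/
noncomputable def psf (T : Set ℤ) (l : ℤ) : E → E := if l ∈ T then G else F

open Classical in
/-- the linear maps along the pseudo-orbit -/
noncomputable def psA (T : Set ℤ) (l : ℤ) : E →L[ℝ] E :=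
  if l ∈ T then fderiv ℝ G (a 0) else fderiv ℝ F (pso a b T l)

/-- the linear maps along the homoclinic orbit -/
noncomputable def homA : ℤ → E →L[ℝ] E
  | Int.ofNat 0 => fderiv ℝ G (a 0)
  | Int.ofNat (n + 1) => fderiv ℝ F (b n)
  | Int.negSucc n => fderiv ℝ F (a (n + 1))

variable {F G a b}

theorem psA_near {T : Set ℤ} {N : ℕ} (hT : Adm T N) {m : ℤ} (hm : m ∈ T) {l : ℤ}
    (hl : 2 * l.natAbs + 2 < N) : psA F G a b T (m + l) = homA F G a b l := by
  have hnot : ∀ j : ℤ, j ≠ 0 → j.natAbs < N → m + j ∉ T := by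
    intro j hj hjN
    rcases lt_or_gt_of_ne hj with h | h
    · intro hmem
      have := hT.gap _ hmem j.natAbs (by omega) hjN
      apply this
      rwa [show m + j + (j.natAbs : ℤ) = m by omega]
    · have := hT.gap _ hm j.natAbs (by omega) hjN
      rwa [show ((j.natAbs : ℕ) : ℤ) = j by omega] at this
  match l, hl with
  | Int.ofNat 0, hl =>
    have : m + Int.ofNat 0 = m := by simp
    rw [this]
    simp only [psA, hm, if_true, homA]
  | Int.ofNat (n + 1), hl =>
    have hn : 2 * (n + 1) + 2 < N := hl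
    have h1 : m + Int.ofNat (n + 1) ∉ T := hnot _ (by simp; omega) (by simp; omega)
    have h2 : dp T (m + Int.ofNat (n + 1)) = n := by
      apply dp_eq
      · have : m + Int.ofNat (n + 1) - 1 - (n : ℤ) = m := by
          simp only [Int.ofNat_eq_natCast]; push_cast; ring
        rwa [this]
      · intro j hj
        have : m + Int.ofNat (n + 1) - 1 - (j : ℤ) = m + ((n - j : ℕ) : ℤ) := by
          simp only [Int.ofNat_eq_natCast]; push_cast [Nat.cast_sub hj.le]; ring
        rw [this]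
        exact hnot _ (by omega) (by omega)
    have h3 := hT.le_add (m + Int.ofNat (n + 1))
    rw [h2] at h3
    simp only [psA, h1, if_false, pso, h2, homA]
    rw [if_pos (by omega)]
  | Int.negSucc n, hl =>
    have hn : 2 * (n + 1) + 2 < N := hl
    have h1 : m + Int.negSucc n ∉ T := hnot _ (by simp) (by simp; omega)
    have h2 : dm T (m + Int.negSucc n) = n + 1 := by
      apply dm_eq
      · have : m + Int.negSucc n + ((n + 1 : ℕ) : ℤ) = m := by
          rw [Int.negSucc_eq]; push_cast; ring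
        rwa [this]
      · intro j hj
        have : m + Int.negSucc n + (j : ℤ) = m + (-((n + 1 - j : ℕ) : ℤ)) := by
          rw [Int.negSucc_eq]; push_cast [Nat.cast_sub hj.le]; ring
        rw [this]
        exact hnot _ (by omega) (by omega)
    have h3 := hT.le_add (m + Int.negSucc n)
    rw [h2] at h3
    simp only [psA, h1, if_false, pso, h2, homA]
    rw [if_neg (by omega)]

/-- Uniform estimate along the pseudo-orbits. -/
theorem pso_estimate [FiniteDimensional ℝ E] (hF0 : ContinuousAt (fderiv ℝ F) 0)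
    (hA : HypLin (fderiv ℝ F 0)) (ha : Tendsto a atTop (𝓝 0)) (hb : Tendsto b atTop (𝓝 0))
    (htr : ∀ x : ℤ → E, (∀ i, x (i + 1) = homA F G a b i (x i)) → (∃ C, ∀ i, ‖x i‖ ≤ C) →
      ∀ i, x i = 0) :
    ∃ C > 0, ∃ N : ℕ, ∀ T : Set ℤ, Adm T N → ∀ (x : ℤ → E) (r : ℝ), (∃ s, ∀ i, ‖x i‖ ≤ s) →
      (∀ i, ‖x (i + 1) - psA F G a b T i (x i)‖ ≤ r) → ∀ i, ‖x i‖ ≤ C * r := by
  by_contra hcon
  push Not at hcon
  have key : ∀ k : ℕ, ∃ T : Set ℤ, Adm T k ∧ ∃ m : ℤ, ∃ y : ℤ → E, (∀ i, ‖y i‖ ≤ 1) ∧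
      1 / 2 ≤ ‖y 0‖ ∧ ∀ i, ‖y (i + 1) - psA F G a b T (i + m) (y i)‖ ≤ 1 / (k + 1) := by
    intro k
    obtain ⟨T, hT, x, r, hb, hr, i₀, hi₀⟩ := hcon (k + 1) (by positivity) k
    have hr0 : 0 ≤ r := (norm_nonneg _).trans (hr 0)
    have hx0 : x i₀ ≠ 0 := by
      intro h
      rw [h, norm_zero] at hi₀
      have : 0 ≤ ((k:ℝ) + 1) * r := by positivity
      linarith
    obtain ⟨s, hs, m, hsm, hm⟩ := exists_recenter x hb i₀ hx0
    have hsr : (k + 1) * r < s := lt_of_lt_of_le hi₀ (hsm i₀)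
    refine ⟨T, hT, m, fun i => s⁻¹ • x (i + m), ?_, ?_, ?_⟩
    · intro i
      rw [norm_smul, norm_inv, Real.norm_eq_abs, abs_of_pos hs, inv_mul_le_iff₀ hs, mul_one]
      exact hsm _
    · rw [norm_smul, norm_inv, Real.norm_eq_abs, abs_of_pos hs, zero_add,
        le_inv_mul_iff₀ hs]
      linarith
    · intro i
      have e : s⁻¹ • x (i + 1 + m) - psA F G a b T (i + m) (s⁻¹ • x (i + m)) =
          s⁻¹ • (x (i + m + 1) - psA F G a b T (i + m) (x (i + m))) := by
        rw [map_smul, smul_sub, show i + 1 + m = i + m + 1 by ring]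
      show ‖s⁻¹ • x (i + 1 + m) - psA F G a b T (i + m) (s⁻¹ • x (i + m))‖ ≤ _
      rw [e, norm_smul, norm_inv, Real.norm_eq_abs, abs_of_pos hs, inv_mul_le_iff₀ hs]
      have h1 := hr (i + m)
      have h2 : r ≤ s * (1 / (k + 1)) := by
        rw [mul_one_div, le_div_iff₀ (by positivity)]
        linarith
      exact h1.trans h2
  choose T hT m y hy1 hy0 hyr using key
  set U : Ultrafilter ℕ := hyperfilter ℕ with hU
  have hUle : (U : Filter ℕ) ≤ atTop := Nat.hyperfilter_le_atTop
  have hres : ∀ i, Tendsto (fun k => y k (i + 1) - psA F G a b (T k) (i + m k) (y k i)) U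
      (𝓝 0) := by
    intro i
    have : Tendsto (fun k => y k (i + 1) - psA F G a b (T k) (i + m k) (y k i)) atTop (𝓝 0) := by
      refine squeeze_zero_norm (fun k => hyr k i) ?_
      exact tendsto_one_div_add_atTop_nhds_zero_nat
    exact this.mono_left hUle
  have hzero : ¬ ∃ z : ℤ → E, (∀ i, ‖z i‖ ≤ 1) ∧ 1 / 2 ≤ ‖z 0‖ ∧ ∀ i, z i = 0 := by
    rintro ⟨z, -, h1, h2⟩
    rw [h2 0, norm_zero] at h1
    linarith
  by_cases hcase : ∃ j : ℤ, ∀ᶠ k in (U : Filter ℕ), m k + j ∈ T k
  · obtain ⟨j, hj⟩ := hcase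
    obtain ⟨z, hz1, hz0, hz, -⟩ := cp (A := fun i => homA F G a b (i - j))
      (B := fun k i => psA F G a b (T k) (i + m k)) (x := y) (U := U) (c := 1 / 2)
      (fun i => Eventually.of_forall fun k => hy1 k i) (fun i => by
        refine tendsto_const_nhds.congr' ?_
        filter_upwards [hj, (Filter.eventually_gt_atTop (2 * (i - j).natAbs + 2)).filter_mono hUle]
          with k hk hk2
        rw [show i + m k = m k + j + (i - j) by ring]
        exact (psA_near (hT k) hk hk2).symm) hres (Eventually.of_forall fun k => hy0 k)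
    have h2 := htr (fun i => z (i + j)) (fun i => by
      have := hz (i + j)
      rw [show i + j + 1 = i + 1 + j by ring, show i + j - j = i by ring] at this
      exact this) ⟨1, fun i => hz1 _⟩
    refine hzero ⟨z, hz1, hz0, fun i => ?_⟩
    have := h2 (i - j)
    simpa using this
  · push Not at hcase
    have hcase' : ∀ j : ℤ, ∀ᶠ k in (U : Filter ℕ), m k + j ∉ T k := hcase
    obtain ⟨z, hz1, hz0, hz, -⟩ := cp (A := fun _ => fderiv ℝ F 0)
      (B := fun k i => psA F G a b (T k) (i + m k)) (x := y) (U := U) (c := 1 / 2)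
      (fun i => Eventually.of_forall fun k => hy1 k i) (fun i => by
        have hz : Tendsto (fun k => pso a b (T k) (i + m k)) U (𝓝 0) := by
          rw [Metric.tendsto_nhds]
          intro ε hε
          obtain ⟨Ra, hRa⟩ := Metric.tendsto_atTop.mp ha ε hε
          obtain ⟨Rb, hRb⟩ := Metric.tendsto_atTop.mp hb ε hε
          have h1 : ∀ᶠ k in (U : Filter ℕ), ∀ j ∈ Finset.range (Ra + Rb + 1),
              (i + m k + (j : ℕ) ∉ T k) ∧ (i + m k - 1 - (j : ℕ) ∉ T k) := by
            rw [Filter.eventually_all_finset]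
            intro j _
            filter_upwards [hcase' (i + j), hcase' (i - 1 - j)] with k h2 h3
            refine ⟨?_, ?_⟩
            · rwa [show i + m k + (j : ℤ) = m k + (i + j) by ring]
            · rwa [show i + m k - 1 - (j : ℤ) = m k + (i - 1 - j) by ring]
          filter_upwards [h1] with k hk
          have h2 : Ra + Rb < dm (T k) (i + m k) := by
            by_contra hcon
            push Not at hcon
            exact (hk _ (Finset.mem_range.mpr (Nat.lt_succ_of_le hcon))).1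
              ((hT k).dm_mem (i + m k))
          have h3 : Ra + Rb < dp (T k) (i + m k) := by
            by_contra hcon
            push Not at hcon
            exact (hk _ (Finset.mem_range.mpr (Nat.lt_succ_of_le hcon))).2
              ((hT k).dp_mem (i + m k))
          unfold pso
          split_ifs
          · exact hRb _ (by omega)
          · exact hRa _ (by omega)
        refine (hF0.tendsto.comp hz).congr' ?_
        filter_upwards [hcase' i] with k hk
        show fderiv ℝ F (pso a b (T k) (i + m k)) = psA F G a b (T k) (i + m k)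
        unfold psA
        rw [if_neg (by rwa [add_comm i])]) hres (Eventually.of_forall fun k => hy0 k)
    exact hzero ⟨z, hz1, hz0, hA z hz ⟨1, hz1⟩⟩

end

end Pool.Agent.AxA
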