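import Pool.Agent.AxA.Crt

/-!
# Local perturbations
-/

set_option autoImplicit false

open Filter Topology Set
open scoped Manifold ContDiff

namespace Pool.Agent.AxA

section euclidean

variable {P E : Type*} [NormedAddCommGroup P] [NormedSpace ℝ P]
  [NormedAddCommGroup E] [NormedSpace ℝ E]

/-- Small compactly supported perturbations of the identity are diffeomorphisms. -/
theorem exists_local_diffeo [CompleteSpace E] {Φ : E → P →L[ℝ] E} (hΦ : ContDiff ℝ ∞ Φ)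
    (hs : HasCompactSupport Φ) : ∃ δ > 0, ∀ μ : P, ‖μ‖ < δ → ∃ e : E ≃ E,
      (∀ y, e y = y + Φ y μ) ∧ ContDiff ℝ ∞ e ∧ ContDiff ℝ ∞ e.symm := by
  obtain ⟨C, hC⟩ := ContDiff.lipschitzWith_of_hasCompactSupport hs hΦ (by simp)
  refine ⟨1 / (2 * (C + 1)), by positivity, fun μ hμ => ?_⟩
  have hlip : ∀ x y, ‖Φ x μ - Φ y μ‖ ≤ 1 / 2 * ‖x - y‖ := by
    intro x y
    rw [← sub_apply]
    have h1 : ‖Φ x - Φ y‖ ≤ C * ‖x - y‖ := by
      have := hC.dist_le_mul x y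
      rwa [dist_eq_norm, dist_eq_norm] at this
    have h2 : (C : ℝ) * ‖μ‖ ≤ 1 / 2 := by
      have h3 : ‖μ‖ * (2 * (C + 1)) < 1 := by
        rwa [lt_div_iff₀ (by positivity)] at hμ
      have := norm_nonneg μ
      nlinarith
    calc ‖(Φ x - Φ y) μ‖ ≤ ‖Φ x - Φ y‖ * ‖μ‖ := ContinuousLinearMap.le_opNorm _ _
      _ ≤ C * ‖x - y‖ * ‖μ‖ := mul_le_mul_of_nonneg_right h1 (norm_nonneg _)
      _ = C * ‖μ‖ * ‖x - y‖ := by ring
      _ ≤ _ := mul_le_mul_of_nonneg_right h2 (norm_nonneg _)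
  let f : E → E := fun y => y + Φ y μ
  have happ : ApproximatesLinearOn f ((ContinuousLinearEquiv.refl ℝ E : E ≃L[ℝ] E) : E →L[ℝ] E)
      univ (1 / 2 : NNReal) := by
    intro x _ y _
    have h1 : f x - f y - ((ContinuousLinearEquiv.refl ℝ E : E ≃L[ℝ] E) : E →L[ℝ] E) (x - y) =
        Φ x μ - Φ y μ := by
      show x + Φ x μ - (y + Φ y μ) - (x - y) = _
      abel
    rw [h1]
    have := hlip x y
    simpa using this
  have hN : Subsingleton E ∨ (1 / 2 : NNReal) <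
      ‖((ContinuousLinearEquiv.refl ℝ E).symm : E →L[ℝ] E)‖₊⁻¹ := by
    rcases subsingleton_or_nontrivial E with h | h
    · exact Or.inl h
    · right
      have : ‖((ContinuousLinearEquiv.refl ℝ E).symm : E →L[ℝ] E)‖₊ = 1 := by
        have : ‖(ContinuousLinearMap.id ℝ E)‖ = 1 := ContinuousLinearMap.norm_id
        exact NNReal.eq this
      rw [this, inv_one]
      rw [one_div]
      exact NNReal.coe_lt_coe.mp (by push_cast; norm_num)
  let e := happ.toHomeomorph f hN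
  have he : ∀ y, e y = f y := fun y => rfl
  have hf : ContDiff ℝ ∞ f := contDiff_id.add (hΦ.clm_apply contDiff_const)
  have hd : ∀ y, DifferentiableAt ℝ (fun y => Φ y μ) y := fun y =>
    ((hΦ.clm_apply (contDiff_const (c := μ))).differentiable (by simp)).differentiableAt
  have hD : ∀ y, ‖fderiv ℝ (fun y => Φ y μ) y‖ ≤ 1 / 2 := by
    intro y
    have hL : LipschitzWith (1 / 2 : NNReal) (fun y => Φ y μ) := by
      apply LipschitzWith.of_dist_le_mul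
      intro x y
      rw [dist_eq_norm, dist_eq_norm]
      have := hlip x y
      simpa using this
    have := norm_fderiv_le_of_lipschitz ℝ hL (x₀ := y)
    simpa using this
  have hu : ∀ y, ∃ L : E ≃L[ℝ] E, HasFDerivAt e (L : E →L[ℝ] E) y := by
    intro y
    set D := fderiv ℝ (fun y => Φ y μ) y with hDdef
    have h1 : ‖-D‖ < 1 := by
      rw [norm_neg]
      exact lt_of_le_of_lt (hD y) (by norm_num)
    let u : (E →L[ℝ] E)ˣ := Units.oneSub (-D) h1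
    refine ⟨ContinuousLinearEquiv.unitsEquiv ℝ E u, ?_⟩
    have h2 : ((ContinuousLinearEquiv.unitsEquiv ℝ E u : E ≃L[ℝ] E) : E →L[ℝ] E) =
        ContinuousLinearMap.id ℝ E + D := by
      ext v
      show (u : E →L[ℝ] E) v = v + D v
      have : (u : E →L[ℝ] E) = 1 - -D := rfl
      rw [this, sub_neg_eq_add]
      rfl
    rw [h2]
    exact (hasFDerivAt_id y).add (hd y).hasFDerivAt
  choose L hL using hu
  refine ⟨e.toEquiv, fun y => rfl, ?_, ?_⟩
  · exact hf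
  · exact e.contDiff_symm hL (by exact hf)

end euclidean

section manifold

variable {P E : Type*} [NormedAddCommGroup P] [NormedSpace ℝ P]
  [NormedAddCommGroup E] [NormedSpace ℝ E]
  {M : Type*} [TopologicalSpace M] [ChartedSpace E M]

open Classical in
/-- transport of a self-map of `E` to the manifold through a chart -/
noncomputable def lift (φ : OpenPartialHomeomorph M E) (h : E → E) (x : M) : M :=
  if x ∈ φ.source then φ.symm (h (φ x)) else x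

variable {φ : OpenPartialHomeomorph M E} {S : Set E}

omit [NormedSpace ℝ E] [ChartedSpace E M] in
theorem lift_of_not_mem {h : E → E} (hh : ∀ y ∉ S, h y = y) {x : M}
    (hx : x ∉ φ.symm '' S) : lift φ h x = x := by
  unfold lift
  split_ifs with h1
  · rw [hh, φ.left_inv h1]
    intro h2
    exact hx ⟨φ x, h2, φ.left_inv h1⟩
  · rfl

omit [NormedSpace ℝ E] [ChartedSpace E M] in
theorem lift_mem {h : E → E} (hh' : ∀ y ∈ φ.target, h y ∈ φ.target) {x : M}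
    (hx : x ∈ φ.source) : lift φ h x ∈ φ.source ∧ φ (lift φ h x) = h (φ x) := by
  unfold lift
  rw [if_pos hx]
  exact ⟨φ.map_target (hh' _ (φ.map_source hx)), φ.right_inv (hh' _ (φ.map_source hx))⟩

omit [NormedSpace ℝ E] [ChartedSpace E M] in
theorem lift_lift {h g : E → E} (hg' : ∀ y ∈ φ.target, g y ∈ φ.target)
    (hgh : ∀ y, h (g y) = y) (x : M) : lift φ h (lift φ g x) = x := by
  by_cases hx : x ∈ φ.source
  · obtain ⟨h1, h2⟩ := lift_mem hg' hx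
    have : lift φ h (lift φ g x) = φ.symm (h (φ (lift φ g x))) := by
      rw [lift, if_pos h1]
    rw [this, h2, hgh, φ.left_inv hx]
  · have h1 : lift φ g x = x := by rw [lift, if_neg hx]
    rw [h1, lift, if_neg hx]

/-- smoothness of lifted families -/
theorem lift_contMDiffAt [T2Space M] (hφ : φ ∈ IsManifold.maximalAtlas 𝓘(ℝ, E) ∞ M)
    (hS : S ⊆ φ.target) (hSc : IsCompact S) {h : P → E → E} {μ₀ : P}
    (hh : ∀ μ, ∀ y ∉ S, h μ y = y) (hh' : ∀ y ∈ φ.target, h μ₀ y ∈ φ.target)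
    (hsm : ∀ y, ContDiffAt ℝ ∞ (fun p : P × E => h p.1 p.2) (μ₀, y)) (x : M) :
    ContMDiffAt (𝓘(ℝ, P).prod 𝓘(ℝ, E)) 𝓘(ℝ, E) ∞ (fun p : P × M => lift φ (h p.1) p.2)
      (μ₀, x) := by
  by_cases hx : x ∈ φ.source
  · have h1 : ContMDiffAt (𝓘(ℝ, P).prod 𝓘(ℝ, E)) 𝓘(ℝ, P) ∞ (fun p : P × M => p.1) (μ₀, x) :=
      contMDiffAt_fst
    have h2 : ContMDiffAt (𝓘(ℝ, P).prod 𝓘(ℝ, E)) 𝓘(ℝ, E) ∞ (fun p : P × M => φ p.2) (μ₀, x) :=
      ContMDiffAt.comp (μ₀, x) (g := φ) (contMDiffAt_of_mem_maximalAtlas hφ hx) contMDiffAt_snd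
    have h3 : ContMDiffAt (𝓘(ℝ, P).prod 𝓘(ℝ, E)) 𝓘(ℝ, P × E) ∞
        (fun p : P × M => (p.1, φ p.2)) (μ₀, x) := h1.prodMk_space h2
    have h4 : ContMDiffAt (𝓘(ℝ, P).prod 𝓘(ℝ, E)) 𝓘(ℝ, E) ∞
        (fun p : P × M => h p.1 (φ p.2)) (μ₀, x) :=
      ContMDiffAt.comp (μ₀, x) (g := fun p : P × E => h p.1 p.2) (hsm (φ x)).contMDiffAt h3
    have h5 : ContMDiffAt (𝓘(ℝ, P).prod 𝓘(ℝ, E)) 𝓘(ℝ, E) ∞
        (fun p : P × M => φ.symm (h p.1 (φ p.2))) (μ₀, x) :=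
      ContMDiffAt.comp (μ₀, x) (g := φ.symm)
        (contMDiffAt_symm_of_mem_maximalAtlas hφ (hh' _ (φ.map_source hx))) h4
    refine h5.congr_of_eventuallyEq ?_
    have : ∀ᶠ p : P × M in 𝓝 (μ₀, x), p.2 ∈ φ.source :=
      continuousAt_snd.eventually (φ.open_source.mem_nhds hx)
    filter_upwards [this] with p hp
    show lift φ (h p.1) p.2 = _
    rw [lift, if_pos hp]
  · have hK : IsCompact (φ.symm '' S) := hSc.image_of_continuousOn (φ.continuousOn_symm.mono hS)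
    have hxK : x ∈ (φ.symm '' S)ᶜ := by
      rintro ⟨y, hy, rfl⟩
      exact hx (φ.map_target (hS hy))
    have hev : ∀ᶠ p : P × M in 𝓝 (μ₀, x), p.2 ∈ (φ.symm '' S)ᶜ :=
      continuousAt_snd.eventually (hK.isClosed.isOpen_compl.mem_nhds hxK)
    have h1 : ContMDiffAt (𝓘(ℝ, P).prod 𝓘(ℝ, E)) 𝓘(ℝ, E) ∞ (fun p : P × M => p.2) (μ₀, x) :=
      contMDiffAt_snd
    refine h1.congr_of_eventuallyEq ?_
    filter_upwards [hev] with p hp
    exact lift_of_not_mem (hh p.1) hp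

/-- A single lifted map is smooth. -/
theorem lift_contMDiff [T2Space M] (hφ : φ ∈ IsManifold.maximalAtlas 𝓘(ℝ, E) ∞ M)
    (hS : S ⊆ φ.target) (hSc : IsCompact S) {h : E → E}
    (hh : ∀ y ∉ S, h y = y) (hh' : ∀ y ∈ φ.target, h y ∈ φ.target)
    (hsm : ContDiff ℝ ∞ h) : ContMDiff 𝓘(ℝ, E) 𝓘(ℝ, E) ∞ (lift φ h) := by
  intro x
  have h1 := lift_contMDiffAt (P := ℝ) hφ hS hSc (h := fun _ => h) (μ₀ := 0) (fun _ => hh) hh'
    (fun y => hsm.contDiffAt.comp _ contDiffAt_snd) x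
  have h2 : ContMDiffAt 𝓘(ℝ, E) (𝓘(ℝ, ℝ).prod 𝓘(ℝ, E)) ∞ (fun x : M => ((0 : ℝ), x)) x :=
    contMDiffAt_const.prodMk contMDiffAt_id
  exact ContMDiffAt.comp x (g := fun p : ℝ × M => lift φ h p.2) h1 h2

/-- **Local perturbations of the identity.** -/
theorem exists_family [CompleteSpace E] [T2Space M]
    (hφ : φ ∈ IsManifold.maximalAtlas 𝓘(ℝ, E) ∞ M) {Φ : E → P →L[ℝ] E} (hΦ : ContDiff ℝ ∞ Φ)
    (hS : S ⊆ φ.target) (hSc : IsCompact S) (hΦS : ∀ y ∉ S, Φ y = 0) (r : ℕ∞) :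
    ∃ τ : P → M ≃ₘ^r⟮𝓘(ℝ, E), 𝓘(ℝ, E)⟯ M, (∀ x, τ 0 x = x) ∧ IsFam (E := E) r (fun μ => ⇑(τ μ)) ∧
      (∀ μ x, x ∉ φ.symm '' S → τ μ x = x) ∧
      ∀ᶠ μ in 𝓝 (0 : P), ∀ x ∈ φ.source, τ μ x ∈ φ.source ∧ φ (τ μ x) = φ x + Φ (φ x) μ := by
  classical
  have hr : ((r : ℕ∞) : WithTop ℕ∞) ≤ ∞ := by exact_mod_cast le_top
  have hs : HasCompactSupport Φ := by
    apply HasCompactSupport.intro hSc
    exact hΦS
  obtain ⟨δ, hδ, hloc⟩ := exists_local_diffeo hΦ hs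
  choose! e he1 he2 he3 using hloc
  have hfix : ∀ μ, ‖μ‖ < δ → ∀ y ∉ S, e μ y = y := by
    intro μ hμ y hy
    rw [he1 μ hμ, hΦS y hy]
    simp
  have hfix' : ∀ μ, ‖μ‖ < δ → ∀ y ∉ S, (e μ).symm y = y := by
    intro μ hμ y hy
    rw [Equiv.symm_apply_eq, hfix μ hμ y hy]
  have htar : ∀ μ, ‖μ‖ < δ → ∀ y ∈ φ.target, e μ y ∈ φ.target := by
    intro μ hμ y hy
    by_cases h : e μ y ∈ S
    · exact hS h
    · have h1 := hfix' μ hμ _ h
      rw [Equiv.symm_apply_apply] at h1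
      rwa [← h1]
  have htar' : ∀ μ, ‖μ‖ < δ → ∀ y ∈ φ.target, (e μ).symm y ∈ φ.target := by
    intro μ hμ y hy
    by_cases h : (e μ).symm y ∈ S
    · exact hS h
    · have h1 := hfix μ hμ _ h
      rw [Equiv.apply_symm_apply] at h1
      rwa [← h1]
  let τ : P → M ≃ₘ^r⟮𝓘(ℝ, E), 𝓘(ℝ, E)⟯ M := fun μ =>
    if hμ : ‖μ‖ < δ then
      { toFun := lift φ (e μ)
        invFun := lift φ (e μ).symm
        left_inv := lift_lift (htar μ hμ) (fun y => (e μ).symm_apply_apply y)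
        right_inv := lift_lift (htar' μ hμ) (fun y => (e μ).apply_symm_apply y)
        contMDiff_toFun :=
          (lift_contMDiff hφ hS hSc (hfix μ hμ) (htar μ hμ) (he2 μ hμ)).of_le hr
        contMDiff_invFun :=
          (lift_contMDiff hφ hS hSc (hfix' μ hμ) (htar' μ hμ) (he3 μ hμ)).of_le hr }
    else Diffeomorph.refl 𝓘(ℝ, E) M r
  have hτ : ∀ μ, ‖μ‖ < δ → ∀ x, τ μ x = lift φ (e μ) x := by
    intro μ hμ x
    show (if hμ : ‖μ‖ < δ then _ else _ : M ≃ₘ^r⟮𝓘(ℝ, E), 𝓘(ℝ, E)⟯ M) x = _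
    rw [dif_pos hμ]
    rfl
  have hτ' : ∀ μ, ¬ ‖μ‖ < δ → ∀ x, τ μ x = x := by
    intro μ hμ x
    show (if hμ : ‖μ‖ < δ then _ else _ : M ≃ₘ^r⟮𝓘(ℝ, E), 𝓘(ℝ, E)⟯ M) x = _
    rw [dif_neg hμ]
    rfl
  have hball : ∀ᶠ μ in 𝓝 (0 : P), ‖μ‖ < δ := by
    have := Metric.ball_mem_nhds (0 : P) hδ
    filter_upwards [this] with μ hμ
    simpa using hμ
  refine ⟨τ, ?_, ?_, ?_, ?_⟩
  · intro x
    rw [hτ 0 (by simpa using hδ)]
    unfold lift
    split_ifs with hx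
    · rw [he1 0 (by simpa using hδ), map_zero, add_zero, φ.left_inv hx]
    · rfl
  · intro x
    have h1 := lift_contMDiffAt (P := P) hφ hS hSc (h := fun μ y => y + Φ y μ) (μ₀ := 0)
      (fun μ y hy => by rw [hΦS y hy]; simp) (fun y hy => by simpa using hy) (fun y => by
        have h2 : ContDiff ℝ ∞ (fun p : P × E => p.2 + Φ p.2 p.1) :=
          contDiff_snd.add ((hΦ.comp contDiff_snd).clm_apply contDiff_fst)
        exact h2.contDiffAt) x
    have h2 : ContMDiffAt (𝓘(ℝ, P).prod 𝓘(ℝ, E)) 𝓘(ℝ, E) ∞ (fun p : P × M => τ p.1 p.2)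
        (0, x) := by
      refine h1.congr_of_eventuallyEq ?_
      have : ∀ᶠ p : P × M in 𝓝 ((0 : P), x), ‖p.1‖ < δ :=
        (continuous_fst.tendsto ((0 : P), x)).eventually hball
      filter_upwards [this] with p hp
      show τ p.1 p.2 = lift φ (fun y => y + Φ y p.1) p.2
      rw [hτ p.1 hp]
      congr 1
      funext y
      exact he1 p.1 hp y
    exact h2.of_le hr
  · intro μ x hx
    by_cases hμ : ‖μ‖ < δ
    · rw [hτ μ hμ]
      exact lift_of_not_mem (hfix μ hμ) hx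
    · exact hτ' μ hμ x
  · filter_upwards [hball] with μ hμ x hx
    rw [hτ μ hμ]
    obtain ⟨h1, h2⟩ := lift_mem (htar μ hμ) hx
    exact ⟨h1, by rw [h2, he1 μ hμ]⟩

end manifold

end Pool.Agent.AxA
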