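import Pool.Agent.AxA.Defs

/-!
# Cycles of periodic orbits in homeomorphisms with trivial recurrence
-/

set_option autoImplicit false

open Filter Topology Set TopologicalSpace

namespace Pool.Agent.AxA

section defs

variable {X : Type*} [TopologicalSpace X]

/-- the forward orbit -/
def orb (f : X → X) (p : X) : Set X := Set.range fun i : ℕ => f^[i] p

end defs

section basic

variable {X : Type*} {f : X → X}

theorem mem_orb_self (p : X) : p ∈ orb f p := ⟨0, rfl⟩

theorem orb_finite {p : X} (hp : p ∈ Function.periodicPts f) : (orb f p).Finite := by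
  obtain ⟨n, hn, hpn⟩ := hp
  refine (Set.finite_range fun i : Fin n => f^[i] p).subset ?_
  rintro _ ⟨i, rfl⟩
  exact ⟨⟨i % n, Nat.mod_lt _ hn⟩, hpn.iterate_mod_apply i⟩

theorem mem_orb_trans {p q x : X} (h1 : q ∈ orb f p) (h2 : x ∈ orb f q) : x ∈ orb f p := by
  obtain ⟨i, rfl⟩ := h1
  obtain ⟨j, rfl⟩ := h2
  exact ⟨j + i, Function.iterate_add_apply _ _ _ _⟩

theorem mem_orb_symm {p q : X} (hp : p ∈ Function.periodicPts f) (h : q ∈ orb f p) :
    p ∈ orb f q := by
  obtain ⟨n, hn, hpn⟩ := hp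
  obtain ⟨i, rfl⟩ := h
  refine ⟨n * i - i, ?_⟩
  show f^[n * i - i] (f^[i] p) = p
  rw [← Function.iterate_add_apply, Nat.sub_add_cancel (Nat.le_mul_of_pos_left _ hn)]
  exact hpn.mul_const i

theorem orb_eq_of_mem {p q : X} (hp : p ∈ Function.periodicPts f) (h : q ∈ orb f p) :
    orb f q = orb f p := by
  apply Set.Subset.antisymm
  · exact fun x hx => mem_orb_trans h hx
  · exact fun x hx => mem_orb_trans (mem_orb_symm hp h) hx

theorem periodic_of_mem_orb {p q : X} (hp : p ∈ Function.periodicPts f) (h : q ∈ orb f p) :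
    q ∈ Function.periodicPts f := by
  obtain ⟨n, hn, hpn⟩ := hp
  obtain ⟨i, rfl⟩ := h
  refine ⟨n, hn, ?_⟩
  show f^[n] (f^[i] p) = f^[i] p
  rw [← Function.iterate_add_apply, Nat.add_comm, Function.iterate_add_apply]
  congr 1

end basic

section metric

variable {X : Type*} [MetricSpace X] [CompactSpace X] (f : X ≃ₜ X)

/-- an isolating neighbourhood of the orbit of `p` -/
structure Isol (p : X) (U : Set X) : Prop where
  closed : IsClosed U
  nhd : ∀ x ∈ orb f p, U ∈ 𝓝 x
  isol : ∀ x, (∀ i : ℕ, f^[i] x ∈ U) → (∀ i : ℕ, f.symm^[i] x ∈ U) → x ∈ orb f p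

/-- approximate chain transitivity -/
def ChTe (ε : ℝ) (K : Set X) : Prop :=
  ∀ x ∈ K, ∀ y ∈ K, ∃ n > 0, ∃ z : ℕ → X, (∀ i < n, dist (f (z i)) (z (i + 1)) < ε) ∧
    dist (z 0) x < ε ∧ dist (z n) y < ε ∧ ∀ i ≤ n, ∃ w ∈ K, dist (z i) w < ε

/-- chain transitive sets -/
def ChT (K : Set X) : Prop := ∀ ε > 0, ChTe f ε K

variable {f}

theorem chT_of_approx {K : NonemptyCompacts X}
    (h : ∀ ε > 0, ∃ K' : NonemptyCompacts X, dist K K' < ε ∧ ChTe f ε (K' : Set X)) :
    ChT f (K : Set X) := by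
  intro ε hε x hx y hy
  obtain ⟨K', hd, hK'⟩ := h (ε / 2) (by positivity)
  rw [Metric.NonemptyCompacts.dist_eq] at hd
  have hfin : Metric.hausdorffEDist (K : Set X) K' ≠ ⊤ :=
    Metric.hausdorffEDist_ne_top_of_nonempty_of_bounded K.nonempty K'.nonempty
      (Metric.isBounded_of_compactSpace) (Metric.isBounded_of_compactSpace)
  obtain ⟨x', hx', hxx'⟩ := Metric.exists_dist_lt_of_hausdorffDist_lt hx hd hfin
  obtain ⟨y', hy', hyy'⟩ := Metric.exists_dist_lt_of_hausdorffDist_lt hy hd hfin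
  obtain ⟨n, hn, z, h1, h2, h3, h4⟩ := hK' x' hx' y' hy'
  refine ⟨n, hn, z, fun i hi => (h1 i hi).trans (by linarith), ?_, ?_, ?_⟩
  · calc dist (z 0) x ≤ dist (z 0) x' + dist x' x := dist_triangle _ _ _
      _ < ε := by rw [dist_comm x' x]; linarith
  · calc dist (z n) y ≤ dist (z n) y' + dist y' y := dist_triangle _ _ _
      _ < ε := by rw [dist_comm y' y]; linarith
  · intro i hi
    obtain ⟨w', hw', hzw'⟩ := h4 i hi
    obtain ⟨w, hw, hww'⟩ := Metric.exists_dist_lt_of_hausdorffDist_lt' hw' hd hfin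
    refine ⟨w, hw, ?_⟩
    calc dist (z i) w ≤ dist (z i) w' + dist w' w := dist_triangle _ _ _
      _ < ε := by rw [dist_comm w' w]; linarith

theorem isClosed_chT : IsClosed {K : NonemptyCompacts X | ChT f (K : Set X)} := by
  rw [← closure_subset_iff_isClosed]
  intro K hK
  apply chT_of_approx
  intro ε hε
  obtain ⟨K', hK', hd⟩ := Metric.mem_closure_iff.mp hK ε hε
  exact ⟨K', hd, hK' ε hε⟩

omit [CompactSpace X] in
theorem ChT.map_mem {K : Set X} (hK : ChT f K) (hKc : IsClosed K) {x : X} (hx : x ∈ K) :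
    f x ∈ K := by
  rw [← hKc.closure_eq, Metric.mem_closure_iff]
  intro ε hε
  obtain ⟨δ, hδ, hδ'⟩ := Metric.continuous_iff.mp f.continuous x (ε / 3) (by positivity)
  obtain ⟨n, hn, z, h1, h2, h3, h4⟩ := hK (min δ (ε / 3)) (by positivity) x hx x hx
  obtain ⟨w, hw, hzw⟩ := h4 1 hn
  refine ⟨w, hw, ?_⟩
  have e1 := hδ' (z 0) (lt_of_lt_of_le h2 (min_le_left _ _))
  have e2 := lt_of_lt_of_le (h1 0 hn) (min_le_right _ _)
  have e3 := lt_of_lt_of_le hzw (min_le_right _ _)
  rw [dist_comm] at e1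
  rw [zero_add] at e2
  calc dist (f x) w ≤ dist (f x) (f (z 0)) + dist (f (z 0)) (z 1) + dist (z 1) w :=
        dist_triangle4 _ _ _ _
    _ < ε := by linarith

omit [CompactSpace X] in
theorem ChT.symm_mem {K : Set X} (hK : ChT f K) (hKc : IsClosed K) {x : X} (hx : x ∈ K) :
    f.symm x ∈ K := by
  rw [← hKc.closure_eq, Metric.mem_closure_iff]
  intro ε hε
  obtain ⟨δ, hδ, hδ'⟩ := Metric.continuous_iff.mp f.symm.continuous x (ε / 2) (by positivity)
  obtain ⟨n, hn, z, h1, h2, h3, h4⟩ := hK (min (δ / 2) (ε / 2)) (by positivity) x hx x hx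
  obtain ⟨w, hw, hzw⟩ := h4 (n - 1) (Nat.sub_le _ _)
  refine ⟨w, hw, ?_⟩
  have e1 := lt_of_lt_of_le (h1 (n - 1) (by omega)) (min_le_left _ _)
  rw [Nat.sub_add_cancel hn] at e1
  have e2 := lt_of_lt_of_le h3 (min_le_left _ _)
  have e3 : dist (f (z (n - 1))) x < δ := by
    calc dist (f (z (n - 1))) x ≤ dist (f (z (n - 1))) (z n) + dist (z n) x :=
          dist_triangle _ _ _
      _ < δ := by linarith
  have e4 := hδ' _ e3
  rw [f.symm_apply_apply, dist_comm] at e4
  have e5 := lt_of_lt_of_le hzw (min_le_right _ _)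
  calc dist (f.symm x) w ≤ dist (f.symm x) (z (n - 1)) + dist (z (n - 1)) w :=
        dist_triangle _ _ _
    _ < ε := by linarith

omit [CompactSpace X] in
theorem ChT.iterate_mem {K : Set X} (hK : ChT f K) (hKc : IsClosed K) {x : X} (hx : x ∈ K)
    (i : ℕ) : f^[i] x ∈ K := by
  induction i with
  | zero => exact hx
  | succ i ih => rw [Function.iterate_succ_apply']; exact hK.map_mem hKc ih

omit [CompactSpace X] in
theorem ChT.symm_iterate_mem {K : Set X} (hK : ChT f K) (hKc : IsClosed K) {x : X}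
    (hx : x ∈ K) (i : ℕ) : f.symm^[i] x ∈ K := by
  induction i with
  | zero => exact hx
  | succ i ih => rw [Function.iterate_succ_apply']; exact hK.symm_mem hKc ih

/-- the omega limit set -/
def omega (f : X → X) (y : X) : Set X := {x | MapClusterPt x atTop fun j => f^[j] y}

omit [CompactSpace X] in
theorem isClosed_omega (f : X → X) (y : X) : IsClosed (omega f y) := isClosed_setOfPred_clusterPt

theorem omega_nonempty (f : X → X) (y : X) : (omega f y).Nonempty := by
  obtain ⟨x, -, hx⟩ := isCompact_univ.exists_mapClusterPt (f := atTop)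
    (u := fun j => f^[j] y) (by simp)
  exact ⟨x, hx⟩

theorem omega_attracts (f : X → X) (y : X) {ε : ℝ} (hε : 0 < ε) :
    ∀ᶠ j in atTop, ∃ w ∈ omega f y, dist (f^[j] y) w < ε := by
  by_contra hcon
  rw [Filter.not_eventually] at hcon
  -- a cluster point at distance at least `ε`
  have hcl : IsClosed {x | ∀ w ∈ omega f y, ε ≤ dist x w} := by
    rw [Set.ofPred_forall]
    refine isClosed_iInter fun w => ?_
    rw [Set.ofPred_forall]
    refine isClosed_iInter fun _ => ?_
    exact isClosed_le continuous_const (by fun_prop)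
  have hfr : ∃ᶠ j in atTop, f^[j] y ∈ {x | ∀ w ∈ omega f y, ε ≤ dist x w} := by
    refine hcon.mono fun j hj w hw => ?_
    push Not at hj
    exact hj w hw
  obtain ⟨x, hx, hxc⟩ := hcl.isCompact.exists_mapClusterPt_of_frequently hfr
  have h1 : x ∈ omega f y := hxc
  have h2 := hx x h1
  rw [dist_self] at h2
  linarith

omit [CompactSpace X] in
theorem omega_frequently {f : X → X} {x y : X} (hx : x ∈ omega f y) {ε : ℝ} (hε : 0 < ε) (N : ℕ) :
    ∃ j ≥ N, dist (f^[j] y) x < ε := by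
  have h1 : ∃ᶠ j in atTop, f^[j] y ∈ Metric.ball x ε :=
    (mapClusterPt_iff_frequently.mp hx) _ (Metric.ball_mem_nhds x hε)
  obtain ⟨j, hj, hj'⟩ := Filter.frequently_atTop.mp h1 N
  exact ⟨j, hj, hj'⟩

theorem chT_omega (y : X) : ChT f (omega f y) := by
  intro ε hε x hx w hw
  obtain ⟨N, hN⟩ := Filter.eventually_atTop.mp (omega_attracts f y hε)
  obtain ⟨j₁, hj₁, hd₁⟩ := omega_frequently hx hε N
  obtain ⟨j₂, hj₂, hd₂⟩ := omega_frequently hw hε (j₁ + 1)
  refine ⟨j₂ - j₁, by omega, fun i => f^[j₁ + i] y, ?_, hd₁, ?_, ?_⟩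
  · intro i _
    show dist (f (f^[j₁ + i] y)) (f^[j₁ + i + 1] y) < ε
    rw [Function.iterate_succ_apply', dist_self]
    exact hε
  · show dist (f^[j₁ + (j₂ - j₁)] y) w < ε
    rw [Nat.add_sub_cancel' (by omega)]
    exact hd₂
  · intro i _
    exact hN _ (by omega)

/-- the omega limit set as a compact set -/
def omegaK (f : X → X) (y : X) : NonemptyCompacts X :=
  ⟨⟨omega f y, (isClosed_omega f y).isCompact⟩, omega_nonempty f y⟩

/-- a periodic orbit as a compact set -/
noncomputable def orbK (f : X → X) (p : X) (hp : p ∈ Function.periodicPts f) :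
    NonemptyCompacts X :=
  ⟨⟨orb f p, (orb_finite hp).isCompact⟩, ⟨p, mem_orb_self p⟩⟩

omit [CompactSpace X] in
theorem coe_orbK (f : X → X) (p : X) (hp : p ∈ Function.periodicPts f) :
    (orbK f p hp : Set X) = orb f p := rfl

omit [CompactSpace X] in
theorem chT_orb {p : X} (hp : p ∈ Function.periodicPts f) : ChT f (orb f p) := by
  intro ε hε x hx y hy
  have hy' : y ∈ orb f x := by rwa [orb_eq_of_mem hp hx]
  obtain ⟨i, rfl⟩ := hy'
  obtain ⟨n, hn, hxn⟩ := periodic_of_mem_orb hp hx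
  refine ⟨i + n, by omega, fun j => f^[j] x, ?_, ?_, ?_, ?_⟩
  · intro j _
    show dist (f (f^[j] x)) (f^[j + 1] x) < ε
    rw [Function.iterate_succ_apply', dist_self]
    exact hε
  · show dist x x < ε
    rw [dist_self]; exact hε
  · show dist (f^[i + n] x) (f^[i] x) < ε
    rw [Function.iterate_add_apply, hxn, dist_self]
    exact hε
  · intro j _
    refine ⟨f^[j] x, mem_orb_trans hx ⟨j, rfl⟩, ?_⟩
    rw [dist_self]; exact hε

omit [CompactSpace X] in
theorem Isol.periodic_mem {p : X} {U : Set X} (hU : Isol f p U) {x : X}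
    (hx : x ∈ Function.periodicPts f) {n : ℕ} (h : ∀ j ≥ n, f^[j] x ∈ U) : x ∈ orb f p := by
  obtain ⟨m, hm, hxm⟩ := hx
  have hxm' : ∀ k i : ℕ, f^[m * k + i] x = f^[i] x := by
    intro k i
    rw [Nat.add_comm, Function.iterate_add_apply, (hxm.mul_const k : f^[m * k] x = x)]
  have hall : ∀ i, f^[i] x ∈ U := by
    intro i
    rw [← hxm' n i]
    apply h
    nlinarith [Nat.mul_le_mul_right n hm]
  refine hU.isol x hall fun i => ?_
  have h2 : f.symm^[i] x = f^[m * i - i] x := by
    have h3 : f^[i] (f^[m * i - i] x) = x := by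
      rw [← Function.iterate_add_apply, Nat.add_sub_cancel' (Nat.le_mul_of_pos_left _ hm)]
      exact hxm.mul_const i
    conv_lhs => rw [← h3]
    exact Function.LeftInverse.iterate (f := f) (g := f.symm) f.symm_apply_apply i _
  rw [h2]
  exact hall _

theorem ChT.eq_orb {K : NonemptyCompacts X} (hK : ChT f (K : Set X)) {p : X}
    (hp : p ∈ Function.periodicPts f) {U : Set X} (hU : Isol f p U) (hKU : (K : Set X) ⊆ U) :
    K = orbK f p hp := by
  have hKc : IsClosed (K : Set X) := K.isCompact.isClosed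
  have hsub : (K : Set X) ⊆ orb f p := fun x hx => hU.isol x
    (fun i => hKU (hK.iterate_mem hKc hx i)) (fun i => hKU (hK.symm_iterate_mem hKc hx i))
  apply NonemptyCompacts.ext
  apply Set.Subset.antisymm hsub
  obtain ⟨x, hx⟩ := K.nonempty
  intro y hy
  have hy' : y ∈ orb f x := by rwa [orb_eq_of_mem hp (hsub hx)]
  obtain ⟨i, rfl⟩ := hy'
  exact hK.iterate_mem hKc hx i

/-- connection between periodic orbits -/
def Conn (f : X ≃ₜ X) (p q : X) : Prop :=
  ∃ y, y ∉ Function.periodicPts f ∧ Tendsto (fun j => Metric.infDist (f.symm^[j] y) (orb f p))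
    atTop (𝓝 0) ∧ Tendsto (fun j => Metric.infDist (f^[j] y) (orb f q)) atTop (𝓝 0)

end metric

end Pool.Agent.AxA
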