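import Pool.Agent.AxA.Topo

/-!
# Minimal chain transitive sets and cycles
-/

set_option autoImplicit false

open Filter Topology Set TopologicalSpace

namespace Pool.Agent.AxA

variable {X : Type*} [MetricSpace X] [CompactSpace X] {f : X ≃ₜ X}

/-- chain transitive sets which are not periodic orbits -/
def KK (f : X ≃ₜ X) : Set (NonemptyCompacts X) :=
  {K | ChT f (K : Set X) ∧ ∀ p ∈ Function.periodicPts f, (K : Set X) ≠ orb f p}

/-- the set of periodic orbits -/
def OO (f : X ≃ₜ X) : Set (NonemptyCompacts X) :=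
  {K | ∃ p ∈ Function.periodicPts f, (K : Set X) = orb f p}

omit [CompactSpace X] in
theorem OO_chT {K : NonemptyCompacts X} (hK : K ∈ OO f) : ChT f (K : Set X) := by
  obtain ⟨p, hp, h⟩ := hK
  rw [h]
  exact chT_orb hp

omit [CompactSpace X] in
theorem nhd_of_orb {K : NonemptyCompacts X} {p : X} {U : Set X} (hU : Isol f p U)
    (hK : (K : Set X) = orb f p) : {L : NonemptyCompacts X | (L : Set X) ⊆ interior U} ∈ 𝓝 K := by
  apply (NonemptyCompacts.isOpen_subsets_of_isOpen isOpen_interior).mem_nhds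
  show (K : Set X) ⊆ interior U
  rw [hK]
  exact fun x hx => mem_interior_iff_mem_nhds.mpr (hU.nhd x hx)

theorem isClosed_KK (hI : ∀ p ∈ Function.periodicPts f, ∃ U, Isol f p U) : IsClosed (KK f) := by
  rw [← closure_subset_iff_isClosed]
  intro K hK
  have h1 : ChT f (K : Set X) := by
    have : closure (KK f) ⊆ {K : NonemptyCompacts X | ChT f (K : Set X)} :=
      closure_minimal (fun K hK => hK.1) isClosed_chT
    exact this hK
  refine ⟨h1, fun p hp hKp => ?_⟩
  obtain ⟨U, hU⟩ := hI p hp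
  obtain ⟨L, hL1, hL2⟩ := mem_closure_iff_nhds.mp hK _ (nhd_of_orb hU hKp)
  have h2 := hL2.1.eq_orb hp hU (hL1.trans interior_subset)
  exact hL2.2 p hp (by rw [h2]; rfl)

theorem acc_mem_KK (hI : ∀ p ∈ Function.periodicPts f, ∃ U, Isol f p U)
    {S : Set (NonemptyCompacts X)} (hS : S ⊆ OO f) {L : NonemptyCompacts X}
    (hL : AccPt L (𝓟 S)) : L ∈ KK f := by
  have h1 : ChT f (L : Set X) := by
    have h2 : L ∈ closure S := mem_closure_iff_clusterPt.mpr hL.clusterPt
    have : closure S ⊆ {K : NonemptyCompacts X | ChT f (K : Set X)} :=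
      closure_minimal (fun K hK => OO_chT (hS hK)) isClosed_chT
    exact this h2
  refine ⟨h1, fun p hp hKp => ?_⟩
  obtain ⟨U, hU⟩ := hI p hp
  obtain ⟨K, ⟨hK1, hK2⟩, hK3⟩ := accPt_iff_nhds.mp hL _ (nhd_of_orb hU hKp)
  have h2 := (OO_chT (hS hK2)).eq_orb hp hU (hK1.trans interior_subset)
  apply hK3
  rw [h2]
  apply NonemptyCompacts.ext
  rw [hKp]; rfl

theorem KK_nonempty_of_infinite (hI : ∀ p ∈ Function.periodicPts f, ∃ U, Isol f p U)
    (hinf : (Function.periodicPts f).Infinite) : (KK f).Nonempty := by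
  have h1 : (OO f).Infinite := by
    intro hfin
    apply hinf
    have : Function.periodicPts f ⊆ ⋃ K ∈ OO f, (K : Set X) := by
      intro p hp
      exact Set.mem_iUnion₂.mpr ⟨orbK f p hp, ⟨p, hp, rfl⟩, mem_orb_self p⟩
    refine (Set.Finite.biUnion hfin ?_).subset this
    rintro K ⟨p, hp, hK⟩
    rw [hK]
    exact orb_finite hp
  obtain ⟨L, hL⟩ := h1.exists_accPt_principal
  exact ⟨L, acc_mem_KK hI (Subset.refl _) hL⟩

theorem KK_nonempty_of_nonwandering {y : X} (hy : y ∈ nonwandering f)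
    (hyp : y ∉ Function.periodicPts f) : (KK f).Nonempty := by
  have h1 : ∀ k : ℕ, ∃ z ∈ Metric.ball y (1 / ((k : ℝ) + 1)), ∃ n > 0,
      f^[n] z ∈ Metric.ball y (1 / ((k : ℝ) + 1)) := by
    intro k
    obtain ⟨n, hn, _, ⟨z, hz, rfl⟩, hz'⟩ := hy (Metric.ball y (1 / ((k : ℝ) + 1)))
      (Metric.ball_mem_nhds _ (by positivity))
    exact ⟨z, hz, n, hn, hz'⟩
  choose z hz n hn hz' using h1
  let S : ℕ → NonemptyCompacts X := fun k =>
    ⟨⟨(fun i => f^[i] (z k)) '' Set.Iio (n k), ((Set.finite_Iio (n k)).image _).isCompact⟩,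
      ⟨z k, 0, hn k, rfl⟩⟩
  have hS : ∀ k, (S k : Set X) = (fun i => f^[i] (z k)) '' Set.Iio (n k) := fun k => rfl
  have hSch : ∀ k : ℕ, ChTe f (2 / ((k : ℝ) + 1)) (S k : Set X) := by
    intro k
    have hpos : (0:ℝ) < 2 / ((k : ℝ) + 1) := by positivity
    let w : ℕ → X := fun l => f^[l % n k] (z k)
    have hw : ∀ l, dist (f (w l)) (w (l + 1)) < 2 / ((k : ℝ) + 1) := by
      intro l
      have hlt := Nat.mod_lt l (hn k)
      by_cases h : l % n k + 1 = n k
      · have h2 : (l + 1) % n k = 0 := by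
          rw [Nat.add_mod]
          rcases Nat.lt_or_ge 1 (n k) with h3 | h3
          · rw [Nat.mod_eq_of_lt h3, h, Nat.mod_self]
          · have : n k = 1 := le_antisymm h3 (hn k)
            rw [this]; simp [Nat.mod_one]
        show dist (f (f^[l % n k] (z k))) (f^[(l + 1) % n k] (z k)) < _
        rw [h2, ← Function.iterate_succ_apply' f, Nat.succ_eq_add_one, h]
        have e1 : dist (f^[n k] (z k)) y < 1 / ((k : ℝ) + 1) := hz' k
        have e2 : dist (z k) y < 1 / ((k : ℝ) + 1) := hz k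
        calc dist (f^[n k] (z k)) (f^[0] (z k)) ≤ dist (f^[n k] (z k)) y + dist y (z k) :=
              dist_triangle _ _ _
          _ < 1 / ((k : ℝ) + 1) + 1 / ((k : ℝ) + 1) := by
              rw [dist_comm y]; exact add_lt_add e1 e2
          _ = _ := by ring
      · have h2 : (l + 1) % n k = l % n k + 1 := by
          rw [Nat.add_mod]
          have : 1 < n k := by omega
          rw [Nat.mod_eq_of_lt this]
          exact Nat.mod_eq_of_lt (by omega)
        show dist (f (f^[l % n k] (z k))) (f^[(l + 1) % n k] (z k)) < _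
        rw [h2, Function.iterate_succ_apply', dist_self]
        exact hpos
    have hwS : ∀ l, w l ∈ (S k : Set X) := fun l => ⟨l % n k, Nat.mod_lt _ (hn k), rfl⟩
    rintro _ ⟨i, hi, rfl⟩ _ ⟨j, hj, rfl⟩
    have hi' : i < n k := hi
    have hj' : j < n k := hj
    refine ⟨j + n k - i, by omega, fun l => w (i + l), fun l _ => hw (i + l), ?_, ?_, ?_⟩
    · show dist (f^[(i + 0) % n k] (z k)) (f^[i] (z k)) < _
      rw [add_zero, Nat.mod_eq_of_lt hi', dist_self]
      exact hpos
    · show dist (f^[(i + (j + n k - i)) % n k] (z k)) (f^[j] (z k)) < _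
      rw [show i + (j + n k - i) = j + n k by omega, Nat.add_mod_right, Nat.mod_eq_of_lt hj',
        dist_self]
      exact hpos
    · intro l _
      exact ⟨w (i + l), hwS _, by rw [dist_self]; exact hpos⟩
  obtain ⟨K, φ, hφ, hK⟩ := CompactSpace.tendsto_subseq S
  have hdist : Tendsto (fun k => dist (S (φ k)) K) atTop (𝓝 0) :=
    tendsto_iff_dist_tendsto_zero.mp hK
  have hto : Tendsto (fun k : ℕ => 2 / (((φ k : ℕ) : ℝ) + 1)) atTop (𝓝 0) := by
    have h2 : Tendsto (fun k : ℕ => 2 / ((k : ℝ) + 1)) atTop (𝓝 0) := by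
      have := (tendsto_one_div_add_atTop_nhds_zero_nat (𝕜 := ℝ)).const_mul 2
      simpa [div_eq_mul_inv] using this
    exact h2.comp hφ.tendsto_atTop
  refine ⟨K, ?_, ?_⟩
  · apply chT_of_approx
    intro ε hε
    obtain ⟨k, hk1, hk2⟩ := ((hdist.eventually (gt_mem_nhds hε)).and
      (hto.eventually (gt_mem_nhds hε))).exists
    refine ⟨S (φ k), by rwa [dist_comm], ?_⟩
    intro x hx w hw
    obtain ⟨m, hm, u, h2, h3, h4, h5⟩ := hSch (φ k) x hx w hw
    exact ⟨m, hm, u, fun i hi => (h2 i hi).trans hk2, h3.trans hk2, h4.trans hk2,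
      fun i hi => by
        obtain ⟨v, hv, hv'⟩ := h5 i hi
        exact ⟨v, hv, hv'.trans hk2⟩⟩
  · intro p hp hKp
    have hyK : y ∈ (K : Set X) := by
      have hKc : IsClosed (K : Set X) := K.isCompact.isClosed
      rw [← hKc.closure_eq, Metric.mem_closure_iff]
      intro ε hε
      obtain ⟨k, hk1, hk2⟩ := ((hdist.eventually (gt_mem_nhds (show 0 < ε / 2 by positivity))).and
        (hto.eventually (gt_mem_nhds (show 0 < ε by positivity)))).exists
      rw [Metric.NonemptyCompacts.dist_eq] at hk1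
      have hfin : Metric.hausdorffEDist (S (φ k) : Set X) K ≠ ⊤ :=
        Metric.hausdorffEDist_ne_top_of_nonempty_of_bounded (S (φ k)).nonempty K.nonempty
          (Metric.isBounded_of_compactSpace) (Metric.isBounded_of_compactSpace)
      obtain ⟨w, hw, hw'⟩ := Metric.exists_dist_lt_of_hausdorffDist_lt
        (show z (φ k) ∈ (S (φ k) : Set X) from ⟨0, hn _, rfl⟩) hk1 hfin
      refine ⟨w, hw, ?_⟩
      have e1 : dist (z (φ k)) y < 1 / (((φ k : ℕ) : ℝ) + 1) := hz (φ k)
      have e2 : 2 / (((φ k : ℕ) : ℝ) + 1) = 2 * (1 / (((φ k : ℕ) : ℝ) + 1)) := by ring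
      calc dist y w ≤ dist y (z (φ k)) + dist (z (φ k)) w := dist_triangle _ _ _
        _ < ε := by
          rw [dist_comm y]
          linarith
    rw [hKp] at hyK
    exact hyp (periodic_of_mem_orb hp hyK)

theorem exists_minimal_KK (hI : ∀ p ∈ Function.periodicPts f, ∃ U, Isol f p U)
    (hne : (KK f).Nonempty) : ∃ K ∈ KK f, ∀ L ∈ KK f, (L : Set X) ⊆ K → L = K := by
  obtain ⟨K₀, hK₀⟩ := hne
  obtain ⟨m, ⟨K, hK, rfl⟩, hmin⟩ := zorn_superset {s : Set X | ∃ K ∈ KK f, (K : Set X) = s} (by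
    intro c hc hchain
    rcases c.eq_empty_or_nonempty with rfl | hcne
    · exact ⟨K₀, ⟨K₀, hK₀, rfl⟩, fun s hs => absurd hs (Set.notMem_empty s)⟩
    -- the intersection of the chain
    let t : c → Set (NonemptyCompacts X) := fun s => KK f ∩ {L | (L : Set X) ⊆ s.1}
    have hne : Nonempty c := hcne.to_subtype
    have htcl : ∀ s, IsClosed (t s) := by
      intro s
      apply (isClosed_KK hI).inter
      obtain ⟨K, -, hK⟩ := hc s.2
      rw [← hK]
      exact NonemptyCompacts.isClosed_subsets_of_isClosed K.isCompact.isClosed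
    have htn : ∀ s, (t s).Nonempty := by
      intro s
      obtain ⟨K, hK, hKs⟩ := hc s.2
      exact ⟨K, hK, hKs.le⟩
    have htd : Directed (· ⊇ ·) t := by
      intro s s'
      rcases hchain.total s.2 s'.2 with h | h
      · exact ⟨s, fun L hL => hL, fun L hL => ⟨hL.1, hL.2.trans h⟩⟩
      · exact ⟨s', fun L hL => ⟨hL.1, hL.2.trans h⟩, fun L hL => hL⟩
    obtain ⟨L, hL⟩ := IsCompact.nonempty_iInter_of_directed_nonempty_isCompact_isClosed t htd htn
      (fun s => (htcl s).isCompact) htcl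
    rw [Set.mem_iInter] at hL
    obtain ⟨s₀, hs₀⟩ := hcne
    exact ⟨L, ⟨L, (hL ⟨s₀, hs₀⟩).1, rfl⟩, fun s hs => (hL ⟨s, hs⟩).2⟩)
  refine ⟨K, hK, fun L hL hLK => ?_⟩
  apply NonemptyCompacts.ext
  exact Set.Subset.antisymm hLK (hmin ⟨L, hL, rfl⟩ hLK)

end Pool.Agent.AxA
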