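import Pool.Agent.AxA.Topo2

/-!
# Existence of cycles
-/

set_option autoImplicit false

open Filter Topology Set TopologicalSpace

namespace Pool.Agent.AxA

variable {X : Type*} [MetricSpace X] [CompactSpace X] {f : X ≃ₜ X}

/-- a backward orbit in an isolating neighbourhood tends to the periodic orbit -/
theorem Isol.alpha {p : X} {U : Set X} (hU : Isol f p U) {y : X}
    (hy : ∀ j : ℕ, 0 < j → f.symm^[j] y ∈ U) :
    Tendsto (fun j => Metric.infDist (f.symm^[j] y) (orb f p)) atTop (𝓝 0) := by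
  rw [Metric.tendsto_atTop]
  by_contra hcon
  push Not at hcon
  obtain ⟨ε, hε, hcon⟩ := hcon
  have hfr : ∃ᶠ j in atTop, f.symm^[j] y ∈ {x | ε ≤ Metric.infDist x (orb f p)} := by
    rw [Filter.frequently_atTop]
    intro N
    obtain ⟨j, hj, hj'⟩ := hcon N
    refine ⟨j, hj, ?_⟩
    rwa [Real.dist_eq, sub_zero, abs_of_nonneg Metric.infDist_nonneg] at hj'
  have hcl : IsClosed {x : X | ε ≤ Metric.infDist x (orb f p)} :=
    isClosed_le continuous_const (Metric.continuous_infDist_pt _)
  obtain ⟨w, hw, hwc⟩ := hcl.isCompact.exists_mapClusterPt_of_frequently hfr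
  have hwU : w ∈ orb f p := by
    have hfreq := mapClusterPt_iff_frequently.mp hwc
    -- general closedness argument
    have key : ∀ (g : X → X), Continuous g → (∀ᶠ j in atTop, g (f.symm^[j] y) ∈ U) → g w ∈ U := by
      intro g hg hev
      rw [← hU.closed.closure_eq, mem_closure_iff_nhds]
      intro V hV
      obtain ⟨j, hj1, hj2⟩ := ((hfreq (g ⁻¹' V) (hg.continuousAt.preimage_mem_nhds hV)).and_eventually
        hev).exists
      exact ⟨_, hj1, hj2⟩
    apply hU.isol w
    · intro i
      apply key (f^[i]) (f.continuous.iterate i)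
      filter_upwards [Filter.eventually_gt_atTop i] with j hj
      have h1 : f.symm^[j] y = f.symm^[i] (f.symm^[j - i] y) := by
        rw [← Function.iterate_add_apply, Nat.add_sub_cancel' hj.le]
      rw [h1, Function.LeftInverse.iterate (f := f.symm) (g := f) f.apply_symm_apply i _]
      exact hy _ (by omega)
    · intro i
      apply key (f.symm^[i]) (f.symm.continuous.iterate i)
      filter_upwards [Filter.eventually_gt_atTop 0] with j hj
      rw [← Function.iterate_add_apply]
      exact hy _ (by omega)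
  have h1 : Metric.infDist w (orb f p) = 0 := Metric.infDist_zero_of_mem hwU
  have h2 : ε ≤ Metric.infDist w (orb f p) := hw
  linarith

/-- the omega limit set of a point of the minimal set is a periodic orbit -/
theorem omega_eq_orb (hrec : ∀ x, IsRec f x → x ∈ Function.periodicPts f)
    {K : NonemptyCompacts X} (hK : K ∈ KK f) (hmin : ∀ L ∈ KK f, (L : Set X) ⊆ K → L = K) {y : X}
    (hy : y ∈ (K : Set X)) : ∃ q ∈ Function.periodicPts f, omega f y = orb f q ∧
      q ∈ (K : Set X) := by
  have hKc : IsClosed (K : Set X) := K.isCompact.isClosed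
  have hsub : omega f y ⊆ K := by
    intro x hx
    rw [← hKc.closure_eq, mem_closure_iff_nhds]
    intro V hV
    obtain ⟨j, hj⟩ := (mapClusterPt_iff_frequently.mp hx V hV).exists
    exact ⟨_, hj, hK.1.iterate_mem hKc hy j⟩
  by_cases hmem : omegaK f y ∈ KK f
  · -- then `y` is recurrent
    have h1 := hmin _ hmem hsub
    have hyom : y ∈ omega f y := by
      have : y ∈ (omegaK f y : Set X) := by rw [h1]; exact hy
      exact this
    have hyrec : IsRec f y := by
      intro U hU
      have h2 := mapClusterPt_iff_frequently.mp hyom U hU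
      obtain ⟨j, hj, hj'⟩ := (h2.and_eventually (Filter.eventually_gt_atTop 0)).exists
      exact ⟨j, hj', hj⟩
    have hyp := hrec y hyrec
    exfalso
    have h3 : omega f y ⊆ orb f y := by
      have hfin := orb_finite hyp
      intro x hx
      rw [← hfin.isClosed.closure_eq, mem_closure_iff_nhds]
      intro V hV
      obtain ⟨j, hj⟩ := (mapClusterPt_iff_frequently.mp hx V hV).exists
      exact ⟨_, hj, ⟨j, rfl⟩⟩
    apply hK.2 y hyp
    apply Set.Subset.antisymm
    · have : (K : Set X) = omega f y := by rw [← h1]; rfl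
      rw [this]
      exact h3
    · rintro _ ⟨i, rfl⟩
      exact hK.1.iterate_mem hKc hy i
  · -- then it is a periodic orbit
    have h1 : ¬ (ChT f (omega f y) ∧ ∀ p ∈ Function.periodicPts f, omega f y ≠ orb f p) := hmem
    push Not at h1
    obtain ⟨q, hq, hyq⟩ := h1 (chT_omega y)
    exact ⟨q, hq, hyq, hsub (by rw [hyq]; exact mem_orb_self q)⟩

/-- attraction to the omega limit set -/
theorem tendsto_of_omega_eq {y q : X} (h : omega f y = orb f q) :
    Tendsto (fun j => Metric.infDist (f^[j] y) (orb f q)) atTop (𝓝 0) := by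
  rw [Metric.tendsto_nhds]
  intro ε hε
  filter_upwards [omega_attracts f y hε] with j hj
  obtain ⟨w, hw, hw'⟩ := hj
  rw [h] at hw
  rw [Real.dist_eq, sub_zero, abs_of_nonneg Metric.infDist_nonneg]
  exact lt_of_le_of_lt (Metric.infDist_le_dist_of_mem hw) hw'

/-- the minimal set contains finitely many periodic points -/
theorem finite_periodic (hrec : ∀ x, IsRec f x → x ∈ Function.periodicPts f)
    (hfin : ∀ n, 0 < n → {x | f^[n] x = x}.Finite)
    (hI : ∀ p ∈ Function.periodicPts f, ∃ U, Isol f p U)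
    {K : NonemptyCompacts X} (hK : K ∈ KK f) (hmin : ∀ L ∈ KK f, (L : Set X) ⊆ K → L = K) :
    ((K : Set X) ∩ Function.periodicPts f).Finite := by
  have hKc : IsClosed (K : Set X) := K.isCompact.isClosed
  choose! U hU using hI
  have hcount : (Function.periodicPts f).Countable := by
    have : Function.periodicPts f ⊆ ⋃ n : ℕ, {x | f^[n + 1] x = x} := by
      rintro x ⟨n, hn, hx⟩
      refine Set.mem_iUnion.mpr ⟨n - 1, ?_⟩
      show f^[n - 1 + 1] x = x
      rw [Nat.sub_add_cancel hn]
      exact hx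
    exact (Set.countable_iUnion fun n => (hfin (n + 1) (Nat.succ_pos _)).countable).mono this
  -- Baire
  have : Countable (Function.periodicPts f) := hcount.to_subtype
  have hne : Nonempty (K : Set X) := K.nonempty.to_subtype
  have : CompactSpace (K : Set X) := isCompact_iff_compactSpace.mp K.isCompact
  let S : Function.periodicPts f × ℕ → Set (K : Set X) := fun i =>
    {y | ∀ j ≥ i.2, f^[j] (y : X) ∈ U i.1}
  have hScl : ∀ i, IsClosed (S i) := by
    intro i
    have : S i = ⋂ j ≥ i.2, (fun y : (K : Set X) => f^[j] (y : X)) ⁻¹' U i.1 := by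
      ext y
      simp [S]
    rw [this]
    refine isClosed_iInter fun j => isClosed_iInter fun _ => ?_
    exact (hU i.1 i.1.2).closed.preimage ((f.continuous.iterate j).comp continuous_subtype_val)
  have hSU : ⋃ i, S i = Set.univ := by
    rw [Set.eq_univ_iff_forall]
    intro y
    obtain ⟨q, hq, hyq, -⟩ := omega_eq_orb hrec hK hmin y.2
    -- the orbit of `y` is eventually in `U q`
    have h1 : ∀ᶠ j in atTop, f^[j] (y : X) ∈ U q := by
      have hopen : ∃ ε > 0, ∀ w ∈ orb f q, Metric.ball w ε ⊆ U q := by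
        have hfinq := orb_finite hq
        have h2 : ∀ w ∈ orb f q, ∃ ε > 0, Metric.ball w ε ⊆ U q := fun w hw =>
          Metric.mem_nhds_iff.mp ((hU q hq).nhd w hw)
        choose! ε hε hε' using h2
        have hne' : hfinq.toFinset.Nonempty := ⟨q, by simpa using mem_orb_self q⟩
        obtain ⟨w₀, hw₀, hw₀'⟩ := hfinq.toFinset.exists_min_image ε hne'
        refine ⟨ε w₀, hε w₀ (by simpa using hw₀), fun w hw => ?_⟩
        exact (Metric.ball_subset_ball (hw₀' w (by simpa using hw))).trans (hε' w hw)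
      obtain ⟨ε, hε, hε'⟩ := hopen
      filter_upwards [omega_attracts f (y : X) hε] with j hj
      obtain ⟨w, hw, hw'⟩ := hj
      rw [hyq] at hw
      exact hε' w hw hw'
    obtain ⟨n, hn⟩ := Filter.eventually_atTop.mp h1
    exact Set.mem_iUnion.mpr ⟨(⟨q, hq⟩, n), hn⟩
  obtain ⟨⟨⟨q, hq⟩, n⟩, hint⟩ := nonempty_interior_of_iUnion_of_closed hScl hSU
  -- an open set
  obtain ⟨V', hV'o, hV'⟩ := isOpen_induced_iff.mp (isOpen_interior (s := S (⟨q, hq⟩, n)))
  have hVK : ((K : Set X) ∩ V').Nonempty := by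
    obtain ⟨y, hy⟩ := hint
    rw [← hV'] at hy
    exact ⟨y, y.2, hy⟩
  have hVS : ∀ x ∈ (K : Set X) ∩ V', ∀ j ≥ n, f^[j] x ∈ U q := by
    rintro x ⟨hxK, hxV⟩
    have h1 : (⟨x, hxK⟩ : (K : Set X)) ∈ interior (S (⟨q, hq⟩, n)) := by
      rw [← hV']; exact hxV
    exact interior_subset h1
  by_contra hinf
  -- the orbits in `K`
  let S' : Set (NonemptyCompacts X) := {L | ∃ p ∈ Function.periodicPts f, p ∈ (K : Set X) ∧
    (L : Set X) = orb f p}
  have hS'O : S' ⊆ OO f := by
    rintro L ⟨p, hp, -, h⟩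
    exact ⟨p, hp, h⟩
  have hS'K : ∀ L ∈ S', (L : Set X) ⊆ K := by
    rintro L ⟨p, hp, hpK, h⟩
    rw [h]
    rintro _ ⟨i, rfl⟩
    exact hK.1.iterate_mem hKc hpK i
  have hS'inf : S'.Infinite := by
    intro hfin'
    apply hinf
    have : (K : Set X) ∩ Function.periodicPts f ⊆ ⋃ L ∈ S', (L : Set X) := by
      rintro p ⟨hpK, hp⟩
      exact Set.mem_iUnion₂.mpr ⟨orbK f p hp, ⟨p, hp, hpK, rfl⟩, mem_orb_self p⟩
    refine (Set.Finite.biUnion hfin' ?_).subset this
    rintro L ⟨p, hp, -, h⟩
    rw [h]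
    exact orb_finite hp
  obtain ⟨L, hL⟩ := hS'inf.exists_accPt_principal
  have hLKK : L ∈ KK f := acc_mem_KK (fun p hp => ⟨U p, hU p hp⟩) hS'O hL
  have hLK : L = K := by
    apply hmin L hLKK
    have h1 : L ∈ closure S' := mem_closure_iff_clusterPt.mpr hL.clusterPt
    have h2 : closure S' ⊆ {L | (L : Set X) ⊆ K} :=
      closure_minimal hS'K (NonemptyCompacts.isClosed_subsets_of_isClosed hKc)
    exact h2 h1
  subst hLK
  have hn1 : {L' : NonemptyCompacts X | ((L' : Set X) ∩ V').Nonempty} ∈ 𝓝 L :=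
    (NonemptyCompacts.isOpen_inter_nonempty_of_isOpen hV'o).mem_nhds hVK
  have hn2 : {L' : NonemptyCompacts X | L' ≠ orbK f q hq} ∈ 𝓝 L := by
    apply isOpen_ne.mem_nhds
    intro h
    exact hK.2 q hq (by rw [h]; rfl)
  obtain ⟨L', ⟨⟨hL'1, hL'2⟩, hL'3⟩, hL'4⟩ := accPt_iff_nhds.mp hL _ (Filter.inter_mem hn1 hn2)
  obtain ⟨p, hp, hpK, hL'p⟩ := hL'3
  obtain ⟨x, hxL', hxV⟩ := hL'1
  have hxK : x ∈ (L : Set X) := hS'K L' ⟨p, hp, hpK, hL'p⟩ hxL'
  have hxp : x ∈ Function.periodicPts f := by
    rw [hL'p] at hxL'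
    exact periodic_of_mem_orb hp hxL'
  have hxq : x ∈ orb f q := (hU q hq).periodic_mem hxp (hVS x ⟨hxK, hxV⟩)
  apply hL'2
  apply NonemptyCompacts.ext
  rw [hL'p]
  show orb f p = orb f q
  rw [hL'p] at hxL'
  rw [← orb_eq_of_mem hp hxL', orb_eq_of_mem hq hxq]

end Pool.Agent.AxA
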