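import Pool.Agent.AxA.Topo3

/-!
# Existence of cycles, continued
-/

set_option autoImplicit false

open Filter Topology Set TopologicalSpace

namespace Pool.Agent.AxA

variable {X : Type*} [MetricSpace X] [CompactSpace X] {f : X ≃ₜ X}

/-- every periodic orbit of the minimal set is the alpha limit of a nonperiodic point -/
theorem exists_out (hrec : ∀ x, IsRec f x → x ∈ Function.periodicPts f)
    (hI : ∀ p ∈ Function.periodicPts f, ∃ U, Isol f p U)
    {K : NonemptyCompacts X} (hK : K ∈ KK f) (hmin : ∀ L ∈ KK f, (L : Set X) ⊆ K → L = K)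
    {p : X} (hp : p ∈ Function.periodicPts f) (hpK : p ∈ (K : Set X)) :
    ∃ q ∈ Function.periodicPts f, q ∈ (K : Set X) ∧ Conn f p q := by
  have hKc : IsClosed (K : Set X) := K.isCompact.isClosed
  obtain ⟨U, hU⟩ := hI p hp
  -- a point of `K` outside `U`
  obtain ⟨u, huK, huU⟩ : ∃ u ∈ (K : Set X), u ∉ U := by
    by_contra hcon
    push Not at hcon
    have := hK.1.eq_orb hp hU hcon
    exact hK.2 p hp (by rw [this]; rfl)
  have hch : ∀ k : ℕ, ∃ n > 0, ∃ z : ℕ → X,
      (∀ i < n, dist (f (z i)) (z (i + 1)) < 1 / ((k : ℝ) + 1)) ∧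
      dist (z 0) p < 1 / ((k : ℝ) + 1) ∧ dist (z n) u < 1 / ((k : ℝ) + 1) ∧
      ∀ i ≤ n, ∃ w ∈ (K : Set X), dist (z i) w < 1 / ((k : ℝ) + 1) := fun k =>
    hK.1 _ (by positivity) p hpK u huK
  choose n hn z hz1 hz2 hz3 hz4 using hch
  have hto : Tendsto (fun k : ℕ => 1 / ((k : ℝ) + 1)) atTop (𝓝 0) :=
    tendsto_one_div_add_atTop_nhds_zero_nat
  have hzp : Tendsto (fun k => z k 0) atTop (𝓝 p) := by
    rw [tendsto_iff_dist_tendsto_zero]
    exact squeeze_zero (fun _ => dist_nonneg) (fun k => (hz2 k).le) hto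
  have hzu : Tendsto (fun k => z k (n k)) atTop (𝓝 u) := by
    rw [tendsto_iff_dist_tendsto_zero]
    exact squeeze_zero (fun _ => dist_nonneg) (fun k => (hz3 k).le) hto
  have hzuU : ∀ᶠ k in atTop, z k (n k) ∉ U :=
    hzu.eventually (hU.closed.isOpen_compl.mem_nhds huU)
  classical
  -- first exit times
  let e : ℕ → ℕ := fun k => sInf {i | i ≤ n k ∧ z k i ∉ U}
  have he : ∀ᶠ k in atTop, e k ≤ n k ∧ z k (e k) ∉ U ∧ ∀ i < e k, z k i ∈ U := by
    filter_upwards [hzuU] with k hk
    have hne : {i | i ≤ n k ∧ z k i ∉ U}.Nonempty := ⟨n k, le_rfl, hk⟩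
    have h1 : e k ∈ {i | i ≤ n k ∧ z k i ∉ U} := Nat.sInf_mem hne
    refine ⟨h1.1, h1.2, fun i hi => ?_⟩
    by_contra h2
    have : i ∉ {i | i ≤ n k ∧ z k i ∉ U} := Nat.notMem_of_lt_sInf hi
    exact this ⟨(hi.le.trans h1.1), h2⟩
  set W : Ultrafilter ℕ := hyperfilter ℕ with hW
  have hWle : (W : Filter ℕ) ≤ atTop := Nat.hyperfilter_le_atTop
  -- the first terms follow the orbit of `p`
  have hfollow : ∀ i : ℕ, (∀ᶠ k in (W : Filter ℕ), i ≤ n k) →
      Tendsto (fun k => z k i) W (𝓝 (f^[i] p)) := by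
    intro i
    induction i with
    | zero => intro _; exact hzp.mono_left hWle
    | succ i ih =>
      intro hi
      have h1 := ih (hi.mono fun k hk => by omega)
      have h2 : Tendsto (fun k => f (z k i)) W (𝓝 (f^[i + 1] p)) := by
        rw [Function.iterate_succ_apply']
        exact (f.continuous.tendsto _).comp h1
      rw [tendsto_iff_dist_tendsto_zero] at h2 ⊢
      have h3 : Tendsto (fun k : ℕ => 1 / ((k : ℝ) + 1) + dist (f (z k i)) (f^[i + 1] p)) W (𝓝 0) := by
        have := (hto.mono_left hWle).add h2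
        rwa [add_zero] at this
      refine squeeze_zero' (Eventually.of_forall fun _ => dist_nonneg) ?_ h3
      filter_upwards [hi] with k hk
      have h4 := hz1 k i (by omega)
      calc dist (z k (i + 1)) (f^[i + 1] p) ≤
            dist (z k (i + 1)) (f (z k i)) + dist (f (z k i)) (f^[i + 1] p) := dist_triangle _ _ _
        _ ≤ _ := by rw [dist_comm (z k (i + 1))]; linarith
  -- exit times tend to infinity
  have he' := he.filter_mono hWle
  have heinf : ∀ J : ℕ, ∀ᶠ k in (W : Filter ℕ), J < e k := by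
    intro J
    by_contra hcon
    have h1 : ∀ᶠ k in (W : Filter ℕ), e k ≤ J := by
      rw [← Ultrafilter.frequently_iff_eventually, Filter.Frequently]
      intro h2
      exact hcon (h2.mono fun k hk => by omega)
    -- constant exit time
    obtain ⟨j, hj, hj'⟩ : ∃ j ≤ J, ∀ᶠ k in (W : Filter ℕ), e k = j := by
      by_contra hno
      push Not at hno
      have h2 : ∀ j ∈ Finset.range (J + 1), ∀ᶠ k in (W : Filter ℕ), e k ≠ j := by
        intro j hj
        have := hno j (Nat.lt_succ_iff.mp (Finset.mem_range.mp hj))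
        exact this
      rw [← Filter.eventually_all_finset] at h2
      obtain ⟨k, hk1, hk2⟩ := (h1.and h2).exists
      exact hk2 (e k) (Finset.mem_range.mpr (Nat.lt_succ_of_le hk1)) rfl
    have h2 : ∀ᶠ k in (W : Filter ℕ), j ≤ n k := by
      filter_upwards [hj', he'] with k hk1 hk2
      rw [← hk1]; exact hk2.1
    have h3 := hfollow j h2
    have h4 : ∀ᶠ k in (W : Filter ℕ), z k j ∈ U := h3.eventually (hU.nhd _ ⟨j, rfl⟩)
    obtain ⟨k, hk1, hk2, hk3⟩ := (h4.and (hj'.and he')).exists
    rw [hk2] at hk3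
    exact hk3.2.1 hk1
  -- the limit point
  obtain ⟨y, -, hy⟩ := isCompact_univ.ultrafilter_le_nhds (W.map fun k => z k (e k)) (by simp)
  have hyt : Tendsto (fun k => z k (e k)) W (𝓝 y) := hy
  have hback : ∀ j : ℕ, Tendsto (fun k => z k (e k - j)) W (𝓝 (f.symm^[j] y)) := by
    intro j
    induction j with
    | zero => exact hyt
    | succ j ih =>
      have h1 : Tendsto (fun k => f (z k (e k - (j + 1)))) W (𝓝 (f.symm^[j] y)) := by
        rw [tendsto_iff_dist_tendsto_zero] at ih ⊢
        have h3 : Tendsto (fun k : ℕ => 1 / ((k : ℝ) + 1) + dist (z k (e k - j)) (f.symm^[j] y)) W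
            (𝓝 0) := by
          have := (hto.mono_left hWle).add ih
          rwa [add_zero] at this
        refine squeeze_zero' (Eventually.of_forall fun _ => dist_nonneg) ?_ h3
        filter_upwards [he', heinf (j + 1)] with k hk1 hk2
        have h4 := hz1 k (e k - (j + 1)) (by omega)
        rw [show e k - (j + 1) + 1 = e k - j by omega] at h4
        calc dist (f (z k (e k - (j + 1)))) (f.symm^[j] y) ≤
              dist (f (z k (e k - (j + 1)))) (z k (e k - j)) +
                dist (z k (e k - j)) (f.symm^[j] y) := dist_triangle _ _ _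
          _ ≤ _ := by linarith
      have h2 := (f.symm.continuous.tendsto _).comp h1
      rw [Function.iterate_succ_apply']
      refine h2.congr fun k => ?_
      exact f.symm_apply_apply _
  have hyK : y ∈ (K : Set X) := by
    rw [← hKc.closure_eq, Metric.mem_closure_iff]
    intro ε hε
    have h1 : ∀ᶠ k in (W : Filter ℕ), dist (z k (e k)) y < ε / 2 :=
      (Metric.tendsto_nhds.mp hyt) _ (by positivity)
    have h2 : ∀ᶠ k : ℕ in (W : Filter ℕ), 1 / ((k : ℝ) + 1) < ε / 2 :=
      (hto.mono_left hWle).eventually (gt_mem_nhds (by positivity))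
    obtain ⟨k, hk1, hk2, hk3⟩ := (h1.and (h2.and he')).exists
    obtain ⟨w, hw, hw'⟩ := hz4 k (e k) hk3.1
    refine ⟨w, hw, ?_⟩
    calc dist y w ≤ dist y (z k (e k)) + dist (z k (e k)) w := dist_triangle _ _ _
      _ < ε := by rw [dist_comm y]; linarith
  have hyint : y ∉ interior U := by
    intro h
    have h1 : ∀ᶠ k in (W : Filter ℕ), z k (e k) ∈ U :=
      hyt.eventually (mem_interior_iff_mem_nhds.mp h)
    obtain ⟨k, hk1, hk2⟩ := (h1.and he').exists
    exact hk2.2.1 hk1
  have hyorb : y ∉ orb f p := fun h => hyint (mem_interior_iff_mem_nhds.mpr (hU.nhd y h))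
  have hyback : ∀ j : ℕ, 0 < j → f.symm^[j] y ∈ U := by
    intro j hj
    apply hU.closed.mem_of_tendsto (hback j)
    filter_upwards [he', heinf j] with k hk1 hk2
    exact hk1.2.2 _ (by omega)
  have hyper : y ∉ Function.periodicPts f := by
    intro hper
    apply hyorb
    obtain ⟨m, hm, hmy⟩ := hper
    have hsy : f.symm^[m] y = y := by
      conv_lhs => rw [← (hmy : f^[m] y = y)]
      exact Function.LeftInverse.iterate (f := f) (g := f.symm) f.symm_apply_apply m _
    have hyU : y ∈ U := by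
      have := hyback m hm
      rwa [hsy] at this
    have hall : ∀ j, f.symm^[j] y ∈ U := by
      intro j
      rcases Nat.eq_zero_or_pos j with h | h
      · subst h; exact hyU
      · exact hyback j h
    apply hU.isol y _ hall
    intro i
    have h1 : f^[i] y = f.symm^[m * i - i] y := by
      have h3 : f.symm^[m * i] y = y := by
        have : Function.IsPeriodicPt f.symm m y := hsy
        exact this.mul_const i
      have h4 : f.symm^[i] (f.symm^[m * i - i] y) = y := by
        rw [← Function.iterate_add_apply, Nat.add_sub_cancel' (Nat.le_mul_of_pos_left _ hm), h3]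
      conv_lhs => rw [← h4]
      exact Function.LeftInverse.iterate (f := f.symm) (g := f) f.apply_symm_apply i _
    rw [h1]
    exact hall _
  obtain ⟨q, hq, hyq, hqK⟩ := omega_eq_orb hrec hK hmin hyK
  exact ⟨q, hq, hqK, y, hyper, hU.alpha hyback, tendsto_of_omega_eq hyq⟩

/-- `f` has a cycle of `k` connections between periodic orbits -/
def HasCycle (f : X ≃ₜ X) (k : ℕ) : Prop :=
  ∃ p : ℕ → X, (∀ i, p i ∈ Function.periodicPts f) ∧ (∀ i < k, Conn f (p i) (p (i + 1))) ∧
    p k = p 0

/-- **Existence of cycles.** -/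
theorem exists_cycle (hrec : ∀ x, IsRec f x → x ∈ Function.periodicPts f)
    (hfin : ∀ n, 0 < n → {x | f^[n] x = x}.Finite)
    (hI : ∀ p ∈ Function.periodicPts f, ∃ U, Isol f p U) (hinf : (nonwandering f).Infinite) :
    ∃ k > 0, HasCycle f k := by
  have hne : (KK f).Nonempty := by
    by_cases h : (Function.periodicPts f).Infinite
    · exact KK_nonempty_of_infinite hI h
    · rw [Set.not_infinite] at h
      obtain ⟨y, hy1, hy2⟩ := (hinf.sdiff h).nonempty
      exact KK_nonempty_of_nonwandering hy1 hy2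
  obtain ⟨K, hK, hmin⟩ := exists_minimal_KK hI hne
  have hKfin := finite_periodic hrec hfin hI hK hmin
  have hout := fun (p : X) (hp : p ∈ (K : Set X) ∩ Function.periodicPts f) =>
    exists_out hrec hI hK hmin hp.2 hp.1
  obtain ⟨y, hy⟩ := K.nonempty
  obtain ⟨p₀, hp₀, -, hp₀K⟩ := omega_eq_orb hrec hK hmin hy
  let T := ((K : Set X) ∩ Function.periodicPts f : Set X)
  have hTfin : Finite T := hKfin
  have hout' : ∀ p : T, ∃ q : T, Conn f p q := by
    intro p
    obtain ⟨q, hq, hqK, hc⟩ := hout p.1 p.2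
    exact ⟨⟨q, hqK, hq⟩, hc⟩
  choose nxt hnxt using hout'
  let P : ℕ → T := fun i => nxt^[i] ⟨p₀, hp₀K, hp₀⟩
  have hP : ∀ i, Conn f (P i : X) (P (i + 1) : X) := by
    intro i
    have : P (i + 1) = nxt (P i) := Function.iterate_succ_apply' _ _ _
    rw [this]
    exact hnxt _
  obtain ⟨i, j, hij, hPij⟩ := Finite.exists_ne_map_eq_of_infinite P
  wlog hlt : i < j generalizing i j
  · exact this j i hij.symm hPij.symm (by omega)
  refine ⟨j - i, by omega, fun l => P (i + l), fun l => (P (i + l)).2.2, fun l _ => hP (i + l), ?_⟩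
  show (P (i + (j - i)) : X) = P (i + 0)
  rw [Nat.add_sub_cancel' hlt.le, ← hPij, add_zero]

end Pool.Agent.AxA
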