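import Pool.Agent.AxA.MHorse

/-!
# Orbit segments passing near a hyperbolic periodic orbit
-/

set_option autoImplicit false

open Filter Topology Set TopologicalSpace
open scoped Manifold ContDiff

namespace Pool.Agent.AxA

section linear

variable {E : Type*} [NormedAddCommGroup E] [NormedSpace ℝ E]

theorem tendsto_symm [FiniteDimensional ℝ E] {B : ℕ → E ≃L[ℝ] E} {A : E ≃L[ℝ] E}
    (h : Tendsto (fun n => (B n : E →L[ℝ] E)) atTop (𝓝 (A : E →L[ℝ] E))) :
    Tendsto (fun n => ((B n).symm : E →L[ℝ] E)) atTop (𝓝 (A.symm : E →L[ℝ] E)) := by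
  have h1 : ContinuousAt (ContinuousLinearMap.inverse : (E →L[ℝ] E) → E →L[ℝ] E)
      (A : E →L[ℝ] E) := (contDiffAt_map_inverse (n := 0) A).continuousAt
  have h2 := h1.tendsto.comp h
  rw [ContinuousLinearMap.inverse_equiv] at h2
  refine h2.congr fun n => ?_
  exact ContinuousLinearMap.inverse_equiv _

end linear

variable {E : Type*} [NormedAddCommGroup E] [NormedSpace ℝ E]
  {M : Type*} [MetricSpace M] [ChartedSpace E M]

theorem tendsto_fderiv_loc {r : ℕ∞} (hr : 1 ≤ r) {g : M → M}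
    (hg : ContMDiff 𝓘(ℝ, E) 𝓘(ℝ, E) r g) {φ : OpenPartialHomeomorph M E}
    (hφ : φ ∈ IsManifold.maximalAtlas 𝓘(ℝ, E) ∞ M) {p : M} (hp : p ∈ φ.source)
    (hgp : g p ∈ φ.source) {α : ℕ → M} (hα : Tendsto α atTop (𝓝 p)) :
    Tendsto (fun k => fderiv ℝ (loc φ g) (φ (α k))) atTop (𝓝 (fderiv ℝ (loc φ g) (φ p))) := by
  have hr' : (1 : WithTop ℕ∞) ≤ ((r : ℕ∞) : WithTop ℕ∞) := by exact_mod_cast hr
  have h1 : ContDiffAt ℝ 1 (loc φ g) (φ p) := (contDiffAt_loc hg hφ hp hgp).of_le hr'
  have h2 : ContinuousAt (fderiv ℝ (loc φ g)) (φ p) :=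
    (h1.fderiv_right (m := 0) (by norm_num)).continuousAt
  exact h2.tendsto.comp ((φ.continuousAt hp).tendsto.comp hα)

/-- uniform continuity of finitely many iterates -/
theorem unif_iter [CompactSpace M] {r : ℕ∞} (g : M ≃ₘ^r⟮𝓘(ℝ, E), 𝓘(ℝ, E)⟯ M) (D : ℕ) {ε : ℝ}
    (hε : 0 < ε) : ∃ η > 0, ∀ x y, dist x y < η → ∀ i ≤ D, dist (g^[i] x) (g^[i] y) < ε ∧
      dist (g.symm^[i] x) (g.symm^[i] y) < ε := by
  have h1 : ∀ i ∈ Finset.range (D + 1), ∀ᶠ q in uniformity M,
      dist (g^[i] q.1) (g^[i] q.2) < ε ∧ dist (g.symm^[i] q.1) (g.symm^[i] q.2) < ε := by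
    intro i _
    have u1 := CompactSpace.uniformContinuous_of_continuous (g.continuous.iterate i)
    have u2 := CompactSpace.uniformContinuous_of_continuous (g.symm.continuous.iterate i)
    exact (u1.eventually (Metric.dist_mem_uniformity hε)).and
      (u2.eventually (Metric.dist_mem_uniformity hε))
  rw [← Filter.eventually_all_finset] at h1
  obtain ⟨η, hη, hη'⟩ := Metric.mem_uniformity_dist.mp h1
  refine ⟨η, hη, fun x y hxy i hi => ?_⟩
  exact hη' hxy i (Finset.mem_range.mpr (by omega))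

theorem symm_sub {r : ℕ∞} (g : M ≃ₘ^r⟮𝓘(ℝ, E), 𝓘(ℝ, E)⟯ M) {s t : ℕ} (h : s ≤ t) (x : M) :
    g^[s] (g.symm^[t] x) = g.symm^[t - s] x ∧ g.symm^[s] (g^[t] x) = g^[t - s] x := by
  constructor
  · conv_lhs => rw [show t = s + (t - s) by omega]
    rw [Function.iterate_add_apply]
    exact (symm_iterate g s _).2
  · conv_lhs => rw [show t = s + (t - s) by omega]
    rw [Function.iterate_add_apply]
    exact (symm_iterate g s _).1

theorem dvd_times {L : ℕ} (hL : 1 < L) :
    Adm {l : ℤ | (L : ℤ) ∣ l} L ∧ (∀ l : ℤ, l + (L : ℤ) ∈ {l : ℤ | (L : ℤ) ∣ l} ↔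
      l ∈ {l : ℤ | (L : ℤ) ∣ l}) ∧ ∀ q : ℕ, q < L →
      dp {l : ℤ | (L : ℤ) ∣ l} (q + 1) = q ∧ dm {l : ℤ | (L : ℤ) ∣ l} (q + 1) = L - 1 - q := by
  have hL0 : (0 : ℤ) < L := by omega
  refine ⟨⟨?_, ?_, ?_⟩, ?_, ?_⟩
  · rintro l hl j hj hjL hl'
    have h1 : (L : ℤ) ∣ j := by
      have := Int.dvd_sub hl' hl
      simpa using this
    have := Int.le_of_dvd (by omega) h1
    omega
  · intro l
    refine ⟨(L - l % L).toNat, ?_⟩
    have h1 := Int.emod_lt_of_pos l hL0
    show (L : ℤ) ∣ l + ((L - l % L).toNat : ℤ)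
    rw [Int.toNat_of_nonneg (by omega)]
    have h2 : l + (L - l % L) = (l / L + 1) * L := by
      have := Int.emod_add_mul_ediv l L
      linarith
    rw [h2]
    exact Dvd.intro_left _ rfl
  · intro l
    refine ⟨((l - 1) % L).toNat, ?_⟩
    have h1 := Int.emod_nonneg (l - 1) hL0.ne'
    show (L : ℤ) ∣ l - 1 - (((l - 1) % L).toNat : ℤ)
    rw [Int.toNat_of_nonneg h1]
    have h2 : l - 1 - (l - 1) % L = ((l - 1) / L) * L := by
      have := Int.emod_add_mul_ediv (l - 1) L
      linarith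
    rw [h2]
    exact Dvd.intro_left _ rfl
  · intro l
    exact dvd_add_self_right
  · intro q hq
    constructor
    · apply dp_eq
      · show (L : ℤ) ∣ _
        simp
      · intro j hj hdvd
        have h1 : (L : ℤ) ∣ (q : ℤ) + 1 - 1 - j := hdvd
        have := Int.le_of_dvd (by omega) h1
        omega
    · apply dm_eq
      · show (L : ℤ) ∣ _
        have : (q : ℤ) + 1 + ((L - 1 - q : ℕ) : ℤ) = L := by omega
        rw [this]
      · intro j hj hdvd
        have h1 : (L : ℤ) ∣ (q : ℤ) + 1 + j := hdvd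
        have := Int.le_of_dvd (by omega) h1
        omega

/-- The dimension count for the local invariant directions. -/
theorem finrank_le_of_tendsto [FiniteDimensional ℝ E] {r : ℕ∞} (hr : 1 ≤ r)
    {g : M ≃ₘ^r⟮𝓘(ℝ, E), 𝓘(ℝ, E)⟯ M} {φ : OpenPartialHomeomorph M E}
    (hφ : φ ∈ IsManifold.maximalAtlas 𝓘(ℝ, E) ∞ M) {p : M} (hp : p ∈ φ.source) {n : ℕ}
    (hpn : g^[n] p = p) (hyp : HypLin (fderiv ℝ (loc φ g^[n]) (φ p)))
    {α β : ℕ → M} (hα : Tendsto α atTop (𝓝 p)) (hβ : Tendsto β atTop (𝓝 p))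
    {Ba Bb : ℕ → E ≃L[ℝ] E} (hBa : ∀ k, (Ba k : E →L[ℝ] E) = fderiv ℝ (loc φ g^[n]) (φ (α (k + 1))))
    (hBb : ∀ k, (Bb k : E →L[ℝ] E) = fderiv ℝ (loc φ g^[n]) (φ (β k))) :
    Module.finrank ℝ (Sb (fun k => (Ba k).symm)) + Module.finrank ℝ (Sb Bb) ≤
      Module.finrank ℝ E := by
  obtain ⟨A, hA⟩ := exists_equiv_loc hr (contMDiff_iterate g.contMDiff n)
    (contMDiff_iterate g.symm.contMDiff n) (fun x => (symm_iterate g n x).1)
    (fun x => (symm_iterate g n x).2) hφ hp (by rw [hpn]; exact hp)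
  rw [← hA] at hyp
  refine hyp.finrank_le (B := Bb) (B' := fun k => (Ba k).symm) ?_ ?_
  · simp only [hBb]
    rw [hA]
    exact tendsto_fderiv_loc hr (contMDiff_iterate g.contMDiff n) hφ hp (by rw [hpn]; exact hp) hβ
  · apply tendsto_symm
    simp only [hBa]
    rw [hA]
    exact tendsto_fderiv_loc hr (contMDiff_iterate g.contMDiff n) hφ hp (by rw [hpn]; exact hp)
      (hα.comp (tendsto_add_atTop_nat 1))

/-- **Two-point lemma**: an orbit segment following a forward asymptotic and then a backward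
asymptotic orbit of a hyperbolic periodic orbit. -/
theorem two_point [FiniteDimensional ℝ E] [CompactSpace M] {r : ℕ∞} (hr : 1 ≤ r)
    {g : M ≃ₘ^r⟮𝓘(ℝ, E), 𝓘(ℝ, E)⟯ M} {φ : OpenPartialHomeomorph M E}
    (hφ : φ ∈ IsManifold.maximalAtlas 𝓘(ℝ, E) ∞ M) {p : M} (hp : p ∈ φ.source) {n : ℕ}
    (hn : 0 < n) (hpn : g^[n] p = p) (hyp : HypLin (fderiv ℝ (loc φ g^[n]) (φ p))) {u v : M}
    (hu : Tendsto (fun k => g^[n * k] u) atTop (𝓝 p))
    (hv : Tendsto (fun k => g.symm^[n * k] v) atTop (𝓝 p)) {ε : ℝ} (hε : 0 < ε) :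
    ∃ (m : ℕ) (x : M), 0 < m ∧ (∀ i ≤ m, dist (g^[i] x) (g^[i] u) < ε ∨
      dist (g^[i] x) (g.symm^[m - i] v) < ε) ∧ dist x u < ε ∧ dist (g^[m] x) v < ε := by
  classical
  obtain ⟨J, hJ⟩ := Filter.eventually_atTop.mp
    ((hu.eventually (φ.open_source.mem_nhds hp)).and (hv.eventually (φ.open_source.mem_nhds hp)))
  set β : ℕ → M := fun k => g^[n * (k + J)] u with hβd
  set α : ℕ → M := fun k => g.symm^[n * (k + J)] v with hαd
  have hαφ : ∀ k, α k ∈ φ.source := fun k => (hJ _ (by omega)).2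
  have hβφ : ∀ k, β k ∈ φ.source := fun k => (hJ _ (by omega)).1
  have hα : Tendsto α atTop (𝓝 p) := hv.comp (tendsto_add_atTop_nat J)
  have hβ : Tendsto β atTop (𝓝 p) := hu.comp (tendsto_add_atTop_nat J)
  have hgα : ∀ k, g^[n] (α (k + 1)) = α k := by
    intro k
    show g^[n] (g.symm^[n * (k + 1 + J)] v) = g.symm^[n * (k + J)] v
    rw [(symm_sub g (by nlinarith) v).1]
    congr 2
    have : n * (k + 1 + J) = n * (k + J) + n := by ring
    omega
  have hgβ : ∀ k, g^[n] (β k) = β (k + 1) := by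
    intro k
    show g^[n] (g^[n * (k + J)] u) = g^[n * (k + 1 + J)] u
    rw [← Function.iterate_add_apply]
    congr 2
    ring
  have hgn := contMDiff_iterate g.contMDiff n
  have hgn' := contMDiff_iterate g.symm.contMDiff n
  have hequiv : ∀ x ∈ φ.source, g^[n] x ∈ φ.source → ∃ A : E ≃L[ℝ] E,
      (A : E →L[ℝ] E) = fderiv ℝ (loc φ g^[n]) (φ x) := fun x hx hx' =>
    exists_equiv_loc hr hgn hgn' (fun x => (symm_iterate g n x).1)
      (fun x => (symm_iterate g n x).2) hφ hx hx'
  choose Ba hBa using fun k => hequiv (α (k + 1)) (hαφ _) (by rw [hgα]; exact hαφ _)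
  choose Bb hBb using fun k => hequiv (β k) (hβφ _) (by rw [hgβ]; exact hβφ _)
  have hdim := finrank_le_of_tendsto hr hφ hp hpn hyp hα hβ hBa hBb
  obtain ⟨B, -, hB⟩ := exists_generic _ _ hdim one_pos
  set G : E → E := fun z => (φ (β 0) - φ p) + ((z - (φ (α 0) - φ p)) +
    B (z - (φ (α 0) - φ p))) with hG
  have hGd : ∀ z, HasFDerivAt G (ContinuousLinearMap.id ℝ E + B) z := by
    intro z
    have h1 : HasFDerivAt (fun z : E => z - (φ (α 0) - φ p)) (ContinuousLinearMap.id ℝ E) z :=
      (hasFDerivAt_id z).sub_const _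
    have h2 : HasFDerivAt (fun z : E => B (z - (φ (α 0) - φ p))) B z := by
      have := B.hasFDerivAt.comp z h1
      exact this
    exact (h1.add h2).const_add _
  have hGc : ContDiff ℝ 1 G := by
    apply contDiff_const.add
    apply (contDiff_id.sub contDiff_const).add
    exact B.contDiff.comp (contDiff_id.sub contDiff_const)
  obtain ⟨η, hη, hη'⟩ := unif_iter g (n * (J + 1)) hε
  obtain ⟨N₀, hN₀⟩ := mhorse hr g.contMDiff hφ hp hpn hyp hαφ hβφ hα hβ hgα hgβ hBa hBb
    (G := G) hGc.contDiffAt (by simp [hG]) (by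
      intro w hw hw'
      rw [(hGd _).fderiv] at hw'
      exact hB w hw hw') hη
  set L := N₀ + 2 with hL
  obtain ⟨hT1, hT2, hT3⟩ := dvd_times (L := L) (by omega)
  set T : Set ℤ := {l : ℤ | (L : ℤ) ∣ l} with hT
  have hT1' : Adm T N₀ := ⟨fun l hl j h1 h2 => hT1.gap l hl j h1 (by omega), hT1.next, hT1.prev⟩
  obtain ⟨X, -, hXε, hX, -⟩ := hN₀ T hT1' L (by omega) hT2
  -- the orbit segment
  have hXq : ∀ q : ℕ, q < L → g^[n * q] (X 1) = X (q + 1) := by
    intro q
    induction q with
    | zero => intro _; simp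
    | succ q ih =>
      intro hq
      have h1 : (q : ℤ) + 1 ∉ T := by
        intro h
        have := Int.le_of_dvd (by omega) (show (L : ℤ) ∣ (q : ℤ) + 1 from h)
        omega
      rw [show n * (q + 1) = n + n * q by ring, Function.iterate_add_apply, ih (by omega), hX _ h1]
      push_cast
      rfl
  set x := g.symm^[n * J] (X 1) with hx
  set m := n * J + n * (L - 1) + n * J with hm
  have hxi : ∀ i q s : ℕ, i = n * J + n * q + s → q < L → g^[i] x = g^[s] (X (q + 1)) := by
    intro i q s hi hq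
    rw [hi, show n * J + n * q + s = s + (n * q + n * J) by ring, Function.iterate_add_apply,
      Function.iterate_add_apply _ (n * q), hx, (symm_iterate g (n * J) _).2, hXq q hq]
  have h0m : 0 < m := by
    have : 0 < n * (L - 1) := Nat.mul_pos hn (by omega)
    omega
  have hX1 : dist (X 1) (β 0) < η := by
    have := hXε ((0 : ℕ) + 1)
    rw [(hT3 0 (by omega)).1, (hT3 0 (by omega)).2, if_pos (by omega)] at this
    simpa using this
  have hXL : dist (X ((L - 1 : ℕ) + 1)) (α 0) < η := by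
    have := hXε ((L - 1 : ℕ) + 1)
    rw [(hT3 (L - 1) (by omega)).1, (hT3 (L - 1) (by omega)).2, if_neg (by omega)] at this
    simpa using this
  refine ⟨m, x, h0m, ?_, ?_, ?_⟩
  · intro i hi
    rcases lt_or_ge i (n * J) with h | h
    · left
      have h1 : g^[i] x = g.symm^[n * J - i] (X 1) := (symm_sub g h.le _).1
      have h2 : g^[i] u = g.symm^[n * J - i] (β 0) := by
        show _ = g.symm^[n * J - i] (g^[n * (0 + J)] u)
        rw [zero_add, (symm_sub g (by omega) u).2]
        congr 2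
        omega
      rw [h1, h2]
      exact (hη' _ _ hX1 _ (by
        have : n * (J + 1) = n * J + n := by ring
        omega)).2
    · set q := min ((i - n * J) / n) (L - 1) with hq
      have hqn : n * q ≤ i - n * J :=
        (Nat.mul_le_mul_left n (min_le_left _ _)).trans (Nat.mul_div_le _ _)
      set s := i - n * J - n * q with hs
      have his : i = n * J + n * q + s := by omega
      have hqL : q < L := lt_of_le_of_lt (min_le_right _ _) (by omega)
      have hsn : s ≤ n * (J + 1) := by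
        have e : n * (J + 1) = n * J + n := by ring
        rcases le_total ((i - n * J) / n) (L - 1) with h1 | h1
        · have h2 : q = (i - n * J) / n := by rw [hq, min_eq_left h1]
          have h3 := Nat.div_add_mod (i - n * J) n
          have h4 := Nat.mod_lt (i - n * J) hn
          rw [← h2] at h3
          omega
        · have h2 : q = L - 1 := by rw [hq, min_eq_right h1]
          rw [h2] at his
          omega
      have h1 := hxi i q s his hqL
      have h2 := hXε ((q : ℕ) + 1)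
      rw [(hT3 q hqL).1, (hT3 q hqL).2] at h2
      split_ifs at h2 with h3
      · left
        have h4 : g^[i] u = g^[s] (β q) := by
          show _ = g^[s] (g^[n * (q + J)] u)
          rw [← Function.iterate_add_apply]
          congr 2
          rw [his]; ring
        rw [h1, h4]
        exact (hη' _ _ h2 _ hsn).1
      · right
        have e : n * (L - 1 - q + J) = n * (L - 1) - n * q + n * J := by
          rw [Nat.mul_add, Nat.mul_sub]
        have e2 : n * q ≤ n * (L - 1) := Nat.mul_le_mul_left n (by omega)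
        have hi' : i ≤ n * J + n * (L - 1) + n * J := hi
        have h5 : s + (m - i) = n * (L - 1 - q + J) := by
          rw [e, hm]
          generalize n * (L - 1) = P at *
          generalize n * q = Q at *
          generalize n * J = R at *
          omega
        have h4 : g.symm^[m - i] v = g^[s] (α (L - 1 - q)) := by
          show _ = g^[s] (g.symm^[n * (L - 1 - q + J)] v)
          rw [← h5, (symm_sub g (Nat.le_add_right s (m - i)) v).1, Nat.add_sub_cancel_left]
        rw [h1, h4]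
        exact (hη' _ _ h2 _ hsn).1
  · have h2 : u = g.symm^[n * J] (β 0) := by
      show _ = g.symm^[n * J] (g^[n * (0 + J)] u)
      rw [zero_add, (symm_iterate g _ u).1]
    rw [h2]
    exact (hη' _ _ hX1 _ (by
      have : n * (J + 1) = n * J + n := by ring
      omega)).2
  · have h1 := hxi m (L - 1) (n * J) (by omega) (by omega)
    have h2 : v = g^[n * J] (α 0) := by
      show _ = g^[n * J] (g.symm^[n * (0 + J)] v)
      rw [zero_add, (symm_iterate g _ v).2]
    rw [h1]
    conv_lhs => rw [h2]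
    exact (hη' _ _ hXL _ (by
      have : n * (J + 1) = n * J + n := by ring
      omega)).1

end Pool.Agent.AxA
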