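import Pool.Agent.AxA.Push

/-!
# The two-point lemma for connections
-/

set_option autoImplicit false

open Filter Topology Set TopologicalSpace
open scoped Manifold ContDiff

namespace Pool.Agent.AxA

variable {E : Type*} [NormedAddCommGroup E] [NormedSpace ℝ E]
  {M : Type*} [MetricSpace M] [ChartedSpace E M]

/-- all periodic points of `g` are hyperbolic -/
def HypPer (E : Type*) [NormedAddCommGroup E] [NormedSpace ℝ E] {M : Type*} [TopologicalSpace M]
    [ChartedSpace E M] (g : M → M) : Prop :=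
  ∀ (q : M) (n : ℕ), 0 < n → g^[n] q = q → (∀ m, 0 < m → m < n → g^[m] q ≠ q) →
      HypLin (fderiv ℝ (loc (chartAt E q) g^[n]) (chartAt E q q))

omit [MetricSpace M] in
/-- a common minimal period of the points of a periodic orbit -/
theorem exists_period {g : M → M} (hg : Function.Injective g) {p : M}
    (hp : p ∈ Function.periodicPts g) :
    ∃ n, 0 < n ∧ ∀ q ∈ orb g p, g^[n] q = q ∧ ∀ m, 0 < m → m < n → g^[m] q ≠ q := by
  classical
  have hex : ∃ n, 0 < n ∧ g^[n] p = p := hp
  obtain ⟨hn0, hpn⟩ := Nat.find_spec hex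
  refine ⟨Nat.find hex, hn0, ?_⟩
  rintro q ⟨i, rfl⟩
  show g^[Nat.find hex] (g^[i] p) = g^[i] p ∧ _
  constructor
  · rw [← Function.iterate_add_apply, Nat.add_comm, Function.iterate_add_apply, hpn]
  · intro m hm hmn h
    apply Nat.find_min hex hmn ⟨hm, ?_⟩
    have h1 : g^[i] (g^[m] p) = g^[i] p := by
      rw [← Function.iterate_add_apply, Nat.add_comm, Function.iterate_add_apply]
      exact h
    exact (hg.iterate i) h1

/-- **Two-point lemma for connections.** -/
theorem two_point_conn [FiniteDimensional ℝ E] [CompactSpace M] [IsManifold 𝓘(ℝ, E) ∞ M]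
    {r : ℕ∞} (hr : 1 ≤ r) {g : M ≃ₘ^r⟮𝓘(ℝ, E), 𝓘(ℝ, E)⟯ M} (hyp : HypPer E g) {p : M}
    (hp : p ∈ Function.periodicPts g) {u v : M}
    (hu : Tendsto (fun j => Metric.infDist (g^[j] u) (orb g p)) atTop (𝓝 0))
    (hv : Tendsto (fun j => Metric.infDist (g.symm^[j] v) (orb g p)) atTop (𝓝 0))
    {ε : ℝ} (hε : 0 < ε) :
    ∃ (m : ℕ) (x : M), 0 < m ∧ (∀ i ≤ m, dist (g^[i] x) (g^[i] u) < ε ∨
      dist (g^[i] x) (g.symm^[m - i] v) < ε) ∧ dist x u < ε ∧ dist (g^[m] x) v < ε := by
  obtain ⟨q₀, hq₀, hu'⟩ := fwd_phase g.continuous hp hu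
  have hps : p ∈ Function.periodicPts g.symm := periodic_symm (f := g.toHomeomorph) hp
  have horb : orb g.symm p = orb g p := orb_symm (f := g.toHomeomorph) hp
  rw [← horb] at hv
  obtain ⟨q₁, hq₁, hv'⟩ := fwd_phase g.symm.continuous hps hv
  rw [horb] at hq₁
  obtain ⟨n, hn, hper⟩ := exists_period g.injective hp
  have hq₀n := (hper q₀ hq₀).1
  have hq₁n := (hper q₁ hq₁).1
  have hq₁s : g.symm^[n] q₁ = q₁ := by
    conv_lhs => rw [← hq₁n]
    exact (symm_iterate g n q₁).1
  have hu2 := tendsto_mul_phase hn hq₀n hu'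
  have hv2 := tendsto_mul_phase hn hq₁s hv'
  obtain ⟨s, hs⟩ : ∃ s, g^[s] q₀ = q₁ := by
    have : q₁ ∈ orb g q₀ := by rw [orb_eq_of_mem hp hq₀]; exact hq₁
    exact this
  have hu3 : Tendsto (fun k => g^[n * k] (g^[s] u)) atTop (𝓝 q₁) := by
    have h1 := ((g.continuous.iterate s).tendsto q₀).comp hu2
    rw [hs] at h1
    refine h1.congr fun k => ?_
    show g^[s] (g^[n * k] u) = _
    rw [← Function.iterate_add_apply, Nat.add_comm, Function.iterate_add_apply]
  obtain ⟨η, hη, hη'⟩ := unif_iter g s hε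
  obtain ⟨m, x, hm, hi, hx, hxm⟩ := two_point hr (IsManifold.chart_mem_maximalAtlas q₁)
    (mem_chart_source E q₁) hn hq₁n (hyp q₁ n hn hq₁n (hper q₁ hq₁).2) hu3 hv2
    (ε := min η ε) (lt_min hη hε)
  refine ⟨m + s, g.symm^[s] x, by omega, ?_, ?_, ?_⟩
  · intro i him
    rcases lt_or_ge i s with h | h
    · left
      have h1 := (hη' _ _ (hx.trans_le (min_le_left _ _)) (s - i) (by omega)).2
      rw [(symm_sub g h.le x).1]
      rwa [(symm_sub g (by omega) u).2, show s - (s - i) = i by omega] at h1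
    · have h1 : g^[i] (g.symm^[s] x) = g^[i - s] x := by
        conv_lhs => rw [show i = (i - s) + s by omega]
        rw [Function.iterate_add_apply, (symm_iterate g s x).2]
      rw [h1]
      rcases hi (i - s) (by omega) with h2 | h2
      · left
        rw [← Function.iterate_add_apply, show i - s + s = i by omega] at h2
        exact h2.trans_le (min_le_right _ _)
      · right
        rw [show m - (i - s) = m + s - i by omega] at h2
        exact h2.trans_le (min_le_right _ _)
  · have h1 := (hη' _ _ (hx.trans_le (min_le_left _ _)) s le_rfl).2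
    rwa [(symm_iterate g s u).1] at h1
  · rw [Function.iterate_add_apply, (symm_iterate g s x).2]
    exact hxm.trans_le (min_le_right _ _)

end Pool.Agent.AxA
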